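import Pool.Agent.BernIrr.APrime

set_option autoImplicit false

namespace Pool.Agent.BernOne

open Finset Pool.Agent.BernIrr

/-- the size of `c p²` -/
lemma size_ineq {ε n r X c p : ℝ} (hε : 0 < ε) (hc : c ≤ r) (hc0 : 0 ≤ c) (hp : p ≤ r ^ 9)
    (hp0 : 0 ≤ p) (hr : 1 ≤ r) (hr2 : (2 / ε) ^ 5 ≤ r) (hX : r ^ 20 ≤ X) (hn : ε / 2 * X ≤ n) :
    c * p ^ 2 ≤ n ^ (24 / 25 : ℝ) := by
  have hr0 : 0 < r := by linarith
  have h1 : c * p ^ 2 ≤ r ^ 19 := by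
    calc c * p ^ 2 ≤ r * (r ^ 9) ^ 2 := by gcongr
      _ = r ^ 19 := by ring
  have h2 : 2 / ε ≤ r ^ (1 / 5 : ℝ) := by
    have h3 : ((2 / ε) ^ 5) ^ (1 / 5 : ℝ) ≤ r ^ (1 / 5 : ℝ) :=
      Real.rpow_le_rpow (by positivity) hr2 (by norm_num)
    have h4 : ((2 / ε) ^ 5) ^ (1 / 5 : ℝ) = 2 / ε := by
      rw [← Real.rpow_natCast, ← Real.rpow_mul (by positivity)]
      norm_num
    rwa [h4] at h3
  have h5 : r ^ (99 / 5 : ℝ) ≤ n := by
    have h6 : r ^ (99 / 5 : ℝ) * r ^ (1 / 5 : ℝ) = r ^ 20 := by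
      rw [← Real.rpow_add hr0, ← Real.rpow_natCast]
      norm_num
    have h7 : r ^ (99 / 5 : ℝ) * (2 / ε) ≤ r ^ 20 := by
      rw [← h6]
      exact mul_le_mul_of_nonneg_left h2 (by positivity)
    have h8 : r ^ (99 / 5 : ℝ) ≤ ε / 2 * r ^ 20 := by
      have : r ^ (99 / 5 : ℝ) = ε / 2 * (r ^ (99 / 5 : ℝ) * (2 / ε)) := by field_simp
      rw [this]
      exact mul_le_mul_of_nonneg_left h7 (by positivity)
    calc r ^ (99 / 5 : ℝ) ≤ ε / 2 * r ^ 20 := h8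
      _ ≤ ε / 2 * X := by gcongr
      _ ≤ n := hn
  refine h1.trans ?_
  calc r ^ 19 = r ^ (19 : ℝ) := by rw [← Real.rpow_natCast]; norm_num
    _ ≤ r ^ (99 / 5 * (24 / 25) : ℝ) := Real.rpow_le_rpow_of_exponent_le hr (by norm_num)
    _ = (r ^ (99 / 5 : ℝ)) ^ (24 / 25 : ℝ) := by rw [Real.rpow_mul hr0.le]
    _ ≤ n ^ (24 / 25 : ℝ) := Real.rpow_le_rpow (by positivity) h5 (by norm_num)

open Filter in
open scoped Classical in
/-- `BernIrr.aprime` with the additional information `c p² ≤ n^(24/25)` (in its proof `c ≤ r`,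
`p ≤ r^9`, `n ≥ (ε/2) r^20`). -/
theorem aprime2 (c₀ ε : ℝ) (hc : 0 < c₀) (hε : 0 < ε) : ∃ X₀ : ℕ, ∀ X : ℕ, X₀ ≤ X →
    (((Icc 1 X).filter (fun n : ℕ => Odd n ∧ ¬ ∃ p c : ℕ, GoodPrime c₀ n p c ∧
      ((c * p ^ 2 : ℕ) : ℝ) ≤ (n : ℝ) ^ (24 / 25 : ℝ))).card : ℝ) ≤ ε * X := by
  have hlog : ∀ᶠ r : ℕ in atTop, 40 * Real.log r ≤ c₀ * (ε / 2) * r := by
    have := (Real.isLittleO_log_id_atTop.bound
      (show (0 : ℝ) < c₀ * (ε / 2) / 40 by positivity)).filter_mono tendsto_natCast_atTop_atTop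
    rw [eventually_map] at this
    filter_upwards [this, eventually_ge_atTop 1] with r hr hr1
    have h0 : (0 : ℝ) ≤ Real.log r := Real.log_nonneg (by exact_mod_cast hr1)
    rw [Real.norm_eq_abs, abs_of_nonneg h0, id, Real.norm_eq_abs, abs_of_nonneg (by positivity)] at hr
    linarith
  have hbig : ∀ᶠ r : ℕ in atTop, (2 / ε) ^ 5 ≤ (r : ℝ) :=
    tendsto_natCast_atTop_atTop.eventually_ge_atTop _
  obtain ⟨r₀, hr₀⟩ := eventually_atTop.mp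
    (((AP.A_lower.and (AP.small_err (ε / 2) (by positivity))).and hlog).and
      ((eventually_ge_atTop 64).and hbig))
  refine ⟨(r₀ + 1) ^ 20, ?_⟩
  intro X hX
  obtain ⟨r, hrr, hr1, hr2⟩ := AP.exists_root r₀ X hX
  obtain ⟨⟨⟨hA, herr⟩, hlg⟩, h64, hrb⟩ := hr₀ r hrr
  have hrR : (64 : ℝ) ≤ r := by exact_mod_cast h64
  have hr0 : (0 : ℝ) < r := by linarith
  have hXr : (r : ℝ) ^ 20 ≤ X := by exact_mod_cast hr1
  have hX0 : (0 : ℝ) < X := lt_of_lt_of_le (by positivity) hXr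
  have hZ := AP.zero_count h64 hr1 hr2 hA
  have hsub : (Icc 1 X).filter (fun n : ℕ => Odd n ∧ ¬ ∃ p c : ℕ, GoodPrime c₀ n p c ∧
      ((c * p ^ 2 : ℕ) : ℝ) ≤ (n : ℝ) ^ (24 / 25 : ℝ)) ⊆
      Icc 1 ⌊ε / 2 * X⌋₊ ∪ (Icc 1 X).filter (fun n => AP.N r n = 0) := by
    intro n hn
    rw [mem_filter, mem_Icc] at hn
    obtain ⟨⟨hn1, hn2⟩, -, hn3⟩ := hn
    rw [mem_union, mem_Icc, mem_filter, mem_Icc]
    by_contra hcon
    push Not at hcon
    obtain ⟨hc1, hc2⟩ := hcon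
    have hnbig : ε / 2 * X < n := by
      have := hc1 hn1
      exact (Nat.floor_lt (by positivity)).mp this
    have hN := hc2 ⟨hn1, hn2⟩
    rw [AP.N, Ne, card_eq_zero, filter_eq_empty_iff] at hN
    push Not at hN
    obtain ⟨m, hm, hg⟩ := hN
    obtain ⟨a1, a2, a3, a4⟩ := AP.mem_T (by omega) hm
    obtain ⟨hsq, c, hcr, hsum⟩ := hg
    apply hn3
    have hr8 : r ≤ r ^ 8 := by
      calc r = r ^ 1 := (pow_one r).symm
        _ ≤ r ^ 8 := Nat.pow_le_pow_right (by omega) (by norm_num)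
    have hnX := hn2.trans hr2
    have b1 : (c : ℝ) ≤ r := by exact_mod_cast hcr
    have b2 : (((m + 1 : ℕ)) : ℝ) ≤ (r : ℝ) ^ 9 := by
      have : m + 1 ≤ r ^ 9 := by omega
      exact_mod_cast this
    refine ⟨m + 1, c, ⟨a3, by omega, hsq, AP.cube h64 a1 hnX, by omega, hsum, ?_⟩, ?_⟩
    · exact AP.final_ineq hc hε b1 (by positivity) b2 (by positivity) hr0.le
        ((AP.log_le hn1 (by omega) hnX).trans hlg)
        (Real.log_nonneg (by exact_mod_cast hn1)) hXr hnbig.le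
    · have := size_ineq hε b1 (by positivity) b2 (by positivity) (by linarith) hrb hXr hnbig.le
      rw [Nat.cast_mul, Nat.cast_pow]
      exact this
  calc (((Icc 1 X).filter (fun n : ℕ => Odd n ∧ ¬ ∃ p c : ℕ, GoodPrime c₀ n p c ∧
      ((c * p ^ 2 : ℕ) : ℝ) ≤ (n : ℝ) ^ (24 / 25 : ℝ))).card : ℝ)
      ≤ ((Icc 1 ⌊ε / 2 * X⌋₊ ∪ (Icc 1 X).filter (fun n => AP.N r n = 0)).card : ℝ) := by
        exact_mod_cast card_le_card hsub
    _ ≤ ((Icc 1 ⌊ε / 2 * X⌋₊).card : ℝ) + (((Icc 1 X).filter (fun n => AP.N r n = 0)).card : ℝ) := by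
        exact_mod_cast card_union_le _ _
    _ ≤ ε / 2 * X + X * (ε / 2) := by
        refine add_le_add ?_ (hZ.trans ?_)
        · rw [Nat.card_Icc, Nat.add_sub_cancel]
          exact Nat.floor_le (by positivity)
        · exact mul_le_mul_of_nonneg_left herr hX0.le
    _ = ε * X := by ring

end Pool.Agent.BernOne
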