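import Pool.Agent.BernIrr.Arch

set_option autoImplicit false

/-!
The roots of a factor of small degree are large (refactoring of `BernIrr.arch`).
-/

namespace Pool.Agent.BernOne

open Finset Polynomial Pool.Agent.BernIrr

/-- all complex roots of a factor of small degree have absolute value more than `n / 100` -/
def ArchRoots (c₀ : ℝ) (n₀ : ℕ) : Prop := ∀ n : ℕ, n₀ ≤ n → Odd n →
    ∀ (D : ℕ) (T G H : ℤ[X]), Odd D →
    C (2 * (D : ℚ)) * Polynomial.bernoulli n =
      X * (X - 1) * (2 * X - 1) * T.map (Int.castRingHom ℚ) →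
    T = G * H → 1 ≤ G.natDegree → |(G.leadingCoeff : ℝ)| ≤ 4 ^ (G.natDegree + 1) →
    (G.natDegree : ℝ) * Real.log n ≤ c₀ * n →
    ∀ α ∈ (G.map (Int.castRingHom ℂ)).roots, (n : ℝ) / 100 < ‖α‖

theorem arch_roots : ArchRoots (1 / 8) 400 := by
  intro n hn hodd D T G H hD heq hT hd1 hlc hdeg
  have hn0 : (0 : ℝ) < n := by
    have : 0 < n := by omega
    exact_mod_cast this
  have hn400 : (400 : ℝ) ≤ n := by exact_mod_cast hn
  set Gc := G.map (Int.castRingHom ℂ) with hGc
  have hinj : Function.Injective (Int.castRingHom ℂ) := RingHom.injective_int _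
  have hT0 : T ≠ 0 := by
    rintro rfl
    have := T_int_ne hodd (by omega) hD heq 2
    simp at this
  have hG0 : G ≠ 0 := by
    rintro rfl
    rw [zero_mul] at hT
    exact hT0 hT
  have hGc0 : Gc ≠ 0 := (Polynomial.map_ne_zero_iff hinj).2 hG0
  have hGcd : Gc.natDegree = G.natDegree := natDegree_map_eq_of_injective hinj G
  have hGclc : ‖Gc.leadingCoeff‖ = |(G.leadingCoeff : ℝ)| := by
    rw [hGc, leadingCoeff_map_of_injective hinj]
    simp
  have hcard : Multiset.card Gc.roots = G.natDegree := by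
    rw [← hGcd]
    exact (splits_iff_card_roots.1 (IsAlgClosed.splits Gc))
  -- roots of G are roots of B_n
  have hroot : ∀ a ∈ Gc.roots, ((Polynomial.bernoulli n).map (algebraMap ℚ ℂ)).eval a = 0 := by
    intro a ha
    rw [mem_roots hGc0, IsRoot.def] at ha
    have h1 := congrArg (Polynomial.map (algebraMap ℚ ℂ)) heq
    rw [Polynomial.map_mul, Polynomial.map_mul, map_C, Polynomial.map_map] at h1
    have h2 : (algebraMap ℚ ℂ).comp (Int.castRingHom ℚ) = Int.castRingHom ℂ := RingHom.ext_int _ _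
    rw [h2, hT, Polynomial.map_mul] at h1
    have h3 := congrArg (Polynomial.eval a) h1
    rw [eval_mul, eval_C, eval_mul, eval_mul] at h3
    rw [Polynomial.map_mul (Int.castRingHom ℂ), eval_mul, ← hGc, ha, zero_mul, mul_zero] at h3
    rcases mul_eq_zero.1 h3 with h4 | h4
    · exfalso
      have hD0 : D ≠ 0 := by
        rintro rfl
        simp at hD
      have : (2 : ℂ) * D = 0 := by simpa using h4
      exact (mul_ne_zero two_ne_zero (by exact_mod_cast hD0)) this
    · exact h4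
  have hup : ∀ a ∈ Gc.roots, ‖a‖ ≤ 2 * n := fun a ha => root_le (by omega) a (hroot a ha)
  -- no small roots
  intro a ha
  by_contra hle
  rw [not_lt] at hle
  obtain ⟨j, hj⟩ := near_half hodd a hle (hroot a ha)
  have hj1 : ‖((j : ℂ) / 2)‖ ≤ n := by
    have h1 : ‖((j : ℂ) / 2)‖ ≤ ‖a‖ + ‖a - j / 2‖ := by
      have : (j : ℂ) / 2 = a - (a - j / 2) := by ring
      calc ‖((j : ℂ) / 2)‖ = ‖a - (a - j / 2)‖ := by rw [← this]
        _ ≤ _ := norm_sub_le _ _
    have h2 : Real.exp (-(n : ℝ) / 2) ≤ 1 := Real.exp_le_one_iff.2 (by linarith)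
    linarith
  set N : ℤ := (G.scaleRoots 2).eval j with hN
  have hN0 : N ≠ 0 := by
    have h1 := T_half_ne hodd (by omega) hD heq j
    rw [hT, mul_scaleRoots_of_noZeroDivisors, eval_mul] at h1
    exact left_ne_zero_of_mul h1
  have hNabs : (1 : ℝ) ≤ ‖(N : ℂ)‖ := by
    rw [Complex.norm_intCast]
    have : 1 ≤ |N| := Int.one_le_abs hN0
    exact_mod_cast this
  have hNeq : (N : ℂ) = 2 ^ G.natDegree * Gc.eval ((j : ℂ) / 2) := by
    have h := scaleRoots_eval₂_mul (p := G) (Int.castRingHom ℂ) ((j : ℂ) / 2) (2 : ℤ)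
    have e0 : (Int.castRingHom ℂ) 2 = (2 : ℂ) := by simp
    rw [e0, show (2 : ℂ) * ((j : ℂ) / 2) = j by field_simp] at h
    rw [hGc, eval_map, ← h]
    have e3 : eval₂ (Int.castRingHom ℂ) ((Int.castRingHom ℂ) j) (G.scaleRoots 2) =
        (Int.castRingHom ℂ) ((G.scaleRoots 2).eval j) := Polynomial.eval₂_at_apply _ _
    have e4 : (Int.castRingHom ℂ) j = (j : ℂ) := by simp
    rw [e4] at e3
    rw [e3, hN]
    simp
  rw [hNeq, norm_mul, norm_pow, norm_eval_eq, hGclc] at hNabs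
  simp only [Complex.norm_ofNat] at hNabs
  -- split off the root a
  obtain ⟨s, hs⟩ := Multiset.exists_cons_of_mem ha
  rw [hs, Multiset.map_cons, Multiset.prod_cons] at hNabs
  have hscard : Multiset.card s + 1 = G.natDegree := by
    rw [← hcard, hs, Multiset.card_cons]
  have hprod : (s.map (fun b => ‖(j : ℂ) / 2 - b‖)).prod ≤ (3 * n) ^ (Multiset.card s) := by
    apply prod_le (by positivity)
    intro b hb
    have hb' : b ∈ Gc.roots := by rw [hs]; exact Multiset.mem_cons_of_mem hb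
    calc ‖(j : ℂ) / 2 - b‖ ≤ ‖(j : ℂ) / 2‖ + ‖b‖ := norm_sub_le _ _
      _ ≤ n + 2 * n := add_le_add hj1 (hup b hb')
      _ = 3 * n := by ring
  have hja : ‖(j : ℂ) / 2 - a‖ ≤ Real.exp (-(n : ℝ) / 2) := by
    rw [norm_sub_rev]; exact hj
  set d := G.natDegree with hd
  have hnn : 0 ≤ (s.map (fun b => ‖(j : ℂ) / 2 - b‖)).prod := by
    apply Multiset.prod_nonneg
    intro y hy
    rw [Multiset.mem_map] at hy
    obtain ⟨b, _, rfl⟩ := hy
    exact norm_nonneg _
  have hbig : (1 : ℝ) ≤ 2 ^ d * (4 ^ (d + 1) * (Real.exp (-(n : ℝ) / 2) *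
      (3 * n) ^ (Multiset.card s))) := by
    refine hNabs.trans ?_
    gcongr
  have hle2 : (2 : ℝ) ^ d * (4 ^ (d + 1) * (3 * (n : ℝ)) ^ (Multiset.card s)) ≤ (n : ℝ) ^ (2 * d) := by
    have h1 : (3 * (n : ℝ)) ^ (Multiset.card s) * 4 ≤ (3 * (n : ℝ)) ^ d := by
      rw [← hscard, pow_succ]
      apply mul_le_mul_of_nonneg_left _ (by positivity)
      linarith
    calc (2 : ℝ) ^ d * (4 ^ (d + 1) * (3 * (n : ℝ)) ^ (Multiset.card s))
        = 2 ^ d * 4 ^ d * ((3 * (n : ℝ)) ^ (Multiset.card s) * 4) := by ring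
      _ ≤ 2 ^ d * 4 ^ d * (3 * (n : ℝ)) ^ d := mul_le_mul_of_nonneg_left h1 (by positivity)
      _ = (24 * (n : ℝ)) ^ d := by rw [← mul_pow, ← mul_pow]; ring
      _ ≤ ((n : ℝ) ^ 2) ^ d := by
          apply pow_le_pow_left₀ (by positivity)
          nlinarith
      _ = (n : ℝ) ^ (2 * d) := by rw [pow_mul]
  have hexp : (n : ℝ) ^ (2 * d) = Real.exp (2 * (d * Real.log n)) := by
    rw [← Real.exp_log (show (0 : ℝ) < (n : ℝ) ^ (2 * d) by positivity), Real.log_pow]
    push_cast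
    ring_nf
  have h5 : (1 : ℝ) ≤ Real.exp (2 * (d * Real.log n)) * Real.exp (-(n : ℝ) / 2) := by
    rw [← hexp]
    refine hbig.trans ?_
    calc _ = (2 : ℝ) ^ d * (4 ^ (d + 1) * (3 * (n : ℝ)) ^ (Multiset.card s)) *
          Real.exp (-(n : ℝ) / 2) := by ring
      _ ≤ _ := mul_le_mul_of_nonneg_right hle2 (Real.exp_pos _).le
  rw [← Real.exp_add] at h5
  have h6 : Real.exp (2 * (d * Real.log n) + -(n : ℝ) / 2) < 1 := by
    rw [Real.exp_lt_one_iff]
    linarith
  linarith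

end Pool.Agent.BernOne
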