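import Pool.Agent.BernOne.Defs
import Pool.Agent.MR.AMvt
import Pool.Agent.MR.BTau

set_option autoImplicit false

open Finset MeasureTheory

namespace Pool.Agent.BernOne

open Pool.Agent.MR

theorem continuous_Ud (P : Finset ℕ) : Continuous (Ud P) := by
  unfold Ud
  exact continuous_finsetSum _ fun n _ => continuous_const.mul (continuous_ni _)

lemma mem_PU {a p : ℕ} : p ∈ PU a ↔ (2 ^ a + 1 ≤ p ∧ p ≤ 2 ^ (a + 1)) ∧ p.Prime ∧ p ≠ 2 := by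
  rw [PU, mem_filter, mem_Icc]

lemma card_PU_le (a : ℕ) : ((PU a).card : ℝ) ≤ 2 ^ a := by
  have h1 : (PU a).card ≤ 2 ^ a := by
    refine (card_filter_le _ _).trans ?_
    rw [Nat.card_Icc, pow_succ]
    omega
  exact_mod_cast h1

/-- `PU a` has at most `2^a` elements, `log p ≤ (a+1) log 2`, `|ni| = 1`. -/
theorem ud_le (a : ℕ) (t : ℝ) : ‖Ud (PU a) t‖ ≤ 2 ^ a * (a + 1) := by
  unfold Ud
  refine (norm_sum_le _ _).trans ?_
  have h1 : ∀ p ∈ PU a, ‖(Real.log p : ℂ) * ni (p - 1) t‖ ≤ (a : ℝ) + 1 := by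
    intro p hp
    obtain ⟨⟨-, h2⟩, h3, -⟩ := mem_PU.1 hp
    have hp1 : (1 : ℝ) ≤ p := by exact_mod_cast h3.one_lt.le
    rw [norm_mul, norm_ni, mul_one, Complex.norm_real, Real.norm_of_nonneg (Real.log_nonneg hp1)]
    have h4 : Real.log p ≤ Real.log ((2 : ℝ) ^ (a + 1)) :=
      Real.log_le_log (by linarith) (by exact_mod_cast h2)
    rw [Real.log_pow] at h4
    have h5 : Real.log 2 ≤ 1 := by
      have := Real.log_le_sub_one_of_pos (show (0 : ℝ) < 2 by norm_num)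
      linarith
    have h6 : (0 : ℝ) ≤ ((a + 1 : ℕ) : ℝ) := Nat.cast_nonneg _
    have h7 : ((a + 1 : ℕ) : ℝ) * Real.log 2 ≤ ((a + 1 : ℕ) : ℝ) * 1 :=
      mul_le_mul_of_nonneg_left h5 h6
    push_cast at h4 h7
    linarith
  refine (Finset.sum_le_card_nsmul _ _ _ h1).trans ?_
  rw [nsmul_eq_mul]
  exact mul_le_mul_of_nonneg_right (card_PU_le a) (by positivity)

lemma uk_ni_mul (m n : ℕ) (hm : 0 < m) (hn : 0 < n) (t : ℝ) :
    ni (m * n) t = ni m t * ni n t := by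
  unfold ni
  rw [← Complex.exp_add]
  congr 1
  have h1 : (m : ℝ) ≠ 0 := by exact_mod_cast hm.ne'
  have h2 : (n : ℝ) ≠ 0 := by exact_mod_cast hn.ne'
  rw [Nat.cast_mul, Real.log_mul h1 h2]
  push_cast
  ring

/-- the pairs `(p, k)` with `(p - 1) k = n` -/
def prs (a M1 M2 n : ℕ) : Finset (ℕ × ℕ) :=
  (PU a ×ˢ Ico M1 M2).filter (fun x => (x.1 - 1) * x.2 = n)

/-- the coefficients of the product -/
noncomputable def cf (a M1 M2 n : ℕ) : ℂ := ∑ x ∈ prs a M1 M2 n, (Real.log x.1 : ℂ)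

lemma prod_eq (a M1 M2 Y : ℕ) (hM : 1 ≤ M1) (hY : 2 ^ (a + 1) * M2 ≤ Y) (t : ℝ) :
    Ud (PU a) t * dp (Ico M1 M2) (fun _ => 1) t = dp (Icc 1 Y) (cf a M1 M2) t := by
  unfold Ud dp
  rw [Finset.sum_mul_sum, ← Finset.sum_product']
  have h1 : ∀ x ∈ PU a ×ˢ Ico M1 M2, (x.1 - 1) * x.2 ∈ Icc 1 Y ∧ 0 < x.1 - 1 ∧ 0 < x.2 := by
    intro x hx
    rw [mem_product, mem_PU, mem_Ico] at hx
    obtain ⟨⟨⟨a1, a2⟩, a3, a4⟩, a5, a6⟩ := hx
    have b1 : 0 < x.1 - 1 := by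
      have := a3.two_le
      omega
    have b2 : 0 < x.2 := by omega
    refine ⟨mem_Icc.2 ⟨Nat.mul_pos b1 b2, ?_⟩, b1, b2⟩
    exact (Nat.mul_le_mul (show x.1 - 1 ≤ 2 ^ (a + 1) by omega) (show x.2 ≤ M2 by omega)).trans hY
  rw [← Finset.sum_fiberwise_of_maps_to (g := fun x : ℕ × ℕ => (x.1 - 1) * x.2)
    (fun x hx => (h1 x hx).1)]
  refine Finset.sum_congr rfl fun n _ => ?_
  rw [cf, prs, Finset.sum_mul]
  refine Finset.sum_congr rfl fun x hx => ?_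
  rw [mem_filter] at hx
  obtain ⟨-, b1, b2⟩ := h1 x hx.1
  rw [← hx.2, uk_ni_mul _ _ b1 b2]
  ring

lemma norm_cf_le (a M1 M2 n : ℕ) (N : ℝ) (hn : 1 ≤ n) (hM : 1 ≤ M1) (hM2 : M1 ≤ M2)
    (hN : 2 ^ (a + 1) * (M2 : ℝ) ≤ N) :
    ‖cf a M1 M2 n‖ ≤ Real.log N * (n.divisors.card : ℝ) := by
  unfold cf
  refine (norm_sum_le _ _).trans ?_
  have h1 : ∀ x ∈ prs a M1 M2 n, ‖(Real.log x.1 : ℂ)‖ ≤ Real.log N := by
    intro x hx
    rw [prs, mem_filter, mem_product, mem_PU, mem_Ico] at hx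
    obtain ⟨⟨⟨⟨a1, a2⟩, a3, a4⟩, a5, a6⟩, -⟩ := hx
    have hp1 : (1 : ℝ) ≤ x.1 := by exact_mod_cast a3.one_lt.le
    rw [Complex.norm_real, Real.norm_of_nonneg (Real.log_nonneg hp1)]
    refine Real.log_le_log (by linarith) ?_
    have h2 : (x.1 : ℝ) ≤ 2 ^ (a + 1) := by exact_mod_cast a2
    have h3 : (1 : ℝ) ≤ M2 := by exact_mod_cast (hM.trans hM2)
    have h4 : (0 : ℝ) < 2 ^ (a + 1) := by positivity
    nlinarith
  refine (Finset.sum_le_card_nsmul _ _ _ h1).trans ?_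
  rw [nsmul_eq_mul, mul_comm]
  have h5 : (prs a M1 M2 n).card ≤ n.divisors.card := by
    refine Finset.card_le_card_of_injOn (fun x => x.2) ?_ ?_
    · intro x hx
      have hx' : x ∈ prs a M1 M2 n := hx
      rw [prs, mem_filter] at hx'
      change x.2 ∈ n.divisors
      rw [Nat.mem_divisors]
      exact ⟨⟨x.1 - 1, by rw [mul_comm]; exact hx'.2.symm⟩, by omega⟩
    · intro x hx y hy hxy
      have hx' : x ∈ prs a M1 M2 n := hx
      have hy' : y ∈ prs a M1 M2 n := hy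
      rw [prs, mem_filter, mem_product, mem_PU, mem_Ico] at hx' hy'
      have hxy' : x.2 = y.2 := hxy
      have e1 := hx'.2
      have e2 := hy'.2
      have b2 : 0 < y.2 := by have := hy'.1.2.1; omega
      have e3 : x.1 - 1 = y.1 - 1 := by
        rw [hxy', ← e2] at e1
        exact Nat.eq_of_mul_eq_mul_right b2 e1
      have c1 := hx'.1.1.2.1.two_le
      have c2 := hy'.1.1.2.1.two_le
      exact Prod.ext (by omega) hxy'
  have h6 : (0 : ℝ) ≤ Real.log N := by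
    apply Real.log_nonneg
    have h3 : (1 : ℝ) ≤ M2 := by exact_mod_cast (hM.trans hM2)
    have h4 : (1 : ℝ) ≤ 2 ^ (a + 1) := one_le_pow₀ (by norm_num)
    nlinarith
  exact mul_le_mul_of_nonneg_left (by exact_mod_cast h5) h6

/-- Mean value of `U K`.
Sketch: the product is `dp (Icc 1 ⌊N⌋₊) c` with `c n = ∑_{(p-1) k = n} log p`,
`‖c n‖ ≤ log (N+1) * τ(n)`; `mvt`; `∑_{n ≤ N} τ(n)² ≤ N (1 + log N)^3` (or any power of the log:
`∑_{n≤N} τ(n)^2 ≤ N ∑_{n≤N} τ(n)^2/n ≤ N (∑_{n≤N} 1/n)^4`, or `sum_tau_pow` in `MR/BTau`). -/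
theorem uk_mean : ∃ (c0 : ℕ) (C : ℝ), 0 < C ∧ ∀ a M1 M2 : ℕ, 1 ≤ M1 → M1 ≤ M2 → ∀ T N : ℝ,
    1 ≤ T → 2 ≤ N → 2 ^ (a + 1) * (M2 : ℝ) ≤ N →
    ∫ t, ‖Ud (PU a) t * dp (Ico M1 M2) (fun _ => 1) t‖ ^ 2 * gw T t
      ≤ C * (T + N) * N * (Real.log N + 1) ^ c0 := by
  obtain ⟨A, K, hK⟩ := sum_tau_pow 2
  refine ⟨A + 2, 10 * max K 1, by positivity, ?_⟩
  intro a M1 M2 hM hM2 T N hT hN hMN
  have hN0 : (0 : ℝ) < N := by linarith
  have hY2 : 2 ≤ ⌊N⌋₊ := Nat.le_floor (by exact_mod_cast hN)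
  have hYN : ((⌊N⌋₊ : ℕ) : ℝ) ≤ N := Nat.floor_le hN0.le
  have hY0 : (0 : ℝ) ≤ ((⌊N⌋₊ : ℕ) : ℝ) := Nat.cast_nonneg _
  have hY : 2 ^ (a + 1) * M2 ≤ ⌊N⌋₊ := Nat.le_floor (by push_cast; exact hMN)
  have hlN : 0 ≤ Real.log N := Real.log_nonneg (by linarith)
  have hlY : 0 ≤ Real.log ((⌊N⌋₊ : ℕ) : ℝ) :=
    Real.log_nonneg (by exact_mod_cast (by omega : 1 ≤ ⌊N⌋₊))
  have hlYN : Real.log ((⌊N⌋₊ : ℕ) : ℝ) ≤ Real.log N + 1 := by
    have : Real.log ((⌊N⌋₊ : ℕ) : ℝ) ≤ Real.log N :=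
      Real.log_le_log (by exact_mod_cast (by omega : 0 < ⌊N⌋₊)) hYN
    linarith
  simp_rw [prod_eq a M1 M2 _ hM hY]
  refine (mvt T (by linarith) _ _).trans ?_
  have h1 : ∑ n ∈ Icc 1 ⌊N⌋₊, ‖cf a M1 M2 n‖ ^ 2 ≤
      N * (max K 1) * (Real.log N + 1) ^ (A + 2) := by
    have h2 : ∀ n ∈ Icc 1 ⌊N⌋₊, ‖cf a M1 M2 n‖ ^ 2 ≤
        (Real.log N) ^ 2 * N * ((n.divisors.card : ℝ) ^ 2 / n) := by
      intro n hn
      rw [mem_Icc] at hn
      have h3 := norm_cf_le a M1 M2 n N hn.1 hM hM2 hMN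
      have h4 : ‖cf a M1 M2 n‖ ^ 2 ≤ (Real.log N * (n.divisors.card : ℝ)) ^ 2 :=
        pow_le_pow_left₀ (norm_nonneg _) h3 2
      refine h4.trans ?_
      have hn0 : (0 : ℝ) < n := by exact_mod_cast hn.1
      have hnN : (n : ℝ) ≤ N := le_trans (by exact_mod_cast hn.2) hYN
      have h5 : (Real.log N * (n.divisors.card : ℝ)) ^ 2 =
          (Real.log N) ^ 2 * n * ((n.divisors.card : ℝ) ^ 2 / n) := by
        field_simp
      rw [h5]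
      have h6 : (Real.log N) ^ 2 * n ≤ (Real.log N) ^ 2 * N :=
        mul_le_mul_of_nonneg_left hnN (by positivity)
      exact mul_le_mul_of_nonneg_right h6 (by positivity)
    refine (Finset.sum_le_sum h2).trans ?_
    rw [← Finset.mul_sum]
    have h7 := hK ⌊N⌋₊ hY2
    have h8 : K * Real.log ((⌊N⌋₊ : ℕ) : ℝ) ^ A ≤ max K 1 * (Real.log N + 1) ^ A :=
      mul_le_mul (le_max_left _ _) (pow_le_pow_left₀ hlY hlYN A) (by positivity) (by positivity)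
    have h9 : (Real.log N) ^ 2 ≤ (Real.log N + 1) ^ 2 :=
      pow_le_pow_left₀ hlN (by linarith) 2
    calc (Real.log N) ^ 2 * N * ∑ n ∈ Icc 1 ⌊N⌋₊, (n.divisors.card : ℝ) ^ 2 / n
        ≤ (Real.log N) ^ 2 * N * (max K 1 * (Real.log N + 1) ^ A) :=
          mul_le_mul_of_nonneg_left (h7.trans h8) (by positivity)
      _ ≤ (Real.log N + 1) ^ 2 * N * (max K 1 * (Real.log N + 1) ^ A) := by
          apply mul_le_mul_of_nonneg_right _ (by positivity)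
          exact mul_le_mul_of_nonneg_right h9 hN0.le
      _ = N * (max K 1) * (Real.log N + 1) ^ (A + 2) := by ring
  calc 10 * (T + ((⌊N⌋₊ : ℕ) : ℝ)) * ∑ n ∈ Icc 1 ⌊N⌋₊, ‖cf a M1 M2 n‖ ^ 2
      ≤ 10 * (T + N) * (N * (max K 1) * (Real.log N + 1) ^ (A + 2)) := by
        apply mul_le_mul _ h1 (by positivity) (by positivity)
        linarith
    _ = 10 * max K 1 * (T + N) * N * (Real.log N + 1) ^ (A + 2) := by ring

end Pool.Agent.BernOne
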