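import Pool.Agent.BernOne.KSum
import Pool.Agent.BernOne.UK
import Pool.Agent.MR.ALoc

set_option autoImplicit false

open Finset MeasureTheory

namespace Pool.Agent.BernOne

open Pool.Agent.MR

/-- exponentials beat powers -/
theorem Block.ev (c : ℝ) (n : ℕ) (b : ℝ) (hb : 0 < b) :
    ∀ᶠ L : ℝ in Filter.atTop, c * L ^ n * Real.exp (-(b * L)) ≤ 1 := by
  have h1 := Real.tendsto_pow_mul_exp_neg_atTop_nhds_zero n
  have h2 : Filter.Tendsto (fun L : ℝ => b * L) Filter.atTop Filter.atTop :=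
    Filter.tendsto_id.const_mul_atTop hb
  have h3 := (h1.comp h2).const_mul (c / b ^ n)
  rw [mul_zero] at h3
  have h4 : ∀ᶠ L : ℝ in Filter.atTop, c / b ^ n * ((b * L) ^ n * Real.exp (-(b * L))) < 1 :=
    h3.eventually_lt_const one_pos
  filter_upwards [h4] with L hL
  have e : c / b ^ n * ((b * L) ^ n * Real.exp (-(b * L))) = c * L ^ n * Real.exp (-(b * L)) := by
    rw [mul_pow]
    field_simp
  rw [e] at hL
  exact hL.le

theorem Block.gw_nonneg (T t : ℝ) : 0 ≤ gw T t := (Real.exp_pos _).le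

theorem Block.gw_le_one (T t : ℝ) : gw T t ≤ 1 := by
  unfold gw
  rw [Real.exp_le_one_iff]
  have := sq_nonneg (t / T)
  linarith

theorem Block.int_gw (T : ℝ) (hT : 0 < T) : ∫ t, gw T t ≤ 2 * T := by
  have h : ∀ t, gw T t = Real.exp (-(1 / T ^ 2) * t ^ 2) := by
    intro t
    unfold gw
    congr 1
    field_simp
  simp_rw [h]
  rw [integral_gaussian]
  have h1 : Real.pi / (1 / T ^ 2) = Real.pi * T ^ 2 := by field_simp
  rw [h1, Real.sqrt_mul Real.pi_pos.le, Real.sqrt_sq hT.le]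
  have h2 : √Real.pi ≤ 2 := by
    rw [Real.sqrt_le_iff]
    have := Real.pi_lt_four
    constructor
    · norm_num
    · linarith
  gcongr

/-- splitting of the integral -/
theorem block_split (u q k : ℝ → ℂ) (hq : Continuous q) (huk : Continuous (fun t => u t * k t))
    (Kuk : ℝ) (hKuk : ∀ t, ‖u t * k t‖ ≤ Kuk) (P X m θ w D L c4 I3 μ : ℝ)
    (hm : 0 ≤ m) (hθ : 0 < θ) (hw : 0 ≤ w) (hL : 0 ≤ L)
    (htriv : ∀ t, ‖u t * q t * k t‖ ≤ P) (hθX : L ≤ θ * X)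
    (hlarge : ∀ t, m < |t| → |t| ≤ X → D < ‖q t‖ → ‖u t * q t * k t‖ ≤ c4)
    (h3 : ∫ t, ‖u t * k t‖ ^ 2 * gw (1 / θ) t ≤ I3)
    (hmeas : (volume {t : ℝ | |t| ≤ X ∧ D < ‖q t‖}).toReal ≤ μ) :
    ∫ t, ‖u t * q t * k t‖ ^ 2 * min 1 ((w * t) ^ 4) * gw (1 / θ) t ≤
      P ^ 2 * (w * m) ^ 4 * (2 * m) + P ^ 2 * Real.exp (-(L ^ 2 / 2)) * (4 / θ) + D ^ 2 * I3 +
        c4 ^ 2 * μ := by
  classical
  set S1 : Set ℝ := Set.Icc (-m) m with hS1
  set S4 : Set ℝ := {t : ℝ | |t| ≤ X ∧ D < ‖q t‖} with hS4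
  have hS4m : MeasurableSet S4 := by
    apply MeasurableSet.inter
    · exact measurableSet_le continuous_abs.measurable measurable_const
    · exact measurableSet_lt measurable_const hq.norm.measurable
  have hS4f : volume S4 ≠ ⊤ := by
    have : S4 ⊆ Set.Icc (-X) X := by
      intro t ht
      exact abs_le.mp ht.1
    refine ne_top_of_le_ne_top ?_ (measure_mono this)
    rw [Real.volume_Icc]
    exact ENNReal.ofReal_ne_top
  have hS1f : volume S1 ≠ ⊤ := by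
    rw [hS1, Real.volume_Icc]
    exact ENNReal.ofReal_ne_top
  set g1 : ℝ → ℝ := S1.indicator (fun _ => P ^ 2 * (w * m) ^ 4) with hg1
  set g2 : ℝ → ℝ := fun t => P ^ 2 * Real.exp (-(L ^ 2 / 2)) * gw (2 / θ) t with hg2
  set g3 : ℝ → ℝ := fun t => D ^ 2 * (‖u t * k t‖ ^ 2 * gw (1 / θ) t) with hg3
  set g4 : ℝ → ℝ := S4.indicator (fun _ => c4 ^ 2) with hg4
  have hg1n : ∀ t, 0 ≤ g1 t := fun t => Set.indicator_nonneg (fun _ _ => by positivity) t
  have hg2n : ∀ t, 0 ≤ g2 t := fun t => by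
    have := Block.gw_nonneg (2 / θ) t
    rw [hg2]; positivity
  have hg3n : ∀ t, 0 ≤ g3 t := fun t => by
    have := Block.gw_nonneg (1 / θ) t
    rw [hg3]; positivity
  have hg4n : ∀ t, 0 ≤ g4 t := fun t => Set.indicator_nonneg (fun _ _ => by positivity) t
  have hi1 : Integrable g1 := by
    rw [hg1, integrable_indicator_iff measurableSet_Icc]
    exact integrableOn_const hS1f enorm_ne_top
  have hi2 : Integrable g2 := (integrable_gw_one (2 / θ) (by positivity)).const_mul _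
  have hi3 : Integrable g3 :=
    (integrable_gw (fun t => u t * k t) huk Kuk hKuk (1 / θ) (by positivity)).const_mul _
  have hi4 : Integrable g4 := by
    rw [hg4, integrable_indicator_iff hS4m]
    exact integrableOn_const hS4f enorm_ne_top
  have hle : ∀ t, ‖u t * q t * k t‖ ^ 2 * min 1 ((w * t) ^ 4) * gw (1 / θ) t ≤
      g1 t + g2 t + g3 t + g4 t := by
    intro t
    have hn1 := hg1n t
    have hn2 := hg2n t
    have hn3 := hg3n t
    have hn4 := hg4n t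
    have hgw0 := Block.gw_nonneg (1 / θ) t
    have hgw1 := Block.gw_le_one (1 / θ) t
    have hF0 : 0 ≤ ‖u t * q t * k t‖ := norm_nonneg _
    have hF2 : ‖u t * q t * k t‖ ^ 2 ≤ P ^ 2 := pow_le_pow_left₀ hF0 (htriv t) 2
    have hmin0 : 0 ≤ min 1 ((w * t) ^ 4) := le_min zero_le_one (by positivity)
    have hmin1 : min 1 ((w * t) ^ 4) ≤ 1 := min_le_left _ _
    by_cases hc1 : |t| ≤ m
    · have e1 : g1 t = P ^ 2 * (w * m) ^ 4 := by
        rw [hg1, Set.indicator_of_mem]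
        exact abs_le.mp hc1
      have h4 : min 1 ((w * t) ^ 4) ≤ (w * m) ^ 4 := by
        refine (min_le_right _ _).trans ?_
        have : (w * t) ^ 4 = (w * |t|) ^ 4 := by
          rw [mul_pow, mul_pow, (show Even 4 by decide).pow_abs]
        rw [this]
        gcongr
      have h5 : ‖u t * q t * k t‖ ^ 2 * min 1 ((w * t) ^ 4) * gw (1 / θ) t ≤
          P ^ 2 * (w * m) ^ 4 * 1 := by gcongr
      linarith
    push Not at hc1
    by_cases hc2 : X < |t|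
    · have h4 : gw (1 / θ) t ≤ Real.exp (-(L ^ 2 / 2)) * gw (2 / θ) t := by
        unfold gw
        rw [← Real.exp_add, Real.exp_le_exp]
        have e1 : t / (1 / θ) = t * θ := by field_simp
        have e2 : t / (2 / θ) = t * θ / 2 := by field_simp
        rw [e1, e2]
        have h5 : L ≤ |t * θ| := by
          rw [abs_mul, abs_of_pos hθ]
          calc L ≤ θ * X := hθX
            _ ≤ θ * |t| := by gcongr
            _ = |t| * θ := mul_comm _ _
        have h6 : L ^ 2 ≤ (t * θ) ^ 2 := by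
          rw [← sq_abs (t * θ)]
          exact pow_le_pow_left₀ hL h5 2
        nlinarith
      have h5 : ‖u t * q t * k t‖ ^ 2 * min 1 ((w * t) ^ 4) * gw (1 / θ) t ≤
          P ^ 2 * 1 * (Real.exp (-(L ^ 2 / 2)) * gw (2 / θ) t) := by gcongr
      have e : g2 t = P ^ 2 * 1 * (Real.exp (-(L ^ 2 / 2)) * gw (2 / θ) t) := by
        rw [hg2]; ring
      linarith
    push Not at hc2
    by_cases hc3 : D < ‖q t‖
    · have e1 : g4 t = c4 ^ 2 := by
        rw [hg4, Set.indicator_of_mem]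
        exact ⟨hc2, hc3⟩
      have h4 : ‖u t * q t * k t‖ ^ 2 ≤ c4 ^ 2 :=
        pow_le_pow_left₀ hF0 (hlarge t hc1 hc2 hc3) 2
      have h5 : ‖u t * q t * k t‖ ^ 2 * min 1 ((w * t) ^ 4) * gw (1 / θ) t ≤
          c4 ^ 2 * 1 * 1 := by gcongr
      linarith
    · push Not at hc3
      have h4 : ‖u t * q t * k t‖ ^ 2 ≤ D ^ 2 * ‖u t * k t‖ ^ 2 := by
        have : ‖u t * q t * k t‖ = ‖q t‖ * ‖u t * k t‖ := by
          rw [norm_mul, norm_mul, norm_mul]; ring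
        rw [this, mul_pow]
        gcongr
      have h5 : ‖u t * q t * k t‖ ^ 2 * min 1 ((w * t) ^ 4) * gw (1 / θ) t ≤
          (D ^ 2 * ‖u t * k t‖ ^ 2) * 1 * gw (1 / θ) t := by gcongr
      have e : g3 t = (D ^ 2 * ‖u t * k t‖ ^ 2) * 1 * gw (1 / θ) t := by
        rw [hg3]; ring
      linarith
  have hi12 : Integrable (fun t => g1 t + g2 t) := hi1.add hi2
  have hi123 : Integrable (fun t => g1 t + g2 t + g3 t) := hi12.add hi3
  have hi1234 : Integrable (fun t => g1 t + g2 t + g3 t + g4 t) := hi123.add hi4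
  have hI : ∫ t, ‖u t * q t * k t‖ ^ 2 * min 1 ((w * t) ^ 4) * gw (1 / θ) t ≤
      ∫ t, (g1 t + g2 t + g3 t + g4 t) := by
    apply integral_mono_of_nonneg
    · refine Filter.Eventually.of_forall fun t => ?_
      have hgw0 := Block.gw_nonneg (1 / θ) t
      have hmin0 : 0 ≤ min 1 ((w * t) ^ 4) := le_min zero_le_one (by positivity)
      change 0 ≤ ‖u t * q t * k t‖ ^ 2 * min 1 ((w * t) ^ 4) * gw (1 / θ) t
      positivity
    · exact hi1234
    · exact Filter.Eventually.of_forall hle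
  refine hI.trans ?_
  rw [integral_add hi123 hi4, integral_add hi12 hi3, integral_add hi1 hi2]
  have j1 : ∫ t, g1 t ≤ P ^ 2 * (w * m) ^ 4 * (2 * m) := by
    rw [hg1, integral_indicator measurableSet_Icc, setIntegral_const]
    rw [smul_eq_mul, measureReal_def, Real.volume_Icc,
      ENNReal.toReal_ofReal (by linarith)]
    apply le_of_eq
    ring
  have j2 : ∫ t, g2 t ≤ P ^ 2 * Real.exp (-(L ^ 2 / 2)) * (4 / θ) := by
    rw [hg2, integral_const_mul]
    have := Block.int_gw (2 / θ) (by positivity)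
    have e : 2 * (2 / θ) = 4 / θ := by ring
    rw [e] at this
    gcongr
  have j3 : ∫ t, g3 t ≤ D ^ 2 * I3 := by
    rw [hg3, integral_const_mul]
    gcongr
  have j4 : ∫ t, g4 t ≤ c4 ^ 2 * μ := by
    rw [hg4, integral_indicator hS4m, setIntegral_const, smul_eq_mul, measureReal_def, mul_comm]
    gcongr
  linarith

/-- small `t` -/
theorem Block.fin1 (κ R L X M : ℝ) (C : ℕ) (hR : 1 ≤ R) (hL : 0 < L)
    (hX : 0 < X) (hM : Real.exp (κ * L) ≤ M)
    (hev : 128 * R ^ 4 * L ^ (2 + C) * Real.exp (-(κ / 30 * L)) ≤ 1) :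
    (4 * R ^ 2 * X * L) ^ 2 * (M ^ (-(1 / 30) : ℝ) * M ^ (1 / 50 : ℝ)) ^ 4 *
      (2 * M ^ (1 / 50 : ℝ)) ≤ X ^ 2 / (4 * L ^ C) := by
  have hM0 : 0 < M := lt_of_lt_of_le (Real.exp_pos _) hM
  have e1 : (M ^ (-(1 / 30) : ℝ) * M ^ (1 / 50 : ℝ)) ^ 4 * (2 * M ^ (1 / 50 : ℝ)) =
      2 * M ^ (-(1 / 30) : ℝ) := by
    rw [← Real.rpow_add hM0, ← Real.rpow_natCast, ← Real.rpow_mul hM0.le]
    rw [mul_left_comm, ← Real.rpow_add hM0]
    norm_num
  have e2 : M ^ (-(1 / 30) : ℝ) ≤ Real.exp (-(κ / 30 * L)) := by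
    have h1 : M ^ (-(1 / 30) : ℝ) ≤ (Real.exp (κ * L)) ^ (-(1 / 30) : ℝ) :=
      Real.rpow_le_rpow_of_nonpos (Real.exp_pos _) hM (by norm_num)
    have h2 : (Real.exp (κ * L)) ^ (-(1 / 30) : ℝ) = Real.exp (-(κ / 30 * L)) := by
      rw [← Real.exp_mul]
      congr 1
      ring
    rwa [h2] at h1
  rw [mul_assoc, e1]
  have hLC : 0 < L ^ C := by positivity
  have h3 : (4 * R ^ 2 * X * L) ^ 2 * (2 * M ^ (-(1 / 30) : ℝ)) ≤
      (4 * R ^ 2 * X * L) ^ 2 * (2 * Real.exp (-(κ / 30 * L))) := by gcongr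
  refine h3.trans ?_
  rw [le_div_iff₀ (by positivity)]
  calc (4 * R ^ 2 * X * L) ^ 2 * (2 * Real.exp (-(κ / 30 * L))) * (4 * L ^ C)
      = X ^ 2 * (128 * R ^ 4 * L ^ (2 + C) * Real.exp (-(κ / 30 * L))) := by
        rw [pow_add]; ring
    _ ≤ X ^ 2 * 1 := by gcongr
    _ = X ^ 2 := mul_one _

/-- large `t` -/
theorem Block.fin2 (R L X θ : ℝ) (C : ℕ) (hR : 1 ≤ R) (hL : 4 ≤ L)
    (hX : X = Real.exp L) (hθX : 1 / θ ≤ X)
    (hev : 256 * R ^ 4 * L ^ (2 + C) * Real.exp (-(1 * L)) ≤ 1) :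
    (4 * R ^ 2 * X * L) ^ 2 * Real.exp (-(L ^ 2 / 2)) * (4 / θ) ≤ X ^ 2 / (4 * L ^ C) := by
  have hX0 : 0 < X := by rw [hX]; exact Real.exp_pos _
  have hL0 : 0 < L := by linarith
  have h1 : 4 / θ ≤ 4 * X := by
    have : 4 / θ = 4 * (1 / θ) := by ring
    rw [this]
    gcongr
  have h2 : Real.exp (-(L ^ 2 / 2)) * X ≤ Real.exp (-(1 * L)) := by
    rw [hX, ← Real.exp_add, Real.exp_le_exp]
    nlinarith
  rw [le_div_iff₀ (by positivity)]
  calc (4 * R ^ 2 * X * L) ^ 2 * Real.exp (-(L ^ 2 / 2)) * (4 / θ) * (4 * L ^ C)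
      ≤ (4 * R ^ 2 * X * L) ^ 2 * Real.exp (-(L ^ 2 / 2)) * (4 * X) * (4 * L ^ C) := by gcongr
    _ = X ^ 2 * (256 * R ^ 4 * L ^ (2 + C) * (Real.exp (-(L ^ 2 / 2)) * X)) := by
        rw [pow_add]; ring
    _ ≤ X ^ 2 * (256 * R ^ 4 * L ^ (2 + C) * Real.exp (-(1 * L))) := by gcongr
    _ ≤ X ^ 2 * 1 := by gcongr
    _ = X ^ 2 := mul_one _

/-- the prime polynomial is small -/
theorem Block.fin3 (R L X θ y α Cu B : ℝ) (C c0 : ℕ) (hR : 1 ≤ R) (hL : 1 ≤ L)
    (hX : X = Real.exp L) (hα : 0 < α) (hCu : 0 < Cu)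
    (hB : (C : ℝ) + c0 + 1 ≤ 2 * α * B) (hy0 : 0 ≤ y) (hN2 : 2 ≤ 2 * R ^ 2 * X / Real.exp y)
    (hθX : 1 / θ ≤ X / Real.exp y) (hy : B * Real.log L - 1 / 2 ≤ y)
    (hRL : Real.log (2 * R ^ 2) + 1 ≤ L)
    (hev : 24 * Cu * R ^ 4 * Real.exp α * 2 ^ c0 ≤ L) :
    Real.exp ((1 - α) * y) ^ 2 * (Cu * (1 / θ + 2 * R ^ 2 * X / Real.exp y) *
      (2 * R ^ 2 * X / Real.exp y) *
      (Real.log (2 * R ^ 2 * X / Real.exp y) + 1) ^ c0) ≤ X ^ 2 / (4 * L ^ C) := by
  have hX0 : 0 < X := by rw [hX]; exact Real.exp_pos _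
  have hL0 : 0 < L := by linarith
  have hR0 : 0 < R := by linarith
  have hE : 0 < Real.exp y := Real.exp_pos _
  have hE1 : 1 ≤ Real.exp y := Real.one_le_exp hy0
  set N : ℝ := 2 * R ^ 2 * X / Real.exp y with hN
  have hN0 : 0 < N := by positivity
  have h1 : 1 / θ + N ≤ 3 * R ^ 2 * X / Real.exp y := by
    have : X / Real.exp y ≤ R ^ 2 * X / Real.exp y := by
      have hR2 : 1 ≤ R ^ 2 := one_le_pow₀ hR
      have : X ≤ R ^ 2 * X := by
        calc X = 1 * X := (one_mul _).symm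
          _ ≤ R ^ 2 * X := by gcongr
      gcongr
    have e : 3 * R ^ 2 * X / Real.exp y = R ^ 2 * X / Real.exp y + N := by rw [hN]; ring
    rw [e]
    linarith
  have h2 : Real.log N + 1 ≤ 2 * L := by
    have h3 : N ≤ 2 * R ^ 2 * X := by
      rw [hN]
      exact div_le_self (by positivity) hE1
    have h4 : Real.log N ≤ Real.log (2 * R ^ 2 * X) := Real.log_le_log hN0 h3
    rw [Real.log_mul (by positivity) hX0.ne', hX, Real.log_exp] at h4
    linarith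
  have hlog : 0 ≤ Real.log N + 1 := by
    have := Real.log_nonneg (show 1 ≤ N by linarith)
    linarith
  have h5 : (Real.log N + 1) ^ c0 ≤ (2 * L) ^ c0 := pow_le_pow_left₀ hlog h2 c0
  have h6 : 0 ≤ (Real.log N + 1) ^ c0 := pow_nonneg hlog _
  have e1 : Real.exp ((1 - α) * y) ^ 2 = Real.exp y ^ 2 * Real.exp (-(2 * α * y)) := by
    rw [← Real.exp_nat_mul, ← Real.exp_nat_mul, ← Real.exp_add]
    congr 1
    push_cast
    ring
  have h7 : Real.exp (-(2 * α * y)) ≤ Real.exp α * (L ^ (C + c0 + 1))⁻¹ := by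
    have h8 : (L ^ (C + c0 + 1))⁻¹ = Real.exp (-(((C : ℝ) + c0 + 1) * Real.log L)) := by
      rw [Real.exp_neg, mul_comm, Real.exp_mul, Real.exp_log hL0]
      congr 1
      rw [← Real.rpow_natCast]
      push_cast
      rfl
    rw [h8, ← Real.exp_add, Real.exp_le_exp]
    have h9 : 0 ≤ Real.log L := Real.log_nonneg hL
    have h10 : ((C : ℝ) + c0 + 1) * Real.log L ≤ 2 * α * B * Real.log L := by gcongr
    have h11 : 2 * α * (B * Real.log L - 1 / 2) ≤ 2 * α * y := by gcongr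
    nlinarith
  rw [le_div_iff₀ (by positivity)]
  calc Real.exp ((1 - α) * y) ^ 2 * (Cu * (1 / θ + N) * N * (Real.log N + 1) ^ c0) *
        (4 * L ^ C)
      ≤ (Real.exp y ^ 2 * Real.exp (-(2 * α * y))) *
        (Cu * (3 * R ^ 2 * X / Real.exp y) * N * (2 * L) ^ c0) * (4 * L ^ C) := by
        rw [e1]
        gcongr
    _ = 24 * Cu * R ^ 4 * X ^ 2 * 2 ^ c0 * L ^ c0 * L ^ C * Real.exp (-(2 * α * y)) := by
        rw [hN, mul_pow]
        field_simp
        ring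
    _ ≤ 24 * Cu * R ^ 4 * X ^ 2 * 2 ^ c0 * L ^ c0 * L ^ C *
        (Real.exp α * (L ^ (C + c0 + 1))⁻¹) := by gcongr
    _ = X ^ 2 * ((24 * Cu * R ^ 4 * Real.exp α * 2 ^ c0) / L) := by
        rw [pow_add, pow_add, pow_one]
        field_simp
    _ ≤ X ^ 2 * 1 := by
        gcongr
        rw [div_le_one hL0]
        exact hev
    _ = X ^ 2 := mul_one _

/-- the prime polynomial is large: the measure -/
theorem Block.fin4m (κ η L y α A B : ℝ) (l : ℕ) (hL : 4 ≤ L) (hα : α = κ * η / 4)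
    (hκη : κ * η ≤ 1) (hκη0 : 0 < κ * η) (hB : 8 ≤ B * (κ * η)) (hA : 0 ≤ A)
    (hlog : 4 ≤ Real.log L) (hB1 : 1 ≤ B)
    (hy : B * Real.log L - 1 / 2 ≤ y) (hyA : y ≤ A * Real.log L) (hl : l = ⌈L / y⌉₊) :
    100 * ((l : ℝ) + 1) ^ l * Real.exp (2 * α * (l * y) + 2 * l / (2 : ℕ)) ≤
      300 * Real.exp (κ * η * L + (1 + A) * Real.log L) := by
  have hL0 : 0 < L := by linarith
  have hBl : B / 2 * Real.log L ≤ y := by
    have : 1 * 4 ≤ B * Real.log L := by gcongr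
    linarith
  have hypos : 0 < y := by
    have : 0 < B / 2 * Real.log L := by positivity
    linarith
  have hl1 : (l : ℝ) ≤ L / y + 1 := by
    rw [hl]
    exact (Nat.ceil_lt_add_one (by positivity)).le
  have hly : (l : ℝ) * y ≤ L + y := by
    calc (l : ℝ) * y ≤ (L / y + 1) * y := by gcongr
      _ = L + y := by field_simp
  have hl2 : (l : ℝ) ≤ 2 * L / (B * Real.log L) + 1 := by
    have : L / y ≤ 2 * L / (B * Real.log L) := by
      rw [div_le_div_iff₀ hypos (by positivity)]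
      nlinarith
    linarith
  have hl3 : (l : ℝ) * Real.log L ≤ 2 * L / B + Real.log L := by
    calc (l : ℝ) * Real.log L ≤ (2 * L / (B * Real.log L) + 1) * Real.log L := by gcongr
      _ = 2 * L / B + Real.log L := by field_simp
  have hl4 : (l : ℝ) ≤ 2 * L / B + 1 := by
    have h1 : 2 * L / (B * Real.log L) ≤ 2 * L / B := by
      apply div_le_div_of_nonneg_left (by positivity) (by positivity)
      nlinarith
    linarith
  have hl5 : (l : ℝ) + 1 ≤ L := by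
    have h1 : 2 * L / (B * Real.log L) ≤ L / 2 := by
      rw [div_le_div_iff₀ (by positivity) (by norm_num)]
      have : 4 ≤ B * Real.log L := by
        calc (4 : ℝ) = 1 * 4 := by norm_num
          _ ≤ B * Real.log L := by gcongr
      nlinarith
    linarith
  have h8B : 4 / B ≤ κ * η / 2 := by
    rw [div_le_div_iff₀ (by linarith) (by norm_num)]
    linarith
  have hpow : ((l : ℝ) + 1) ^ l ≤ Real.exp (2 * L / B + Real.log L) := by
    calc ((l : ℝ) + 1) ^ l ≤ L ^ l := by gcongr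
      _ = Real.exp (l * Real.log L) := by
          rw [mul_comm, Real.exp_mul, Real.exp_log hL0, Real.rpow_natCast]
      _ ≤ _ := Real.exp_le_exp.mpr hl3
  have h3 : Real.exp 1 ≤ 3 := Real.exp_one_lt_three.le
  have hexp : 2 * L / B + Real.log L + (2 * α * (l * y) + 2 * l / (2 : ℕ)) ≤
      1 + (κ * η * L + (1 + A) * Real.log L) := by
    have e1 : (2 : ℝ) * l / (2 : ℕ) = l := by push_cast; ring
    rw [e1]
    have h4 : 2 * α * (l * y) ≤ 2 * α * (L + A * Real.log L) := by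
      have : 0 ≤ 2 * α := by rw [hα]; positivity
      have : (l : ℝ) * y ≤ L + A * Real.log L := by linarith
      gcongr
    have h5 : 2 * α * (A * Real.log L) ≤ 1 * (A * Real.log L) := by
      have : 2 * α ≤ 1 := by rw [hα]; linarith
      have : 0 ≤ A * Real.log L := by positivity
      gcongr
    have h6 : 2 * L / B + 2 * L / B ≤ κ * η / 2 * L := by
      have : 2 * L / B + 2 * L / B = 4 / B * L := by ring
      rw [this]
      gcongr
    have h7 : 2 * α * L = κ * η / 2 * L := by rw [hα]; ring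
    nlinarith
  calc 100 * ((l : ℝ) + 1) ^ l * Real.exp (2 * α * (l * y) + 2 * l / (2 : ℕ))
      ≤ 100 * Real.exp (2 * L / B + Real.log L) *
        Real.exp (2 * α * (l * y) + 2 * l / (2 : ℕ)) := by gcongr
    _ = 100 * Real.exp (2 * L / B + Real.log L + (2 * α * (l * y) + 2 * l / (2 : ℕ))) := by
        rw [mul_assoc, ← Real.exp_add]
    _ ≤ 100 * Real.exp (1 + (κ * η * L + (1 + A) * Real.log L)) := by gcongr
    _ = 100 * (Real.exp 1 * Real.exp (κ * η * L + (1 + A) * Real.log L)) := by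
        rw [Real.exp_add 1]
    _ ≤ 100 * (3 * Real.exp (κ * η * L + (1 + A) * Real.log L)) := by gcongr
    _ = 300 * Real.exp (κ * η * L + (1 + A) * Real.log L) := by ring

/-- the prime polynomial is large -/
theorem Block.fin4 (κ η R L X μ : ℝ) (A C : ℕ) (hR : 1 ≤ R) (hL : 1 ≤ L)
    (hX : X = Real.exp L)
    (hμ : μ ≤ 300 * Real.exp (κ * η * L + (1 + (A : ℝ)) * Real.log L))
    (hev : 19200 * R ^ 2 * L ^ (A + 3 + C) * Real.exp (-(κ * η * L)) ≤ 1) :
    (4 * R * X * L * Real.exp (-(κ * η * L))) ^ 2 * μ ≤ X ^ 2 / (4 * L ^ C) := by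
  have hX0 : 0 < X := by rw [hX]; exact Real.exp_pos _
  have hL0 : 0 < L := by linarith
  have e0 : Real.exp ((1 + (A : ℝ)) * Real.log L) = L ^ (A + 1) := by
    rw [mul_comm, Real.exp_mul, Real.exp_log hL0, ← Real.rpow_natCast]
    push_cast
    congr 1
    ring
  have e1 : Real.exp (κ * η * L + (1 + (A : ℝ)) * Real.log L) =
      Real.exp (κ * η * L) * L ^ (A + 1) := by
    rw [Real.exp_add, e0]
  rw [e1] at hμ
  have e2 : Real.exp (-(κ * η * L)) * Real.exp (κ * η * L) = 1 := by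
    rw [← Real.exp_add, neg_add_cancel, Real.exp_zero]
  rw [le_div_iff₀ (by positivity)]
  calc (4 * R * X * L * Real.exp (-(κ * η * L))) ^ 2 * μ * (4 * L ^ C)
      ≤ (4 * R * X * L * Real.exp (-(κ * η * L))) ^ 2 *
        (300 * (Real.exp (κ * η * L) * L ^ (A + 1))) * (4 * L ^ C) := by gcongr
    _ = X ^ 2 * (19200 * R ^ 2 * L ^ (A + 3 + C) * Real.exp (-(κ * η * L))) *
        (Real.exp (-(κ * η * L)) * Real.exp (κ * η * L)) := by
        ring
    _ = X ^ 2 * (19200 * R ^ 2 * L ^ (A + 3 + C) * Real.exp (-(κ * η * L))) := by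
        rw [e2, mul_one]
    _ ≤ X ^ 2 * 1 := by gcongr
    _ = X ^ 2 := mul_one _

theorem Block.exp_half : Real.exp (1 / 2) ≤ 2 := by
  have h1 : Real.exp (1 / 2) ^ 2 = Real.exp 1 := by
    rw [← Real.exp_nat_mul]
    norm_num
  have h2 := Real.exp_one_lt_three
  nlinarith [Real.exp_pos (1 / 2)]

/-- facts about the block of primes -/
theorem Block.primes (A B v : ℕ) (X L : ℝ) (hL : L = Real.log X) (hL6 : 6 ≤ L) (hB : 1 ≤ B)
    (hv : v ∈ vs 2 (QS A B X)) :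
    B * Real.log L - 1 / 2 ≤ (v : ℝ) / (2 : ℕ) ∧ (v : ℝ) / (2 : ℕ) ≤ A * Real.log L ∧
    (∀ q ∈ pb 2 (QS A B X) v, q.Prime ∧ (q : ℝ) ≤ Real.exp ((v + 1) / (2 : ℕ))) ∧
    rs (pb 2 (QS A B X) v) ≤ 1 ∧
    ((pb 2 (QS A B X) v).card : ℝ) ≤ 2 * Real.exp ((v : ℝ) / (2 : ℕ)) := by
  have hL0 : 0 < L := by linarith
  have hQ : ∀ q ∈ QS A B X, q.Prime ∧ L ^ B < q ∧ (q : ℝ) ≤ L ^ A := by
    intro q hq
    unfold QS at hq
    rw [mem_filter, mem_Ioc, ← hL] at hq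
    refine ⟨hq.2, (Nat.floor_lt (by positivity)).mp hq.1.1, ?_⟩
    exact (Nat.le_floor_iff (by positivity)).mp hq.1.2
  have hQ3 : ∀ q ∈ QS A B X, 3 ≤ q := by
    intro q hq
    have h1 := (hQ q hq).2.1
    have h2 : (6 : ℝ) ≤ L ^ B := by
      calc (6 : ℝ) ≤ L := hL6
        _ = L ^ 1 := (pow_one L).symm
        _ ≤ L ^ B := pow_le_pow_right₀ (by linarith) hB
    have h3 : (3 : ℝ) ≤ q := by linarith
    exact_mod_cast h3
  have hQ1 : ∀ q ∈ QS A B X, 1 ≤ q := fun q hq => by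
    have := hQ3 q hq
    omega
  obtain ⟨q0, hq0, hvq⟩ := mem_image.mp hv
  have hq0pb : q0 ∈ pb 2 (QS A B X) v := by
    unfold pb
    rw [mem_filter]
    exact ⟨hq0, hvq⟩
  obtain ⟨-, h1, h2⟩ := mem_pb 2 (by norm_num) _ hQ1 v q0 hq0pb
  obtain ⟨-, h3, h4⟩ := hQ q0 hq0
  have hsplit : ((v : ℝ) + 1) / (2 : ℕ) = (v : ℝ) / (2 : ℕ) + 1 / 2 := by push_cast; ring
  refine ⟨?_, ?_, ?_, ?_, ?_⟩
  · have h5 : L ^ B < Real.exp (((v : ℝ) + 1) / (2 : ℕ)) := h3.trans h2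
    have h6 := Real.log_lt_log (by positivity) h5
    rw [Real.log_exp, Real.log_pow, hsplit] at h6
    linarith
  · have h5 : Real.exp ((v : ℝ) / (2 : ℕ)) ≤ L ^ A := h1.trans h4
    have h6 := Real.log_le_log (Real.exp_pos _) h5
    rwa [Real.log_exp, Real.log_pow] at h6
  · intro q hq
    obtain ⟨h5, -, h6⟩ := mem_pb 2 (by norm_num) _ hQ1 v q hq
    exact ⟨(hQ q h5).1, h6.le⟩
  · exact rs_pb_le 2 (by norm_num) _ hQ3 v
  · have hsub : pb 2 (QS A B X) v ⊆ Icc 1 ⌊Real.exp (((v : ℝ) + 1) / (2 : ℕ))⌋₊ := by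
      intro q hq
      obtain ⟨h5, -, h6⟩ := mem_pb 2 (by norm_num) _ hQ1 v q hq
      rw [mem_Icc]
      exact ⟨hQ1 q h5, (Nat.le_floor_iff (Real.exp_pos _).le).mpr h6.le⟩
    have h5 := card_le_card hsub
    rw [Nat.card_Icc, Nat.add_sub_cancel] at h5
    have h6 : ((pb 2 (QS A B X) v).card : ℝ) ≤ ⌊Real.exp (((v : ℝ) + 1) / (2 : ℕ))⌋₊ := by
      exact_mod_cast h5
    have h7 := Nat.floor_le (Real.exp_pos (((v : ℝ) + 1) / (2 : ℕ))).le
    rw [hsplit, Real.exp_add] at h7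
    have h8 := Block.exp_half
    have h9 : Real.exp ((v : ℝ) / (2 : ℕ)) * Real.exp (1 / 2) ≤
        Real.exp ((v : ℝ) / (2 : ℕ)) * 2 := by gcongr
    rw [hsplit, Real.exp_add] at h6
    linarith

/-- The mean square of a block (Matomaki-Radziwill argument with one scale). -/
theorem block (κ R : ℝ) (hκ : 0 < κ) (hκ1 : κ ≤ 1) (hR : 1 ≤ R) (C : ℕ) :
    ∃ B : ℕ, 1 ≤ B ∧ ∀ A : ℕ, B ≤ A → ∃ X0 : ℝ, 1 ≤ X0 ∧ ∀ X : ℝ, X0 ≤ X →
      ∀ a v M1 M2 : ℕ, ∀ θ : ℝ, v ∈ vs 2 (QS A B X) → X ^ κ ≤ M1 → M1 ≤ M2 →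
        (M2 : ℝ) ≤ R * M1 → 2 ^ a * Real.exp (v / 2) * M1 ≤ R * X →
        (Real.log X) ^ A / X ≤ θ → θ ≤ X ^ (-(1 / 30) : ℝ) →
        ∫ t, ‖Ud (PU a) t * dp (pb 2 (QS A B X) v) (fun _ => 1) t *
            dp (Ico M1 M2) (fun _ => 1) t‖ ^ 2 * min 1 (((M1 : ℝ) ^ (-(1 / 30) : ℝ) * t) ^ 4) *
            gw (1 / θ) t ≤ X ^ 2 / (Real.log X) ^ C := by
  obtain ⟨η, M0, hη, hη1, hM0, hk⟩ := k_bound (1 / κ) R hR
  obtain ⟨c0, Cu, hCu, huk⟩ := uk_mean
  have hκη0 : 0 < κ * η := by positivity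
  have hκη1 : κ * η ≤ 1 := mul_le_one₀ hκ1 hη.le hη1
  set α : ℝ := κ * η / 4 with hα
  have hα0 : 0 < α := by positivity
  set B : ℕ := ⌈8 / (κ * η)⌉₊ + ⌈((C : ℝ) + c0 + 1) / (2 * α)⌉₊ + 1 with hB
  have hB8 : 8 ≤ (B : ℝ) * (κ * η) := by
    have h1 := Nat.le_ceil (8 / (κ * η))
    have h2 : 8 / (κ * η) ≤ (B : ℝ) := by
      rw [hB]
      push_cast
      have : (0 : ℝ) ≤ (⌈((C : ℝ) + c0 + 1) / (2 * α)⌉₊ : ℝ) := Nat.cast_nonneg _
      linarith
    rwa [div_le_iff₀ hκη0] at h2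
  have hBC : (C : ℝ) + c0 + 1 ≤ 2 * α * B := by
    have h1 := Nat.le_ceil (((C : ℝ) + c0 + 1) / (2 * α))
    have h2 : ((C : ℝ) + c0 + 1) / (2 * α) ≤ (B : ℝ) := by
      rw [hB]
      push_cast
      have : (0 : ℝ) ≤ (⌈8 / (κ * η)⌉₊ : ℝ) := Nat.cast_nonneg _
      linarith
    rw [div_le_iff₀ (by positivity)] at h2
    linarith
  have hB1 : 1 ≤ B := by omega
  have hB1r : (1 : ℝ) ≤ B := by exact_mod_cast hB1
  refine ⟨B, hB1, fun A hA => ?_⟩
  have hev : ∀ᶠ L : ℝ in Filter.atTop, 6 ≤ L ∧ 2 * R ≤ L ∧ Real.log (2 * R ^ 2) + 1 ≤ L ∧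
      4 ≤ Real.log L ∧ M0 ≤ Real.exp (κ * L) ∧ 24 * Cu * R ^ 4 * Real.exp α * 2 ^ c0 ≤ L ∧
      128 * R ^ 4 * L ^ (2 + C) * Real.exp (-(κ / 30 * L)) ≤ 1 ∧
      256 * R ^ 4 * L ^ (2 + C) * Real.exp (-(1 * L)) ≤ 1 ∧
      19200 * R ^ 2 * L ^ (A + 3 + C) * Real.exp (-(κ * η * L)) ≤ 1 := by
    have hexp : Filter.Tendsto (fun L : ℝ => Real.exp (κ * L)) Filter.atTop Filter.atTop :=
      Real.tendsto_exp_atTop.comp (Filter.tendsto_id.const_mul_atTop hκ)
    filter_upwards [Filter.eventually_ge_atTop 6, Filter.eventually_ge_atTop (2 * R),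
      Filter.eventually_ge_atTop (Real.log (2 * R ^ 2) + 1),
      Real.tendsto_log_atTop.eventually_ge_atTop 4, hexp.eventually_ge_atTop M0,
      Filter.eventually_ge_atTop (24 * Cu * R ^ 4 * Real.exp α * 2 ^ c0),
      Block.ev (128 * R ^ 4) (2 + C) (κ / 30) (by positivity),
      Block.ev (256 * R ^ 4) (2 + C) 1 one_pos,
      Block.ev (19200 * R ^ 2) (A + 3 + C) (κ * η) hκη0] with L h1 h2 h3 h4 h5 h6 h7 h8 h9
    exact ⟨h1, h2, h3, h4, h5, h6, h7, h8, h9⟩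
  obtain ⟨L0, hL0⟩ := Filter.eventually_atTop.mp hev
  refine ⟨Real.exp (max L0 0), Real.one_le_exp (le_max_right _ _), ?_⟩
  intro X hX a v M1 M2 θ hv hM1 hM12 hM2 hprod hθ1 hθ2
  have hXpos : 0 < X := lt_of_lt_of_le (Real.exp_pos _) hX
  set L : ℝ := Real.log X with hL
  have hLL : L0 ≤ L := by
    have h1 := Real.log_le_log (Real.exp_pos _) hX
    rw [Real.log_exp] at h1
    exact (le_max_left _ _).trans h1
  have hXL : X = Real.exp L := (Real.exp_log hXpos).symm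
  obtain ⟨h6, hR2, hlogR, hlog4, hM0', hev3, hev1, hev2, hev4⟩ := hL0 L hLL
  have hLpos : 0 < L := by linarith
  have hX1 : 1 ≤ X := by rw [hXL]; exact Real.one_le_exp hLpos.le
  obtain ⟨hy1, hyA, hSp, hrs, hcard⟩ := Block.primes A B v X L hL h6 hB1 hv
  have hyeq : (v : ℝ) / 2 = (v : ℝ) / (2 : ℕ) := by norm_num
  rw [hyeq] at hprod
  set y : ℝ := (v : ℝ) / (2 : ℕ) with hy
  set S : Finset ℕ := pb 2 (QS A B X) v with hS
  have hE : 0 < Real.exp y := Real.exp_pos _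
  have hy0 : 0 ≤ y := by rw [hy]; positivity
  have hER : R ≤ Real.exp y := by
    have h1 : Real.log L - 1 / 2 ≤ y := by
      have : 1 * Real.log L ≤ B * Real.log L := by gcongr
      linarith
    have h2 : Real.exp (Real.log L - 1 / 2) ≤ Real.exp y := Real.exp_le_exp.mpr h1
    rw [Real.exp_sub, Real.exp_log hLpos] at h2
    have h3 : L / 2 ≤ L / Real.exp (1 / 2) :=
      div_le_div_of_nonneg_left hLpos.le (Real.exp_pos _) Block.exp_half
    linarith
  have hEA : Real.exp y ≤ L ^ A := by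
    have h1 := Real.exp_le_exp.mpr hyA
    rwa [mul_comm, Real.exp_mul, Real.exp_log hLpos, Real.rpow_natCast] at h1
  have hXκ : Real.exp (κ * L) = X ^ κ := by
    rw [Real.rpow_def_of_pos hXpos, mul_comm]
  have hXκ1 : 1 ≤ X ^ κ := Real.one_le_rpow hX1 hκ.le
  have hM1r : (1 : ℝ) ≤ M1 := hXκ1.trans hM1
  have hM1pos : (0 : ℝ) < M1 := by linarith
  have hM1n : 1 ≤ M1 := by exact_mod_cast hM1r
  have hM1X : Real.exp (κ * L) ≤ M1 := by rw [hXκ]; exact hM1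
  have hM0M : M0 ≤ M1 := hM0'.trans hM1X
  have h2a : (0 : ℝ) < 2 ^ a := by positivity
  -- size of `a`
  have ha2 : (2 : ℝ) ^ a ≤ X := by
    have h1 : 2 ^ a * R * 1 ≤ 2 ^ a * Real.exp y * M1 := by gcongr
    have h2 : (2 : ℝ) ^ a * R ≤ X * R := by linarith
    exact le_of_mul_le_mul_right h2 (by linarith)
  have ha : (a : ℝ) + 1 ≤ 2 * L := by
    have h1 := Real.log_le_log h2a ha2
    rw [Real.log_pow, ← hL] at h1
    have h2 := Real.log_two_gt_d9
    have h3 : (a : ℝ) * 0.69 ≤ a * Real.log 2 := by gcongr; linarith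
    nlinarith
  -- size of `θ`
  have hLA : L ≤ L ^ A := by
    calc L = L ^ 1 := (pow_one L).symm
      _ ≤ L ^ A := pow_le_pow_right₀ (by linarith) (hB1.trans hA)
  have hθpos : 0 < θ := lt_of_lt_of_le (by positivity) hθ1
  have hθX : L ^ A ≤ θ * X := by rwa [div_le_iff₀ hXpos] at hθ1
  have hθE : 1 / θ ≤ X / Real.exp y := by
    rw [div_le_div_iff₀ hθpos hE, one_mul, mul_comm X]
    exact hEA.trans hθX
  have hθX' : 1 / θ ≤ X := by
    refine hθE.trans (div_le_self hXpos.le (Real.one_le_exp hy0))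
  have hθ11 : 1 ≤ 1 / θ := by
    rw [le_div_iff₀ hθpos, one_mul]
    exact hθ2.trans (Real.rpow_le_one_of_one_le_of_nonpos hX1 (by norm_num))
  -- norms
  have hKtriv : ∀ t, ‖dp (Ico M1 M2) (fun _ => 1) t‖ ≤ R * M1 := by
    intro t
    refine (norm_dp_le _ _ t).trans ?_
    simp only [norm_one, sum_const, Nat.card_Ico, nsmul_eq_mul, mul_one]
    have : ((M2 - M1 : ℕ) : ℝ) ≤ M2 := by exact_mod_cast Nat.sub_le M2 M1
    linarith
  have hQtriv : ∀ t, ‖dp S (fun _ => 1) t‖ ≤ 2 * Real.exp y := by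
    intro t
    refine (norm_dp_le _ _ t).trans ?_
    simp only [norm_one, sum_const, nsmul_eq_mul, mul_one]
    exact hcard
  have hprod2 : (2 : ℝ) ^ a * Real.exp y * M1 ≤ R * X := hprod
  have hUa : ∀ t, ‖Ud (PU a) t‖ ≤ 2 ^ a * (2 * L) := by
    intro t
    refine (ud_le a t).trans ?_
    gcongr
  have htriv : ∀ t, ‖Ud (PU a) t * dp S (fun _ => 1) t * dp (Ico M1 M2) (fun _ => 1) t‖ ≤
      4 * R ^ 2 * X * L := by
    intro t
    rw [norm_mul, norm_mul]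
    calc ‖Ud (PU a) t‖ * ‖dp S (fun _ => 1) t‖ * ‖dp (Ico M1 M2) (fun _ => 1) t‖
        ≤ (2 ^ a * (2 * L)) * (2 * Real.exp y) * (R * M1) := by
          have := hUa t
          have := hQtriv t
          have := hKtriv t
          gcongr
      _ = 4 * R * L * (2 ^ a * Real.exp y * M1) := by ring
      _ ≤ 4 * R * L * (R * X) := by gcongr
      _ = 4 * R ^ 2 * X * L := by ring
  have hlarge : ∀ t, (M1 : ℝ) ^ (1 / 50 : ℝ) < |t| → |t| ≤ X →
      Real.exp ((1 - α) * y) < ‖dp S (fun _ => 1) t‖ →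
      ‖Ud (PU a) t * dp S (fun _ => 1) t * dp (Ico M1 M2) (fun _ => 1) t‖ ≤
        4 * R * X * L * Real.exp (-(κ * η * L)) := by
    intro t ht1 ht2 _
    have hXM : X ≤ (M1 : ℝ) ^ (1 / κ) := by
      have h1 : (X ^ κ) ^ (1 / κ) ≤ (M1 : ℝ) ^ (1 / κ) :=
        Real.rpow_le_rpow (by positivity) hM1 (by positivity)
      rwa [← Real.rpow_mul hXpos.le, mul_one_div_cancel hκ.ne', Real.rpow_one] at h1
    have hK := hk M1 hM0M t ht1.le (ht2.trans hXM) M1 M2 le_rfl hM2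
    have hKe : (M1 : ℝ) ^ (1 - η) ≤ M1 * Real.exp (-(κ * η * L)) := by
      rw [Real.rpow_sub hM1pos, Real.rpow_one, div_eq_mul_inv, ← Real.rpow_neg hM1pos.le]
      have h1 : (M1 : ℝ) ^ (-η) ≤ (Real.exp (κ * L)) ^ (-η) :=
        Real.rpow_le_rpow_of_nonpos (Real.exp_pos _) hM1X (by linarith)
      have h2 : (Real.exp (κ * L)) ^ (-η) = Real.exp (-(κ * η * L)) := by
        rw [← Real.exp_mul]
        congr 1
        ring
      rw [h2] at h1
      gcongr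
    rw [norm_mul, norm_mul]
    calc ‖Ud (PU a) t‖ * ‖dp S (fun _ => 1) t‖ * ‖dp (Ico M1 M2) (fun _ => 1) t‖
        ≤ (2 ^ a * (2 * L)) * (2 * Real.exp y) * (M1 * Real.exp (-(κ * η * L))) := by
          have := hUa t
          have := hQtriv t
          have := hK.trans hKe
          gcongr
      _ = 4 * L * Real.exp (-(κ * η * L)) * (2 ^ a * Real.exp y * M1) := by ring
      _ ≤ 4 * L * Real.exp (-(κ * η * L)) * (R * X) := by gcongr
      _ = 4 * R * X * L * Real.exp (-(κ * η * L)) := by ring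
  -- mean value of `U K`
  set N : ℝ := 2 * R ^ 2 * X / Real.exp y with hN
  have hNle : 2 ^ (a + 1) * (M2 : ℝ) ≤ N := by
    rw [hN, le_div_iff₀ hE]
    calc 2 ^ (a + 1) * (M2 : ℝ) * Real.exp y ≤ 2 ^ (a + 1) * (R * M1) * Real.exp y := by gcongr
      _ = 2 * R * (2 ^ a * Real.exp y * M1) := by rw [pow_succ]; ring
      _ ≤ 2 * R * (R * X) := by gcongr
      _ = 2 * R ^ 2 * X := by ring
  have hN2 : 2 ≤ N := by
    refine le_trans ?_ hNle
    have h1 : (1 : ℝ) ≤ M2 := by exact_mod_cast hM1n.trans hM12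
    have h2 : (2 : ℝ) ≤ 2 ^ (a + 1) := by
      rw [pow_succ]
      have : (1 : ℝ) ≤ 2 ^ a := one_le_pow₀ (by norm_num)
      linarith
    nlinarith
  have h3 := huk a M1 M2 hM1n hM12 (1 / θ) N hθ11 hN2 hNle
  -- the measure
  set l : ℕ := ⌈L / y⌉₊ with hl
  have hypos : 0 < y := by
    have : 1 * 4 ≤ (B : ℝ) * Real.log L := by gcongr
    linarith
  have hlX : X ≤ Real.exp (l * y) := by
    rw [hXL]
    apply Real.exp_le_exp.mpr
    have h1 := Nat.le_ceil (L / y)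
    rw [div_le_iff₀ hypos] at h1
    exact h1
  have hCM : CM (fun _ : ℕ => (1 : ℂ)) := ⟨fun _ _ _ _ => by norm_num, fun _ => by norm_num⟩
  have hmeas := meas_large (fun _ => 1) hCM S (fun q hq => (hSp q hq).1) 2 v l (by norm_num) hrs
    (fun q hq => (hSp q hq).2) X α hX1 hlX
  have hcontUK : Continuous (fun t => Ud (PU a) t * dp (Ico M1 M2) (fun _ => 1) t) :=
    (continuous_Ud _).mul (continuous_dp _ _)
  have hboundUK : ∀ t, ‖Ud (PU a) t * dp (Ico M1 M2) (fun _ => 1) t‖ ≤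
      (2 ^ a * (2 * L)) * (R * M1) := by
    intro t
    rw [norm_mul]
    have := hUa t
    have := hKtriv t
    gcongr
  have hmain := block_split (Ud (PU a)) (dp S (fun _ => 1)) (dp (Ico M1 M2) (fun _ => 1))
    (continuous_dp _ _) hcontUK _ hboundUK (4 * R ^ 2 * X * L) X ((M1 : ℝ) ^ (1 / 50 : ℝ)) θ
    ((M1 : ℝ) ^ (-(1 / 30) : ℝ)) (Real.exp ((1 - α) * y)) L
    (4 * R * X * L * Real.exp (-(κ * η * L))) _ _ (by positivity) hθpos (by positivity)
    hLpos.le htriv (hLA.trans hθX) hlarge h3 hmeas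
  refine hmain.trans ?_
  have f1 := Block.fin1 κ R L X M1 C hR hLpos hXpos hM1X hev1
  have f2 := Block.fin2 R L X θ C hR (by linarith) hXL hθX' hev2
  have f3 := Block.fin3 R L X θ y α Cu B C c0 hR (by linarith) hXL hα0 hCu hBC hy0 hN2 hθE hy1
    hlogR hev3
  have f4m := Block.fin4m κ η L y α A B l (by linarith) hα hκη1 hκη0 hB8 (Nat.cast_nonneg _)
    hlog4 hB1r hy1 hyA hl
  have f4 := Block.fin4 κ η R L X _ A C hR (by linarith) hXL f4m hev4
  have hsum : X ^ 2 / L ^ C = X ^ 2 / (4 * L ^ C) + X ^ 2 / (4 * L ^ C) + X ^ 2 / (4 * L ^ C) +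
      X ^ 2 / (4 * L ^ C) := by
    field_simp
    ring
  rw [hsum]
  exact add_le_add (add_le_add (add_le_add f1 f2) f3) f4

end Pool.Agent.BernOne
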