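import Pool.Agent.BernOne.Defs
import Pool.Agent.H6.HR.Mertens

set_option autoImplicit false

open Finset

namespace Pool.Agent.BernOne

open Pool.Agent.MR

/-- the sum over `QS A B X` is the sum over the primes `p` with `(log X)^B < p ≤ (log X)^A` -/
lemma qs_eq (A B : ℕ) (X : ℝ) (h : 0 ≤ Real.log X) :
    QS A B X = (Pool.Agent.CoprimeSieve.pr ((Real.log X) ^ A)).filter
      (fun p : ℕ => (Real.log X) ^ B < (p : ℝ)) := by
  ext p
  simp only [QS, mem_filter, mem_Ioc, Pool.Agent.CoprimeSieve.mem_pr]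
  constructor
  · rintro ⟨⟨h1, h2⟩, h3⟩
    exact ⟨⟨h3, (Nat.le_floor_iff' h3.ne_zero).mp h2⟩, Nat.lt_of_floor_lt h1⟩
  · rintro ⟨⟨h1, h2⟩, h3⟩
    exact ⟨⟨(Nat.floor_lt (by positivity)).mpr h3, (Nat.le_floor_iff' h1.ne_zero).mpr h2⟩, h1⟩

/-- `rs (QS A B X) → log (A/B)`; from `mertens_second_lower` (careful with the floors: the primes
`p` with `(log X)^B < p ≤ (log X)^A` are exactly the elements of `QS A B X`). -/
theorem exists_A (L0 : ℝ) (B : ℕ) (hB : 1 ≤ B) : ∃ A : ℕ, B ≤ A ∧ ∃ X0 : ℕ, ∀ X : ℕ, X0 ≤ X →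
    L0 ≤ rs (QS A B X) := by
  obtain ⟨C, hC, hM⟩ := Pool.Agent.H6.HR.mertens_second_lower
  have hc1 : 1 ≤ ⌈Real.exp (L0 + 1)⌉₊ := Nat.one_le_ceil_iff.2 (Real.exp_pos _)
  refine ⟨B * ⌈Real.exp (L0 + 1)⌉₊, Nat.le_mul_of_pos_right _ hc1, ⌈Real.exp (Real.exp (C + 1))⌉₊, ?_⟩
  intro X hX
  have hX' : Real.exp (Real.exp (C + 1)) ≤ X := (Nat.le_ceil _).trans (by exact_mod_cast hX)
  have hX0 : (0 : ℝ) < X := (Real.exp_pos _).trans_le hX'
  have hl : Real.exp (C + 1) ≤ Real.log X := (Real.le_log_iff_exp_le hX0).2 hX'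
  have hl2 : (2 : ℝ) ≤ Real.log X := by
    have := Real.add_one_le_exp (C + 1)
    linarith
  have hl0 : (0 : ℝ) < Real.log X := by linarith
  have hll : C + 1 ≤ Real.log (Real.log X) := (Real.le_log_iff_exp_le hl0).2 hl
  have hll0 : 0 < Real.log (Real.log X) := by linarith
  have hBp : (0 : ℝ) < B := by exact_mod_cast hB
  have ha : (2 : ℝ) ≤ (Real.log X) ^ B := by
    calc (2 : ℝ) ≤ Real.log X := hl2
      _ = (Real.log X) ^ 1 := (pow_one _).symm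
      _ ≤ (Real.log X) ^ B := pow_le_pow_right₀ (by linarith) hB
  have hab : (Real.log X) ^ B ≤ (Real.log X) ^ (B * ⌈Real.exp (L0 + 1)⌉₊) :=
    pow_le_pow_right₀ (by linarith) (Nat.le_mul_of_pos_right _ hc1)
  have h := hM _ _ ha hab
  rw [rs, qs_eq _ _ _ hl0.le]
  refine le_trans ?_ h
  rw [Real.log_pow, Real.log_pow]
  have e : ((B * ⌈Real.exp (L0 + 1)⌉₊ : ℕ) : ℝ) * Real.log (Real.log X) /
      ((B : ℝ) * Real.log (Real.log X)) = (⌈Real.exp (L0 + 1)⌉₊ : ℝ) := by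
    push_cast
    field_simp
  rw [e]
  have h1 : L0 + 1 ≤ Real.log (⌈Real.exp (L0 + 1)⌉₊ : ℝ) :=
    (Real.le_log_iff_exp_le (by exact_mod_cast hc1)).2 (Nat.le_ceil _)
  have h2 : C / ((B : ℝ) * Real.log (Real.log X)) ≤ 1 := by
    rw [div_le_one (by positivity)]
    have : (1 : ℝ) ≤ B := by exact_mod_cast hB
    nlinarith
  linarith

end Pool.Agent.BernOne
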