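import Pool.Agent.BernOne.Defs
import Pool.Agent.BernIrr.Max
import Pool.Agent.MR.ATk
import Pool.Agent.CoprimeSieve.Mertens

set_option autoImplicit false

open Finset

namespace Pool.Agent.BernOne

open Pool.Agent.MR Pool.Agent.BernIrr

/-- Decomposition of `Zf`: an odd prime `p` with `p - 1 ∣ m` outside `PS2` has `p ≤ X^(1-κ)` and
`om .. ≥ (19/20) rs`, so `log p ≤ (20/19) log p * om / rs`. -/
theorem zf_le (κ : ℝ) (A B : ℕ) (X : ℝ) (m : ℕ) (hm : 1 ≤ m) (hr : 0 < rs (QS A B X)) :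
    Zf m ≤ 20 / 19 * (Z1 κ A B X m / rs (QS A B X)) + Z2 κ A B X m := by
  classical
  have hnn : ∀ p : ℕ, 0 ≤ Real.log p := fun p => Real.log_natCast_nonneg p
  unfold Zf
  set F := (range (m + 2)).filter (fun p => p.Prime ∧ p ≠ 2 ∧ (p - 1) ∣ m) with hF
  rw [← sum_filter_add_sum_filter_not F (fun p => p ∉ PS2 κ A B X m)]
  refine add_le_add ?_ ?_
  · have h1 : ∑ p ∈ F.filter (fun p => p ∉ PS2 κ A B X m), Real.log p ≤
        ∑ p ∈ F.filter (fun p => p ∉ PS2 κ A B X m),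
          20 / 19 * (Real.log p * (om (QS A B X) (m / (p - 1)) : ℝ) / rs (QS A B X)) := by
      apply sum_le_sum
      intro p hp
      rw [mem_filter, hF, mem_filter, mem_range] at hp
      obtain ⟨⟨hp1, hpp, hp2, hpd⟩, hp3⟩ := hp
      have htwo := hpp.two_le
      have h19 : 19 / 20 * rs (QS A B X) ≤ (om (QS A B X) (m / (p - 1)) : ℝ) := by
        by_contra hlt
        push Not at hlt
        apply hp3
        unfold PS2
        rw [mem_filter, mem_Icc]
        exact ⟨⟨by omega, by omega⟩, hpp, hpd, Or.inr hlt⟩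
      have h20 : 1 ≤ 20 / 19 * ((om (QS A B X) (m / (p - 1)) : ℝ) / rs (QS A B X)) := by
        rw [← mul_div_assoc, le_div_iff₀ hr]
        linarith
      calc Real.log p = Real.log p * 1 := (mul_one _).symm
        _ ≤ Real.log p * (20 / 19 * ((om (QS A B X) (m / (p - 1)) : ℝ) / rs (QS A B X))) :=
            mul_le_mul_of_nonneg_left h20 (hnn p)
        _ = _ := by ring
    refine h1.trans ?_
    unfold Z1
    rw [sum_div, mul_sum]
    apply sum_le_sum_of_subset_of_nonneg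
    · intro p hp
      rw [mem_filter, hF, mem_filter, mem_range] at hp
      obtain ⟨⟨hp1, hpp, hp2, hpd⟩, hp3⟩ := hp
      have htwo := hpp.two_le
      unfold PS1
      rw [mem_filter, mem_Icc]
      refine ⟨⟨by omega, by omega⟩, hpp, hpd, ?_⟩
      by_contra hlt
      push Not at hlt
      apply hp3
      unfold PS2
      rw [mem_filter, mem_Icc]
      exact ⟨⟨by omega, by omega⟩, hpp, hpd, Or.inl hlt⟩
    · intro p _ _
      have := hnn p
      positivity
  · unfold Z2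
    apply sum_le_sum_of_subset_of_nonneg
    · intro p hp
      rw [mem_filter] at hp
      exact not_not.1 hp.2
    · intro p _ _
      exact hnn p

theorem sm_div {p : ℕ} (hp : p.Prime) :
    Real.log p / ((p : ℝ) - 1) = Real.log p / p + Real.log p / ((p : ℝ) * (p - 1)) := by
  have h8 : (p:ℝ) ≠ 0 := by
    have := hp.ne_zero
    exact_mod_cast this
  have h9 : (p:ℝ) - 1 ≠ 0 := by
    have : (2:ℝ) ≤ p := by exact_mod_cast hp.two_le
    linarith
  field_simp
  ring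

/-- Mertens on `(a, b]` with `p - 1` in the denominator -/
theorem sm_mert : ∃ C : ℝ, 0 ≤ C ∧ ∀ (P : Finset ℕ) (a b : ℝ), 1 ≤ a → a ≤ b →
    (∀ p ∈ P, p.Prime ∧ a < (p : ℝ) ∧ (p : ℝ) ≤ b) →
    ∑ p ∈ P, Real.log p / ((p : ℝ) - 1) ≤ Real.log b - Real.log a + C := by
  classical
  obtain ⟨C0, hC0, hM⟩ := Pool.Agent.CoprimeSieve.mertens_first
  set C1 : ℝ := ∑' n : ℕ, 4 * (1 / (n:ℝ) ^ (3/2 : ℝ)) with hC1
  have hC1n : 0 ≤ C1 := tsum_nonneg (fun n => by positivity)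
  have hnn : ∀ p : ℕ, 0 ≤ Real.log p := fun p => Real.log_natCast_nonneg p
  refine ⟨2 * C0 + C1, by positivity, ?_⟩
  intro P a b ha hab hP
  have e1 : ∑ p ∈ P, Real.log p / ((p : ℝ) - 1) =
      ∑ p ∈ P, Real.log p / p + ∑ p ∈ P, Real.log p / ((p : ℝ) * (p - 1)) := by
    rw [← sum_add_distrib]
    exact sum_congr rfl (fun p hp => sm_div (hP p hp).1)
  have h4 : ∑ p ∈ P, Real.log p / ((p : ℝ) * (p - 1)) ≤ C1 := by
    calc ∑ p ∈ P, Real.log p / ((p:ℝ) * (p - 1)) ≤ ∑ p ∈ P, 4 * (1 / (p:ℝ) ^ (3/2 : ℝ)) := by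
          apply Finset.sum_le_sum
          intro p hp
          exact Pool.Agent.CoprimeSieve.log_div_le p (hP p hp).1.two_le
      _ ≤ _ := Summable.sum_le_tsum _ (fun n _ => by positivity) Pool.Agent.CoprimeSieve.summable_aux
  have h5 : ∑ p ∈ P, Real.log p / p + Pool.Agent.CoprimeSieve.mE a ≤
      Pool.Agent.CoprimeSieve.mE b := by
    unfold Pool.Agent.CoprimeSieve.mE
    rw [← sum_union]
    · apply sum_le_sum_of_subset_of_nonneg
      · intro p hp
        rw [mem_union] at hp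
        rw [Pool.Agent.CoprimeSieve.mem_pr]
        rcases hp with hp | hp
        · exact ⟨(hP p hp).1, (hP p hp).2.2⟩
        · rw [Pool.Agent.CoprimeSieve.mem_pr] at hp
          exact ⟨hp.1, hp.2.trans hab⟩
      · intro p _ _
        exact Pool.Agent.CoprimeSieve.logdiv_nonneg p
    · rw [disjoint_left]
      intro p hp hp2
      rw [Pool.Agent.CoprimeSieve.mem_pr] at hp2
      exact absurd hp2.2 (not_le.2 (hP p hp).2.1)
  have h6 := hM a ha
  have h7 := hM b (ha.trans hab)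
  rw [abs_le] at h6 h7
  rw [e1]
  linarith [h6.1, h7.2]

/-- Chebyshev for `om` on an initial interval -/
theorem sm_cheb (P : Finset ℕ) (hP : ∀ p ∈ P, p.Prime) (Z : ℕ) (hZ : ∀ p ∈ P, p ≤ Z) (Y : ℕ)
    (hY : 4 * (Z : ℝ) ^ 2 ≤ Y) (hr : 1 ≤ rs P) :
    (((Icc 1 Y).filter (fun k => (om P k : ℝ) < 19 / 20 * rs P)).card : ℝ) ≤ 800 * Y / rs P := by
  have h1 := tk P hP Z hZ 0 Y (Nat.zero_le _)
  have h2 : (((Icc 1 Y).filter (fun k => (om P k : ℝ) < 19 / 20 * rs P)).card : ℝ) *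
      ((rs P) ^ 2 / 400) ≤ ∑ n ∈ Ioc 0 Y, ((om P n : ℝ) - rs P) ^ 2 := by
    rw [← nsmul_eq_mul, ← sum_const]
    calc ∑ n ∈ (Icc 1 Y).filter (fun k => (om P k : ℝ) < 19 / 20 * rs P), (rs P) ^ 2 / 400
        ≤ ∑ n ∈ (Icc 1 Y).filter (fun k => (om P k : ℝ) < 19 / 20 * rs P),
            ((om P n : ℝ) - rs P) ^ 2 := by
          apply sum_le_sum
          intro n hn
          rw [mem_filter] at hn
          nlinarith [hn.2]
      _ ≤ _ := by
          apply sum_le_sum_of_subset_of_nonneg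
          · intro n hn
            rw [mem_filter, mem_Icc] at hn
            rw [mem_Ioc]
            exact ⟨hn.1.1, hn.1.2⟩
          · intro n _ _
            positivity
  have hr0 : 0 < rs P := by linarith
  have hY0 : (0:ℝ) ≤ Y := Nat.cast_nonneg Y
  have h3 : ((Y : ℝ) - ((0 : ℕ) : ℝ)) * rs P + 4 * (Z : ℝ) ^ 2 ≤ 2 * Y * rs P := by
    push_cast
    nlinarith
  rw [le_div_iff₀ hr0]
  have h4 := (h2.trans h1).trans h3
  have h5 : (((Icc 1 Y).filter (fun k => (om P k : ℝ) < 19 / 20 * rs P)).card : ℝ) * rs P *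
      rs P ≤ 800 * Y * rs P := by nlinarith
  exact le_of_mul_le_mul_right h5 hr0

theorem sm_pow (κ : ℝ) (hκ : 0 < κ) (A : ℕ) : ∃ X0 : ℕ, ∀ X : ℕ, X0 ≤ X →
    4 * (Real.log X) ^ (2 * A) + 1 ≤ (X : ℝ) ^ κ := by
  have h1 := isLittleO_log_rpow_rpow_atTop ((2 * A + 1 : ℕ) : ℝ) hκ
  have h2 := h1.bound (show (0:ℝ) < 1 / 5 by norm_num)
  have h3 : ∀ᶠ x : ℝ in Filter.atTop, 4 * (Real.log x) ^ (2 * A) + 1 ≤ x ^ κ := by
    filter_upwards [h2, Filter.eventually_ge_atTop (Real.exp 1)] with x hx hx1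
    have hx0 : 0 < x := lt_of_lt_of_le (Real.exp_pos 1) hx1
    have hl : 1 ≤ Real.log x := by
      rw [Real.le_log_iff_exp_le hx0]
      exact hx1
    rw [Real.norm_of_nonneg (by positivity), Real.norm_of_nonneg (by positivity),
      Real.rpow_natCast] at hx
    have h4 : (Real.log x) ^ (2 * A) ≤ (Real.log x) ^ (2 * A + 1) :=
      pow_le_pow_right₀ hl (by omega)
    have h5 : 1 ≤ (Real.log x) ^ (2 * A + 1) := one_le_pow₀ hl
    linarith
  have h4 := tendsto_natCast_atTop_atTop (R := ℝ) |>.eventually h3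
  rw [Filter.eventually_atTop] at h4
  exact h4

theorem qs_prime {A B : ℕ} {X : ℝ} {p : ℕ} (hp : p ∈ QS A B X) : p.Prime := by
  unfold QS at hp
  exact (mem_filter.1 hp).2

/-- Mean of the exceptional part. -/
theorem sum_Z2 : ∃ C0 : ℝ, 0 < C0 ∧ ∀ κ : ℝ, 0 < κ → κ ≤ 1 / 4 → ∀ A B : ℕ, ∃ X0 : ℕ,
    ∀ X : ℕ, X0 ≤ X → 1 ≤ rs (QS A B X) →
      ∑ m ∈ Icc 1 X, Z2 κ A B X m ≤ C0 * (κ + 1 / rs (QS A B X)) * X * Real.log X := by
  classical
  obtain ⟨C, hC, hM⟩ := sm_mert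
  refine ⟨1600, by norm_num, ?_⟩
  intro κ hκ hκ1 A B
  obtain ⟨X1, hX1⟩ := sm_pow κ hκ A
  obtain ⟨X2, hX2⟩ : ∃ X2 : ℕ, ∀ X : ℕ, X2 ≤ X → (C + Real.log 2) / κ ≤ Real.log X := by
    have h1 := Real.tendsto_log_atTop.eventually_ge_atTop ((C + Real.log 2) / κ)
    have h2 := tendsto_natCast_atTop_atTop (R := ℝ) |>.eventually h1
    rw [Filter.eventually_atTop] at h2
    exact h2
  refine ⟨max (max X1 X2) 3, ?_⟩
  intro X hX hr
  have hXa : X1 ≤ X := le_trans (le_trans (le_max_left _ _) (le_max_left _ _)) hX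
  have hXb : X2 ≤ X := le_trans (le_trans (le_max_right _ _) (le_max_left _ _)) hX
  have hXc : 3 ≤ X := le_trans (le_max_right _ _) hX
  have hpow := hX1 X hXa
  have hlogC := hX2 X hXb
  have hX0 : (0:ℝ) < X := by exact_mod_cast (by omega : 0 < X)
  have hX1' : (1:ℝ) ≤ X := by exact_mod_cast (by omega : 1 ≤ X)
  have hnn : ∀ p : ℕ, 0 ≤ Real.log p := fun p => Real.log_natCast_nonneg p
  set R := rs (QS A B X) with hR
  have hr0 : 0 < R := by linarith
  set Z := ⌊(Real.log X) ^ A⌋₊ with hZ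
  have hZle : (Z : ℝ) ≤ (Real.log X) ^ A := Nat.floor_le (by have := hnn X; positivity)
  have hZ2 : 4 * (Z : ℝ) ^ 2 ≤ (X : ℝ) ^ κ - 1 := by
    have h1 : (Z : ℝ) ^ 2 ≤ ((Real.log X) ^ A) ^ 2 := by
      apply pow_le_pow_left₀ (Nat.cast_nonneg _) hZle
    rw [← pow_mul, mul_comm A 2] at h1
    linarith
  set P := (Icc 3 (X + 1)).filter Nat.Prime with hP
  have hmemP : ∀ p, p ∈ P ↔ 3 ≤ p ∧ p ≤ X + 1 ∧ p.Prime := by
    intro p
    rw [hP, mem_filter, mem_Icc, and_assoc]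
  -- swap the sums
  have h1 : ∑ m ∈ Icc 1 X, Z2 κ A B X m ≤ ∑ p ∈ P, Real.log p *
      (((Icc 1 X).filter (fun m => (p - 1) ∣ m ∧
        ((X : ℝ) ^ (1 - κ) < (p : ℝ) ∨ (om (QS A B X) (m / (p - 1)) : ℝ) <
          19 / 20 * R))).card : ℝ) := by
    have e1 : ∀ m ∈ Icc 1 X, Z2 κ A B X m ≤ ∑ p ∈ P, if ((p - 1) ∣ m ∧
        ((X : ℝ) ^ (1 - κ) < (p : ℝ) ∨ (om (QS A B X) (m / (p - 1)) : ℝ) <
          19 / 20 * R)) then Real.log p else 0 := by
      intro m hm
      rw [mem_Icc] at hm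
      rw [← sum_filter]
      unfold Z2
      apply sum_le_sum_of_subset_of_nonneg
      · intro p hp
        unfold PS2 at hp
        rw [mem_filter, mem_Icc] at hp
        rw [mem_filter, hmemP]
        exact ⟨⟨hp.1.1, by omega, hp.2.1⟩, hp.2.2.1, hp.2.2.2⟩
      · intro p _ _
        exact hnn p
    refine (sum_le_sum e1).trans ?_
    rw [sum_comm]
    apply sum_le_sum
    intro p _
    rw [← sum_filter, sum_const, nsmul_eq_mul, mul_comm]
  -- the number of multiples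
  have hmul : ∀ p ∈ P, ((X / (p - 1) : ℕ) : ℝ) ≤ X / ((p : ℝ) - 1) := by
    intro p hp
    rw [hmemP] at hp
    have h3 : ((p - 1 : ℕ) : ℝ) = (p : ℝ) - 1 := by
      rw [Nat.cast_sub (by omega)]
      simp
    rw [← h3]
    exact Nat.cast_div_le
  have hcnt : ∀ p ∈ P, ∀ S T : Finset ℕ, (∀ m ∈ S, (p - 1) ∣ m ∧ m / (p - 1) ∈ T) →
      S.card ≤ T.card := by
    intro p hp S T hST
    apply card_le_card_of_injOn (fun m => m / (p - 1))
    · intro m hm
      exact (hST m hm).2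
    · intro m hm m' hm' he
      simp only at he
      have e1 := Nat.div_mul_cancel (hST m hm).1
      have e2 := Nat.div_mul_cancel (hST m' hm').1
      rw [← e1, ← e2, he]
  have hbig : ∀ p ∈ P, (((Icc 1 X).filter (fun m => (p - 1) ∣ m ∧
        ((X : ℝ) ^ (1 - κ) < (p : ℝ) ∨ (om (QS A B X) (m / (p - 1)) : ℝ) <
          19 / 20 * R))).card : ℝ) ≤ X / ((p : ℝ) - 1) := by
    intro p hp
    have h2 : ((Icc 1 X).filter (fun m => (p - 1) ∣ m ∧
        ((X : ℝ) ^ (1 - κ) < (p : ℝ) ∨ (om (QS A B X) (m / (p - 1)) : ℝ) <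
          19 / 20 * R))).card ≤ X / (p - 1) := by
      have h3 := hcnt p hp ((Icc 1 X).filter (fun m => (p - 1) ∣ m ∧
        ((X : ℝ) ^ (1 - κ) < (p : ℝ) ∨ (om (QS A B X) (m / (p - 1)) : ℝ) <
          19 / 20 * R))) (Icc 1 (X / (p - 1))) (by
            intro m hm
            have hp3 := (hmemP p).1 hp
            rw [mem_filter, mem_Icc] at hm
            refine ⟨hm.2.1, ?_⟩
            rw [mem_Icc]
            exact ⟨Nat.div_pos (Nat.le_of_dvd (by omega) hm.2.1) (by omega),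
              Nat.div_le_div_right hm.1.2⟩)
      refine h3.trans ?_
      rw [Nat.card_Icc, Nat.add_sub_cancel]
    exact le_trans (by exact_mod_cast h2) (hmul p hp)
  have hsmall : ∀ p ∈ P, (p : ℝ) ≤ (X : ℝ) ^ (1 - κ) → (((Icc 1 X).filter (fun m => (p - 1) ∣ m ∧
        ((X : ℝ) ^ (1 - κ) < (p : ℝ) ∨ (om (QS A B X) (m / (p - 1)) : ℝ) <
          19 / 20 * R))).card : ℝ) ≤ 800 / R * (X / ((p : ℝ) - 1)) := by
    intro p hp hpX
    have h3 := hcnt p hp ((Icc 1 X).filter (fun m => (p - 1) ∣ m ∧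
        ((X : ℝ) ^ (1 - κ) < (p : ℝ) ∨ (om (QS A B X) (m / (p - 1)) : ℝ) <
          19 / 20 * R))) ((Icc 1 (X / (p - 1))).filter (fun k => (om (QS A B X) k : ℝ) < 19 / 20 * R))
          (by
            intro m hm
            have hp3 := (hmemP p).1 hp
            rw [mem_filter, mem_Icc] at hm
            refine ⟨hm.2.1, ?_⟩
            rw [mem_filter, mem_Icc]
            refine ⟨⟨Nat.div_pos (Nat.le_of_dvd (by omega) hm.2.1) (by omega),
              Nat.div_le_div_right hm.1.2⟩, ?_⟩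
            rcases hm.2.2 with h | h
            · exact absurd hpX (not_le.2 h)
            · exact h)
    have hp3 := (hmemP p).1 hp
    have hp1 : (0:ℝ) < (p : ℝ) - 1 := by
      have : (3:ℝ) ≤ p := by exact_mod_cast hp3.1
      linarith
    have hY : 4 * (Z : ℝ) ^ 2 ≤ ((X / (p - 1) : ℕ) : ℝ) := by
      refine hZ2.trans ?_
      have h5 : (X : ℝ) / ((p : ℝ) - 1) < ((X / (p - 1) : ℕ) : ℝ) + 1 := by
        have h3 : ((p - 1 : ℕ) : ℝ) = (p : ℝ) - 1 := by
          rw [Nat.cast_sub (by omega)]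
          simp
        rw [← h3]
        have h6 : 0 < p - 1 := by omega
        have h7 := Nat.lt_div_mul_add (a := X) h6
        rw [div_lt_iff₀ (by exact_mod_cast h6)]
        have h8 : (X : ℝ) < (((X / (p - 1) * (p - 1) + (p - 1) : ℕ)) : ℝ) := by exact_mod_cast h7
        push_cast at h8 ⊢
        linarith
      have h6 : (X : ℝ) ^ κ ≤ (X : ℝ) / ((p : ℝ) - 1) := by
        rw [le_div_iff₀ hp1]
        calc (X : ℝ) ^ κ * ((p : ℝ) - 1) ≤ (X : ℝ) ^ κ * (X : ℝ) ^ (1 - κ) := by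
              apply mul_le_mul_of_nonneg_left _ (by positivity)
              linarith
          _ = X := by
              rw [← Real.rpow_add hX0]
              simp
      linarith
    have h5 := sm_cheb (QS A B X) (fun p hp => qs_prime hp) Z (by
      intro q hq
      unfold QS at hq
      rw [mem_filter, mem_Ioc] at hq
      exact hq.1.2) (X / (p - 1)) hY hr
    have h6 : (((Icc 1 X).filter (fun m => (p - 1) ∣ m ∧
        ((X : ℝ) ^ (1 - κ) < (p : ℝ) ∨ (om (QS A B X) (m / (p - 1)) : ℝ) <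
          19 / 20 * R))).card : ℝ) ≤ 800 * ((X / (p - 1) : ℕ) : ℝ) / R :=
      le_trans (by exact_mod_cast h3) h5
    refine h6.trans ?_
    have h7 := hmul p hp
    rw [div_mul_eq_mul_div]
    gcongr
  -- sum over p
  have h2 : ∑ p ∈ P, Real.log p *
      (((Icc 1 X).filter (fun m => (p - 1) ∣ m ∧
        ((X : ℝ) ^ (1 - κ) < (p : ℝ) ∨ (om (QS A B X) (m / (p - 1)) : ℝ) <
          19 / 20 * R))).card : ℝ) ≤
      X * ∑ p ∈ P.filter (fun p : ℕ => (X : ℝ) ^ (1 - κ) < (p : ℝ)), Real.log p / ((p : ℝ) - 1) +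
      800 / R * X * ∑ p ∈ P, Real.log p / ((p : ℝ) - 1) := by
    rw [← sum_filter_add_sum_filter_not P (fun p : ℕ => (X : ℝ) ^ (1 - κ) < (p : ℝ))]
    refine add_le_add ?_ ?_
    · rw [mul_sum]
      apply sum_le_sum
      intro p hp
      rw [mem_filter] at hp
      refine (mul_le_mul_of_nonneg_left (hbig p hp.1) (hnn p)).trans (le_of_eq ?_)
      ring
    · rw [mul_sum]
      have h3 : ∑ p ∈ P.filter (fun p : ℕ => ¬ (X : ℝ) ^ (1 - κ) < (p : ℝ)), Real.log p *
        (((Icc 1 X).filter (fun m => (p - 1) ∣ m ∧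
        ((X : ℝ) ^ (1 - κ) < (p : ℝ) ∨ (om (QS A B X) (m / (p - 1)) : ℝ) <
          19 / 20 * R))).card : ℝ) ≤
          ∑ p ∈ P.filter (fun p : ℕ => ¬ (X : ℝ) ^ (1 - κ) < (p : ℝ)),
            800 / R * X * (Real.log p / ((p : ℝ) - 1)) := by
        apply sum_le_sum
        intro p hp
        rw [mem_filter] at hp
        refine (mul_le_mul_of_nonneg_left (hsmall p hp.1 (not_lt.1 hp.2)) (hnn p)).trans
          (le_of_eq ?_)
        ring
      refine h3.trans ?_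
      apply sum_le_sum_of_subset_of_nonneg (filter_subset _ _)
      intro p hp _
      have hp3 := (hmemP p).1 hp
      have hp1 : (0:ℝ) < (p : ℝ) - 1 := by
        have : (3:ℝ) ≤ p := by exact_mod_cast hp3.1
        linarith
      have := hnn p
      positivity
  have hlogX1 : Real.log ((X : ℝ) + 1) ≤ Real.log X + Real.log 2 := by
    rw [← Real.log_mul (by positivity) (by norm_num)]
    apply Real.log_le_log (by positivity)
    linarith
  have hpw1 : (1:ℝ) ≤ (X : ℝ) ^ (1 - κ) := Real.one_le_rpow hX1' (by linarith)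
  have hpw2 : (X : ℝ) ^ (1 - κ) ≤ (X : ℝ) + 1 := by
    calc (X : ℝ) ^ (1 - κ) ≤ (X : ℝ) ^ (1 : ℝ) :=
          Real.rpow_le_rpow_of_exponent_le hX1' (by linarith)
      _ = X := Real.rpow_one _
      _ ≤ _ := by linarith
  have h3 := hM (P.filter (fun p : ℕ => (X : ℝ) ^ (1 - κ) < (p : ℝ))) ((X : ℝ) ^ (1 - κ))
    ((X : ℝ) + 1) hpw1 hpw2 (by
      intro p hp
      rw [mem_filter, hmemP] at hp
      exact ⟨hp.1.2.2, hp.2, by exact_mod_cast hp.1.2.1⟩)
  have h4 := hM P 1 ((X : ℝ) + 1) le_rfl (by linarith) (by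
      intro p hp
      rw [hmemP] at hp
      exact ⟨hp.2.2, by exact_mod_cast (by omega : 1 < p), by exact_mod_cast hp.2.1⟩)
  rw [Real.log_rpow hX0] at h3
  rw [Real.log_one, sub_zero] at h4
  have hlC : C + Real.log 2 ≤ κ * Real.log X := by
    rw [div_le_iff₀ hκ] at hlogC
    linarith
  have hlX : 0 ≤ Real.log X := hnn X
  have hl2 : 0 ≤ Real.log 2 := Real.log_nonneg (by norm_num)
  have h5 : ∑ p ∈ P.filter (fun p : ℕ => (X : ℝ) ^ (1 - κ) < (p : ℝ)),
      Real.log p / ((p : ℝ) - 1) ≤ 2 * κ * Real.log X := by linarith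
  have h6 : ∑ p ∈ P, Real.log p / ((p : ℝ) - 1) ≤ 2 * Real.log X := by
    have : κ * Real.log X ≤ 1 / 4 * Real.log X := mul_le_mul_of_nonneg_right hκ1 hlX
    linarith
  refine (h1.trans h2).trans ?_
  have h7 : (X : ℝ) * ∑ p ∈ P.filter (fun p : ℕ => (X : ℝ) ^ (1 - κ) < (p : ℝ)),
      Real.log p / ((p : ℝ) - 1) ≤ X * (2 * κ * Real.log X) :=
    mul_le_mul_of_nonneg_left h5 hX0.le
  have h8 : 800 / R * X * ∑ p ∈ P, Real.log p / ((p : ℝ) - 1) ≤ 800 / R * X * (2 * Real.log X) :=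
    mul_le_mul_of_nonneg_left h6 (by positivity)
  refine (add_le_add h7 h8).trans ?_
  have h9 : 0 ≤ κ * X * Real.log X := by positivity
  have h10 : 1600 * (κ + 1 / R) * X * Real.log X =
      1600 * (κ * X * Real.log X) + 800 / R * X * (2 * Real.log X) := by ring
  rw [h10]
  nlinarith

open scoped Classical in
/-- The exceptional part is small in all windows, for almost all odd `n`. -/
theorem small_max (ε : ℝ) (hε : 0 < ε) : ∃ κ L0 : ℝ, 0 < κ ∧ κ ≤ 1 / 4 ∧ 1 ≤ L0 ∧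
    ∀ A B : ℕ, ∃ X0 : ℕ, ∀ X : ℕ, X0 ≤ X → L0 ≤ rs (QS A B X) →
      (((Icc 1 X).filter (fun n : ℕ => Odd n ∧ ∃ j : ℕ, 1 ≤ j ∧ 2 * j ≤ n - 1 ∧
        1 / 10 * Real.log X * j ≤ ∑ i ∈ range j, Z2 κ A B X (n - 1 - 2 * i))).card : ℝ)
          ≤ ε * X := by
  obtain ⟨C0, hC0, hS⟩ := sum_Z2
  have hnn : ∀ p : ℕ, 0 ≤ Real.log p := fun p => Real.log_natCast_nonneg p
  refine ⟨min (1 / 4) (ε / (20 * C0)), 1 + 20 * C0 / ε, lt_min (by norm_num) (by positivity),
    min_le_left _ _, by have : 0 ≤ 20 * C0 / ε := by positivity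
                        linarith, ?_⟩
  set κ := min (1 / 4) (ε / (20 * C0)) with hκ
  have hκ0 : 0 < κ := lt_min (by norm_num) (by positivity)
  intro A B
  obtain ⟨X0, hX0⟩ := hS κ hκ0 (min_le_left _ _) A B
  refine ⟨max X0 3, ?_⟩
  intro X hX hL
  have hXa : X0 ≤ X := le_trans (le_max_left _ _) hX
  have hXb : 3 ≤ X := le_trans (le_max_right _ _) hX
  have h20 : 0 < 20 * C0 / ε := by positivity
  have hr1 : 1 ≤ rs (QS A B X) := by linarith
  have hr0 : 0 < rs (QS A B X) := by linarith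
  have h1 := hX0 X hXa hr1
  have hlog : 0 < Real.log X := Real.log_pos (by exact_mod_cast (by omega : 1 < X))
  have hXp : (0:ℝ) < X := by exact_mod_cast (by omega : 0 < X)
  have hZ2nn : ∀ m, 0 ≤ Z2 κ A B X m := by
    intro m
    unfold Z2
    exact sum_nonneg (fun p _ => hnn p)
  have h2 := maximal (fun k => Z2 κ A B X (2 * k)) (fun k => hZ2nn _)
    (show 0 < 1 / 10 * Real.log X by positivity) (X / 2)
  have h3 : ((Icc 1 X).filter (fun n : ℕ => Odd n ∧ ∃ j : ℕ, 1 ≤ j ∧ 2 * j ≤ n - 1 ∧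
        1 / 10 * Real.log X * j ≤ ∑ i ∈ range j, Z2 κ A B X (n - 1 - 2 * i))).card ≤
      ((Icc 1 (X / 2)).filter (fun k => ∃ j, 1 ≤ j ∧ j ≤ k ∧
      1 / 10 * Real.log X * j ≤ ∑ i ∈ range j, Z2 κ A B X (2 * (k - i)))).card := by
    apply card_le_card_of_injOn (fun n => (n - 1) / 2)
    · intro n hn
      simp only [coe_filter, mem_Icc, Set.mem_ofPred_eq] at hn ⊢
      obtain ⟨⟨hn1, hn2⟩, ⟨k, hk⟩, j, hj1, hj2, hj3⟩ := hn
      have hk2 : (n - 1) / 2 = k := by omega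
      rw [hk2]
      refine ⟨by omega, j, hj1, by omega, ?_⟩
      refine hj3.trans (le_of_eq ?_)
      apply sum_congr rfl
      intro i hi
      rw [mem_range] at hi
      congr 1
      omega
    · intro n hn n' hn' he
      simp only [coe_filter, mem_Icc, Set.mem_ofPred_eq] at hn hn' he
      obtain ⟨_, ⟨k, hk⟩, _⟩ := hn
      obtain ⟨_, ⟨k', hk'⟩, _⟩ := hn'
      omega
  have h4 : ∑ k ∈ Icc 1 (X / 2), Z2 κ A B X (2 * k) ≤ ∑ m ∈ Icc 1 X, Z2 κ A B X m := by
    have e1 : ∑ k ∈ Icc 1 (X / 2), Z2 κ A B X (2 * k) =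
        ∑ m ∈ (Icc 1 (X / 2)).image (fun k => 2 * k), Z2 κ A B X m := by
      rw [sum_image]
      intro a _ b _ hab
      simp only at hab
      omega
    rw [e1]
    apply sum_le_sum_of_subset_of_nonneg
    · intro m hm
      rw [mem_image] at hm
      obtain ⟨k, hk, rfl⟩ := hm
      rw [mem_Icc] at hk ⊢
      omega
    · intro m _ _
      exact hZ2nn m
  set N := (((Icc 1 X).filter (fun n : ℕ => Odd n ∧ ∃ j : ℕ, 1 ≤ j ∧ 2 * j ≤ n - 1 ∧
        1 / 10 * Real.log X * j ≤ ∑ i ∈ range j, Z2 κ A B X (n - 1 - 2 * i))).card : ℝ) with hN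
  have h5 : 1 / 10 * Real.log X * N ≤ C0 * (κ + 1 / rs (QS A B X)) * X * Real.log X := by
    refine le_trans ?_ ((h2.trans h4).trans h1)
    apply mul_le_mul_of_nonneg_left _ (by positivity)
    rw [hN]
    exact_mod_cast h3
  have h6 : κ + 1 / rs (QS A B X) ≤ ε / (10 * C0) := by
    have e1 : κ ≤ ε / (20 * C0) := min_le_right _ _
    have e2 : 1 / rs (QS A B X) ≤ ε / (20 * C0) := by
      rw [div_le_div_iff₀ hr0 (by positivity)]
      have e3 : 20 * C0 / ε ≤ rs (QS A B X) := by linarith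
      rw [div_le_iff₀ hε] at e3
      linarith
    have e3 : ε / (10 * C0) = ε / (20 * C0) + ε / (20 * C0) := by
      field_simp
      ring
    linarith
  have h7 : C0 * (κ + 1 / rs (QS A B X)) ≤ ε / 10 := by
    calc C0 * (κ + 1 / rs (QS A B X)) ≤ C0 * (ε / (10 * C0)) :=
          mul_le_mul_of_nonneg_left h6 hC0.le
      _ = ε / 10 := by field_simp
  have h8 : C0 * (κ + 1 / rs (QS A B X)) * X * Real.log X ≤ ε / 10 * X * Real.log X := by
    apply mul_le_mul_of_nonneg_right _ hlog.le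
    exact mul_le_mul_of_nonneg_right h7 hXp.le
  have h9 : 1 / 10 * Real.log X * N ≤ 1 / 10 * Real.log X * (ε * X) := by
    refine (h5.trans h8).trans (le_of_eq ?_)
    ring
  exact le_of_mul_le_mul_left h9 (by positivity)

end Pool.Agent.BernOne
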