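import Pool.Agent.BernOne.Main
import Pool.Agent.BernOne.Small
import Pool.Agent.BernOne.Rs

set_option autoImplicit false

open Finset

namespace Pool.Agent.BernOne

open Pool.Agent.MR Pool.Agent.BernIrr

open scoped Classical in
/-- Upper bound for all windows, for almost all odd `n`.
Sketch: `small_max (ε/4)` gives `κ, L0`; `conc_main κ (ε/4) (ε/4)` gives `B`; `exists_A L0 B` gives
`A`; the statement holds with `A + 1`. If `n ≥ (ε/4) X` is in none of the two exceptional sets then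
`∑ Zf ≤ (20/19)(9/2) log X j + (1/10) log X j < 5 log X j` (`zf_le`; all `n-1-2i ≥ 1` as
`2j ≤ n-1`... note `n-1-2i ≥ 2` for `i < j`). -/
theorem conc (ε : ℝ) (hε : 0 < ε) : ∃ (A X0 : ℕ), ∀ X : ℕ, X0 ≤ X →
    (((Icc 1 X).filter (fun n : ℕ => Odd n ∧ ∃ j : ℕ, (Real.log X) ^ A ≤ j ∧
      (j : ℝ) ≤ (X : ℝ) ^ (24 / 25 : ℝ) ∧ 2 * j ≤ n - 1 ∧
        5 * Real.log X * j ≤ ∑ i ∈ range j, Zf (n - 1 - 2 * i))).card : ℝ) ≤ ε * X := by
  obtain ⟨κ, L0, hκ, hκ1, hL0, hsm⟩ := small_max (ε / 4) (by positivity)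
  have hη : 0 < min (ε / 4) 1 := lt_min (by positivity) one_pos
  set η : ℝ := min (ε / 4) 1 with hηdef
  obtain ⟨B, hB1, hcm⟩ := conc_main κ η (ε / 4) hκ hκ1 hη (min_le_right _ _) (by positivity)
  obtain ⟨A, hAB, X1, hA⟩ := exists_A L0 B hB1
  obtain ⟨X2, hcm⟩ := hcm A hAB
  obtain ⟨X3, hsm⟩ := hsm A B
  refine ⟨A + 1, max (max X1 X2) (max X3 3), ?_⟩
  intro X hX
  have hX1 : X1 ≤ X := le_trans (le_trans (le_max_left _ _) (le_max_left _ _)) hX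
  have hX2 : X2 ≤ X := le_trans (le_trans (le_max_right _ _) (le_max_left _ _)) hX
  have hX3 : X3 ≤ X := le_trans (le_trans (le_max_left _ _) (le_max_right _ _)) hX
  have hX4 : 3 ≤ X := le_trans (le_trans (le_max_right _ _) (le_max_right _ _)) hX
  have hrs := hA X hX1
  have hrs1 : 1 ≤ rs (QS A B X) := le_trans hL0 hrs
  have hrs0 : 0 < rs (QS A B X) := by linarith
  have h1 := hcm X hX2 hrs1
  have h2 := hsm X hX3 hrs
  have hlog : 0 < Real.log X := Real.log_pos (by exact_mod_cast (by omega : 1 < X))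
  set S1 := (Icc 1 X).filter (fun n : ℕ => η * X ≤ n ∧ ∃ j : ℕ, (Real.log X) ^ (A + 1) ≤ j ∧
        (j : ℝ) ≤ (X : ℝ) ^ (24 / 25 : ℝ) ∧ 9 / 2 * Real.log X * rs (QS A B X) * j <
          ∑ i ∈ range j, Z1 κ A B X (n - 1 - 2 * i)) with hS1
  set S2 := (Icc 1 X).filter (fun n : ℕ => Odd n ∧ ∃ j : ℕ, 1 ≤ j ∧ 2 * j ≤ n - 1 ∧
        1 / 10 * Real.log X * j ≤ ∑ i ∈ range j, Z2 κ A B X (n - 1 - 2 * i)) with hS2
  set S3 := Icc 1 ⌊η * X⌋₊ with hS3
  have hsub : (Icc 1 X).filter (fun n : ℕ => Odd n ∧ ∃ j : ℕ, (Real.log X) ^ (A + 1) ≤ j ∧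
      (j : ℝ) ≤ (X : ℝ) ^ (24 / 25 : ℝ) ∧ 2 * j ≤ n - 1 ∧
        5 * Real.log X * j ≤ ∑ i ∈ range j, Zf (n - 1 - 2 * i)) ⊆ (S1 ∪ S2) ∪ S3 := by
    intro n hn
    rw [mem_filter] at hn
    obtain ⟨hn1, hodd, j, hj1, hj2, hj3, hj4⟩ := hn
    by_contra hcon
    rw [mem_union, mem_union, not_or, not_or] at hcon
    obtain ⟨⟨c1, c2⟩, c3⟩ := hcon
    have hnη : η * X ≤ n := by
      by_contra hlt
      push Not at hlt
      apply c3
      rw [hS3, mem_Icc]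
      exact ⟨(mem_Icc.1 hn1).1, Nat.le_floor hlt.le⟩
    have hjpos : 1 ≤ j := by
      have : (0:ℝ) < j := lt_of_lt_of_le (pow_pos hlog _) hj1
      exact_mod_cast this
    have hj0 : (0:ℝ) < j := by exact_mod_cast hjpos
    have d1 : ∑ i ∈ range j, Z1 κ A B X (n - 1 - 2 * i) ≤
        9 / 2 * Real.log X * rs (QS A B X) * j := by
      by_contra hlt
      push Not at hlt
      apply c1
      rw [hS1, mem_filter]
      exact ⟨hn1, hnη, j, hj1, hj2, hlt⟩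
    have d2 : ∑ i ∈ range j, Z2 κ A B X (n - 1 - 2 * i) < 1 / 10 * Real.log X * j := by
      by_contra hlt
      push Not at hlt
      apply c2
      rw [hS2, mem_filter]
      exact ⟨hn1, hodd, j, hjpos, hj3, hlt⟩
    have d3 : ∑ i ∈ range j, Zf (n - 1 - 2 * i) ≤
        ∑ i ∈ range j, (20 / 19 * (Z1 κ A B X (n - 1 - 2 * i) / rs (QS A B X)) +
          Z2 κ A B X (n - 1 - 2 * i)) := by
      apply sum_le_sum
      intro i hi
      rw [mem_range] at hi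
      exact zf_le κ A B X _ (by omega) hrs0
    rw [sum_add_distrib, ← mul_sum, ← sum_div] at d3
    have d4 : (∑ i ∈ range j, Z1 κ A B X (n - 1 - 2 * i)) / rs (QS A B X) ≤
        9 / 2 * Real.log X * j := by
      rw [div_le_iff₀ hrs0]
      linarith
    have d5 : 0 < Real.log X * j := mul_pos hlog hj0
    nlinarith
  have hc3 : (S3.card : ℝ) ≤ ε / 4 * X := by
    rw [hS3, Nat.card_Icc, Nat.add_sub_cancel]
    have hX0 : (0:ℝ) ≤ X := Nat.cast_nonneg X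
    calc ((⌊η * X⌋₊ : ℕ) : ℝ) ≤ η * X := Nat.floor_le (by positivity)
      _ ≤ ε / 4 * X := mul_le_mul_of_nonneg_right (min_le_left _ _) hX0
  have hcard : (((Icc 1 X).filter (fun n : ℕ => Odd n ∧ ∃ j : ℕ, (Real.log X) ^ (A + 1) ≤ j ∧
      (j : ℝ) ≤ (X : ℝ) ^ (24 / 25 : ℝ) ∧ 2 * j ≤ n - 1 ∧
        5 * Real.log X * j ≤ ∑ i ∈ range j, Zf (n - 1 - 2 * i))).card : ℝ) ≤
      (S1.card : ℝ) + S2.card + S3.card := by
    have e1 := card_le_card hsub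
    have e2 := card_union_le (S1 ∪ S2) S3
    have e3 := card_union_le S1 S2
    have e4 : ((Icc 1 X).filter (fun n : ℕ => Odd n ∧ ∃ j : ℕ, (Real.log X) ^ (A + 1) ≤ j ∧
      (j : ℝ) ≤ (X : ℝ) ^ (24 / 25 : ℝ) ∧ 2 * j ≤ n - 1 ∧
        5 * Real.log X * j ≤ ∑ i ∈ range j, Zf (n - 1 - 2 * i))).card ≤
        S1.card + S2.card + S3.card := by omega
    exact_mod_cast e4
  have hX0 : (0:ℝ) ≤ ε * X := by positivity
  linarith

end Pool.Agent.BernOne
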