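import Mathlib
import Pool.Agent.BernIrr.Defs
import Pool.Agent.MR.ADefs

set_option autoImplicit false

/-!
Definitions for the density one theorem on reduced Bernoulli polynomials of odd index.
-/

namespace Pool.Agent.BernOne

open Finset Pool.Agent.MR Pool.Agent.BernIrr

/-- normalised Gaussian kernel of width `θ` -/
noncomputable def kn (θ x : ℝ) : ℝ := Real.exp (-x ^ 2 / (2 * θ ^ 2)) / (θ * √(2 * Real.pi))

/-- odd primes `p` with `2 ^ a ≤ p - 1 < 2 ^ (a + 1)` -/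
def PU (a : ℕ) : Finset ℕ := (Icc (2 ^ a + 1) (2 ^ (a + 1))).filter (fun p => p.Prime ∧ p ≠ 2)

/-- primes in `((log X) ^ B, (log X) ^ A]` -/
noncomputable def QS (A B : ℕ) (X : ℝ) : Finset ℕ :=
  (Ioc ⌊(Real.log X) ^ B⌋₊ ⌊(Real.log X) ^ A⌋₊).filter Nat.Prime

/-- the polynomial `∑ log p (p - 1) ^ (-it)` -/
noncomputable def Ud (P : Finset ℕ) (t : ℝ) : ℂ := ∑ p ∈ P, (Real.log p : ℂ) * ni (p - 1) t

/-- the smoothed weighted number of triples `(p, q, k)` with `log ((p - 1) q k)` near `u` -/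
noncomputable def Psi (P S K : Finset ℕ) (θ u : ℝ) : ℝ :=
  ∑ p ∈ P, ∑ q ∈ S, ∑ k ∈ K, Real.log p * kn θ (u - Real.log (((p - 1) * q * k : ℕ) : ℝ))

/-- first `k` of the block `(a, v)` -/
noncomputable def m1 (η X : ℝ) (a v : ℕ) : ℕ := ⌊η * X / (8 * 2 ^ a * Real.exp (v / 2))⌋₊

/-- last `k` of the block `(a, v)` -/
noncomputable def m2 (X : ℝ) (a v : ℕ) : ℕ := ⌊X / (2 ^ a * Real.exp (v / 2))⌋₊ + 1

/-- the smoothed sum of the block `(a, v)` -/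
noncomputable def PB (η : ℝ) (A B : ℕ) (X : ℝ) (a v : ℕ) (θ u : ℝ) : ℝ :=
  Psi (PU a) (pb 2 (QS A B X) v) (Ico (m1 η X a v) (m2 X a v)) θ u

/-- the long width of the block `(a, v)` -/
noncomputable def th (η X : ℝ) (a v : ℕ) : ℝ := (m1 η X a v : ℝ) ^ (-(1 / 30) : ℝ)

/-- the point `u` is good for the width `θ` -/
def GoodU (κ η : ℝ) (A B : ℕ) (X θ u : ℝ) : Prop :=
  ∀ a v : ℕ, (2 : ℝ) ^ a ≤ X ^ (1 - κ) → v ∈ vs 2 (QS A B X) →
    PB η A B X a v θ u ≤ PB η A B X a v (th η X a v) u + X / (Real.log X) ^ 2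

/-- odd primes `p ≤ X ^ (1 - κ)` with `p - 1 ∣ m` -/
noncomputable def PS1 (κ X : ℝ) (m : ℕ) : Finset ℕ :=
  (Icc 3 (m + 1)).filter (fun p : ℕ => p.Prime ∧ (p - 1) ∣ m ∧ (p : ℝ) ≤ X ^ (1 - κ))

/-- the main part of `Zf`, times `rs (QS A B X)` -/
noncomputable def Z1 (κ : ℝ) (A B : ℕ) (X : ℝ) (m : ℕ) : ℝ :=
  ∑ p ∈ PS1 κ X m, Real.log p * (om (QS A B X) (m / (p - 1)) : ℝ)

/-- the exceptional primes -/
noncomputable def PS2 (κ : ℝ) (A B : ℕ) (X : ℝ) (m : ℕ) : Finset ℕ :=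
  (Icc 3 (m + 1)).filter (fun p : ℕ => p.Prime ∧ (p - 1) ∣ m ∧
    (X ^ (1 - κ) < (p : ℝ) ∨ (om (QS A B X) (m / (p - 1)) : ℝ) < 19 / 20 * rs (QS A B X)))

/-- the exceptional part of `Zf` -/
noncomputable def Z2 (κ : ℝ) (A B : ℕ) (X : ℝ) (m : ℕ) : ℝ := ∑ p ∈ PS2 κ A B X m, Real.log p

end Pool.Agent.BernOne
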