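import Pool.Agent.BernOne.Gam
import Pool.Agent.BernIrr.Arch2
import Pool.Agent.BernIrr.Det

set_option autoImplicit false

/-!
Factors of very small degree.
-/

namespace Pool.Agent.BernOne

open Finset Polynomial Pool.Agent.BernIrr

/-- the value at `1/2` of a polynomial with odd leading coefficient -/
theorem smallDeg_half {G : ℤ[X]} (hlc : Odd G.leadingCoeff) :
    (G.map (Int.castRingHom ℚ)).eval (1 / 2) ≠ 0 := by
  intro h0
  have h1 := scaleRoots_eval₂_mul (p := G) (Int.castRingHom ℚ) (1 / 2 : ℚ) (2 : ℤ)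
  have e0 : (Int.castRingHom ℚ) 2 = (2 : ℚ) := by simp
  rw [e0, show (2 : ℚ) * (1 / 2) = 1 by norm_num, ← eval_map (f := Int.castRingHom ℚ) (p := G),
    h0, mul_zero] at h1
  have e3 : eval₂ (Int.castRingHom ℚ) ((Int.castRingHom ℚ) 1) (G.scaleRoots 2) =
      (Int.castRingHom ℚ) ((G.scaleRoots 2).eval 1) := Polynomial.eval₂_at_apply _ _
  have e4 : (Int.castRingHom ℚ) 1 = (1 : ℚ) := by simp
  rw [e4, h1] at e3
  have h2 : (G.scaleRoots 2).eval 1 = 0 := by
    have : (((G.scaleRoots 2).eval 1 : ℤ) : ℚ) = 0 := e3.symm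
    exact_mod_cast this
  rw [eval_eq_sum_range, natDegree_scaleRoots, Finset.sum_range_succ] at h2
  simp only [one_pow, mul_one, coeff_scaleRoots, Nat.sub_self, pow_zero] at h2
  have h3 : (2 : ℤ) ∣ ∑ i ∈ range G.natDegree, G.coeff i * 2 ^ (G.natDegree - i) := by
    apply Finset.dvd_sum
    intro i hi
    rw [mem_range] at hi
    exact Dvd.dvd.mul_left (dvd_pow_self 2 (by omega)) _
  obtain ⟨a, ha⟩ := h3
  obtain ⟨b, hb⟩ := hlc
  rw [leadingCoeff] at hb
  rw [ha, hb] at h2
  omega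

theorem smallDeg_symm {G : ℤ[X]} (hlc : Odd G.leadingCoeff) (hs : sg G = G ∨ sg G = -G) :
    G.comp (1 - X) = G := by
  rcases hs with hs | hs
  · rwa [sg_apply] at hs
  · exfalso
    rw [sg_apply] at hs
    apply smallDeg_half hlc
    have h1 := congrArg (fun f : ℤ[X] => (f.map (Int.castRingHom ℚ)).eval (1 / 2)) hs
    simp only [Polynomial.map_comp, Polynomial.map_sub, Polynomial.map_one, Polynomial.map_X,
      eval_comp, eval_sub, eval_one, eval_X, Polynomial.map_neg, eval_neg] at h1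
    norm_num at h1
    linarith

theorem small_deg {n D κ : ℕ} {T U G H : ℤ[X]} (h : Data n D κ T U) (hT : T = G * H)
    (hs : sg G = G ∨ sg G = -G) (hd : 2 ≤ G.natDegree)
    (hroots : ∀ α ∈ (G.map (Int.castRingHom ℂ)).roots, (n : ℝ) / 100 < ‖α‖)
    (J0 : ℕ) (hJ : G.natDegree < 2 * 4 ^ J0)
    (hsz : Real.log G.natDegree + 20 ≤ 1 / 2 * Real.log n)
    (hZ : ∀ c : ℕ, Odd c → c ≤ J0 → Zf (n - c) < 1 / 2 * Real.log n) : False := by
  have hge := h.ge
  have hn0 : (0 : ℝ) < n := by
    have : 0 < n := by omega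
    exact_mod_cast this
  -- the leading coefficient is odd
  have hlcabs : Odd G.leadingCoeff.natAbs := by
    have h2 := h.lc_mul hT
    have h3 := h.Dodd
    rw [← h2] at h3
    exact (Nat.odd_mul.1 h3).1
  have hlc : Odd G.leadingCoeff := Int.natAbs_odd.1 hlcabs
  have hG0 : G ≠ 0 := h.G_ne hT
  obtain ⟨γ, hγ, hdeg, hlead⟩ := exists_gamma (smallDeg_symm hlc hs) hG0
  obtain ⟨e, he⟩ : ∃ e, e = γ.natDegree := ⟨_, rfl⟩
  rw [← he] at hdeg
  have he1 : 1 ≤ e := by omega
  have hγ0 : γ ≠ 0 := by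
    intro h0
    rw [h0, natDegree_zero] at he
    omega
  -- the least index
  have hex : ∃ i, 1 ≤ i ∧ (Gam γ).coeff i ≠ 0 := by
    refine ⟨e, he1, ?_⟩
    rw [he, ← Gam_natDegree γ]
    intro h0
    have h1 : (Gam γ).leadingCoeff = 0 := h0
    rw [Gam_lead, leadingCoeff_eq_zero] at h1
    exact hγ0 h1
  classical
  obtain ⟨J, hJdef⟩ : ∃ J, J = Nat.find hex := ⟨_, rfl⟩
  have hJ1 : 1 ≤ J := by rw [hJdef]; exact (Nat.find_spec hex).1
  have hJne : (Gam γ).coeff J ≠ 0 := by rw [hJdef]; exact (Nat.find_spec hex).2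
  have hJmin : ∀ i, 1 ≤ i → i < J → (Gam γ).coeff i = 0 := by
    intro i h1 h2
    by_contra h3
    rw [hJdef] at h2
    exact Nat.find_min hex h2 ⟨h1, h3⟩
  have hJJ0 : J ≤ J0 := by
    have h1 := Gam_four (by omega) hJ1 hJmin
    have h2 : IsCoprime ((4 : ℤ) ^ (J - 1)) γ.leadingCoeff := by
      apply IsCoprime.pow_left
      rw [← hlead]
      have h3 : IsCoprime (2 : ℤ) G.leadingCoeff := by
        obtain ⟨b, hb⟩ := hlc
        exact ⟨-b, 1, by rw [hb]; ring⟩
      have h4 : (4 : ℤ) = 2 * 2 := by norm_num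
      rw [h4]
      exact h3.mul_left h3
    have h5 : (4 : ℤ) ^ (J - 1) ∣ (γ.natDegree : ℤ) := h2.dvd_of_dvd_mul_right h1
    rw [← he] at h5
    have h6 : 4 ^ (J - 1) ∣ e := by exact_mod_cast h5
    have h7 := Nat.le_of_dvd (by omega) h6
    have h8 : 4 ^ (J - 1) < 4 ^ J0 := by omega
    have h9 := (Nat.pow_lt_pow_iff_right (by norm_num : 1 < 4)).1 h8
    omega
  -- the primes
  have hS := val_bound (g := ev32 G) (e := ev32 H) (a := 1) h.sqf one_pos (by omega : 0 < n) (by
    have h1 := h.ev32_T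
    rw [hT, ev32_mul] at h1
    rw [← Int.natAbs_mul]
    zify
    rw [one_mul, ← abs_of_nonneg (show (0 : ℤ) ≤ (D : ℤ) * n by positivity), ← h1, abs_mul]
    simp)
  rw [one_mul] at hS
  obtain ⟨S, hSdef⟩ : ∃ S, S = D.primeFactors.filter (fun p => ¬ p ∣ (ev32 H).natAbs) := ⟨_, rfl⟩
  rw [← hSdef] at hS
  have hSp : ∀ p ∈ S, p.Prime ∧ p ∣ D ∧ ¬ p ∣ (ev32 H).natAbs := by
    intro p hp
    rw [hSdef, mem_filter, Nat.mem_primeFactors] at hp
    exact ⟨hp.1.1, hp.1.2.1, hp.2⟩
  have hsplit := Finset.prod_filter_mul_prod_filter_not S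
    (fun p => 7 ≤ p ∧ J < n % (p - 1)) (fun p => p)
  obtain ⟨A, hA⟩ : ∃ A, A = ∏ p ∈ S.filter (fun p => 7 ≤ p ∧ J < n % (p - 1)), p := ⟨_, rfl⟩
  obtain ⟨B, hB⟩ : ∃ B, B = ∏ p ∈ S.filter (fun p => ¬ (7 ≤ p ∧ J < n % (p - 1))), p := ⟨_, rfl⟩
  rw [← hA, ← hB] at hsplit
  have hA0 : 0 < A := by
    rw [hA]
    exact Finset.prod_pos fun p hp => (hSp p (mem_filter.1 hp).1).1.pos
  have hB0 : 0 < B := by
    rw [hB]
    exact Finset.prod_pos fun p hp => (hSp p (mem_filter.1 hp).1).1.pos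
  have hAle : A ≤ ((Gam γ).coeff J).natAbs := by
    apply Nat.le_of_dvd (Int.natAbs_pos.2 hJne)
    rw [hA]
    apply Finset.prod_primes_dvd
    · intro p hp
      exact (hSp p (mem_filter.1 hp).1).1.prime
    · intro p hp
      rw [mem_filter] at hp
      obtain ⟨hpS, h7, hc⟩ := hp
      obtain ⟨hpp, hpD, hpH⟩ := hSp p hpS
      have := Fact.mk hpp
      have h2 : (2 : ZMod p) ≠ 0 := by
        have := zmod_ne hpp h7 2 (by omega)
        simpa using this
      obtain ⟨t, ht⟩ : ∃ t : ZMod p, 2 * t = 3 := ⟨3 / 2, by field_simp⟩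
      have h1 := h.dvd32 hT hpp h7 hpD hpH ht
      have h3 := Gam_dvd hγ hpp (by omega) ht (h.red_G_ne hT hpp) h1 J hc
      exact Int.natCast_dvd.1 h3
  -- n is large
  have hl2 := Real.log_two_lt_d9
  have hdge : 0 ≤ Real.log G.natDegree := Real.log_natCast_nonneg _
  have hn300 : (300 : ℝ) ≤ n := by
    by_contra hlt
    rw [not_le] at hlt
    have h1 : Real.log n ≤ Real.log (2 ^ 9) := Real.log_le_log hn0 (hlt.le.trans (by norm_num))
    rw [Real.log_pow] at h1
    push_cast at h1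
    linarith
  -- the coefficient bound
  have hr := Gam_roots hγ hγ0 (r := (n : ℝ) / 100) (by linarith) (fun α hα => (hroots α hα).le)
  have hρ : (0 : ℝ) < ((n : ℝ) / 100) ^ 2 := by positivity
  have hcb := coeff_bound hρ hr J
  rw [coeff_map, coeff_map, natDegree_map_eq_of_injective (RingHom.injective_int _), Gam_natDegree,
    ← he, Gam_zero hγ] at hcb
  have hnorm : ∀ z : ℤ, ‖(Int.castRingHom ℂ) z‖ = (z.natAbs : ℝ) := by
    intro z
    have h1 : (Int.castRingHom ℂ) z = (z : ℂ) := rfl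
    rw [h1, Complex.norm_intCast, Nat.cast_natAbs]
    push_cast
    rfl
  rw [hnorm, hnorm] at hcb
  have hmain : (((n : ℝ) / 100) ^ 2) ^ J ≤ (e : ℝ) ^ J * (n * B) := by
    have h1 : (A : ℝ) * (((n : ℝ) / 100) ^ 2) ^ J ≤ A * ((e : ℝ) ^ J * (n * B)) := by
      have h2 : ((A : ℕ) : ℝ) ≤ (((Gam γ).coeff J).natAbs : ℝ) := by exact_mod_cast hAle
      have h3 : ((ev32 G).natAbs : ℝ) ≤ n * (A * B) := by
        rw [← hsplit] at hS
        exact_mod_cast hS
      have h4 : ((e.choose J : ℕ) : ℝ) ≤ (e : ℝ) ^ J := by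
        exact_mod_cast Nat.choose_le_pow e J
      calc (A : ℝ) * (((n : ℝ) / 100) ^ 2) ^ J
          ≤ (((Gam γ).coeff J).natAbs : ℝ) * (((n : ℝ) / 100) ^ 2) ^ J :=
            mul_le_mul_of_nonneg_right h2 (by positivity)
        _ ≤ (e.choose J : ℝ) * ((ev32 G).natAbs : ℝ) := hcb
        _ ≤ (e : ℝ) ^ J * (n * (A * B)) := mul_le_mul h4 h3 (by positivity) (by positivity)
        _ = _ := by ring
    exact le_of_mul_le_mul_left h1 (by exact_mod_cast hA0)
  -- logarithms
  have he0 : (0 : ℝ) < e := by exact_mod_cast he1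
  have hlogB : Real.log B ≤ Real.log 15 + ∑ p ∈ PS n J, Real.log p := by
    have hnn : ∀ p : ℕ, 0 ≤ Real.log p := fun p => Real.log_natCast_nonneg p
    have h0 : Real.log (B : ℝ) =
        ∑ p ∈ S.filter (fun p => ¬ (7 ≤ p ∧ J < n % (p - 1))), Real.log p := by
      rw [hB]
      push_cast
      rw [Real.log_prod]
      intro p hp
      exact_mod_cast (hSp p (mem_filter.1 hp).1).1.ne_zero
    rw [h0, ← sum_filter_add_sum_filter_not _ (fun p => ¬ 7 ≤ p)]
    apply add_le_add
    · have h1 : ((S.filter (fun p => ¬ (7 ≤ p ∧ J < n % (p - 1)))).filter (fun p => ¬ 7 ≤ p)) ⊆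
          {3, 5} := by
        intro p hp
        rw [mem_filter, mem_filter] at hp
        obtain ⟨⟨hpS, _⟩, h7⟩ := hp
        obtain ⟨hpp, hpD, _⟩ := hSp p hpS
        have h2 := (h.p_facts hpp hpD).1
        have := hpp.two_le
        simp only [mem_insert, mem_singleton]
        interval_cases p
        · exact absurd rfl h2
        · left; rfl
        · norm_num at hpp
        · right; rfl
        · norm_num at hpp
      refine (Finset.sum_le_sum_of_subset_of_nonneg h1 (fun p _ _ => hnn p)).trans ?_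
      rw [sum_pair (by norm_num)]
      push_cast
      rw [← Real.log_mul (by norm_num) (by norm_num)]
      norm_num
    · refine Finset.sum_le_sum_of_subset_of_nonneg ?_ (fun p _ _ => hnn p)
      intro p hp
      rw [mem_filter, not_not, mem_filter] at hp
      obtain ⟨⟨hpS, h1⟩, h7⟩ := hp
      obtain ⟨hpp, hpD, _⟩ := hSp p hpS
      obtain ⟨f1, f2, _⟩ := h.p_facts hpp hpD
      simp only [PS, mem_filter, mem_range]
      refine ⟨by omega, hpp, f1, ?_⟩
      by_contra h3
      exact h1 ⟨h7, by omega⟩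
  have hPS : ∑ p ∈ PS n J, Real.log p ≤ J * (1 / 2 * Real.log n) := by
    refine (PS_sum_le h.odd J).trans ?_
    calc ∑ j ∈ range ((J + 1) / 2), Zf (n - 1 - 2 * j)
        ≤ ∑ j ∈ range ((J + 1) / 2), 1 / 2 * Real.log n := by
          apply sum_le_sum
          intro j hj
          rw [mem_range] at hj
          have h1 := hZ (1 + 2 * j) ⟨j, by ring⟩ (by omega)
          rw [← Nat.sub_sub] at h1
          exact h1.le
      _ = (((J + 1) / 2 : ℕ) : ℝ) * (1 / 2 * Real.log n) := by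
          rw [sum_const, card_range, nsmul_eq_mul]
      _ ≤ J * (1 / 2 * Real.log n) := by
          have h1 : (((J + 1) / 2 : ℕ) : ℝ) ≤ J := by
            have : (J + 1) / 2 ≤ J := by omega
            exact_mod_cast this
          have h2 : 0 ≤ Real.log n := Real.log_natCast_nonneg n
          exact mul_le_mul_of_nonneg_right h1 (by positivity)
  have hB0' : (0 : ℝ) < B := by exact_mod_cast hB0
  have hlogmain := Real.log_le_log (by positivity) hmain
  rw [Real.log_pow, Real.log_pow, Real.log_mul (by positivity) (by positivity),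
    Real.log_mul hn0.ne' hB0'.ne', Real.log_pow, Real.log_div hn0.ne' (by norm_num)] at hlogmain
  push_cast at hlogmain
  have hlog100 : Real.log 100 ≤ 7 * Real.log 2 := by
    have h1 : Real.log 100 ≤ Real.log (2 ^ 7) := Real.log_le_log (by norm_num) (by norm_num)
    rw [Real.log_pow] at h1
    exact_mod_cast h1
  have hlog15 : Real.log 15 ≤ 4 * Real.log 2 := by
    have h1 : Real.log 15 ≤ Real.log (2 ^ 4) := Real.log_le_log (by norm_num) (by norm_num)
    rw [Real.log_pow] at h1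
    exact_mod_cast h1
  have hloge : Real.log e ≤ Real.log G.natDegree := by
    apply Real.log_le_log he0
    have : e ≤ G.natDegree := by omega
    exact_mod_cast this
  have hJr : (1 : ℝ) ≤ J := by exact_mod_cast hJ1
  have hnl : 0 ≤ Real.log n := Real.log_natCast_nonneg n
  -- everything is at most J times something
  have hfin : (J : ℝ) * (2 * (Real.log n - Real.log 100)) ≤
      J * (Real.log G.natDegree + Real.log n + Real.log 15 + 1 / 2 * Real.log n) := by
    have h15 : 0 ≤ Real.log 15 := Real.log_nonneg (by norm_num)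
    have e1 : (J : ℝ) * Real.log e ≤ J * Real.log G.natDegree :=
      mul_le_mul_of_nonneg_left hloge (by positivity)
    have e2 : Real.log n ≤ J * Real.log n := by nlinarith
    have e3 : Real.log 15 ≤ J * Real.log 15 := by nlinarith
    nlinarith
  have hfin2 := le_of_mul_le_mul_left hfin (by linarith)
  linarith

end Pool.Agent.BernOne
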