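import Pool.Agent.BernOne.ArchR
import Pool.Agent.BernOne.SmallDeg
import Pool.Agent.BernIrr.Count

set_option autoImplicit false

/-!
The deterministic part of the density one theorem.
-/

namespace Pool.Agent.BernOne

open Finset Polynomial Pool.Agent.BernIrr

theorem det2 {c₀ : ℝ} (hc₀ : 0 < c₀) {n₀ : ℕ} (hA : ArchStmt c₀ n₀) (hR : ArchRoots c₀ n₀) :
    ∃ n₁ : ℕ, ∀ n : ℕ, n₁ ≤ n → Odd n → ∀ (J0 : ℕ) (j0 : ℝ), 20 ≤ j0 →
      4 * j0 + 2 ≤ (4 : ℝ) ^ J0 → ((4 : ℝ) ^ J0) ^ 4 ≤ n →
      (∃ p c : ℕ, GoodPrime c₀ n p c ∧ ((c * p ^ 2 : ℕ) : ℝ) ≤ (n : ℝ) ^ (24 / 25 : ℝ)) →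
      (∀ c : ℕ, Odd c → c ≤ J0 → Zf (n - c) < 1 / 2 * Real.log n) →
      (∀ j : ℕ, j0 ≤ j → (j : ℝ) ≤ (n : ℝ) ^ (24 / 25 : ℝ) → 2 * j ≤ n - 1 →
        ∑ i ∈ range j, Zf (n - 1 - 2 * i) ≤ 51 / 10 * Real.log n * j) →
      IrrR n := by
  have hl200 : 0 < Real.log 200 := Real.log_pos (by norm_num)
  have hl225 : 0 < Real.log 225 := Real.log_pos (by norm_num)
  set L0 : ℝ := 4 * (Real.log 2 + 20) + 2000 * Real.log 200 + 100 * Real.log 225 + 4 * c₀ + 1 with hL0
  have hl2 : 0 < Real.log 2 := Real.log_pos (by norm_num)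
  have hL0pos : 0 < L0 := by positivity
  obtain ⟨n₂, hn₂⟩ := exists_nat_gt (Real.exp L0)
  refine ⟨max (max n₀ 400) n₂, ?_⟩
  intro n hn hodd J0 j0 hj0 hJ0 hJn hgood hZ hS
  have hnn0 : n₀ ≤ n := (le_max_left _ _).trans ((le_max_left _ _).trans hn)
  have hn400 : 400 ≤ n := (le_max_right _ _).trans ((le_max_left _ _).trans hn)
  have hnn2 : n₂ ≤ n := (le_max_right _ _).trans hn
  have hn0 : (0 : ℝ) < n := by
    have : 0 < n := by omega
    exact_mod_cast this
  set L := Real.log n with hL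
  have hLL : L0 < L := by
    rw [hL, Real.lt_log_iff_exp_lt hn0]
    refine lt_of_lt_of_le hn₂ ?_
    exact_mod_cast hnn2
  have hLpos : 0 < L := hL0pos.trans hLL
  obtain ⟨D, κ, T, U, h⟩ := exists_data hodd (by omega : 5 ≤ n)
  -- the polynomial R
  have hq3 : q3.map (Int.castRingHom ℚ) = C 2 * (X * (X - C (1 / 2)) * (X - 1)) := by
    unfold q3
    simp only [Polynomial.map_mul, Polynomial.map_sub, Polynomial.map_X, Polynomial.map_one,
      Polynomial.map_ofNat]
    have e2 : (2 : ℚ[X]) = C 2 := rfl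
    have e3 : (C 2 : ℚ[X]) * (X - C (1/2)) = C 2 * X - 1 := by
      rw [mul_sub, ← C_mul]; norm_num
    rw [e2, ← e3]
    ring
  obtain ⟨R, hR'⟩ : ∃ R : ℚ[X], Polynomial.bernoulli n = X * (X - C (1 / 2)) * (X - 1) * R := by
    obtain ⟨W, hW⟩ := q3_dvd hodd (by omega : 3 ≤ n)
    refine ⟨C 2 * W, ?_⟩
    rw [hW, hq3]; ring
  refine ⟨R, hR', ?_⟩
  rw [h.irreducible_iff hR']
  by_contra hirr
  obtain ⟨p, c, hg, hcp⟩ := hgood
  have hgd : ((c * p ^ 2 : ℕ) : ℝ) * L ≤ c₀ * n := by
    have := hg.2.2.2.2.2.2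
    push_cast
    exact this
  rcases h.good_prime_use hg hirr with ⟨G, H, hT, hd2, hdB, hs⟩ | hcase2
  · have hdeg : (G.natDegree : ℝ) * L ≤ c₀ * n := by
      refine le_trans ?_ hgd
      apply mul_le_mul_of_nonneg_right _ hLpos.le
      exact_mod_cast hdB
    have hdn : G.natDegree ≤ n - 3 := by
      have := h.deg_add hT
      omega
    have hq : q3.map (Int.castRingHom ℚ) = X * (X - 1) * (2 * X - 1) := by
      unfold q3; simp
    have heq := h.eq_rat
    rw [hq] at heq
    have hroots := hR n hnn0 hodd D T G H h.Dodd heq hT (by omega) (h.lc_le hT) hdeg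
    have hd2' : (2 : ℝ) ≤ (G.natDegree : ℝ) := by exact_mod_cast hd2
    by_cases hsmall : (G.natDegree : ℝ) < 8 * j0 + 3
    · -- small degree
      have hlt : G.natDegree < 2 * 4 ^ J0 := by
        have : (G.natDegree : ℝ) < 2 * (4 : ℝ) ^ J0 := by linarith
        exact_mod_cast this
      apply small_deg h hT hs hd2 hroots J0 hlt _ hZ
      -- `log d + 20 ≤ (1/2) log n`
      have h1 : (4 : ℝ) ^ J0 * 1 ≤ (4 : ℝ) ^ J0 * (4 : ℝ) ^ J0 := by
        apply mul_le_mul_of_nonneg_left _ (by positivity)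
        exact one_le_pow₀ (by norm_num)
      have h2 : 4 * Real.log ((4 : ℝ) ^ J0) ≤ L := by
        have := Real.log_le_log (by positivity) hJn
        rw [Real.log_pow] at this
        push_cast at this
        exact this
      have h3 : Real.log G.natDegree ≤ Real.log 2 + Real.log ((4 : ℝ) ^ J0) := by
        rw [← Real.log_mul (by norm_num) (by positivity)]
        apply Real.log_le_log (by linarith)
        linarith
      have h4 : 4 * (Real.log 2 + 20) < L := by
        have : 0 < 2000 * Real.log 200 := by positivity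
        have : 0 < 100 * Real.log 225 := by positivity
        linarith
      linarith
    · -- large degree
      rw [not_lt] at hsmall
      have hb := basic_ineq h hA hnn0 hT hd2 hs hdeg
      set d := G.natDegree with hd
      have hJ1 : (((d / 2 + 1) / 2 : ℕ) : ℝ) ≤ d / 4 + 1 / 2 := by
        have : 4 * ((d / 2 + 1) / 2) ≤ d + 2 := by omega
        have : (4 : ℝ) * (((d / 2 + 1) / 2 : ℕ) : ℝ) ≤ d + 2 := by exact_mod_cast this
        linarith
      have hJ2 : (((d / 4 + 1) / 2 : ℕ) : ℝ) ≤ d / 8 + 1 / 2 := by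
        have : 8 * ((d / 4 + 1) / 2) ≤ d + 4 := by omega
        have : (8 : ℝ) * (((d / 4 + 1) / 2 : ℕ) : ℝ) ≤ d + 4 := by exact_mod_cast this
        linarith
      have hJ3 : j0 ≤ (((d / 4 + 1) / 2 : ℕ) : ℝ) := by
        have : d ≤ 8 * ((d / 4 + 1) / 2) + 3 := by omega
        have : (d : ℝ) ≤ 8 * (((d / 4 + 1) / 2 : ℕ) : ℝ) + 3 := by exact_mod_cast this
        linarith
      have hJ4 : (((d / 4 + 1) / 2 : ℕ) : ℝ) ≤ (((d / 2 + 1) / 2 : ℕ) : ℝ) := by
        have : (d / 4 + 1) / 2 ≤ (d / 2 + 1) / 2 := by omega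
        exact_mod_cast this
      have hdn24 : (d : ℝ) ≤ (n : ℝ) ^ (24 / 25 : ℝ) := by
        refine le_trans ?_ hcp
        exact_mod_cast hdB
      have hJd : (((d / 2 + 1) / 2 : ℕ) : ℝ) ≤ d := by
        have : (d / 2 + 1) / 2 ≤ d := by omega
        exact_mod_cast this
      have h1 := hS ((d / 2 + 1) / 2) (hJ3.trans hJ4) (hJd.trans hdn24) (by omega)
      have h2 := hS ((d / 4 + 1) / 2) hJ3 ((hJ4.trans hJd).trans hdn24) (by omega)
      have hsum : 51 / 10 * L * ((((d / 2 + 1) / 2 : ℕ) : ℝ) + (((d / 4 + 1) / 2 : ℕ) : ℝ)) ≤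
          51 / 10 * L * (3 * d / 8 + 1) := by
        apply mul_le_mul_of_nonneg_left _ (by positivity)
        linarith
      have hd163 : (163 : ℝ) ≤ d := by linarith
      have hll : 2000 * Real.log 200 < L := by
        have : 0 < 100 * Real.log 225 := by positivity
        have : 0 < 4 * (Real.log 2 + 20) := by positivity
        linarith
      have hll2 : 100 * Real.log 225 < L := by
        have : 0 < 2000 * Real.log 200 := by positivity
        have : 0 < 4 * (Real.log 2 + 20) := by positivity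
        linarith
      -- final contradiction
      have e1 : 2 * (d : ℝ) * L - 51 / 10 * L * (3 * d / 8) = 7 / 80 * d * L := by ring
      have e2 : 7 / 80 * 163 * L ≤ 7 / 80 * d * L := by
        apply mul_le_mul_of_nonneg_right _ hLpos.le
        linarith
      have e3 : 2 * (d : ℝ) * Real.log 200 ≤ 1 / 1000 * d * L := by
        have : (d : ℝ) * (2000 * Real.log 200) ≤ d * L :=
          mul_le_mul_of_nonneg_left hll.le (by linarith)
        linarith
      have e4 : (d : ℝ) * L * (7 / 80 - 1 / 1000) ≥ 163 * L * (7 / 80 - 1 / 1000) := by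
        apply mul_le_mul_of_nonneg_right _ (by norm_num)
        apply mul_le_mul_of_nonneg_right hd163 hLpos.le
      nlinarith
  · -- the second case is impossible
    have h1 : ((n - 3 : ℕ) : ℝ) ≤ 2 * ((c * p ^ 2 : ℕ) : ℝ) := by exact_mod_cast hcase2
    have h2 : (n : ℝ) / 2 ≤ ((n - 3 : ℕ) : ℝ) := by
      rw [Nat.cast_sub (by omega)]
      have : (400 : ℝ) ≤ n := by exact_mod_cast hn400
      push_cast
      linarith
    have h3 : 4 * c₀ < L := by
      have : 0 < 2000 * Real.log 200 := by positivity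
      have : 0 < 100 * Real.log 225 := by positivity
      have : 0 < 4 * (Real.log 2 + 20) := by positivity
      linarith
    have h4 : (n : ℝ) / 4 * L ≤ c₀ * n := by
      refine le_trans ?_ hgd
      apply mul_le_mul_of_nonneg_right _ hLpos.le
      linarith
    have h5 : (n : ℝ) * (4 * c₀) < n * L := mul_lt_mul_of_pos_left h3 hn0
    linarith

end Pool.Agent.BernOne
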