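import Mathlib
import Pool.Agent.H6.HR.Mertens

set_option autoImplicit false

/-!
Moments of `z ^ Ω(m)`.
-/

namespace Pool.Agent.BernOne

open Finset ArithmeticFunction

/-- `m ↦ z ^ Ω(m) / m` as a monoid homomorphism -/
noncomputable def Om_hom (z : ℝ) : ℕ →* ℝ where
  toFun m := z ^ (cardFactors m) / m
  map_one' := by simp
  map_mul' a b := by
    rcases eq_or_ne a 0 with rfl | ha
    · simp
    rcases eq_or_ne b 0 with rfl | hb
    · simp
    rw [cardFactors_mul ha hb, pow_add]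
    push_cast
    field_simp

theorem Om_euler (z : ℝ) (hz : 0 < z) (hz1 : z ≤ 3 / 2) (X : ℕ) :
    ∑ m ∈ Icc 1 X, z ^ (cardFactors m) / m ≤ ∏ p ∈ H6.HR.P X, (1 - z / p)⁻¹ := by
  classical
  have hlt : ∀ {p : ℕ}, p.Prime → ‖Om_hom z p‖ < 1 := by
    intro p hp
    have h2 : (2 : ℝ) ≤ p := by exact_mod_cast hp.two_le
    have e : Om_hom z p = z / p := by
      change z ^ (cardFactors p) / p = z / p
      rw [cardFactors_apply_prime hp, pow_one]
    rw [e, Real.norm_of_nonneg (by positivity), div_lt_one (by linarith)]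
    linarith
  have key := (EulerProduct.summable_and_hasSum_smoothNumbers_prod_primesBelow_geometric hlt
    (X + 1)).2
  have hP : (X + 1).primesBelow = H6.HR.P X := by
    ext p
    rw [Nat.mem_primesBelow, H6.HR.mem_P]
    constructor
    · rintro ⟨h1, h2⟩; exact ⟨h2, by omega⟩
    · rintro ⟨h1, h2⟩; exact ⟨by omega, h1⟩
  rw [hP] at key
  have e2 : ∏ p ∈ H6.HR.P X, (1 - Om_hom z p)⁻¹ = ∏ p ∈ H6.HR.P X, (1 - z / p)⁻¹ := by
    apply prod_congr rfl
    intro p hp
    have hp' := (H6.HR.mem_P.1 hp).1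
    have e : Om_hom z p = z / p := by
      change z ^ (cardFactors p) / p = z / p
      rw [cardFactors_apply_prime hp', pow_one]
    rw [e]
  rw [e2] at key
  have h3 := sum_le_hasSum ((Icc 1 X).subtype (fun m => m ∈ (X + 1).smoothNumbers))
    (fun i _ => by
      change 0 ≤ z ^ (cardFactors (i : ℕ)) / ((i : ℕ) : ℝ)
      positivity) key
  rw [Finset.sum_subtype_eq_sum_filter] at h3
  refine le_trans (le_of_eq ?_) h3
  rw [filter_true_of_mem]
  · rfl
  · intro m hm
    rw [mem_Icc] at hm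
    exact Nat.mem_smoothNumbers_of_lt (by omega) (by omega)

theorem Om_factor (y : ℝ) (h0 : 0 ≤ y) (h1 : y ≤ 3 / 4) :
    (1 - y)⁻¹ ≤ Real.exp (y + 4 * y ^ 2) := by
  have h2 : (0 : ℝ) < 1 - y := by linarith
  have h3 : (1 - y)⁻¹ ≤ 1 + y + 4 * y ^ 2 := by
    rw [inv_le_iff_one_le_mul₀ h2]
    nlinarith [mul_nonneg (mul_nonneg h0 h0) (by linarith : (0 : ℝ) ≤ 3 - 4 * y)]
  have h4 := Real.add_one_le_exp (y + 4 * y ^ 2)
  linarith

theorem Om_prod : ∃ C : ℝ, 0 < C ∧ ∀ z : ℝ, 0 < z → z ≤ 3 / 2 → ∀ X : ℕ, 3 ≤ X →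
    ∏ p ∈ H6.HR.P X, (1 - z / p)⁻¹ ≤ C * (Real.log X) ^ z := by
  obtain ⟨C, hC, h⟩ := H6.HR.sum_P_le
  refine ⟨Real.exp (3 / 2 * C + 9), Real.exp_pos _, fun z hz hz1 X hX => ?_⟩
  have hlog : 0 < Real.log X := Real.log_pos (by exact_mod_cast (by omega : 1 < X))
  have h1 : ∏ p ∈ H6.HR.P X, (1 - z / p)⁻¹ ≤
      ∏ p ∈ H6.HR.P X, Real.exp (z / p + 4 * (z / p) ^ 2) := by
    apply prod_le_prod
    · intro p hp
      have hp' := (H6.HR.mem_P.1 hp).1
      have h2 : (2 : ℝ) ≤ p := by exact_mod_cast hp'.two_le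
      have : z / p ≤ 3 / 4 := by
        rw [div_le_iff₀ (by linarith)]; linarith
      exact inv_nonneg.2 (by linarith)
    · intro p hp
      have hp' := (H6.HR.mem_P.1 hp).1
      have h2 : (2 : ℝ) ≤ p := by exact_mod_cast hp'.two_le
      apply Om_factor
      · positivity
      · rw [div_le_iff₀ (by linarith)]; linarith
  refine h1.trans ?_
  rw [← Real.exp_sum]
  have h2 : ∑ p ∈ H6.HR.P X, (z / p + 4 * (z / p) ^ 2) ≤
      z * Real.log (Real.log X) + (3 / 2 * C + 9) := by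
    rw [sum_add_distrib]
    have h3 : ∑ p ∈ H6.HR.P X, z / (p : ℝ) ≤ z * (Real.log (Real.log X) + C) := by
      have e : ∑ p ∈ H6.HR.P X, z / (p : ℝ) = z * ∑ p ∈ H6.HR.P X, (1 : ℝ) / p := by
        rw [mul_sum]
        apply sum_congr rfl
        intro p _
        ring
      rw [e]
      exact mul_le_mul_of_nonneg_left (h X (by omega)) hz.le
    have h4 : ∑ p ∈ H6.HR.P X, 4 * (z / (p : ℝ)) ^ 2 ≤ 9 := by
      have e : ∀ p ∈ H6.HR.P X, 4 * (z / (p : ℝ)) ^ 2 ≤ 9 * ((p : ℝ) ^ 2)⁻¹ := by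
        intro p hp
        rw [div_pow, ← mul_div_assoc, div_eq_mul_inv]
        apply mul_le_mul_of_nonneg_right _ (by positivity)
        nlinarith
      have h5 : ∑ p ∈ H6.HR.P X, 9 * ((p : ℝ) ^ 2)⁻¹ ≤ 9 * 1 := by
        rw [← mul_sum]
        apply mul_le_mul_of_nonneg_left _ (by norm_num)
        have h6 : ∑ p ∈ H6.HR.P X, ((p : ℝ) ^ 2)⁻¹ ≤ ∑ p ∈ Ioc 1 X, ((p : ℝ) ^ 2)⁻¹ := by
          apply sum_le_sum_of_subset_of_nonneg
          · intro p hp
            have hp' := H6.HR.mem_P.1 hp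
            rw [mem_Ioc]
            exact ⟨hp'.1.one_lt, hp'.2⟩
          · intro _ _ _; positivity
        have h7 := sum_Ioc_inv_sq_le_sub (α := ℝ) (k := 1) (n := X) (by norm_num) (by omega)
        have h8 : (0 : ℝ) ≤ ((X : ℝ))⁻¹ := by positivity
        refine h6.trans (h7.trans ?_)
        simp only [Nat.cast_one, inv_one]
        linarith
      calc ∑ p ∈ H6.HR.P X, 4 * (z / (p : ℝ)) ^ 2 ≤ ∑ p ∈ H6.HR.P X, 9 * ((p : ℝ) ^ 2)⁻¹ :=
            sum_le_sum e
        _ ≤ 9 * 1 := h5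
        _ = 9 := by norm_num
    nlinarith
  calc Real.exp (∑ p ∈ H6.HR.P X, (z / p + 4 * (z / p) ^ 2)) ≤
        Real.exp (z * Real.log (Real.log X) + (3 / 2 * C + 9)) := Real.exp_le_exp.2 h2
    _ = Real.exp (3 / 2 * C + 9) * (Real.log X) ^ z := by
        rw [Real.exp_add, Real.rpow_def_of_pos hlog, mul_comm z, mul_comm]

/-- the powers of two -/
noncomputable def Om_g (Y d : ℕ) : ℝ :=
  ∑ k ∈ range (Nat.log 2 Y + 1), if d = 2 ^ k then (3 / 2 : ℝ) ^ k * Real.log 2 else 0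

theorem Om_g_nonneg (Y d : ℕ) : 0 ≤ Om_g Y d := by
  apply sum_nonneg
  intro k _
  have : 0 < Real.log 2 := Real.log_pos (by norm_num)
  split_ifs <;> positivity

theorem Om_g_sum (Y : ℕ) (hY : 1 ≤ Y) : ∑ d ∈ Ioc 0 Y, Om_g Y d ≤ 3 * Y := by
  unfold Om_g
  rw [sum_comm]
  have hl0 : 0 < Real.log 2 := Real.log_pos (by norm_num)
  have hl1 : Real.log 2 ≤ 1 := by
    have := Real.log_two_lt_d9; linarith
  have h1 : ∀ k ∈ range (Nat.log 2 Y + 1), ∑ d ∈ Ioc 0 Y,
      (if d = 2 ^ k then (3 / 2 : ℝ) ^ k * Real.log 2 else 0) ≤ (3 / 2 : ℝ) ^ k := by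
    intro k _
    rw [sum_ite_eq']
    split_ifs
    · calc (3 / 2 : ℝ) ^ k * Real.log 2 ≤ (3 / 2 : ℝ) ^ k * 1 :=
          mul_le_mul_of_nonneg_left hl1 (by positivity)
        _ = _ := mul_one _
    · positivity
  refine (sum_le_sum h1).trans ?_
  rw [geom_sum_eq (by norm_num)]
  have h2 : (3 / 2 : ℝ) ^ (Nat.log 2 Y) ≤ Y := by
    calc (3 / 2 : ℝ) ^ (Nat.log 2 Y) ≤ 2 ^ (Nat.log 2 Y) :=
          pow_le_pow_left₀ (by norm_num) (by norm_num) _
      _ ≤ Y := by exact_mod_cast Nat.pow_log_le_self 2 (by omega)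
  rw [pow_succ]
  rw [div_le_iff₀ (by norm_num)]
  nlinarith

theorem Om_point (z : ℝ) (hz : 0 < z) (hz1 : z ≤ 3 / 2) (Y d : ℕ) (hd : d ∈ Ioc 0 Y) :
    vonMangoldt d * z ^ (cardFactors d) ≤
      (3 / 2) * (if d.Prime then Real.log d else 0) +
      √Y * (if ¬ d.Prime then vonMangoldt d else 0) + Om_g Y d := by
  rw [mem_Ioc] at hd
  have hg := Om_g_nonneg Y d
  have hlam : 0 ≤ vonMangoldt d := vonMangoldt_nonneg
  have hd1 : (1 : ℝ) ≤ d := by exact_mod_cast hd.1
  have hlogd : 0 ≤ Real.log d := Real.log_nonneg hd1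
  by_cases hpp : IsPrimePow d
  · obtain ⟨p, k, hp, hk, rfl⟩ := (isPrimePow_nat_iff _).1 hpp
    have hOm : cardFactors (p ^ k) = k := cardFactors_apply_prime_pow hp
    have hLam : vonMangoldt (p ^ k) = Real.log p := by
      rw [vonMangoldt_apply_pow hk.ne', vonMangoldt_apply_prime hp]
    have hlogp : 0 ≤ Real.log p := Real.log_nonneg (by exact_mod_cast hp.one_lt.le)
    rw [hOm]
    rcases Nat.lt_or_ge 1 k with hk1 | hk1
    · have hnp : ¬ (p ^ k).Prime := Nat.Prime.not_prime_pow (by omega)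
      rw [if_neg hnp, if_pos hnp, hLam]
      have hz3 : z ^ k ≤ (3 / 2 : ℝ) ^ k := pow_le_pow_left₀ hz.le hz1 k
      by_cases hp2 : p = 2
      · subst hp2
        have hkY : k ∈ range (Nat.log 2 Y + 1) := by
          rw [mem_range]
          have := Nat.log_mono_right (b := 2) hd.2
          rw [Nat.log_pow (by norm_num)] at this
          omega
        have h1 : (3 / 2 : ℝ) ^ k * Real.log 2 ≤ Om_g Y (2 ^ k) := by
          unfold Om_g
          have := single_le_sum (s := range (Nat.log 2 Y + 1))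
            (f := fun j => if 2 ^ k = 2 ^ j then (3 / 2 : ℝ) ^ j * Real.log 2 else 0)
            (fun j _ => by
              have : 0 < Real.log 2 := Real.log_pos (by norm_num)
              split_ifs <;> positivity) hkY
          simpa using this
        have h2 : Real.log (2 : ℕ) * z ^ k ≤ (3 / 2 : ℝ) ^ k * Real.log 2 := by
          rw [mul_comm]
          push_cast
          exact mul_le_mul_of_nonneg_right hz3 (Real.log_pos (by norm_num)).le
        have h3 : 0 ≤ √(Y : ℝ) * Real.log (2 : ℕ) := mul_nonneg (Real.sqrt_nonneg _) hlogp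
        rw [mul_zero, zero_add]
        exact (h2.trans h1).trans (le_add_of_nonneg_left h3)
      · have hp3 : 3 ≤ p := by have := hp.two_le; omega
        have h1 : (3 / 2 : ℝ) ^ k ≤ √Y := by
          apply Real.le_sqrt_of_sq_le
          calc ((3 / 2 : ℝ) ^ k) ^ 2 = (9 / 4 : ℝ) ^ k := by
                rw [← pow_mul, mul_comm, pow_mul]; norm_num
            _ ≤ (p : ℝ) ^ k := by
                apply pow_le_pow_left₀ (by norm_num)
                have : (3 : ℝ) ≤ p := by exact_mod_cast hp3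
                linarith
            _ ≤ Y := by exact_mod_cast hd.2
        have h2 : Real.log p * z ^ k ≤ √Y * Real.log p := by
          rw [mul_comm]
          exact mul_le_mul_of_nonneg_right (hz3.trans h1) hlogp
        linarith
    · have hk' : k = 1 := by omega
      subst hk'
      rw [pow_one, pow_one] at *
      rw [if_pos hp, if_neg (by simpa using hp)]
      rw [vonMangoldt_apply_prime hp]
      nlinarith
  · rw [vonMangoldt_eq_zero_iff.2 hpp]
    have h1 : (0 : ℝ) ≤ if d.Prime then Real.log d else 0 := by split_ifs <;> positivity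
    have h2 : (0 : ℝ) ≤ √(Y : ℝ) * (if ¬ d.Prime then (0 : ℝ) else 0) := by simp
    simp only [zero_mul]
    linarith

theorem Om_lam : ∃ C : ℝ, 0 < C ∧ ∀ z : ℝ, 0 < z → z ≤ 3 / 2 → ∀ Y : ℕ,
    ∑ d ∈ Ioc 0 Y, vonMangoldt d * z ^ (cardFactors d) ≤ C * Y := by
  obtain ⟨C, hC⟩ := Chebyshev.psi_sub_theta_le_mul_sqrt
  refine ⟨3 / 2 * Real.log 4 + |C| + 3, ?_, fun z hz hz1 Y => ?_⟩
  · have : 0 < Real.log 4 := Real.log_pos (by norm_num)
    positivity
  rcases Nat.eq_zero_or_pos Y with rfl | hY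
  · simp
  refine (sum_le_sum (fun d hd => Om_point z hz hz1 Y d hd)).trans ?_
  rw [sum_add_distrib, sum_add_distrib, ← mul_sum, ← mul_sum]
  have h1 : ∑ d ∈ Ioc 0 Y, (if d.Prime then Real.log d else 0) ≤ Real.log 4 * Y := by
    have h := Chebyshev.theta_le_log4_mul_x (x := (Y : ℝ)) (by positivity)
    unfold Chebyshev.theta at h
    rw [Nat.floor_natCast, sum_filter] at h
    exact h
  have h2 : ∑ d ∈ Ioc 0 Y, (if ¬ d.Prime then vonMangoldt d else 0) ≤ |C| * √Y := by
    have h := hC Y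
    rw [Chebyshev.psi_sub_theta_eq_sum_not_prime, Nat.floor_natCast, sum_filter] at h
    exact h.trans (mul_le_mul_of_nonneg_right (le_abs_self C) (Real.sqrt_nonneg _))
  have h3 := Om_g_sum Y hY
  have h4 : √(Y : ℝ) * ∑ d ∈ Ioc 0 Y, (if ¬ d.Prime then vonMangoldt d else 0) ≤ |C| * Y := by
    calc √(Y : ℝ) * ∑ d ∈ Ioc 0 Y, (if ¬ d.Prime then vonMangoldt d else 0) ≤
          √(Y : ℝ) * (|C| * √Y) := mul_le_mul_of_nonneg_left h2 (Real.sqrt_nonneg _)
      _ = |C| * (√(Y : ℝ) * √Y) := by ring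
      _ = |C| * Y := by rw [Real.mul_self_sqrt (by positivity)]
  nlinarith

/-- `z ^ Ω` as an arithmetic function -/
noncomputable def Om_F (z : ℝ) : ArithmeticFunction ℝ :=
  ⟨fun m => if m = 0 then 0 else z ^ (cardFactors m), by simp⟩

/-- `Λ z ^ Ω` as an arithmetic function -/
noncomputable def Om_G (z : ℝ) : ArithmeticFunction ℝ :=
  ⟨fun m => vonMangoldt m * z ^ (cardFactors m), by simp⟩

theorem Om_conv (z : ℝ) (m : ℕ) (hm : 0 < m) :
    (Om_F z * Om_G z) m = z ^ (cardFactors m) * Real.log m := by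
  rw [mul_apply]
  have h1 : ∀ x ∈ m.divisorsAntidiagonal, Om_F z x.1 * Om_G z x.2 =
      z ^ (cardFactors m) * vonMangoldt x.2 := by
    intro x hx
    rw [Nat.mem_divisorsAntidiagonal] at hx
    obtain ⟨h, hm0⟩ := hx
    have ha : x.1 ≠ 0 := by rintro h0; rw [h0, zero_mul] at h; omega
    have hb : x.2 ≠ 0 := by rintro h0; rw [h0, mul_zero] at h; omega
    change (if x.1 = 0 then 0 else z ^ (cardFactors x.1)) *
      (vonMangoldt x.2 * z ^ (cardFactors x.2)) = _
    rw [if_neg ha, ← h, cardFactors_mul ha hb, pow_add]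
    ring
  rw [sum_congr rfl h1, ← mul_sum]
  congr 1
  have h2 := Nat.sum_divisorsAntidiagonal' (n := m) (fun _ b => vonMangoldt b)
  rw [h2, vonMangoldt_sum]

/-- Moments of `z ^ Ω(m)`. -/
theorem omega_moment (z : ℝ) (hz : 0 < z) (hz1 : z ≤ 3 / 2) : ∃ C : ℝ, 0 < C ∧ ∀ X : ℕ, 3 ≤ X →
    ∑ m ∈ Icc 1 X, z ^ (cardFactors m) ≤ C * X * (Real.log X) ^ (z - 1) ∧
    ∑ m ∈ Icc 1 X, z ^ (cardFactors m) / m ≤ C * (Real.log X) ^ z := by
  obtain ⟨C1, hC1, h1⟩ := Om_prod
  obtain ⟨C2, hC2, h2⟩ := Om_lam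
  refine ⟨(C2 + 1) * C1, by positivity, fun X hX => ?_⟩
  have hlog : 0 < Real.log X := Real.log_pos (by exact_mod_cast (by omega : 1 < X))
  have hL : ∑ m ∈ Icc 1 X, z ^ (cardFactors m) / m ≤ C1 * (Real.log X) ^ z :=
    (Om_euler z hz hz1 X).trans (h1 z hz hz1 X hX)
  have hpow : 0 < (Real.log X) ^ z := Real.rpow_pos_of_pos hlog _
  have hIcc : Icc 1 X = Ioc 0 X := by
    ext m; rw [mem_Icc, mem_Ioc]; omega
  refine ⟨?_, ?_⟩
  · -- the sum with `log m`
    have hT1 : ∑ m ∈ Ioc 0 X, z ^ (cardFactors m) * Real.log m ≤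
        C2 * X * ∑ m ∈ Ioc 0 X, z ^ (cardFactors m) / m := by
      have e1 : ∑ m ∈ Ioc 0 X, z ^ (cardFactors m) * Real.log m =
          ∑ m ∈ Ioc 0 X, (Om_F z * Om_G z) m := by
        apply sum_congr rfl
        intro m hm
        rw [mem_Ioc] at hm
        rw [Om_conv z m hm.1]
      rw [e1, sum_Ioc_mul_eq_sum_sum, mul_sum]
      apply sum_le_sum
      intro k hk
      rw [mem_Ioc] at hk
      have hk0 : (0 : ℝ) < k := by exact_mod_cast hk.1
      have e2 : Om_F z k = z ^ (cardFactors k) := by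
        change (if k = 0 then 0 else z ^ (cardFactors k)) = _
        rw [if_neg (by omega)]
      rw [e2]
      have h3 := h2 z hz hz1 (X / k)
      have h4 : ((X / k : ℕ) : ℝ) ≤ X / k := Nat.cast_div_le
      calc z ^ (cardFactors k) * ∑ m ∈ Ioc 0 (X / k), Om_G z m ≤
            z ^ (cardFactors k) * (C2 * (X / k)) := by
              apply mul_le_mul_of_nonneg_left _ (by positivity)
              exact h3.trans (mul_le_mul_of_nonneg_left h4 hC2.le)
        _ = C2 * X * (z ^ (cardFactors k) / k) := by ring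
    have hT2 : ∑ m ∈ Ioc 0 X, z ^ (cardFactors m) * (Real.log X - Real.log m) ≤
        X * ∑ m ∈ Ioc 0 X, z ^ (cardFactors m) / m := by
      rw [mul_sum]
      apply sum_le_sum
      intro m hm
      rw [mem_Ioc] at hm
      have hm0 : (0 : ℝ) < m := by exact_mod_cast hm.1
      have hX0 : (0 : ℝ) < X := by exact_mod_cast (by omega : 0 < X)
      have h5 : Real.log X - Real.log m ≤ X / m := by
        rw [← Real.log_div hX0.ne' hm0.ne']
        have := Real.log_le_sub_one_of_pos (div_pos hX0 hm0)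
        linarith
      calc z ^ (cardFactors m) * (Real.log X - Real.log m) ≤
            z ^ (cardFactors m) * (X / m) := mul_le_mul_of_nonneg_left h5 (by positivity)
        _ = X * (z ^ (cardFactors m) / m) := by ring
    have hS : (∑ m ∈ Ioc 0 X, z ^ (cardFactors m)) * Real.log X ≤
        (C2 + 1) * X * ∑ m ∈ Ioc 0 X, z ^ (cardFactors m) / m := by
      have e3 : (∑ m ∈ Ioc 0 X, z ^ (cardFactors m)) * Real.log X =
          ∑ m ∈ Ioc 0 X, z ^ (cardFactors m) * Real.log m +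
          ∑ m ∈ Ioc 0 X, z ^ (cardFactors m) * (Real.log X - Real.log m) := by
        rw [← sum_add_distrib, sum_mul]
        apply sum_congr rfl
        intro m _
        ring
      rw [e3]
      linarith
    rw [hIcc] at hL ⊢
    have hX0 : (0 : ℝ) < X := by exact_mod_cast (by omega : 0 < X)
    have hS2 : (∑ m ∈ Ioc 0 X, z ^ (cardFactors m)) * Real.log X ≤
        (C2 + 1) * X * (C1 * (Real.log X) ^ z) :=
      hS.trans (mul_le_mul_of_nonneg_left hL (by positivity))
    rw [← le_div_iff₀ hlog] at hS2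
    refine hS2.trans (le_of_eq ?_)
    rw [Real.rpow_sub_one hlog.ne']
    ring
  · refine hL.trans ?_
    have : C1 ≤ (C2 + 1) * C1 := by nlinarith
    exact mul_le_mul_of_nonneg_right this hpow.le

end Pool.Agent.BernOne
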