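import Mathlib
import Pool.Agent.BernOne.Om
import Pool.Agent.H6.Lower

set_option autoImplicit false

/-!
The mean of `(3/4) ^ Ω(p - 1)` over primes.
-/

namespace Pool.Agent.BernOne

open Finset ArithmeticFunction Filter

/-- weighted version of the average of `σ(m)/m` -/
theorem pw_sum_sigma (T : ℕ) (f : ℕ → ℝ) (hf0 : ∀ n, 0 ≤ f n)
    (hf : ∀ h b : ℕ, h ≠ 0 → b ≠ 0 → f (h * b) ≤ f b) :
    ∑ m ∈ Finset.Icc 1 T, f m * ((∑ h ∈ m.divisors, (1 : ℝ) / h) * (1 / m)) ≤
      2 * ∑ m ∈ Finset.Icc 1 T, f m / m := by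
  have h1 : ∑ m ∈ Finset.Icc 1 T, f m * ((∑ h ∈ m.divisors, (1 : ℝ) / h) * (1 / m)) =
      ∑ x ∈ (Finset.Icc 1 T).sigma (fun m => m.divisors), f x.1 * (((1 : ℝ) / x.2) * (1 / x.1)) := by
    rw [Finset.sum_sigma]
    apply Finset.sum_congr rfl
    intro m _
    rw [Finset.sum_mul, Finset.mul_sum]
  rw [h1]
  have h2 : ∀ x ∈ (Finset.Icc 1 T).sigma (fun m => m.divisors),
      f x.1 * (((1 : ℝ) / x.2) * (1 / x.1)) ≤
      (fun y : ℕ × ℕ => (1 / (y.1 : ℝ) ^ 2) * (f y.2 / (y.2 : ℝ))) (x.2, x.1 / x.2) := by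
    intro x hx
    rw [Finset.mem_sigma, Finset.mem_Icc, Nat.mem_divisors] at hx
    obtain ⟨⟨h3, h4⟩, h5, h6⟩ := hx
    have e0 : x.1 = x.2 * (x.1 / x.2) := (Nat.mul_div_cancel' h5).symm
    have e1 : (x.1 : ℝ) = (x.2 : ℝ) * ((x.1 / x.2 : ℕ) : ℝ) := by
      rw [← Nat.cast_mul, ← e0]
    have hx2 : x.2 ≠ 0 := by
      intro h0
      rw [h0, zero_mul] at e0
      omega
    have hx3 : x.1 / x.2 ≠ 0 := by
      intro h0
      rw [h0, mul_zero] at e0
      omega
    have hle : f x.1 ≤ f (x.1 / x.2) := by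
      conv_lhs => rw [e0]
      exact hf _ _ hx2 hx3
    show f x.1 * (((1 : ℝ) / x.2) * (1 / x.1)) ≤
      (1 / (x.2 : ℝ) ^ 2) * (f (x.1 / x.2) / ((x.1 / x.2 : ℕ) : ℝ))
    have e2 : ((1 : ℝ) / x.2) * (1 / x.1) = (1 / (x.2 : ℝ) ^ 2) * (1 / ((x.1 / x.2 : ℕ) : ℝ)) := by
      rw [one_div_mul_one_div, one_div_mul_one_div]
      congr 1
      calc (x.2 : ℝ) * x.1 = (x.2 : ℝ) * ((x.2 : ℝ) * ((x.1 / x.2 : ℕ) : ℝ)) := by rw [← e1]
        _ = _ := by ring
    rw [e2]
    calc f x.1 * ((1 / (x.2 : ℝ) ^ 2) * (1 / ((x.1 / x.2 : ℕ) : ℝ)))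
        ≤ f (x.1 / x.2) * ((1 / (x.2 : ℝ) ^ 2) * (1 / ((x.1 / x.2 : ℕ) : ℝ))) :=
          mul_le_mul_of_nonneg_right hle (by positivity)
      _ = _ := by ring
  have hinj : Set.InjOn (fun x : (_ : ℕ) × ℕ => (x.2, x.1 / x.2))
      ((Finset.Icc 1 T).sigma (fun m => m.divisors) : Finset ((_ : ℕ) × ℕ)) := by
    intro x hx y hy hxy
    rw [Finset.mem_coe, Finset.mem_sigma, Finset.mem_Icc, Nat.mem_divisors] at hx hy
    have e1 : x.2 = y.2 := congrArg Prod.fst hxy
    have e2 : x.1 / x.2 = y.1 / y.2 := congrArg Prod.snd hxy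
    have e3 : x.1 = y.1 := by
      rw [← Nat.mul_div_cancel' hx.2.1, e2, e1, Nat.mul_div_cancel' hy.2.1]
    rcases x with ⟨a, b⟩
    rcases y with ⟨c, d⟩
    simp only at e1 e3
    subst e1 e3
    rfl
  refine (Finset.sum_le_sum h2).trans ?_
  rw [← Finset.sum_image
    (f := fun y : ℕ × ℕ => (1 / (y.1 : ℝ) ^ 2) * (f y.2 / (y.2 : ℝ))) hinj]
  have hsub : ((Finset.Icc 1 T).sigma (fun m => m.divisors)).image
      (fun x : (_ : ℕ) × ℕ => (x.2, x.1 / x.2)) ⊆ Finset.Icc 1 T ×ˢ Finset.Icc 1 T := by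
    intro y hy
    rw [Finset.mem_image] at hy
    obtain ⟨x, hx, rfl⟩ := hy
    rw [Finset.mem_sigma, Finset.mem_Icc, Nat.mem_divisors] at hx
    obtain ⟨⟨h3, h4⟩, h5, h6⟩ := hx
    have hx2 : 0 < x.2 := Nat.pos_of_dvd_of_pos h5 h3
    rw [Finset.mem_product, Finset.mem_Icc, Finset.mem_Icc]
    have hd := Nat.div_dvd_of_dvd h5
    exact ⟨⟨hx2, (Nat.le_of_dvd h3 h5).trans h4⟩,
      ⟨Nat.pos_of_dvd_of_pos hd h3, (Nat.le_of_dvd h3 hd).trans h4⟩⟩
  refine (Finset.sum_le_sum_of_subset_of_nonneg hsub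
    (fun i _ _ => mul_nonneg (by positivity) (div_nonneg (hf0 _) (by positivity)))).trans ?_
  rw [Finset.sum_product]
  simp_rw [← Finset.mul_sum]
  rw [← Finset.sum_mul]
  exact mul_le_mul_of_nonneg_right (H6.sum_inv_sq_le T)
    (Finset.sum_nonneg (fun i _ => div_nonneg (hf0 _) (by positivity)))

/-- a number is at most the `Ω`-th power of its largest prime factor -/
theorem pw_exists_prime (m : ℕ) (hm : 2 ≤ m) :
    ∃ q, q.Prime ∧ q ∣ m ∧ m ≤ q ^ (cardFactors m) := by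
  have hne : m.primeFactors.Nonempty := by
    rw [Nat.nonempty_primeFactors]; omega
  obtain ⟨q, hq, hmax⟩ := Finset.exists_max_image m.primeFactors id hne
  refine ⟨q, Nat.prime_of_mem_primeFactors hq, Nat.dvd_of_mem_primeFactors hq, ?_⟩
  have h1 : m.primeFactorsList.prod ≤ q ^ m.primeFactorsList.length := by
    apply List.prod_le_pow_card
    intro x hx
    have : x ∈ m.primeFactors := by
      rw [Nat.mem_primeFactors]
      exact ⟨Nat.prime_of_mem_primeFactorsList hx, Nat.dvd_of_mem_primeFactorsList hx, by omega⟩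
    exact hmax x this
  rw [Nat.prod_primeFactorsList (by omega)] at h1
  rwa [cardFactors_apply]

/-- the analytic data attached to `Y` -/
theorem pw_eventually : ∃ Y0 : ℕ, 16 ≤ Y0 ∧ ∀ Y : ℕ, Y0 ≤ Y →
    1 ≤ Real.log (Real.log Y) ∧ 768 * Real.log (Real.log Y) ≤ Real.log Y ∧
    40 * (Real.log (Real.log Y)) ^ 2 ≤ Real.log Y := by
  have hlog : Tendsto (fun Y : ℕ => Real.log (Y : ℝ)) atTop atTop :=
    Real.tendsto_log_atTop.comp tendsto_natCast_atTop_atTop
  have hll : Tendsto (fun Y : ℕ => Real.log (Real.log (Y : ℝ))) atTop atTop :=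
    Real.tendsto_log_atTop.comp hlog
  have e1 := hll.eventually_ge_atTop 1
  have h2 : ∀ᶠ x : ℝ in atTop, 768 * Real.log x ≤ x := by
    have := (Real.isLittleO_log_id_atTop).bound (show (0 : ℝ) < 1 / 768 by norm_num)
    filter_upwards [this, eventually_ge_atTop (1 : ℝ)] with x hx hx1
    rw [Real.norm_of_nonneg (Real.log_nonneg hx1), id, Real.norm_of_nonneg (by linarith)] at hx
    linarith
  have h3 : ∀ᶠ x : ℝ in atTop, 40 * (Real.log x) ^ 2 ≤ x := by
    have := (Real.isLittleO_pow_log_id_atTop (n := 2)).bound (show (0 : ℝ) < 1 / 40 by norm_num)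
    filter_upwards [this, eventually_ge_atTop (1 : ℝ)] with x hx hx1
    rw [Real.norm_of_nonneg (by positivity), id, Real.norm_of_nonneg (by linarith)] at hx
    linarith
  have e2 := hlog.eventually h2
  have e3 := hlog.eventually h3
  obtain ⟨N, hN⟩ := eventually_atTop.mp (e1.and (e2.and e3))
  exact ⟨max N 16, le_max_right _ _, fun Y hY =>
    ⟨(hN Y ((le_max_left _ _).trans hY)).1, (hN Y ((le_max_left _ _).trans hY)).2.1,
      (hN Y ((le_max_left _ _).trans hY)).2.2⟩⟩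

/-- the primes with `p - 1 ≤ √Y` -/
theorem pw_small (Y : ℕ) :
    ∑ p ∈ (Icc 3 Y).filter (fun p => p - 1 ≤ Nat.sqrt Y), ((3 : ℝ) / 4) ^ (cardFactors (p - 1)) ≤
      Real.sqrt Y := by
  calc ∑ p ∈ (Icc 3 Y).filter (fun p => p - 1 ≤ Nat.sqrt Y), ((3 : ℝ) / 4) ^ (cardFactors (p - 1))
      ≤ ∑ p ∈ (Icc 3 Y).filter (fun p => p - 1 ≤ Nat.sqrt Y), (1 : ℝ) := by
        apply Finset.sum_le_sum
        intro p _
        exact pow_le_one₀ (by norm_num) (by norm_num)
    _ = (((Icc 3 Y).filter (fun p => p - 1 ≤ Nat.sqrt Y)).card : ℝ) := by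
        rw [Finset.sum_const, nsmul_eq_mul, mul_one]
    _ ≤ ((Icc 1 (Nat.sqrt Y)).card : ℝ) := by
        apply Nat.cast_le.mpr
        apply Finset.card_le_card_of_injOn (fun p => p - 1)
        · intro p hp
          rw [Finset.mem_coe, Finset.mem_filter, Finset.mem_Icc] at hp
          rw [Finset.mem_coe, Finset.mem_Icc]
          exact ⟨by show 1 ≤ p - 1; omega, hp.2⟩
        · intro p hp q hq hpq
          rw [Finset.mem_coe, Finset.mem_filter, Finset.mem_Icc] at hp hq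
          simp only at hpq
          omega
    _ = (Nat.sqrt Y : ℝ) := by rw [Nat.card_Icc, Nat.add_sub_cancel]
    _ ≤ Real.sqrt Y := Real.nat_sqrt_le_real_sqrt

/-- the primes with many factors of `p - 1` -/
theorem pw_many (Y : ℕ) (l : ℝ) :
    ∑ p ∈ (Icc 3 Y).filter (fun p => 8 * l ≤ (cardFactors (p - 1) : ℝ)),
      ((3 : ℝ) / 4) ^ (cardFactors (p - 1)) ≤
      Real.exp (-(8 / 3) * l) * ∑ m ∈ Icc 1 Y, ((3 : ℝ) / 2) ^ (cardFactors m) := by
  have hlog : (1 : ℝ) / 3 ≤ Real.log (3 / 2) := by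
    have := Real.one_sub_inv_le_log_of_pos (show (0 : ℝ) < 3 / 2 by norm_num)
    norm_num at this
    linarith
  calc ∑ p ∈ (Icc 3 Y).filter (fun p => 8 * l ≤ (cardFactors (p - 1) : ℝ)),
      ((3 : ℝ) / 4) ^ (cardFactors (p - 1))
      ≤ ∑ p ∈ (Icc 3 Y).filter (fun p => 8 * l ≤ (cardFactors (p - 1) : ℝ)),
        Real.exp (-(8 / 3) * l) * ((3 : ℝ) / 2) ^ (cardFactors (p - 1)) := by
        apply Finset.sum_le_sum
        intro p hp
        rw [Finset.mem_filter] at hp
        have h1 : ((3 : ℝ) / 4) ^ (cardFactors (p - 1)) ≤ 1 :=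
          pow_le_one₀ (by norm_num) (by norm_num)
        refine h1.trans ?_
        have h2 : ((3 : ℝ) / 2) ^ (cardFactors (p - 1)) =
            Real.exp (Real.log (3 / 2) * (cardFactors (p - 1) : ℝ)) := by
          rw [mul_comm, Real.exp_nat_mul, Real.exp_log (by norm_num)]
        rw [h2, ← Real.exp_add]
        apply Real.one_le_exp
        have h3 : (1 : ℝ) / 3 * (cardFactors (p - 1) : ℝ) ≤
            Real.log (3 / 2) * (cardFactors (p - 1) : ℝ) :=
          mul_le_mul_of_nonneg_right hlog (Nat.cast_nonneg _)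
        linarith [hp.2]
    _ = Real.exp (-(8 / 3) * l) * ∑ p ∈ (Icc 3 Y).filter
          (fun p => 8 * l ≤ (cardFactors (p - 1) : ℝ)), ((3 : ℝ) / 2) ^ (cardFactors (p - 1)) := by
        rw [Finset.mul_sum]
    _ ≤ _ := by
        apply mul_le_mul_of_nonneg_left _ (Real.exp_pos _).le
        have hinj : Set.InjOn (fun p : ℕ => p - 1)
            (((Icc 3 Y).filter (fun p => 8 * l ≤ (cardFactors (p - 1) : ℝ)) : Finset ℕ) : Set ℕ) := by
          intro p hp q hq hpq
          rw [Finset.mem_coe, Finset.mem_filter, Finset.mem_Icc] at hp hq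
          simp only at hpq
          omega
        rw [← Finset.sum_image (f := fun m : ℕ => ((3 : ℝ) / 2) ^ (cardFactors m)) hinj]
        apply Finset.sum_le_sum_of_subset_of_nonneg
        · intro m hm
          rw [Finset.mem_image] at hm
          obtain ⟨p, hp, rfl⟩ := hm
          rw [Finset.mem_filter, Finset.mem_Icc] at hp
          rw [Finset.mem_Icc]
          omega
        · intro i _ _; positivity

/-- the pair sieve part -/
theorem pw_pairs (Y T w : ℕ) (hw : 2 ≤ w) (S : Finset ℕ)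
    (hS : ∀ p ∈ S, ∃ a q : ℕ, 1 ≤ a ∧ a ≤ T ∧ 2 ∣ a ∧ q.Prime ∧ (a * q + 1).Prime ∧ a * q + 1 = p ∧
      p ≤ Y) :
    ∑ p ∈ S, ((3 : ℝ) / 4) ^ (cardFactors (p - 1)) ≤
      16 * (∑ a ∈ Icc 1 T, ((3 : ℝ) / 4) ^ (cardFactors a) / a) * Y / (Real.log w) ^ 2 +
        T * (2 * (w : ℝ) ^ 12) := by
  set f : ℕ → ℝ := fun a => ((3 : ℝ) / 4) ^ (cardFactors a) with hf
  have hf0 : ∀ n, 0 ≤ f n := fun n => by simp only [hf]; positivity
  have hf1 : ∀ n, f n ≤ 1 := fun n => pow_le_one₀ (by norm_num) (by norm_num)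
  have hmul : ∀ h b : ℕ, h ≠ 0 → b ≠ 0 → f (h * b) ≤ f b := by
    intro h b hh hb
    simp only [hf]
    rw [cardFactors_mul hh hb]
    exact pow_le_pow_of_le_one (by norm_num) (by norm_num) (Nat.le_add_left _ _)
  set A := (Finset.Icc 1 T).filter (fun m => 2 ∣ m) with hA
  set F : ℕ → Finset ℕ :=
    fun a => (Finset.Icc 1 (Y / a)).filter (fun q => q.Prime ∧ (a * q + 1).Prime) with hF
  have hlog : 0 < Real.log w := Real.log_pos (by exact_mod_cast (by omega : 1 < w))
  have h1 : ∑ p ∈ S, f (p - 1) ≤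
      ∑ p ∈ S, ∑ a ∈ A, ∑ q ∈ F a, (if a * q + 1 = p then f a else 0) := by
    apply Finset.sum_le_sum
    intro p hp
    obtain ⟨a, q, ha1, haT, ha2, hq, hpr, hpe, hpY⟩ := hS p hp
    have haA : a ∈ A := by
      rw [hA, Finset.mem_filter, Finset.mem_Icc]; exact ⟨⟨ha1, haT⟩, ha2⟩
    have hqF : q ∈ F a := by
      simp only [hF]
      rw [Finset.mem_filter, Finset.mem_Icc]
      refine ⟨⟨hq.one_lt.le, ?_⟩, hq, hpr⟩
      rw [Nat.le_div_iff_mul_le (by omega), mul_comm]
      omega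
    have hle : f (p - 1) ≤ f a := by
      have : p - 1 = q * a := by rw [← hpe, Nat.add_sub_cancel, mul_comm]
      rw [this]
      exact hmul q a hq.ne_zero (by omega)
    refine hle.trans ?_
    have h2 : f a ≤ ∑ q ∈ F a, (if a * q + 1 = p then f a else 0) := by
      have h3 := Finset.single_le_sum (f := fun q => if a * q + 1 = p then f a else 0)
        (fun i _ => by split_ifs; exacts [hf0 a, le_rfl]) hqF
      simp only [hpe, if_true] at h3
      exact h3
    refine h2.trans ?_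
    exact Finset.single_le_sum (f := fun a => ∑ q ∈ F a, if a * q + 1 = p then f a else 0)
      (fun i _ => Finset.sum_nonneg (fun j _ => by split_ifs; exacts [hf0 i, le_rfl])) haA
  have h2 : ∑ p ∈ S, ∑ a ∈ A, ∑ q ∈ F a, (if a * q + 1 = p then f a else 0) ≤
      ∑ a ∈ A, f a * ((F a).card : ℝ) := by
    rw [Finset.sum_comm]
    apply Finset.sum_le_sum
    intro a _
    rw [Finset.sum_comm]
    calc ∑ q ∈ F a, ∑ p ∈ S, (if a * q + 1 = p then f a else 0)
        ≤ ∑ q ∈ F a, f a := by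
          apply Finset.sum_le_sum
          intro q _
          rw [Finset.sum_ite_eq]
          split_ifs
          · exact le_rfl
          · exact hf0 a
      _ = f a * ((F a).card : ℝ) := by
          rw [Finset.sum_const, nsmul_eq_mul, mul_comm]
  refine h1.trans (h2.trans ?_)
  calc ∑ a ∈ A, f a * ((F a).card : ℝ)
      ≤ ∑ a ∈ A, (8 * (f a * ((∑ h ∈ a.divisors, (1 : ℝ) / h) * (1 / a))) * Y / (Real.log w) ^ 2 +
          2 * (w : ℝ) ^ 12) := by
        apply Finset.sum_le_sum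
        intro a ha
        rw [hA, Finset.mem_filter, Finset.mem_Icc] at ha
        have h3 := H6.card_pairs_explicit a (Y / a) w ha.2 ha.1.1 hw
        have h4 : ((Y / a : ℕ) : ℝ) ≤ (Y : ℝ) * (1 / a) := by
          rw [mul_one_div]
          exact Nat.cast_div_le
        have hs : 0 ≤ ∑ h ∈ a.divisors, (1 : ℝ) / h := Finset.sum_nonneg (fun i _ => by positivity)
        have h5 : 8 * (∑ h ∈ a.divisors, (1 : ℝ) / h) * ((Y / a : ℕ) : ℝ) / (Real.log w) ^ 2 ≤
            8 * (∑ h ∈ a.divisors, (1 : ℝ) / h) * ((Y : ℝ) * (1 / a)) / (Real.log w) ^ 2 := by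
          gcongr
        calc f a * ((F a).card : ℝ)
            ≤ f a * (8 * (∑ h ∈ a.divisors, (1 : ℝ) / h) * ((Y : ℝ) * (1 / a)) / (Real.log w) ^ 2 +
              2 * (w : ℝ) ^ 12) := by
              apply mul_le_mul_of_nonneg_left _ (hf0 a)
              refine h3.trans ?_
              linarith
          _ = 8 * (f a * ((∑ h ∈ a.divisors, (1 : ℝ) / h) * (1 / a))) * Y / (Real.log w) ^ 2 +
              f a * (2 * (w : ℝ) ^ 12) := by ring
          _ ≤ _ := by
              have h6 : f a * (2 * (w : ℝ) ^ 12) ≤ 1 * (2 * (w : ℝ) ^ 12) :=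
                mul_le_mul_of_nonneg_right (hf1 a) (by positivity)
              linarith
    _ ≤ ∑ a ∈ Finset.Icc 1 T,
        (8 * (f a * ((∑ h ∈ a.divisors, (1 : ℝ) / h) * (1 / a))) * Y / (Real.log w) ^ 2 +
          2 * (w : ℝ) ^ 12) := by
        apply Finset.sum_le_sum_of_subset_of_nonneg (Finset.filter_subset _ _)
        intro i _ _
        have hs : 0 ≤ ∑ h ∈ i.divisors, (1 : ℝ) / h := Finset.sum_nonneg (fun i _ => by positivity)
        have := hf0 i
        positivity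
    _ = 8 * (∑ a ∈ Finset.Icc 1 T, f a * ((∑ h ∈ a.divisors, (1 : ℝ) / h) * (1 / a))) * Y /
          (Real.log w) ^ 2 + T * (2 * (w : ℝ) ^ 12) := by
        rw [Finset.sum_add_distrib, Finset.sum_const, Nat.card_Icc, Nat.add_sub_cancel, nsmul_eq_mul,
          ← Finset.sum_div, ← Finset.sum_mul, ← Finset.mul_sum]
    _ ≤ _ := by
        have h6 := pw_sum_sigma T f hf0 hmul
        have h8 : 8 * (∑ a ∈ Finset.Icc 1 T, f a * ((∑ h ∈ a.divisors, (1 : ℝ) / h) * (1 / a))) ≤
            16 * ∑ a ∈ Finset.Icc 1 T, f a / a := by linarith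
        have h9 : 8 * (∑ a ∈ Finset.Icc 1 T, f a * ((∑ h ∈ a.divisors, (1 : ℝ) / h) * (1 / a))) * Y /
            (Real.log w) ^ 2 ≤ 16 * (∑ a ∈ Finset.Icc 1 T, f a / a) * Y / (Real.log w) ^ 2 := by
          apply div_le_div_of_nonneg_right _ (by positivity)
          exact mul_le_mul_of_nonneg_right h8 (Nat.cast_nonneg Y)
        linarith

/-- Sketch. `Ω = cardFactors`, `w(m) = (3/4)^Ω(m)`, `l = log log Y`.
(1) `p - 1 ≤ √Y`: at most `√Y`.
(2) `Ω(p-1) ≥ 8 l`: `#{m ≤ Y : Ω(m) ≥ 8 l} ≤ (3/2)^(-8l) ∑ (3/2)^Ω(m) ≤ C Y (log Y)^(1/2 - 8 log(3/2))`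
 and `8 log (3/2) ≥ 8/3`, so `≤ C Y (log Y)^(-5/4)`.
(3) otherwise the largest prime factor `q` of `p - 1` has `q^(8l) ≥ √Y`, `log q ≥ log Y/(16 l)`.
 `p - 1 = a q`, `a ≤ Y/q`, `w(p-1) = (3/4) w(a)`, `a` even. For fixed `a` the number of
 `q ≤ Y/a` with `q`, `a q + 1` prime is bounded by `card_pairs_explicit`
 (`w := ⌊exp(log Y/(384 l))⌋`). Sum over `a` with weight `w(a)`. -/
theorem prime_w : ∃ (C : ℝ) (Y0 : ℕ), 0 < C ∧ 16 ≤ Y0 ∧ ∀ Y : ℕ, Y0 ≤ Y →
    ∑ p ∈ (Icc 3 Y).filter Nat.Prime, ((3 : ℝ) / 4) ^ (cardFactors (p - 1)) ≤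
      C * Y * (Real.log Y) ^ (-(5 / 4) : ℝ) * (Real.log (Real.log Y)) ^ 2 := by
  obtain ⟨C1, hC1, hm1⟩ := omega_moment (3 / 2) (by norm_num) le_rfl
  obtain ⟨C2, hC2, hm2⟩ := omega_moment (3 / 4) (by norm_num) (by norm_num)
  obtain ⟨Y0, hY0, hev⟩ := pw_eventually
  refine ⟨1 + C1 + (16 * C2 * 768 ^ 2 + 2), Y0, by positivity, hY0, ?_⟩
  intro Y hY
  obtain ⟨e1, e2, e3⟩ := hev Y hY
  have hY16 : 16 ≤ Y := hY0.trans hY
  set L := Real.log (Y : ℝ) with hL
  set l := Real.log L with hl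
  have hYpos : (0 : ℝ) < Y := by exact_mod_cast (by omega : 0 < Y)
  have hLpos : 0 < L := by linarith
  have hL1 : 1 ≤ L := by linarith
  have hlpos : 0 < l := by linarith
  have hexpl : Real.exp l = L := Real.exp_log hLpos
  have hexpL : Real.exp L = Y := Real.exp_log hYpos
  have hLpow : ∀ s : ℝ, L ^ s = Real.exp (l * s) := by
    intro s
    rw [Real.rpow_def_of_pos hLpos]
  set B := (Y : ℝ) * L ^ (-(5 / 4) : ℝ) with hB
  have hBpos : 0 < B := by rw [hB]; positivity
  have hl2 : 1 ≤ l ^ 2 := by nlinarith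
  -- E
  set E := Real.exp (L / (384 * l)) with hE
  have hE4 : 4 ≤ E := by
    have h1 : 2 ≤ L / (384 * l) := by
      rw [le_div_iff₀ (by positivity)]; linarith
    have h2 : Real.exp 2 ≤ E := Real.exp_le_exp.mpr h1
    have h3 : (4 : ℝ) ≤ Real.exp 2 := by
      have h4 : Real.exp 2 = Real.exp 1 * Real.exp 1 := by
        rw [← Real.exp_add]; norm_num
      have h5 := Real.add_one_le_exp (1 : ℝ)
      rw [h4]
      nlinarith
    linarith
  have hE24 : E ^ 24 = Real.exp (L / (16 * l)) := by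
    rw [hE, ← Real.exp_nat_mul]
    congr 1
    push_cast
    field_simp
    norm_num
  set w := ⌊E⌋₊ with hw
  have hwE : (w : ℝ) ≤ E := Nat.floor_le (by linarith)
  have hwE2 : E - 1 ≤ w := by
    have := Nat.lt_floor_add_one E
    linarith
  have hw2 : 2 ≤ w := by
    have : (2 : ℝ) ≤ w := by linarith
    exact_mod_cast this
  have hlogw : L / (768 * l) ≤ Real.log w := by
    have h1 : Real.exp (L / (768 * l)) ≤ w := by
      have h2 : Real.exp (L / (768 * l)) ^ 2 = E := by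
        rw [hE, ← Real.exp_nat_mul]
        congr 1
        push_cast
        field_simp
        norm_num
      have h3 : 2 ≤ Real.exp (L / (768 * l)) := by
        by_contra hcon
        push Not at hcon
        have h4 : Real.exp (L / (768 * l)) ^ 2 < 4 := by
          have := Real.exp_pos (L / (768 * l))
          nlinarith
        linarith
      nlinarith
    calc L / (768 * l) = Real.log (Real.exp (L / (768 * l))) := (Real.log_exp _).symm
      _ ≤ Real.log w := Real.log_le_log (Real.exp_pos _) h1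
  set T := ⌊(Y : ℝ) / E ^ 24⌋₊ with hT
  have hTle : (T : ℝ) ≤ (Y : ℝ) / E ^ 24 := Nat.floor_le (by positivity)
  have hTY : T ≤ Y := by
    have h1 : (Y : ℝ) / E ^ 24 ≤ Y := by
      apply div_le_self hYpos.le
      exact one_le_pow₀ (by linarith)
    exact_mod_cast hTle.trans h1
  -- the three parts
  have hpart : ∑ p ∈ (Icc 3 Y).filter Nat.Prime, ((3 : ℝ) / 4) ^ (cardFactors (p - 1)) ≤
      ∑ p ∈ (Icc 3 Y).filter (fun p => p - 1 ≤ Nat.sqrt Y), ((3 : ℝ) / 4) ^ (cardFactors (p - 1)) +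
      ∑ p ∈ (Icc 3 Y).filter (fun p => 8 * l ≤ (cardFactors (p - 1) : ℝ)),
        ((3 : ℝ) / 4) ^ (cardFactors (p - 1)) +
      ∑ p ∈ (Icc 3 Y).filter (fun p => p.Prime ∧ Nat.sqrt Y < p - 1 ∧
        (cardFactors (p - 1) : ℝ) < 8 * l), ((3 : ℝ) / 4) ^ (cardFactors (p - 1)) := by
    simp only [Finset.sum_filter]
    rw [← Finset.sum_add_distrib, ← Finset.sum_add_distrib]
    apply Finset.sum_le_sum
    intro p _
    have hpos : 0 ≤ ((3 : ℝ) / 4) ^ (cardFactors (p - 1)) := by positivity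
    by_cases h1 : p.Prime
    · by_cases h2 : p - 1 ≤ Nat.sqrt Y
      · rw [if_pos h1, if_pos h2]
        have : 0 ≤ (if 8 * l ≤ (cardFactors (p - 1) : ℝ) then
          ((3 : ℝ) / 4) ^ (cardFactors (p - 1)) else 0) := by split_ifs; exacts [hpos, le_rfl]
        have : 0 ≤ (if p.Prime ∧ Nat.sqrt Y < p - 1 ∧ (cardFactors (p - 1) : ℝ) < 8 * l then
          ((3 : ℝ) / 4) ^ (cardFactors (p - 1)) else 0) := by split_ifs; exacts [hpos, le_rfl]
        linarith
      · by_cases h3 : 8 * l ≤ (cardFactors (p - 1) : ℝ)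
        · rw [if_pos h1, if_neg h2, if_pos h3]
          have : 0 ≤ (if p.Prime ∧ Nat.sqrt Y < p - 1 ∧ (cardFactors (p - 1) : ℝ) < 8 * l then
            ((3 : ℝ) / 4) ^ (cardFactors (p - 1)) else 0) := by split_ifs; exacts [hpos, le_rfl]
          linarith
        · rw [if_pos h1, if_neg h2, if_neg h3, if_pos ⟨h1, not_le.mp h2, not_le.mp h3⟩]
          linarith
    · rw [if_neg h1]
      have h4 : 0 ≤ (if p - 1 ≤ Nat.sqrt Y then
          ((3 : ℝ) / 4) ^ (cardFactors (p - 1)) else 0) := by split_ifs; exacts [hpos, le_rfl]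
      have : 0 ≤ (if 8 * l ≤ (cardFactors (p - 1) : ℝ) then
          ((3 : ℝ) / 4) ^ (cardFactors (p - 1)) else 0) := by split_ifs; exacts [hpos, le_rfl]
      have : 0 ≤ (if p.Prime ∧ Nat.sqrt Y < p - 1 ∧ (cardFactors (p - 1) : ℝ) < 8 * l then
          ((3 : ℝ) / 4) ^ (cardFactors (p - 1)) else 0) := by split_ifs; exacts [hpos, le_rfl]
      linarith
  -- part 1
  have hp1 : ∑ p ∈ (Icc 3 Y).filter (fun p => p - 1 ≤ Nat.sqrt Y),
      ((3 : ℝ) / 4) ^ (cardFactors (p - 1)) ≤ B := by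
    refine (pw_small Y).trans ?_
    rw [hB, hLpow]
    have h1 : Real.sqrt Y = Real.exp (L / 2) := by
      rw [← hexpL, Real.exp_half]
    rw [h1, ← hexpL, ← Real.exp_add]
    apply Real.exp_le_exp.mpr
    linarith
  -- part 2
  have hp2 : ∑ p ∈ (Icc 3 Y).filter (fun p => 8 * l ≤ (cardFactors (p - 1) : ℝ)),
        ((3 : ℝ) / 4) ^ (cardFactors (p - 1)) ≤ C1 * B := by
    refine (pw_many Y l).trans ?_
    have h1 := (hm1 Y (by omega)).1
    calc Real.exp (-(8 / 3) * l) * ∑ m ∈ Icc 1 Y, ((3 : ℝ) / 2) ^ (cardFactors m)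
        ≤ Real.exp (-(8 / 3) * l) * (C1 * Y * L ^ ((3 : ℝ) / 2 - 1)) :=
          mul_le_mul_of_nonneg_left h1 (Real.exp_pos _).le
      _ = C1 * (Y * Real.exp (-(8 / 3) * l + l * ((3 : ℝ) / 2 - 1))) := by
          rw [Real.exp_add, hLpow]; ring
      _ ≤ C1 * B := by
          apply mul_le_mul_of_nonneg_left _ hC1.le
          rw [hB, hLpow]
          apply mul_le_mul_of_nonneg_left _ hYpos.le
          apply Real.exp_le_exp.mpr
          linarith
  -- part 3
  have hp3 : ∑ p ∈ (Icc 3 Y).filter (fun p => p.Prime ∧ Nat.sqrt Y < p - 1 ∧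
        (cardFactors (p - 1) : ℝ) < 8 * l), ((3 : ℝ) / 4) ^ (cardFactors (p - 1)) ≤
      (16 * C2 * 768 ^ 2) * (B * l ^ 2) + 2 * B := by
    have hmain := pw_pairs Y T w hw2 ((Icc 3 Y).filter (fun p => p.Prime ∧ Nat.sqrt Y < p - 1 ∧
        (cardFactors (p - 1) : ℝ) < 8 * l)) (by
      intro p hp
      rw [Finset.mem_filter, Finset.mem_Icc] at hp
      obtain ⟨⟨hp3, hpY⟩, hpp, hps, hpΩ⟩ := hp
      obtain ⟨q, hq, hqd, hqm⟩ := pw_exists_prime (p - 1) (by omega)
      obtain ⟨a, ha⟩ := hqd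
      have hqpos : (0 : ℝ) < q := by exact_mod_cast hq.pos
      have hlogq : 0 < Real.log q := Real.log_pos (by exact_mod_cast hq.one_lt)
      have hp1pos : (0 : ℝ) < ((p - 1 : ℕ) : ℝ) := by exact_mod_cast (by omega : 0 < p - 1)
      -- log (p - 1) > L / 2
      have hlow : L / 2 < Real.log ((p - 1 : ℕ) : ℝ) := by
        have h1 : Y < (p - 1) * (p - 1) := Nat.sqrt_lt.mp hps
        have h2 : (Y : ℝ) < ((p - 1 : ℕ) : ℝ) * ((p - 1 : ℕ) : ℝ) := by exact_mod_cast h1
        have h3 := Real.log_lt_log hYpos h2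
        rw [Real.log_mul hp1pos.ne' hp1pos.ne'] at h3
        linarith
      have hup : Real.log ((p - 1 : ℕ) : ℝ) ≤ (cardFactors (p - 1) : ℝ) * Real.log q := by
        have h1 : ((p - 1 : ℕ) : ℝ) ≤ (q : ℝ) ^ (cardFactors (p - 1)) := by exact_mod_cast hqm
        have h2 := Real.log_le_log hp1pos h1
        rwa [Real.log_pow] at h2
      have hqE : E ^ 24 < q := by
        rw [hE24]
        have h1 : L / (16 * l) < Real.log q := by
          rw [div_lt_iff₀ (by positivity)]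
          have h2 : (cardFactors (p - 1) : ℝ) * Real.log q ≤ 8 * l * Real.log q :=
            mul_le_mul_of_nonneg_right hpΩ.le hlogq.le
          linarith
        calc Real.exp (L / (16 * l)) < Real.exp (Real.log q) := Real.exp_lt_exp.mpr h1
          _ = q := Real.exp_log hqpos
      have hE24' : (4 : ℝ) ≤ E ^ 24 := by
        calc (4 : ℝ) ≤ E := hE4
          _ = E ^ 1 := (pow_one E).symm
          _ ≤ E ^ 24 := pow_le_pow_right₀ (by linarith) (by norm_num)
      have hq3 : 3 ≤ q := by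
        have : (3 : ℝ) ≤ q := by linarith
        exact_mod_cast this
      have ha1 : 1 ≤ a := by
        rcases Nat.eq_zero_or_pos a with h | h
        · subst h; omega
        · exact h
      have hpe : a * q + 1 = p := by rw [mul_comm]; omega
      refine ⟨a, q, ha1, ?_, ?_, hq, by rw [hpe]; exact hpp, hpe, hpY⟩
      · rw [hT]
        apply Nat.le_floor
        rw [le_div_iff₀ (by positivity)]
        have h1 : (a : ℝ) * q ≤ Y := by
          have : a * q ≤ Y := by omega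
          exact_mod_cast this
        have h2 : (a : ℝ) * E ^ 24 ≤ a * q := mul_le_mul_of_nonneg_left hqE.le (Nat.cast_nonneg _)
        linarith
      · have hodd := hpp.odd_of_ne_two (by omega)
        obtain ⟨k, hk⟩ := hodd
        have h2 : 2 ∣ q * a := ⟨k, by omega⟩
        rcases (Nat.prime_two.dvd_mul).mp h2 with h | h
        · have h3 : q = 2 := ((Nat.prime_dvd_prime_iff_eq Nat.prime_two hq).mp h).symm
          omega
        · exact h)
    refine hmain.trans ?_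
    have hsum : ∑ a ∈ Icc 1 T, ((3 : ℝ) / 4) ^ (cardFactors a) / a ≤ C2 * L ^ ((3 : ℝ) / 4) := by
      refine le_trans ?_ (hm2 Y (by omega)).2
      apply Finset.sum_le_sum_of_subset_of_nonneg
      · exact Finset.Icc_subset_Icc_right hTY
      · intro i _ _; positivity
    have hLw : 0 < L / (768 * l) := by positivity
    have hterm1 : 16 * (∑ a ∈ Icc 1 T, ((3 : ℝ) / 4) ^ (cardFactors a) / a) * Y / (Real.log w) ^ 2 ≤
        (16 * C2 * 768 ^ 2) * (B * l ^ 2) := by
      calc 16 * (∑ a ∈ Icc 1 T, ((3 : ℝ) / 4) ^ (cardFactors a) / a) * Y / (Real.log w) ^ 2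
          ≤ 16 * (C2 * L ^ ((3 : ℝ) / 4)) * Y / (L / (768 * l)) ^ 2 := by
            gcongr
        _ = (16 * C2 * 768 ^ 2) * (B * l ^ 2) := by
            have h1 : L ^ ((3 : ℝ) / 4) = L ^ (-(5 / 4) : ℝ) * L ^ 2 := by
              rw [← Real.rpow_natCast L 2, ← Real.rpow_add hLpos]
              norm_num
            rw [h1, hB]
            field_simp
    have hterm2 : (T : ℝ) * (2 * (w : ℝ) ^ 12) ≤ 2 * B := by
      calc (T : ℝ) * (2 * (w : ℝ) ^ 12) ≤ ((Y : ℝ) / E ^ 24) * (2 * E ^ 12) := by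
            gcongr
        _ = 2 * (Y * (E ^ 12)⁻¹) := by
            have : E ≠ 0 := by positivity
            field_simp
        _ ≤ 2 * B := by
            apply mul_le_mul_of_nonneg_left _ (by norm_num)
            rw [hB, hLpow]
            apply mul_le_mul_of_nonneg_left _ hYpos.le
            rw [hE, ← Real.exp_nat_mul, ← Real.exp_neg]
            apply Real.exp_le_exp.mpr
            have h1 : ((12 : ℕ) : ℝ) * (L / (384 * l)) = L / (32 * l) := by
              push_cast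
              field_simp
              norm_num
            rw [h1]
            have h2 : l * (5 / 4) ≤ L / (32 * l) := by
              rw [le_div_iff₀ (by positivity)]
              nlinarith
            linarith
    linarith
  have hBl : B ≤ B * l ^ 2 := le_mul_of_one_le_right hBpos.le hl2
  calc ∑ p ∈ (Icc 3 Y).filter Nat.Prime, ((3 : ℝ) / 4) ^ (cardFactors (p - 1))
      ≤ B + C1 * B + ((16 * C2 * 768 ^ 2) * (B * l ^ 2) + 2 * B) := by linarith
    _ ≤ B * l ^ 2 + C1 * (B * l ^ 2) + ((16 * C2 * 768 ^ 2) * (B * l ^ 2) + 2 * (B * l ^ 2)) := by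
        have := mul_le_mul_of_nonneg_left hBl hC1.le
        linarith
    _ = (1 + C1 + (16 * C2 * 768 ^ 2 + 2)) * Y * L ^ (-(5 / 4) : ℝ) * l ^ 2 := by
        rw [hB]; ring

end Pool.Agent.BernOne
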