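import Mathlib
import Pool.Agent.BernOne.PrimeW
import Pool.Agent.BernIrr.Defs
import Pool.Agent.CoprimeSieve.Mertens

set_option autoImplicit false

namespace Pool.Agent.BernOne

open Finset ArithmeticFunction Pool.Agent.BernIrr

/-- odd primes up to `X + 1` -/
def ewP (X : ℕ) : Finset ℕ := (Icc 3 (X + 1)).filter Nat.Prime

lemma mem_ewP {X p : ℕ} : p ∈ ewP X ↔ 3 ≤ p ∧ p ≤ X + 1 ∧ p.Prime := by
  unfold ewP; rw [mem_filter, mem_Icc]; tauto

lemma ew_zf {m X : ℕ} (h1 : 1 ≤ m) (hX : m ≤ X) :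
    Zf m = ∑ p ∈ (ewP X).filter (fun p => (p - 1) ∣ m), Real.log p := by
  unfold Zf
  apply Finset.sum_congr _ (fun _ _ => rfl)
  ext p
  simp only [mem_filter, mem_range, mem_ewP]
  constructor
  · rintro ⟨h2, h3, h4, h5⟩
    have := h3.two_le
    exact ⟨⟨by omega, by omega, h3⟩, h5⟩
  · rintro ⟨⟨h2, h3, h4⟩, h5⟩
    have := Nat.le_of_dvd (by omega) h5
    exact ⟨by omega, h4, by omega, h5⟩

lemma ew_card_mult (X d : ℕ) : ((Icc 1 X).filter (fun m => d ∣ m)).card = X / d := by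
  rw [← Nat.Ioc_filter_dvd_card_eq_div]
  rfl

lemma ew_inv {p : ℕ} (hp : 3 ≤ p) : (1 : ℝ) / ((p - 1 : ℕ) : ℝ) ≤ 3 / 2 * (1 / p) := by
  have h1 : (3 : ℝ) ≤ p := by exact_mod_cast hp
  rw [Nat.cast_sub (by omega : 1 ≤ p), Nat.cast_one]
  rw [div_le_iff₀ (by linarith)]
  field_simp
  linarith

lemma ew_card_mult_le (X : ℕ) {p : ℕ} (hp : 3 ≤ p) :
    (((Icc 1 X).filter (fun m => (p - 1) ∣ m)).card : ℝ) ≤ 3 / 2 * X * (1 / p) := by
  rw [ew_card_mult]
  have h1 : ((X / (p - 1) : ℕ) : ℝ) ≤ X / ((p - 1 : ℕ) : ℝ) := Nat.cast_div_le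
  have h2 := ew_inv hp
  have h3 : (0 : ℝ) ≤ X := Nat.cast_nonneg X
  calc ((X / (p - 1) : ℕ) : ℝ) ≤ X / ((p - 1 : ℕ) : ℝ) := h1
    _ = X * (1 / ((p - 1 : ℕ) : ℝ)) := by ring
    _ ≤ X * (3 / 2 * (1 / p)) := mul_le_mul_of_nonneg_left h2 h3
    _ = _ := by ring

/-- part (a) -/
lemma ew_a : ∃ C : ℝ, 0 ≤ C ∧ ∀ (X : ℕ) (y : ℝ), 1 ≤ y →
    ∑ m ∈ Icc 1 X, ∑ p ∈ (ewP X).filter (fun p : ℕ => (p - 1) ∣ m ∧ (p : ℝ) ≤ y), Real.log p ≤
      2 * X * (Real.log y + C) := by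
  obtain ⟨C, hC, hM⟩ := CoprimeSieve.mertens_first
  refine ⟨C, hC, fun X y hy => ?_⟩
  have h1 : ∑ m ∈ Icc 1 X, ∑ p ∈ (ewP X).filter (fun p : ℕ => (p - 1) ∣ m ∧ (p : ℝ) ≤ y), Real.log p
      = ∑ p ∈ (ewP X).filter (fun p : ℕ => (p : ℝ) ≤ y),
        ∑ m ∈ (Icc 1 X).filter (fun m => (p - 1) ∣ m), Real.log p := by
    apply Finset.sum_comm'
    intro m p
    simp only [mem_filter]
    tauto
  rw [h1]
  have h2 : ∀ p ∈ (ewP X).filter (fun p : ℕ => (p : ℝ) ≤ y),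
      ∑ m ∈ (Icc 1 X).filter (fun m => (p - 1) ∣ m), Real.log p ≤
        3 / 2 * X * (Real.log p / p) := by
    intro p hp
    rw [mem_filter, mem_ewP] at hp
    rw [sum_const, nsmul_eq_mul]
    have h3 := ew_card_mult_le X hp.1.1
    have h4 : 0 ≤ Real.log p := Real.log_natCast_nonneg p
    calc _ ≤ 3 / 2 * X * (1 / p) * Real.log p := mul_le_mul_of_nonneg_right h3 h4
      _ = _ := by ring
  refine (Finset.sum_le_sum h2).trans ?_
  rw [← mul_sum]
  have h5 : ∑ p ∈ (ewP X).filter (fun p : ℕ => (p : ℝ) ≤ y), Real.log p / p ≤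
      CoprimeSieve.mE y := by
    unfold CoprimeSieve.mE
    apply Finset.sum_le_sum_of_subset_of_nonneg
    · intro p hp
      rw [mem_filter, mem_ewP] at hp
      rw [CoprimeSieve.mem_pr]
      exact ⟨hp.1.2.2, hp.2⟩
    · intro p _ _
      exact CoprimeSieve.logdiv_nonneg p
  have h6 := (abs_le.mp (hM y hy)).2
  have h7 : 0 ≤ Real.log y := Real.log_nonneg hy
  have h8 : (0 : ℝ) ≤ X := Nat.cast_nonneg X
  calc 3 / 2 * (X : ℝ) * ∑ p ∈ (ewP X).filter (fun p : ℕ => (p : ℝ) ≤ y), Real.log p / p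
      ≤ 3 / 2 * X * (Real.log y + C) := by
        apply mul_le_mul_of_nonneg_left _ (by positivity)
        linarith
    _ ≤ 2 * X * (Real.log y + C) := by
        apply mul_le_mul_of_nonneg_right _ (by positivity)
        linarith

/-- part (b) -/
lemma ew_b : ∃ C : ℝ, 0 ≤ C ∧ ∀ (X : ℕ) (z : ℝ), 2 ≤ z → z ≤ X + 1 →
    (((Icc 1 X).filter (fun m => ∃ p ∈ ewP X, (p - 1) ∣ m ∧ z < p)).card : ℝ) ≤
      3 / 2 * X * (Real.log (Real.log (X + 1) / Real.log z) + C / Real.log z) := by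
  obtain ⟨C, hC, hM⟩ := CoprimeSieve.mertens_second_upper
  refine ⟨C, hC, fun X z hz hzX => ?_⟩
  have h1 := hM z (X + 1) hz hzX
  have h2 : (Icc 1 X).filter (fun m => ∃ p ∈ ewP X, (p - 1) ∣ m ∧ z < p) ⊆
      ((ewP X).filter (fun p : ℕ => z < p)).biUnion
        (fun p => (Icc 1 X).filter (fun m => (p - 1) ∣ m)) := by
    intro m hm
    rw [mem_filter] at hm
    obtain ⟨hm1, p, hp, hp1, hp2⟩ := hm
    rw [mem_biUnion]
    exact ⟨p, mem_filter.mpr ⟨hp, hp2⟩, mem_filter.mpr ⟨hm1, hp1⟩⟩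
  have h3 : (((Icc 1 X).filter (fun m => ∃ p ∈ ewP X, (p - 1) ∣ m ∧ z < p)).card : ℝ) ≤
      ∑ p ∈ (ewP X).filter (fun p : ℕ => z < p),
        (((Icc 1 X).filter (fun m => (p - 1) ∣ m)).card : ℝ) := by
    have := (card_le_card h2).trans card_biUnion_le
    exact_mod_cast this
  refine h3.trans ?_
  have h4 : ∀ p ∈ (ewP X).filter (fun p : ℕ => z < p),
      (((Icc 1 X).filter (fun m => (p - 1) ∣ m)).card : ℝ) ≤ 3 / 2 * X * (1 / p) := by
    intro p hp
    rw [mem_filter, mem_ewP] at hp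
    exact ew_card_mult_le X hp.1.1
  refine (Finset.sum_le_sum h4).trans ?_
  rw [← mul_sum]
  apply mul_le_mul_of_nonneg_left _ (by positivity)
  refine le_trans ?_ h1
  apply Finset.sum_le_sum_of_subset_of_nonneg
  · intro p hp
    rw [mem_filter, mem_ewP] at hp
    rw [mem_filter, CoprimeSieve.mem_pr]
    refine ⟨⟨hp.1.2.2, ?_⟩, hp.2⟩
    exact_mod_cast hp.1.2.1
  · intro p _ _
    positivity

/-- part (c) -/
lemma ew_log32 : (2 : ℝ) / 5 ≤ Real.log (3 / 2) := by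
  have h1 : Real.exp 2 ≤ (3 / 2 : ℝ) ^ 5 := by
    have h2 : Real.exp 2 = Real.exp 1 * Real.exp 1 := by rw [← Real.exp_add]; norm_num
    have h3 := Real.exp_one_lt_d9
    have h4 := Real.exp_pos 1
    rw [h2]
    nlinarith
  have h5 : (2 : ℝ) ≤ Real.log ((3 / 2 : ℝ) ^ 5) := by
    rw [Real.le_log_iff_exp_le (by positivity)]
    exact h1
  rw [Real.log_pow] at h5
  norm_num at h5
  linarith

lemma ew_log43 : Real.log (4 / 3) ≤ (3 : ℝ) / 10 := by
  rw [Real.log_le_iff_le_exp (by norm_num)]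
  have := Real.quadratic_le_exp_of_nonneg (show (0 : ℝ) ≤ 3 / 10 by norm_num)
  norm_num at this ⊢
  linarith

lemma ew_c : ∃ C : ℝ, 0 < C ∧ ∀ X : ℕ, 3 ≤ X → 1 ≤ Real.log X →
    (((Icc 1 X).filter (fun m => 3 / 2 * Real.log (Real.log X) ≤ (cardFactors m : ℝ))).card : ℝ) ≤
      C * X * (Real.log X) ^ (-(1 / 10) : ℝ) := by
  obtain ⟨C, hC, hM⟩ := omega_moment (3 / 2) (by norm_num) le_rfl
  refine ⟨C, hC, fun X hX hL => ?_⟩
  have h1 := (hM X hX).1
  set L := Real.log X with hLdef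
  have hL0 : 0 < L := by linarith
  set S := (Icc 1 X).filter (fun m => 3 / 2 * Real.log L ≤ (cardFactors m : ℝ)) with hS
  have hl : 0 ≤ Real.log L := Real.log_nonneg hL
  have h2 : ∀ m ∈ S, L ^ (3 / 5 : ℝ) ≤ (3 / 2 : ℝ) ^ (cardFactors m) := by
    intro m hm
    rw [hS, mem_filter] at hm
    rw [← Real.rpow_natCast, Real.rpow_def_of_pos hL0, Real.rpow_def_of_pos (by norm_num)]
    apply Real.exp_le_exp.mpr
    have h3 := ew_log32
    have h4 := hm.2
    have h5 : Real.log (3 / 2) * (3 / 2 * Real.log L) ≤ Real.log (3 / 2) * (cardFactors m : ℝ) :=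
      mul_le_mul_of_nonneg_left h4 (by linarith)
    nlinarith
  have h3 : (S.card : ℝ) * L ^ (3 / 5 : ℝ) ≤ C * X * L ^ (3 / 2 - 1 : ℝ) := by
    calc (S.card : ℝ) * L ^ (3 / 5 : ℝ) = ∑ m ∈ S, L ^ (3 / 5 : ℝ) := by
          rw [sum_const, nsmul_eq_mul]
      _ ≤ ∑ m ∈ S, (3 / 2 : ℝ) ^ (cardFactors m) := Finset.sum_le_sum h2
      _ ≤ ∑ m ∈ Icc 1 X, (3 / 2 : ℝ) ^ (cardFactors m) := by
          apply Finset.sum_le_sum_of_subset_of_nonneg (filter_subset _ _)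
          intro m _ _
          positivity
      _ ≤ _ := h1
  have h4 : 0 < L ^ (3 / 5 : ℝ) := Real.rpow_pos_of_pos hL0 _
  have h5 : L ^ (3 / 2 - 1 : ℝ) = L ^ (-(1 / 10) : ℝ) * L ^ (3 / 5 : ℝ) := by
    rw [← Real.rpow_add hL0]; norm_num
  rw [h5, ← mul_assoc] at h3
  exact le_of_mul_le_mul_right h3 h4

lemma ew_inner (X d : ℕ) (hd : 1 ≤ d) :
    ∑ m ∈ (Icc 1 X).filter (fun m => d ∣ m), ((3 : ℝ) / 4) ^ (cardFactors m) =
      ((3 : ℝ) / 4) ^ (cardFactors d) * ∑ k ∈ Icc 1 (X / d), ((3 : ℝ) / 4) ^ (cardFactors k) := by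
  have h1 : (Icc 1 X).filter (fun m => d ∣ m) = (Icc 1 (X / d)).image (fun k => d * k) := by
    ext m
    simp only [mem_filter, mem_Icc, mem_image]
    constructor
    · rintro ⟨⟨h2, h3⟩, k, rfl⟩
      refine ⟨k, ⟨?_, ?_⟩, rfl⟩
      · rcases Nat.eq_zero_or_pos k with h | h
        · rw [h] at h2; simp at h2
        · exact h
      · rw [Nat.le_div_iff_mul_le (by omega)]
        rw [mul_comm]; exact h3
    · rintro ⟨k, ⟨h2, h3⟩, rfl⟩
      rw [Nat.le_div_iff_mul_le (by omega)] at h3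
      refine ⟨⟨?_, ?_⟩, dvd_mul_right _ _⟩
      · exact Nat.mul_pos hd h2
      · rw [mul_comm]; exact h3
  rw [h1, Finset.sum_image]
  · rw [mul_sum]
    apply Finset.sum_congr rfl
    intro k hk
    rw [mem_Icc] at hk
    rw [cardFactors_mul (by omega) (by omega), pow_add]
  · intro a _ b _ hab
    exact Nat.eq_of_mul_eq_mul_left hd hab

lemma ew_dyadic : ∃ C Y1 : ℝ, 0 < C ∧ 16 ≤ Y1 ∧ ∀ (X : ℕ) (y : ℝ), Y1 ≤ y → y ≤ X →
    ∑ p ∈ (ewP X).filter (fun p : ℕ => y < p),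
      ((3 : ℝ) / 4) ^ (cardFactors (p - 1)) / ((p - 1 : ℕ) : ℝ) ≤
      C * Real.log X * (Real.log y) ^ (-(5 / 4) : ℝ) * (Real.log (Real.log X)) ^ 2 := by
  obtain ⟨C0, Y0, hC0, hY0, hP⟩ := prime_w
  refine ⟨24 * C0, max Y0 16, by positivity, le_max_right _ _, fun X y hy hyX => ?_⟩
  have hy0 : (Y0 : ℝ) ≤ y := (le_max_left _ _).trans hy
  have hy16 : (16 : ℝ) ≤ y := (le_max_right _ _).trans hy
  have hX16 : (16 : ℝ) ≤ X := hy16.trans hyX
  have hX16' : 16 ≤ X := by exact_mod_cast hX16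
  have hlog16 : (5 / 2 : ℝ) ≤ Real.log 16 := by
    have : Real.log 16 = 4 * Real.log 2 := by
      rw [show (16 : ℝ) = 2 ^ 4 by norm_num, Real.log_pow]; norm_num
    rw [this]
    have := Real.log_two_gt_d9
    linarith
  have hly : (5 / 2 : ℝ) ≤ Real.log y := hlog16.trans (Real.log_le_log (by norm_num) hy16)
  have hL : Real.log y ≤ Real.log X := Real.log_le_log (by linarith) hyX
  set L := Real.log X with hLdef
  have hL52 : (5 / 2 : ℝ) ≤ L := hly.trans hL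
  have hl2 : Real.log 2 ≤ Real.log L := Real.log_le_log (by norm_num) (by linarith)
  have hlog2 := Real.log_two_gt_d9
  have hlog2' := Real.log_two_lt_d9
  set S := (ewP X).filter (fun p : ℕ => y < p) with hS
  set T := Icc (Nat.log 2 ⌊y⌋₊) (Nat.log 2 X) with hT
  have hmaps : ∀ p ∈ S, Nat.log 2 (p - 1) ∈ T := by
    intro p hp
    rw [hS, mem_filter, mem_ewP] at hp
    rw [hT, mem_Icc]
    have h1 : ⌊y⌋₊ < p := (Nat.floor_lt (by linarith)).mpr hp.2
    exact ⟨Nat.log_mono_right (by omega), Nat.log_mono_right (by omega)⟩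
  rw [← Finset.sum_fiberwise_of_maps_to hmaps]
  have hterm : ∀ i ∈ T, ∑ p ∈ S.filter (fun p => Nat.log 2 (p - 1) = i),
      ((3 : ℝ) / 4) ^ (cardFactors (p - 1)) / ((p - 1 : ℕ) : ℝ) ≤
      8 * C0 * (Real.log y) ^ (-(5 / 4) : ℝ) * (Real.log L) ^ 2 := by
    intro i hi
    rw [hT, mem_Icc] at hi
    have h2i : (0 : ℝ) < 2 ^ i := by positivity
    -- the size of 2^(i+1)
    have hlow : y ≤ ((2 ^ (i + 1) : ℕ) : ℝ) := by
      have h1 : ⌊y⌋₊ < 2 ^ (Nat.log 2 ⌊y⌋₊ + 1) := Nat.lt_pow_succ_log_self (by norm_num) _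
      have h2 : 2 ^ (Nat.log 2 ⌊y⌋₊ + 1) ≤ 2 ^ (i + 1) := Nat.pow_le_pow_right (by norm_num) (by omega)
      have h3 : ⌊y⌋₊ + 1 ≤ 2 ^ (i + 1) := by omega
      have h4 : ((⌊y⌋₊ : ℝ) + 1) ≤ ((2 ^ (i + 1) : ℕ) : ℝ) := by exact_mod_cast h3
      have h5 := (Nat.lt_floor_add_one y).le
      linarith
    have hup : ((2 ^ (i + 1) : ℕ) : ℝ) ≤ 2 * X := by
      have h1 : 2 ^ i ≤ 2 ^ (Nat.log 2 X) := Nat.pow_le_pow_right (by norm_num) hi.2
      have h2 : 2 ^ (Nat.log 2 X) ≤ X := Nat.pow_log_le_self 2 (by omega)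
      have h3 : 2 ^ (i + 1) ≤ 2 * X := by rw [pow_succ]; omega
      exact_mod_cast h3
    have hY : Y0 ≤ 2 ^ (i + 1) := by
      have : (Y0 : ℝ) ≤ ((2 ^ (i + 1) : ℕ) : ℝ) := hy0.trans hlow
      exact_mod_cast this
    have h1 := hP (2 ^ (i + 1)) hY
    set Y : ℝ := ((2 ^ (i + 1) : ℕ) : ℝ) with hYdef
    have hYpos : 0 < Y := by linarith
    have hYe : Y = 2 * 2 ^ i := by rw [hYdef]; push_cast; ring
    have hlY : Real.log y ≤ Real.log Y := Real.log_le_log (by linarith) hlow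
    have hlY2 : Real.log Y ≤ L ^ 2 := by
      have h2 : Real.log Y ≤ Real.log (2 * X) := Real.log_le_log hYpos hup
      rw [Real.log_mul (by norm_num) (by linarith)] at h2
      nlinarith
    have hll : Real.log (Real.log Y) ≤ 2 * Real.log L := by
      have h2 : Real.log (Real.log Y) ≤ Real.log (L ^ 2) :=
        Real.log_le_log (by linarith) hlY2
      rw [Real.log_pow] at h2
      exact_mod_cast h2
    have hll0 : 0 ≤ Real.log (Real.log Y) := Real.log_nonneg (by linarith)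
    have hpow : (Real.log Y) ^ (-(5 / 4) : ℝ) ≤ (Real.log y) ^ (-(5 / 4) : ℝ) :=
      Real.rpow_le_rpow_of_nonpos (by linarith) hlY (by norm_num)
    have hpow0 : 0 ≤ (Real.log y) ^ (-(5 / 4) : ℝ) := Real.rpow_nonneg (by linarith) _
    have hpow1 : 0 ≤ (Real.log Y) ^ (-(5 / 4) : ℝ) := Real.rpow_nonneg (by linarith) _
    have h2 : ∑ p ∈ S.filter (fun p => Nat.log 2 (p - 1) = i),
        ((3 : ℝ) / 4) ^ (cardFactors (p - 1)) / ((p - 1 : ℕ) : ℝ) ≤
        ∑ p ∈ (Icc 3 (2 ^ (i + 1))).filter Nat.Prime,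
          ((3 : ℝ) / 4) ^ (cardFactors (p - 1)) / 2 ^ i := by
      refine le_trans (Finset.sum_le_sum (g := fun p : ℕ =>
        ((3 : ℝ) / 4) ^ (cardFactors (p - 1)) / 2 ^ i) ?_) ?_
      · intro p hp
        rw [mem_filter, hS, mem_filter, mem_ewP] at hp
        have h3 : 2 ^ i ≤ p - 1 := by
          rw [← hp.2]
          exact Nat.pow_log_le_self 2 (by omega)
        have h4 : (2 : ℝ) ^ i ≤ ((p - 1 : ℕ) : ℝ) := by exact_mod_cast h3
        apply div_le_div_of_nonneg_left (by positivity) h2i h4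
      · apply Finset.sum_le_sum_of_subset_of_nonneg
        · intro p hp
          rw [mem_filter, hS, mem_filter, mem_ewP] at hp
          rw [mem_filter, mem_Icc]
          have h3 : p - 1 < 2 ^ (i + 1) := by
            rw [← hp.2]
            exact Nat.lt_pow_succ_log_self (by norm_num) _
          exact ⟨⟨hp.1.1.1, by omega⟩, hp.1.1.2.2⟩
        · intro p _ _
          positivity
    refine h2.trans ?_
    rw [← Finset.sum_div, div_le_iff₀ h2i]
    refine h1.trans ?_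
    calc C0 * Y * Real.log Y ^ (-(5 / 4) : ℝ) * Real.log (Real.log Y) ^ 2
        ≤ C0 * Y * Real.log y ^ (-(5 / 4) : ℝ) * (2 * Real.log L) ^ 2 := by
          apply mul_le_mul
          · exact mul_le_mul_of_nonneg_left hpow (by positivity)
          · exact pow_le_pow_left₀ hll0 hll 2
          · positivity
          · positivity
      _ = 8 * C0 * Real.log y ^ (-(5 / 4) : ℝ) * Real.log L ^ 2 * 2 ^ i := by
          rw [hYe]; ring
  refine (Finset.sum_le_sum hterm).trans ?_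
  rw [sum_const, nsmul_eq_mul]
  have hcard : (T.card : ℝ) ≤ 3 * L := by
    have h1 : T.card ≤ Nat.log 2 X + 1 := by
      rw [hT, Nat.card_Icc]; omega
    have h2 : (Nat.log 2 X : ℝ) * Real.log 2 ≤ L := by
      rw [← Real.log_pow]
      apply Real.log_le_log (by positivity)
      exact_mod_cast Nat.pow_log_le_self 2 (by omega : X ≠ 0)
    have h3 : (T.card : ℝ) ≤ (Nat.log 2 X : ℝ) + 1 := by exact_mod_cast h1
    have h4 : (0 : ℝ) ≤ (Nat.log 2 X : ℝ) := Nat.cast_nonneg _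
    nlinarith
  have hpow0 : 0 ≤ (Real.log y) ^ (-(5 / 4) : ℝ) := Real.rpow_nonneg (by linarith) _
  calc (T.card : ℝ) * (8 * C0 * Real.log y ^ (-(5 / 4) : ℝ) * Real.log L ^ 2)
      ≤ 3 * L * (8 * C0 * Real.log y ^ (-(5 / 4) : ℝ) * Real.log L ^ 2) :=
        mul_le_mul_of_nonneg_right hcard (by positivity)
    _ = _ := by ring

lemma ew_d : ∃ C u0 : ℝ, 0 < C ∧ 1 ≤ u0 ∧ ∀ (X : ℕ) (u : ℝ), u0 ≤ u → u ≤ Real.log X →
    (((Icc 1 X).filter (fun m => (∃ p ∈ ewP X, (p - 1) ∣ m ∧ Real.exp u < p ∧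
      (p : ℝ) * Real.exp u ≤ X) ∧ (cardFactors m : ℝ) ≤ 3 / 2 * Real.log (Real.log X))).card : ℝ) ≤
      C * X * (Real.log X) ^ (29 / 20 : ℝ) * u ^ (-(3 / 2) : ℝ) * (Real.log (Real.log X)) ^ 2 := by
  obtain ⟨C1, hC1, hM⟩ := omega_moment (3 / 4) (by norm_num) (by norm_num)
  obtain ⟨C2, Y1, hC2, hY1, hD⟩ := ew_dyadic
  refine ⟨2 * C1 * C2, max 3 (Real.log Y1), by positivity, ?_, fun X u hu huL => ?_⟩
  · exact le_trans (by norm_num) (le_max_left _ _)
  have hu3 : (3 : ℝ) ≤ u := (le_max_left _ _).trans hu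
  have huY : Real.log Y1 ≤ u := (le_max_right _ _).trans hu
  set L := Real.log X with hLdef
  have hL3 : (3 : ℝ) ≤ L := hu3.trans huL
  have hL0 : 0 < L := by linarith
  have hXpos : (0 : ℝ) < X := by
    rcases Nat.eq_zero_or_pos X with h | h
    · rw [hLdef, h] at hL3; simp at hL3; linarith
    · exact_mod_cast h
  have hexpY : Y1 ≤ Real.exp u := by
    rw [← Real.log_le_iff_le_exp (by linarith)]
    exact huY
  have hexp16 : (16 : ℝ) ≤ Real.exp u := hY1.trans hexpY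
  have hexpX : Real.exp u ≤ X := by
    rw [← Real.exp_log hXpos]
    exact Real.exp_le_exp.mpr huL
  have hll : 0 ≤ Real.log L := Real.log_nonneg (by linarith)
  have hlog2 := Real.log_two_lt_d9
  set Q := (ewP X).filter (fun p : ℕ => Real.exp u < p ∧ (p : ℝ) * Real.exp u ≤ X) with hQ
  set D := (Icc 1 X).filter (fun m => (∃ p ∈ ewP X, (p - 1) ∣ m ∧ Real.exp u < p ∧
      (p : ℝ) * Real.exp u ≤ X) ∧ (cardFactors m : ℝ) ≤ 3 / 2 * Real.log L) with hDd
  have h1 : ∀ m ∈ D, (1 : ℝ) ≤ L ^ (9 / 20 : ℝ) * ((3 : ℝ) / 4) ^ (cardFactors m) := by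
    intro m hm
    rw [hDd, mem_filter] at hm
    have h2 := hm.2.2
    rw [← Real.rpow_natCast, Real.rpow_def_of_pos hL0, Real.rpow_def_of_pos (by norm_num),
      ← Real.exp_add]
    apply Real.one_le_exp
    have h3 : Real.log (3 / 4) = - Real.log (4 / 3) := by
      rw [← Real.log_inv]; norm_num
    have h4 := ew_log43
    have h5 : 0 ≤ Real.log (4 / 3) := Real.log_nonneg (by norm_num)
    have h6 : Real.log (4 / 3) * (cardFactors m : ℝ) ≤ Real.log (4 / 3) * (3 / 2 * Real.log L) :=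
      mul_le_mul_of_nonneg_left h2 h5
    rw [h3]
    nlinarith
  have h2 : (D.card : ℝ) ≤ L ^ (9 / 20 : ℝ) *
      ∑ m ∈ Icc 1 X, ∑ p ∈ Q.filter (fun p => (p - 1) ∣ m), ((3 : ℝ) / 4) ^ (cardFactors m) := by
    calc (D.card : ℝ) = ∑ m ∈ D, (1 : ℝ) := by rw [sum_const, nsmul_eq_mul, mul_one]
      _ ≤ ∑ m ∈ D, L ^ (9 / 20 : ℝ) * ((3 : ℝ) / 4) ^ (cardFactors m) := Finset.sum_le_sum h1
      _ = L ^ (9 / 20 : ℝ) * ∑ m ∈ D, ((3 : ℝ) / 4) ^ (cardFactors m) := by rw [mul_sum]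
      _ ≤ _ := by
        apply mul_le_mul_of_nonneg_left _ (by positivity)
        calc ∑ m ∈ D, ((3 : ℝ) / 4) ^ (cardFactors m)
            ≤ ∑ m ∈ D, ∑ p ∈ Q.filter (fun p => (p - 1) ∣ m),
                ((3 : ℝ) / 4) ^ (cardFactors m) := by
              apply Finset.sum_le_sum
              intro m hm
              rw [hDd, mem_filter] at hm
              obtain ⟨p, hp, hp1, hp2, hp3⟩ := hm.2.1
              have hpQ : p ∈ Q.filter (fun p => (p - 1) ∣ m) := by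
                rw [mem_filter, hQ, mem_filter]
                exact ⟨⟨hp, hp2, hp3⟩, hp1⟩
              have := Finset.single_le_sum (f := fun _ : ℕ => ((3 : ℝ) / 4) ^ (cardFactors m))
                (fun i _ => by positivity) hpQ
              exact this
          _ ≤ _ := by
              apply Finset.sum_le_sum_of_subset_of_nonneg (filter_subset _ _)
              intro m _ _
              apply Finset.sum_nonneg
              intro p _
              positivity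
  have h3 : ∑ m ∈ Icc 1 X, ∑ p ∈ Q.filter (fun p => (p - 1) ∣ m), ((3 : ℝ) / 4) ^ (cardFactors m) =
      ∑ p ∈ Q, ∑ m ∈ (Icc 1 X).filter (fun m => (p - 1) ∣ m), ((3 : ℝ) / 4) ^ (cardFactors m) := by
    apply Finset.sum_comm'
    intro m p
    simp only [mem_filter]
    tauto
  have hu4 : (u / 2) ^ (-(1 / 4) : ℝ) ≤ 2 * u ^ (-(1 / 4) : ℝ) := by
    rw [Real.div_rpow (by linarith) (by norm_num)]
    have h4 : (1 / 2 : ℝ) ≤ 2 ^ (-(1 / 4) : ℝ) := by
      calc (1 / 2 : ℝ) = 2 ^ (-1 : ℝ) := by rw [Real.rpow_neg_one]; norm_num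
        _ ≤ 2 ^ (-(1 / 4) : ℝ) := Real.rpow_le_rpow_of_exponent_le (by norm_num) (by norm_num)
    have h5 : 0 ≤ u ^ (-(1 / 4) : ℝ) := Real.rpow_nonneg (by linarith) _
    rw [div_le_iff₀ (by linarith)]
    nlinarith
  have hu40 : 0 ≤ u ^ (-(1 / 4) : ℝ) := Real.rpow_nonneg (by linarith) _
  have h4 : ∀ p ∈ Q, ∑ m ∈ (Icc 1 X).filter (fun m => (p - 1) ∣ m),
      ((3 : ℝ) / 4) ^ (cardFactors m) ≤
      2 * C1 * X * u ^ (-(1 / 4) : ℝ) *
        (((3 : ℝ) / 4) ^ (cardFactors (p - 1)) / ((p - 1 : ℕ) : ℝ)) := by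
    intro p hp
    rw [hQ, mem_filter, mem_ewP] at hp
    obtain ⟨⟨hp3, hpX, hpp⟩, hp1, hp2⟩ := hp
    rw [ew_inner X (p - 1) (by omega)]
    have hpc : ((p - 1 : ℕ) : ℝ) = (p : ℝ) - 1 := by
      rw [Nat.cast_sub (by omega), Nat.cast_one]
    have hp3' : (3 : ℝ) ≤ p := by exact_mod_cast hp3
    have hq0 : (0 : ℝ) < ((p - 1 : ℕ) : ℝ) := by rw [hpc]; linarith
    have hK1 : ((X / (p - 1) : ℕ) : ℝ) ≤ X / ((p - 1 : ℕ) : ℝ) := Nat.cast_div_le
    have hK2 : (X : ℝ) / ((p - 1 : ℕ) : ℝ) < ((X / (p - 1) : ℕ) : ℝ) + 1 := by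
      rw [div_lt_iff₀ hq0]
      have h5 : X < (X / (p - 1) + 1) * (p - 1) := by
        have := Nat.lt_div_mul_add (a := X) (b := p - 1) (by omega)
        rw [add_mul, one_mul]
        exact this
      exact_mod_cast h5
    have hK3 : Real.exp u ≤ (X : ℝ) / ((p - 1 : ℕ) : ℝ) := by
      rw [le_div_iff₀ hq0, hpc]
      have := Real.exp_pos u
      nlinarith
    set K := X / (p - 1) with hKdef
    have hK4 : Real.exp u / 2 ≤ (K : ℝ) := by linarith
    have hK8 : (3 : ℕ) ≤ K := by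
      have : (3 : ℝ) ≤ K := by linarith
      exact_mod_cast this
    have hK5 : u / 2 ≤ Real.log K := by
      have h5 : Real.log (Real.exp u / 2) ≤ Real.log K := Real.log_le_log (by positivity) hK4
      rw [Real.log_div (Real.exp_pos u).ne' (by norm_num), Real.log_exp] at h5
      linarith
    have h5 := (hM K hK8).1
    have h6 : (Real.log K) ^ (3 / 4 - 1 : ℝ) ≤ 2 * u ^ (-(1 / 4) : ℝ) := by
      rw [show (3 / 4 - 1 : ℝ) = -(1 / 4) by norm_num]
      exact (Real.rpow_le_rpow_of_nonpos (by linarith) hK5 (by norm_num)).trans hu4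
    have hlK : 0 ≤ (Real.log K) ^ (3 / 4 - 1 : ℝ) := Real.rpow_nonneg (by linarith) _
    have h7 : ∑ k ∈ Icc 1 K, ((3 : ℝ) / 4) ^ (cardFactors k) ≤
        C1 * (X / ((p - 1 : ℕ) : ℝ)) * (2 * u ^ (-(1 / 4) : ℝ)) := by
      refine h5.trans ?_
      apply mul_le_mul _ h6 hlK (by positivity)
      exact mul_le_mul_of_nonneg_left hK1 hC1.le
    calc ((3 : ℝ) / 4) ^ (cardFactors (p - 1)) * ∑ k ∈ Icc 1 K, ((3 : ℝ) / 4) ^ (cardFactors k)
        ≤ ((3 : ℝ) / 4) ^ (cardFactors (p - 1)) *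
            (C1 * (X / ((p - 1 : ℕ) : ℝ)) * (2 * u ^ (-(1 / 4) : ℝ))) :=
          mul_le_mul_of_nonneg_left h7 (by positivity)
      _ = _ := by ring
  have h5 : ∑ p ∈ Q, ((3 : ℝ) / 4) ^ (cardFactors (p - 1)) / ((p - 1 : ℕ) : ℝ) ≤
      C2 * L * u ^ (-(5 / 4) : ℝ) * (Real.log L) ^ 2 := by
    have h6 := hD X (Real.exp u) hexpY hexpX
    rw [Real.log_exp] at h6
    refine le_trans ?_ h6
    apply Finset.sum_le_sum_of_subset_of_nonneg
    · intro p hp
      rw [hQ, mem_filter] at hp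
      rw [mem_filter]
      exact ⟨hp.1, hp.2.1⟩
    · intro p _ _
      positivity
  have h6 : ∑ p ∈ Q, ∑ m ∈ (Icc 1 X).filter (fun m => (p - 1) ∣ m),
      ((3 : ℝ) / 4) ^ (cardFactors m) ≤
      2 * C1 * X * u ^ (-(1 / 4) : ℝ) * (C2 * L * u ^ (-(5 / 4) : ℝ) * (Real.log L) ^ 2) := by
    refine (Finset.sum_le_sum h4).trans ?_
    rw [← mul_sum]
    exact mul_le_mul_of_nonneg_left h5 (by positivity)
  rw [h3] at h2
  have hu0 : 0 < u := by linarith
  calc (D.card : ℝ) ≤ L ^ (9 / 20 : ℝ) * (2 * C1 * X * u ^ (-(1 / 4) : ℝ) *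
        (C2 * L * u ^ (-(5 / 4) : ℝ) * (Real.log L) ^ 2)) :=
        h2.trans (mul_le_mul_of_nonneg_left h6 (by positivity))
    _ = 2 * C1 * C2 * X * (L ^ (9 / 20 : ℝ) * L) * (u ^ (-(1 / 4) : ℝ) * u ^ (-(5 / 4) : ℝ)) *
        (Real.log L) ^ 2 := by ring
    _ = 2 * C1 * C2 * X * L ^ (29 / 20 : ℝ) * u ^ (-(3 / 2) : ℝ) * (Real.log L) ^ 2 := by
        rw [← Real.rpow_add_one hL0.ne', ← Real.rpow_add hu0]
        norm_num

lemma ew_tendsto (s : ℝ) (hs : 0 < s) (k : ℕ) :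
    Filter.Tendsto (fun L : ℝ => L ^ (-s) * (Real.log L) ^ k) Filter.atTop (nhds 0) := by
  have h1 := (isLittleO_log_rpow_rpow_atTop (k : ℝ) hs).tendsto_div_nhds_zero
  refine h1.congr' ?_
  filter_upwards [Filter.eventually_gt_atTop 0] with L hL
  rw [Real.rpow_natCast, Real.rpow_neg hL.le]
  field_simp

lemma ew_final (k1 k2 k3 k4 ε : ℝ) (hε : 0 < ε) (u0 : ℝ) (hu0 : 0 < u0) :
    ∃ X₀ : ℕ, ∀ X : ℕ, X₀ ≤ X → 3 ≤ X ∧ 16 ≤ Real.log X ∧ 2 ≤ Real.log (Real.log X) ∧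
      u0 ≤ Real.log X / (Real.log (Real.log X)) ^ 2 ∧
      k1 * (Real.log (Real.log X))⁻¹ + k2 * ((Real.log X) ^ (-1 : ℝ) * (Real.log (Real.log X)) ^ 1)
      + k3 * ((Real.log X) ^ (-(1 / 10) : ℝ) * (Real.log (Real.log X)) ^ 1)
      + k4 * ((Real.log X) ^ (-(1 / 20) : ℝ) * (Real.log (Real.log X)) ^ 6) ≤ ε := by
  have t0 : Filter.Tendsto (fun X : ℕ => Real.log X) Filter.atTop Filter.atTop :=
    Real.tendsto_log_atTop.comp tendsto_natCast_atTop_atTop
  have t1 : Filter.Tendsto (fun L : ℝ => (Real.log L)⁻¹) Filter.atTop (nhds 0) :=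
    tendsto_inv_atTop_zero.comp Real.tendsto_log_atTop
  have t2 : Filter.Tendsto (fun L : ℝ => k1 * (Real.log L)⁻¹ + k2 * (L ^ (-1 : ℝ) * (Real.log L) ^ 1)
      + k3 * (L ^ (-(1 / 10) : ℝ) * (Real.log L) ^ 1)
      + k4 * (L ^ (-(1 / 20) : ℝ) * (Real.log L) ^ 6)) Filter.atTop (nhds 0) := by
    have := (((t1.const_mul k1).add ((ew_tendsto 1 one_pos 1).const_mul k2)).add
      ((ew_tendsto (1 / 10) (by norm_num) 1).const_mul k3)).add
      ((ew_tendsto (1 / 20) (by norm_num) 6).const_mul k4)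
    simpa using this
  have t3 := t2.comp t0
  have e1 := t3.eventually (gt_mem_nhds hε)
  have e2 := (t0.eventually_ge_atTop 16)
  have e3 := ((Real.tendsto_log_atTop.comp t0).eventually_ge_atTop 2)
  have t4 := (ew_tendsto 1 one_pos 2).comp t0
  have e4 := t4.eventually (gt_mem_nhds (inv_pos.mpr hu0))
  have e5 := Filter.eventually_ge_atTop (α := ℕ) 3
  obtain ⟨X₀, hX₀⟩ := Filter.eventually_atTop.mp (e1.and (e2.and (e3.and (e4.and e5))))
  refine ⟨X₀, fun X hX => ?_⟩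
  obtain ⟨h1, h2, h3, h4, h5⟩ := hX₀ X hX
  simp only [Function.comp_apply] at h1 h3 h4
  refine ⟨h5, h2, h3, ?_, h1.le⟩
  have hL : 0 < Real.log X := by linarith
  have hl : 0 < (Real.log (Real.log X)) ^ 2 := by positivity
  rw [Real.rpow_neg_one] at h4
  rw [le_div_iff₀ hl]
  have h6 : (Real.log X)⁻¹ * (Real.log (Real.log X)) ^ 2 * (Real.log X * u0) <
      u0⁻¹ * (Real.log X * u0) := mul_lt_mul_of_pos_right h4 (by positivity)
  have h7 : (Real.log X)⁻¹ * (Real.log (Real.log X)) ^ 2 * (Real.log X * u0) =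
      u0 * (Real.log (Real.log X)) ^ 2 := by field_simp
  have h8 : u0⁻¹ * (Real.log X * u0) = Real.log X := by field_simp
  rw [h7, h8] at h6
  exact h6.le

/-- Sketch. `L = log X`, `l = log log X`, `w(m) = (3/4)^Ω(m)`, `y = X^(1/l²)`, `z = X^(1 - 1/l²)`.
`Zf m ≥ η L` implies one of:
(a) `∑_{p ≤ y, p-1 ∣ m} log p ≥ (η/2) L`;
(b) some `p > z`, `p - 1 ∣ m`;
(c) `Ω(m) ≥ (3/2) l`;
(d) some `p ∈ (y, z]`, `p - 1 ∣ m`, and `Ω(m) < (3/2) l`. -/
theorem ew_rate (ε η : ℝ) (hε : 0 < ε) (hη : 0 < η) : ∃ X₀ : ℕ, ∀ X : ℕ, X₀ ≤ X →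
    (((Icc 1 X).filter (fun m : ℕ => Even m ∧ η * Real.log X ≤ Zf m)).card : ℝ) *
      Real.log (Real.log X) ≤ ε * X := by
  obtain ⟨Ca, hCa, hA⟩ := ew_a
  obtain ⟨Cb, hCb, hB⟩ := ew_b
  obtain ⟨Cc, hCc, hC⟩ := ew_c
  obtain ⟨Cd, u0, hCd, hu0, hD⟩ := ew_d
  obtain ⟨X₀, hX₀⟩ := ew_final (4 / η + 3) (4 / η * Ca + 3 * (1 + Cb)) Cc Cd ε hε u0 (by linarith)
  refine ⟨X₀, fun X hX => ?_⟩
  obtain ⟨hX3, hL16, hl2, huu, hfin⟩ := hX₀ X hX
  set L := Real.log X with hLdef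
  set l := Real.log L with hldef
  have hL0 : 0 < L := by linarith
  have hl0 : 0 < l := by linarith
  have hXpos : (0 : ℝ) < X := by exact_mod_cast (by omega : 0 < X)
  set u := L / l ^ 2 with hu
  have hu1 : u ≤ L / 4 := by
    rw [hu]
    apply div_le_div_of_nonneg_left hL0.le (by norm_num)
    nlinarith
  have hu0' : 0 < u := by positivity
  have hulL : u * l ^ 2 = L := by rw [hu]; field_simp
  set A := (Icc 1 X).filter (fun m => η / 2 * L ≤
    ∑ p ∈ (ewP X).filter (fun p : ℕ => (p - 1) ∣ m ∧ (p : ℝ) ≤ Real.exp u), Real.log p) with hAd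
  set z : ℝ := X / Real.exp u with hz
  set B := (Icc 1 X).filter (fun m => ∃ p ∈ ewP X, (p - 1) ∣ m ∧ z < p) with hBd
  set Cs := (Icc 1 X).filter (fun m => 3 / 2 * l ≤ (cardFactors m : ℝ)) with hCs
  set D := (Icc 1 X).filter (fun m => (∃ p ∈ ewP X, (p - 1) ∣ m ∧ Real.exp u < p ∧
      (p : ℝ) * Real.exp u ≤ X) ∧ (cardFactors m : ℝ) ≤ 3 / 2 * l) with hDd
  have hsub : (Icc 1 X).filter (fun m : ℕ => Even m ∧ η * L ≤ Zf m) ⊆ A ∪ (B ∪ (Cs ∪ D)) := by
    intro m hm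
    rw [mem_filter, mem_Icc] at hm
    obtain ⟨⟨hm1, hm2⟩, _, hm3⟩ := hm
    rw [ew_zf hm1 hm2] at hm3
    by_cases hmA : m ∈ A
    · exact mem_union_left _ hmA
    apply mem_union_right
    have hmI : m ∈ Icc 1 X := mem_Icc.mpr ⟨hm1, hm2⟩
    have h1 : ∑ p ∈ (ewP X).filter (fun p : ℕ => (p - 1) ∣ m ∧ (p : ℝ) ≤ Real.exp u), Real.log p
        < η / 2 * L := by
      by_contra h
      exact hmA (mem_filter.mpr ⟨hmI, not_lt.mp h⟩)
    have h2 : ∃ p ∈ (ewP X).filter (fun p => (p - 1) ∣ m), Real.exp u < p := by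
      by_contra h
      push Not at h
      have h3 : (ewP X).filter (fun p => (p - 1) ∣ m) =
          (ewP X).filter (fun p : ℕ => (p - 1) ∣ m ∧ (p : ℝ) ≤ Real.exp u) := by
        ext p
        constructor
        · intro hp
          have := h p hp
          rw [mem_filter] at hp ⊢
          exact ⟨hp.1, hp.2, this⟩
        · intro hp
          rw [mem_filter] at hp ⊢
          exact ⟨hp.1, hp.2.1⟩
      rw [h3] at hm3
      nlinarith [mul_pos hη hL0]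
    obtain ⟨p, hp, hpu⟩ := h2
    rw [mem_filter] at hp
    by_cases hpz : z < p
    · exact mem_union_left _ (mem_filter.mpr ⟨hmI, p, hp.1, hp.2, hpz⟩)
    apply mem_union_right
    by_cases hO : 3 / 2 * l ≤ (cardFactors m : ℝ)
    · exact mem_union_left _ (mem_filter.mpr ⟨hmI, hO⟩)
    · apply mem_union_right
      refine mem_filter.mpr ⟨hmI, ⟨p, hp.1, hp.2, hpu, ?_⟩, (not_le.mp hO).le⟩
      rw [not_lt, hz, le_div_iff₀ (Real.exp_pos u)] at hpz
      exact hpz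
  have hcard : (((Icc 1 X).filter (fun m : ℕ => Even m ∧ η * L ≤ Zf m)).card : ℝ) ≤
      A.card + (B.card + (Cs.card + D.card)) := by
    have h1 := (card_le_card hsub).trans (card_union_le _ _)
    have h2 := card_union_le B (Cs ∪ D)
    have h3 := card_union_le Cs D
    have h4 : ((Icc 1 X).filter (fun m : ℕ => Even m ∧ η * L ≤ Zf m)).card ≤
      A.card + (B.card + (Cs.card + D.card)) := by omega
    exact_mod_cast h4
  -- (a)
  have ha : (A.card : ℝ) * l ≤ X * (4 / η * l⁻¹ + 4 / η * Ca * (L⁻¹ * l)) := by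
    have h1 := hA X (Real.exp u) (Real.one_le_exp hu0'.le)
    rw [Real.log_exp] at h1
    have h2 : (A.card : ℝ) * (η / 2 * L) ≤ 2 * X * (u + Ca) := by
      refine le_trans ?_ h1
      calc (A.card : ℝ) * (η / 2 * L) = ∑ m ∈ A, η / 2 * L := by rw [sum_const, nsmul_eq_mul]
        _ ≤ ∑ m ∈ A, ∑ p ∈ (ewP X).filter (fun p : ℕ => (p - 1) ∣ m ∧ (p : ℝ) ≤ Real.exp u),
              Real.log p := by
            apply Finset.sum_le_sum
            intro m hm
            rw [hAd, mem_filter] at hm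
            exact hm.2
        _ ≤ _ := by
            apply Finset.sum_le_sum_of_subset_of_nonneg (filter_subset _ _)
            intro m _ _
            apply Finset.sum_nonneg
            intro p _
            exact Real.log_natCast_nonneg p
    have h3 : (A.card : ℝ) ≤ 2 * X * (u + Ca) / (η / 2 * L) := by
      rw [le_div_iff₀ (by positivity)]; exact h2
    calc (A.card : ℝ) * l ≤ 2 * X * (u + Ca) / (η / 2 * L) * l :=
          mul_le_mul_of_nonneg_right h3 hl0.le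
      _ = X * (4 / η * l⁻¹ + 4 / η * Ca * (L⁻¹ * l)) := by
          rw [hu]; field_simp; ring
  -- (b)
  have hb : (B.card : ℝ) * l ≤ X * (3 * l⁻¹ + 3 * (1 + Cb) * (L⁻¹ * l)) := by
    have hlz : Real.log z = L - u := by
      rw [hz, Real.log_div hXpos.ne' (Real.exp_pos u).ne', Real.log_exp]
    have hzpos : 0 < z := by positivity
    have hlz2 : L / 2 ≤ Real.log z := by rw [hlz]; linarith
    have hz2 : 2 ≤ z := by
      have h1 : Real.exp 1 ≤ z := by
        rw [← Real.le_log_iff_exp_le hzpos]; linarith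
      have := Real.exp_one_gt_d9
      linarith
    have hzX : z ≤ X + 1 := by
      have h1 : z ≤ X := by
        rw [hz]
        exact div_le_self hXpos.le (Real.one_le_exp hu0'.le)
      linarith
    have h1 := hB X z hz2 hzX
    have hlz0 : 0 < Real.log z := by linarith
    have hlX1 : Real.log (X + 1) ≤ L + 1 := by
      have h2 : Real.log ((X : ℝ) + 1) ≤ Real.log (X * Real.exp 1) := by
        apply Real.log_le_log (by positivity)
        have h3 := Real.exp_one_gt_d9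
        have h4 : (3 : ℝ) ≤ X := by exact_mod_cast hX3
        nlinarith
      rw [Real.log_mul hXpos.ne' (Real.exp_pos 1).ne', Real.log_exp] at h2
      exact h2
    have h2 : Real.log (Real.log (X + 1) / Real.log z) ≤ 2 * (u + 1) / L := by
      have hp : 0 < Real.log ((X : ℝ) + 1) / Real.log z := by
        apply div_pos _ hlz0
        apply Real.log_pos
        linarith
      refine (Real.log_le_sub_one_of_pos hp).trans ?_
      rw [div_sub_one hlz0.ne']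
      have h3 : Real.log ((X : ℝ) + 1) - Real.log z ≤ u + 1 := by rw [hlz]; linarith
      calc (Real.log ((X : ℝ) + 1) - Real.log z) / Real.log z ≤ (u + 1) / Real.log z :=
            div_le_div_of_nonneg_right h3 hlz0.le
        _ ≤ (u + 1) / (L / 2) := div_le_div_of_nonneg_left (by linarith) (by linarith) hlz2
        _ = _ := by field_simp
    have h3 : Cb / Real.log z ≤ 2 * Cb / L := by
      calc Cb / Real.log z ≤ Cb / (L / 2) := div_le_div_of_nonneg_left hCb (by linarith) hlz2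
        _ = _ := by field_simp
    have h4 : (B.card : ℝ) ≤ 3 / 2 * X * (2 * (u + 1) / L + 2 * Cb / L) := by
      refine h1.trans ?_
      apply mul_le_mul_of_nonneg_left _ (by positivity)
      linarith
    calc (B.card : ℝ) * l ≤ 3 / 2 * X * (2 * (u + 1) / L + 2 * Cb / L) * l :=
          mul_le_mul_of_nonneg_right h4 hl0.le
      _ = _ := by rw [hu]; field_simp; ring
  -- (c)
  have hc : (Cs.card : ℝ) * l ≤ X * (Cc * (L ^ (-(1 / 10) : ℝ) * l)) := by
    have h1 := hC X hX3 (by linarith)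
    calc (Cs.card : ℝ) * l ≤ Cc * X * L ^ (-(1 / 10) : ℝ) * l :=
          mul_le_mul_of_nonneg_right h1 hl0.le
      _ = _ := by ring
  -- (d)
  have hd : (D.card : ℝ) * l ≤ X * (Cd * (L ^ (-(1 / 20) : ℝ) * l ^ 6)) := by
    have h1 := hD X u huu (by linarith)
    have h2 : L ^ (29 / 20 : ℝ) * u ^ (-(3 / 2) : ℝ) = L ^ (-(1 / 20) : ℝ) * l ^ 3 := by
      have e1 : (l ^ 2 : ℝ) ^ (-(3 / 2) : ℝ) = (l ^ 3)⁻¹ := by
        rw [← Real.rpow_natCast l 2, ← Real.rpow_mul hl0.le,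
          show ((2 : ℕ) : ℝ) * (-(3 / 2)) = -((3 : ℕ) : ℝ) by norm_num, Real.rpow_neg hl0.le,
          Real.rpow_natCast]
      have e2 : L ^ (29 / 20 : ℝ) * L ^ (-(3 / 2) : ℝ) = L ^ (-(1 / 20) : ℝ) := by
        rw [← Real.rpow_add hL0]; norm_num
      rw [hu, Real.div_rpow hL0.le (by positivity), e1, div_inv_eq_mul, ← mul_assoc, e2]
    calc (D.card : ℝ) * l ≤ Cd * X * L ^ (29 / 20 : ℝ) * u ^ (-(3 / 2) : ℝ) * l ^ 2 * l :=
          mul_le_mul_of_nonneg_right h1 hl0.le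
      _ = Cd * X * (L ^ (29 / 20 : ℝ) * u ^ (-(3 / 2) : ℝ)) * l ^ 3 := by ring
      _ = Cd * X * (L ^ (-(1 / 20) : ℝ) * l ^ 3) * l ^ 3 := by rw [h2]
      _ = _ := by ring
  have hLinv : L ^ (-1 : ℝ) = L⁻¹ := Real.rpow_neg_one L
  rw [hLinv, pow_one] at hfin
  calc (((Icc 1 X).filter (fun m : ℕ => Even m ∧ η * L ≤ Zf m)).card : ℝ) * l
      ≤ (A.card + (B.card + (Cs.card + D.card))) * l := mul_le_mul_of_nonneg_right hcard hl0.le
    _ = A.card * l + (B.card * l + (Cs.card * l + D.card * l)) := by ring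
    _ ≤ X * (4 / η * l⁻¹ + 4 / η * Ca * (L⁻¹ * l)) + (X * (3 * l⁻¹ + 3 * (1 + Cb) * (L⁻¹ * l)) +
        (X * (Cc * (L ^ (-(1 / 10) : ℝ) * l)) + X * (Cd * (L ^ (-(1 / 20) : ℝ) * l ^ 6)))) := by
        linarith
    _ = X * ((4 / η + 3) * l⁻¹ + (4 / η * Ca + 3 * (1 + Cb)) * (L⁻¹ * l) +
        Cc * (L ^ (-(1 / 10) : ℝ) * l) + Cd * (L ^ (-(1 / 20) : ℝ) * l ^ 6)) := by ring
    _ ≤ X * ε := mul_le_mul_of_nonneg_left hfin hXpos.le
    _ = ε * X := by ring

end Pool.Agent.BernOne
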