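import Pool.Agent.BernOne.Conc
import Pool.Agent.BernOne.Det2
import Pool.Agent.BernOne.APrime2
import Pool.Agent.BernOne.EWRate

set_option autoImplicit false

/-!
Density one.
-/

namespace Pool.Agent.BernOne

open Finset Polynomial Pool.Agent.BernIrr

open Filter in
lemma log_pow_ev (A : ℕ) (c : ℝ) (hc : 0 < c) : ∀ᶠ X : ℕ in atTop,
    (480 * (Real.log X) ^ A) ^ 4 ≤ c * X := by
  have h1 := (Real.isLittleO_pow_log_id_atTop (n := 4 * A)).bound
      (show (0 : ℝ) < c / 480 ^ 4 by positivity)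
  have h2 := tendsto_natCast_atTop_atTop (R := ℝ) |>.eventually h1
  filter_upwards [h2, eventually_ge_atTop 1] with X hX hX1
  have h0 : (0 : ℝ) ≤ Real.log X := Real.log_nonneg (by exact_mod_cast hX1)
  rw [Real.norm_eq_abs, abs_of_nonneg (by positivity), id, Real.norm_eq_abs,
    abs_of_nonneg (by positivity)] at hX
  calc (480 * (Real.log X) ^ A) ^ 4 = 480 ^ 4 * Real.log X ^ (4 * A) := by
        rw [mul_pow, ← pow_mul, mul_comm A 4]
    _ ≤ 480 ^ 4 * (c / 480 ^ 4 * X) := by gcongr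
    _ = c * X := by ring

/-- the choice of `J0` -/
lemma exists_J0 {j0 : ℝ} (hj : 20 ≤ j0) : ∃ J0 : ℕ, 4 * j0 + 2 ≤ (4 : ℝ) ^ J0 ∧
    (4 : ℝ) ^ J0 ≤ 24 * j0 := by
  obtain ⟨m, hm1, hm2⟩ := exists_nat_pow_near (show (1 : ℝ) ≤ 4 * j0 + 2 by linarith)
    (show (1 : ℝ) < 4 by norm_num)
  refine ⟨m + 1, hm2.le, ?_⟩
  rw [pow_succ]
  linarith

open scoped Classical Filter in
/-- Sketch: `c₀` = min of the constant of `arch` and `1/8` (`ArchStmt`, `ArchRoots` are monotone),
`conc (ε/16)` gives `A`, `aprime2 c₀ (ε/16)`, `ew_rate (ε') (1/3)`. For `n ∈ [(ε/16) X, X]` odd, put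
`j0 = (log X)^A`, `J0` = least with `4 j0 + 2 ≤ 4^J0`, so `J0 ≤ C_A log log X` and
`(4^J0)^4 ≤ (ε/16) X` for large `X`. If `n` is in no exceptional set then `det2` applies
(`log n ≥ log X - C`). The number of `n` with `Zf (n-c) ≥ (1/2) log n ≥ (1/3) log X` for some odd
`c ≤ J0` is `≤ J0 (ε' X / log log X + 1) ≤ (ε/16) X`. -/
theorem density_one (ε : ℝ) (hε : 0 < ε) : ∃ X₀ : ℕ, ∀ X : ℕ, X₀ ≤ X →
    (1 - ε) * ((X : ℝ) / 2) ≤ (((Icc 1 X).filter (fun n => Odd n ∧ IrrR n)).card : ℝ) := by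
  obtain ⟨c₁, hc₁, n₀, hA0⟩ := arch
  set c₀ : ℝ := min c₁ (1 / 8) with hc₀def
  have hc₀ : 0 < c₀ := lt_min hc₁ (by norm_num)
  set N₀ : ℕ := max n₀ 400 with hN₀
  have hA : ArchStmt c₀ N₀ := by
    intro n hn hodd D T G H hD heq hT hd hlc hdeg
    exact hA0 n ((le_max_left _ _).trans hn) hodd D T G H hD heq hT hd hlc
      (hdeg.trans (mul_le_mul_of_nonneg_right (min_le_left _ _) (Nat.cast_nonneg _)))
  have hR : ArchRoots c₀ N₀ := by
    intro n hn hodd D T G H hD heq hT hd hlc hdeg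
    exact arch_roots n ((le_max_right _ _).trans hn) hodd D T G H hD heq hT hd hlc
      (hdeg.trans (mul_le_mul_of_nonneg_right (min_le_right _ _) (Nat.cast_nonneg _)))
  obtain ⟨n₁, hdet⟩ := det2 hc₀ hA hR
  obtain ⟨A, Xc, hconc⟩ := conc (ε / 16) (by positivity)
  obtain ⟨Xa, hap⟩ := aprime2 c₀ (ε / 16) hc₀ (by positivity)
  obtain ⟨Xe, hew⟩ := ew_rate (ε / (16 * (A + 5))) (1 / 3) (by positivity) (by norm_num)
  -- thresholds
  set η : ℝ := ε / 16 with hη
  have hη0 : 0 < η := by positivity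
  have ev1 : ∀ᶠ X : ℕ in Filter.atTop, (480 * (Real.log X) ^ A) ^ 4 ≤ η * X := log_pow_ev A η hη0
  have tlog : Filter.Tendsto (fun X : ℕ => Real.log X) Filter.atTop Filter.atTop :=
    Real.tendsto_log_atTop.comp tendsto_natCast_atTop_atTop
  have tll : Filter.Tendsto (fun X : ℕ => Real.log (Real.log X)) Filter.atTop Filter.atTop :=
    Real.tendsto_log_atTop.comp tlog
  have ev2 : ∀ᶠ X : ℕ in Filter.atTop, 60 * |Real.log η| + 20 ≤ Real.log X :=
    tlog.eventually_ge_atTop _
  have ev3 : ∀ᶠ X : ℕ in Filter.atTop, (1 : ℝ) ≤ Real.log (Real.log X) :=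
    tll.eventually_ge_atTop _
  have ev4 : ∀ᶠ X : ℕ in Filter.atTop, (n₁ : ℝ) / η ≤ (X : ℝ) :=
    tendsto_natCast_atTop_atTop.eventually_ge_atTop _
  obtain ⟨Xv, hXv⟩ := Filter.eventually_atTop.mp ((ev1.and ev2).and (ev3.and ev4))
  refine ⟨max (max Xc Xa) (max Xe (max Xv 1)), fun X hX => ?_⟩
  have hXc : Xc ≤ X := (le_max_left _ _).trans ((le_max_left _ _).trans hX)
  have hXa : Xa ≤ X := (le_max_right _ _).trans ((le_max_left _ _).trans hX)
  have hXe : Xe ≤ X := (le_max_left _ _).trans ((le_max_right _ _).trans hX)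
  have hXv' : Xv ≤ X := (le_max_left _ _).trans ((le_max_right _ _).trans
    ((le_max_right _ _).trans hX))
  have hX1 : 1 ≤ X := (le_max_right _ _).trans ((le_max_right _ _).trans
    ((le_max_right _ _).trans hX))
  obtain ⟨⟨hv1, hv2⟩, hv3, hv4⟩ := hXv X hXv'
  have hX0 : (0 : ℝ) < X := by exact_mod_cast hX1
  have hE1 := hconc X hXc
  have hE2 := hap X hXa
  have hE3 := hew X hXe
  set L := Real.log X with hL
  have habs := abs_nonneg (Real.log η)
  have hL20 : 20 ≤ L := by linarith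
  set M := (Icc 1 X).filter (fun m : ℕ => Even m ∧ 1 / 3 * L ≤ Zf m) with hM
  set j0 : ℝ := 20 * L ^ A with hj0
  have hLA : 1 ≤ L ^ A := one_le_pow₀ (by linarith)
  have hj20 : 20 ≤ j0 := by rw [hj0]; linarith
  obtain ⟨J0, hJ1, hJ2⟩ := exists_J0 hj20
  have hJ3 : (4 : ℝ) ^ J0 ≤ 480 * L ^ A := by rw [hj0] at hJ2; linarith
  have hJ4 : ((4 : ℝ) ^ J0) ^ 4 ≤ η * X :=
    (pow_le_pow_left₀ (by positivity) hJ3 4).trans hv1
  have hJ5 : (J0 : ℝ) ≤ (A + 5) * Real.log L := by
    have h1 : (J0 : ℝ) * Real.log 4 ≤ Real.log 480 + A * Real.log L := by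
      have h2 := Real.log_le_log (by positivity) hJ3
      rwa [Real.log_pow, Real.log_mul (by norm_num) (by positivity), Real.log_pow] at h2
    have h3 : Real.log 480 ≤ 5 * Real.log 4 := by
      rw [← Real.log_rpow (by norm_num)]
      apply Real.log_le_log (by norm_num)
      norm_num
    have h4 : 1 ≤ Real.log 4 := by
      rw [Real.le_log_iff_exp_le (by norm_num)]
      have := Real.exp_one_lt_d9
      linarith
    have h5 : (J0 : ℝ) * Real.log 4 ≤ (A + 5) * Real.log L * Real.log 4 := by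
      calc (J0 : ℝ) * Real.log 4 ≤ 5 * Real.log 4 + A * Real.log L := by linarith
        _ ≤ 5 * (Real.log L * Real.log 4) + A * (Real.log L * Real.log 4) := by
            have e1 : Real.log 4 ≤ Real.log L * Real.log 4 :=
              le_mul_of_one_le_left (by linarith) hv3
            have e2 : Real.log L ≤ Real.log L * Real.log 4 :=
              le_mul_of_one_le_right (by linarith) h4
            have e3 : (A : ℝ) * Real.log L ≤ A * (Real.log L * Real.log 4) :=
              mul_le_mul_of_nonneg_left e2 (Nat.cast_nonneg _)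
            linarith
        _ = _ := by ring
    exact le_of_mul_le_mul_right h5 (by linarith)
  -- the exceptional sets
  set E1 := (Icc 1 X).filter (fun n : ℕ => Odd n ∧ ∃ j : ℕ, L ^ A ≤ j ∧
      (j : ℝ) ≤ (X : ℝ) ^ (24 / 25 : ℝ) ∧ 2 * j ≤ n - 1 ∧
        5 * L * j ≤ ∑ i ∈ range j, Zf (n - 1 - 2 * i)) with hE1def
  set E2 := (Icc 1 X).filter (fun n : ℕ => Odd n ∧ ¬ ∃ p c : ℕ, GoodPrime c₀ n p c ∧
      ((c * p ^ 2 : ℕ) : ℝ) ≤ (n : ℝ) ^ (24 / 25 : ℝ)) with hE2def
  set E3 := (range (J0 + 1)).biUnion (fun c => M.image (fun m => m + c)) with hE3def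
  have hcard3 : (E3.card : ℝ) ≤ η * X + M.card := by
    have h1 : E3.card ≤ ∑ c ∈ range (J0 + 1), M.card := by
      refine card_biUnion_le.trans (sum_le_sum fun c _ => card_image_le)
    rw [sum_const, card_range, smul_eq_mul] at h1
    have h2 : (E3.card : ℝ) ≤ ((J0 : ℝ) + 1) * M.card := by exact_mod_cast h1
    have h3 : (J0 : ℝ) * M.card ≤ η * X := by
      have h4 : (M.card : ℝ) * Real.log L ≤ ε / (16 * (A + 5)) * X := hE3
      have h5 : (J0 : ℝ) * M.card ≤ (A + 5) * (M.card * Real.log L) := by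
        calc (J0 : ℝ) * M.card ≤ (A + 5) * Real.log L * M.card :=
              mul_le_mul_of_nonneg_right hJ5 (Nat.cast_nonneg _)
          _ = _ := by ring
      refine h5.trans ?_
      calc ((A : ℝ) + 5) * (M.card * Real.log L) ≤ (A + 5) * (ε / (16 * (A + 5)) * X) :=
            mul_le_mul_of_nonneg_left h4 (by positivity)
        _ = η * X := by
            rw [hη]
            field_simp
    linarith
  have hcardM : (M.card : ℝ) ≤ η * X := by
    have h4 : (M.card : ℝ) * Real.log L ≤ ε / (16 * (A + 5)) * X := hE3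
    have h5 : (M.card : ℝ) ≤ M.card * Real.log L :=
      le_mul_of_one_le_right (Nat.cast_nonneg _) hv3
    have h6 : ε / (16 * (A + 5)) ≤ η := by
      rw [hη]
      apply div_le_div_of_nonneg_left hε.le (by norm_num)
      have : (0 : ℝ) ≤ A := Nat.cast_nonneg _
      linarith
    exact (h5.trans h4).trans (mul_le_mul_of_nonneg_right h6 hX0.le)
  have hsub : (Icc 1 X).filter (fun n => Odd n) ⊆
      (Icc 1 X).filter (fun n => Odd n ∧ IrrR n) ∪ (Icc 1 ⌊η * X⌋₊ ∪ (E1 ∪ (E2 ∪ E3))) := by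
    intro n hn
    rw [mem_filter] at hn
    obtain ⟨hn1, hodd⟩ := hn
    by_contra hcon
    rw [mem_union, mem_union, mem_union, mem_union] at hcon
    push Not at hcon
    obtain ⟨hc1, hc2, hc3, hc4, hc5⟩ := hcon
    apply hc1
    rw [mem_filter]
    refine ⟨hn1, hodd, ?_⟩
    rw [mem_Icc] at hn1
    have hnbig : η * X < n := by
      rw [mem_Icc] at hc2
      push Not at hc2
      exact (Nat.floor_lt (by positivity)).mp (hc2 hn1.1)
    have hn0 : (0 : ℝ) < n := by exact_mod_cast hn1.1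
    have hnX : (n : ℝ) ≤ X := by exact_mod_cast hn1.2
    have hlogn : L + Real.log η ≤ Real.log n := by
      have := Real.log_le_log (by positivity) hnbig.le
      rw [Real.log_mul hη0.ne' hX0.ne'] at this
      linarith
    have hlogη : -|Real.log η| ≤ Real.log η := neg_abs_le _
    refine hdet n ?_ hodd J0 j0 hj20 hJ1 (hJ4.trans hnbig.le) ?_ ?_ ?_
    · have h1 : (n₁ : ℝ) ≤ η * X := by
        rw [div_le_iff₀ hη0] at hv4
        linarith
      have h2 : (n₁ : ℝ) < n := lt_of_le_of_lt h1 hnbig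
      exact_mod_cast h2.le
    · by_contra hno
      apply hc4
      rw [hE2def, mem_filter, mem_Icc]
      exact ⟨hn1, hodd, hno⟩
    · intro c hc hcJ
      by_contra hno
      push Not at hno
      apply hc5
      rw [hE3def, mem_biUnion]
      refine ⟨c, by rw [mem_range]; omega, ?_⟩
      rw [mem_image]
      have hJn : c < n := by
        have h1 : (J0 : ℝ) < (4 : ℝ) ^ J0 := by exact_mod_cast Nat.lt_pow_self (by norm_num)
        have h2 : (4 : ℝ) ^ J0 ≤ ((4 : ℝ) ^ J0) ^ 4 :=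
          le_self_pow₀ (one_le_pow₀ (by norm_num)) (by norm_num)
        have h3 : (J0 : ℝ) < n := lt_of_lt_of_le h1 (h2.trans (hJ4.trans hnbig.le))
        have h4 : J0 < n := by exact_mod_cast h3
        omega
      refine ⟨n - c, ?_, by omega⟩
      rw [hM, mem_filter, mem_Icc]
      refine ⟨⟨by omega, by omega⟩, ?_, ?_⟩
      · obtain ⟨a, ha⟩ := hodd
        obtain ⟨b, hb⟩ := hc
        exact ⟨a - b, by omega⟩
      · refine le_trans ?_ hno
        linarith
    · intro j hj hjn h2j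
      by_contra hno
      push Not at hno
      apply hc3
      rw [hE1def, mem_filter, mem_Icc]
      refine ⟨hn1, hodd, j, ?_, ?_, h2j, ?_⟩
      · refine le_trans ?_ hj
        rw [hj0]; linarith
      · exact hjn.trans (Real.rpow_le_rpow hn0.le hnX (by norm_num))
      · refine le_trans ?_ hno.le
        apply mul_le_mul_of_nonneg_right _ (Nat.cast_nonneg _)
        linarith
  have hcard := (card_le_card hsub).trans (card_union_le _ _)
  have hu1 := card_union_le (Icc 1 ⌊η * X⌋₊) (E1 ∪ (E2 ∪ E3))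
  have hu2 := card_union_le E1 (E2 ∪ E3)
  have hu3 := card_union_le E2 E3
  have hI : ((Icc 1 ⌊η * X⌋₊).card : ℝ) ≤ η * X := by
    rw [Nat.card_Icc, Nat.add_sub_cancel]
    exact Nat.floor_le (by positivity)
  have hodds := card_odd X
  have hfin : ((((Icc 1 X).filter (fun n => Odd n)).card : ℕ) : ℝ) ≤
      (((Icc 1 X).filter (fun n => Odd n ∧ IrrR n)).card : ℝ) +
        ((Icc 1 ⌊η * X⌋₊).card + (E1.card + (E2.card + E3.card))) := by
    exact_mod_cast (show ((Icc 1 X).filter (fun n => Odd n)).card ≤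
      ((Icc 1 X).filter (fun n => Odd n ∧ IrrR n)).card +
        ((Icc 1 ⌊η * X⌋₊).card + (E1.card + (E2.card + E3.card))) by omega)
  have h16 : η * X = ε * X / 16 := by rw [hη]; ring
  have : (1 - ε) * ((X : ℝ) / 2) = X / 2 - 8 * (η * X) := by rw [h16]; ring
  rw [this]
  have hpos : 0 ≤ η * X := by positivity
  linarith

end Pool.Agent.BernOne
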