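import Pool.Agent.BernOne.Defs
import Pool.Agent.MR.AMvt

set_option autoImplicit false

open Finset MeasureTheory

namespace Pool.Agent.BernOne

open Pool.Agent.MR

section gdiffaux

lemma gd_kn_mul (a b : ℝ) (ha : 0 < a) (hb : 0 < b) (x y u : ℝ) :
    kn a (u - x) * kn b (u - y) =
      (Real.exp (-(x - y) ^ 2 / (2 * (a ^ 2 + b ^ 2))) / (a * b * (2 * Real.pi))) *
        Real.exp (-((a ^ 2 + b ^ 2) / (2 * a ^ 2 * b ^ 2)) *
          (u - (b ^ 2 * x + a ^ 2 * y) / (a ^ 2 + b ^ 2)) ^ 2) := by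
  have h2 : √(2 * Real.pi) * √(2 * Real.pi) = 2 * Real.pi := Real.mul_self_sqrt (by positivity)
  have hs : 0 < √(2 * Real.pi) := Real.sqrt_pos.2 (by positivity)
  have hab : 0 < a ^ 2 + b ^ 2 := by positivity
  have hE : Real.exp (-(u - x) ^ 2 / (2 * a ^ 2)) * Real.exp (-(u - y) ^ 2 / (2 * b ^ 2)) =
      Real.exp (-(x - y) ^ 2 / (2 * (a ^ 2 + b ^ 2))) *
        Real.exp (-((a ^ 2 + b ^ 2) / (2 * a ^ 2 * b ^ 2)) *
          (u - (b ^ 2 * x + a ^ 2 * y) / (a ^ 2 + b ^ 2)) ^ 2) := by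
    rw [← Real.exp_add, ← Real.exp_add]
    congr 1
    field_simp
    ring
  unfold kn
  calc Real.exp (-(u - x) ^ 2 / (2 * a ^ 2)) / (a * √(2 * Real.pi)) *
        (Real.exp (-(u - y) ^ 2 / (2 * b ^ 2)) / (b * √(2 * Real.pi)))
      = (Real.exp (-(u - x) ^ 2 / (2 * a ^ 2)) * Real.exp (-(u - y) ^ 2 / (2 * b ^ 2))) /
          (a * b * (√(2 * Real.pi) * √(2 * Real.pi))) := by
        field_simp
    _ = _ := by
        rw [hE, h2]
        ring

lemma gd_integrable (a b : ℝ) (ha : 0 < a) (hb : 0 < b) (x y : ℝ) :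
    Integrable fun u : ℝ => kn a (u - x) * kn b (u - y) := by
  have h := ((integrable_exp_neg_mul_sq (b := (a ^ 2 + b ^ 2) / (2 * a ^ 2 * b ^ 2))
    (by positivity)).comp_sub_right ((b ^ 2 * x + a ^ 2 * y) / (a ^ 2 + b ^ 2))).const_mul
      (Real.exp (-(x - y) ^ 2 / (2 * (a ^ 2 + b ^ 2))) / (a * b * (2 * Real.pi)))
  refine h.congr (Filter.Eventually.of_forall fun u => ?_)
  simp only
  rw [gd_kn_mul a b ha hb]

/-- The integral of a product of two kernels, times `2π`. -/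
lemma gd_integral (a b : ℝ) (ha : 0 < a) (hb : 0 < b) (x y w : ℝ) (hw : 0 < w)
    (hw2 : 2 * w ^ 2 = a ^ 2 + b ^ 2) :
    2 * Real.pi * ∫ u : ℝ, kn a (u - x) * kn b (u - y)
      = √Real.pi * (1 / w) * Real.exp (-((1 / w) * (x - y) / 2) ^ 2) := by
  simp_rw [gd_kn_mul a b ha hb]
  rw [integral_const_mul, integral_sub_right_eq_self
    (fun u => Real.exp (-((a ^ 2 + b ^ 2) / (2 * a ^ 2 * b ^ 2)) * u ^ 2)), integral_gaussian]
  have h1 : Real.pi / ((a ^ 2 + b ^ 2) / (2 * a ^ 2 * b ^ 2)) = Real.pi * (a * b / w) ^ 2 := by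
    rw [← hw2]
    field_simp
  rw [h1, Real.sqrt_mul Real.pi_pos.le, Real.sqrt_sq (by positivity)]
  have h2 : -(x - y) ^ 2 / (2 * (a ^ 2 + b ^ 2)) = -((1 / w) * (x - y) / 2) ^ 2 := by
    rw [← hw2]
    field_simp
    try ring
  rw [h2]
  have hpi := Real.pi_pos
  have hs : √Real.pi * √Real.pi = Real.pi := Real.mul_self_sqrt Real.pi_pos.le
  field_simp

lemma gd_ptw (θ θ2 t : ℝ) (hθ : 0 < θ) (hle : θ ≤ θ2) :
    (Real.exp (-(θ ^ 2 * t ^ 2 / 2)) - Real.exp (-(θ2 ^ 2 * t ^ 2 / 2))) ^ 2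
      ≤ min 1 ((θ2 * t) ^ 4) * gw (1 / θ) t := by
  set A : ℝ := θ ^ 2 * t ^ 2 / 2 with hA
  set B : ℝ := θ2 ^ 2 * t ^ 2 / 2 with hB
  have hAB : A ≤ B := by
    rw [hA, hB]
    have : θ ^ 2 ≤ θ2 ^ 2 := pow_le_pow_left₀ hθ.le hle 2
    nlinarith [sq_nonneg t]
  have hA0 : 0 ≤ A := by positivity
  have hB0 : 0 ≤ B := by positivity
  have hg : gw (1 / θ) t = Real.exp (-A) ^ 2 := by
    unfold gw
    rw [← Real.exp_nat_mul]
    congr 1
    rw [hA]
    push_cast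
    field_simp
  have hf : Real.exp (-A) - Real.exp (-B) = Real.exp (-A) * (1 - Real.exp (-(B - A))) := by
    rw [mul_sub, ← Real.exp_add]
    ring_nf
  have h1 : 0 ≤ 1 - Real.exp (-(B - A)) := by
    have : Real.exp (-(B - A)) ≤ 1 := Real.exp_le_one_iff.2 (by linarith)
    linarith
  have h2 : 1 - Real.exp (-(B - A)) ≤ 1 := by
    have := Real.exp_pos (-(B - A))
    linarith
  have h3 : 1 - Real.exp (-(B - A)) ≤ B := by
    have := Real.add_one_le_exp (-(B - A))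
    linarith
  have h4 : (1 - Real.exp (-(B - A))) ^ 2 ≤ min 1 ((θ2 * t) ^ 4) := by
    refine le_min ?_ ?_
    · exact pow_le_one₀ h1 h2
    · calc (1 - Real.exp (-(B - A))) ^ 2 ≤ B ^ 2 := pow_le_pow_left₀ h1 h3 2
        _ = (θ2 * t) ^ 4 / 4 := by rw [hB]; ring
        _ ≤ (θ2 * t) ^ 4 := by
            have : 0 ≤ (θ2 * t) ^ 4 := by positivity
            linarith
  rw [hf, mul_pow, hg, mul_comm (min 1 ((θ2 * t) ^ 4))]
  exact mul_le_mul_of_nonneg_left h4 (by positivity)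

lemma gd_gw_expand (θ θ2 w t : ℝ) (hθ : 0 < θ) (hθ2 : 0 < θ2) (hw : 0 < w)
    (hw2 : 2 * w ^ 2 = θ ^ 2 + θ2 ^ 2) :
    gw (1 / θ) t - 2 * gw (1 / w) t + gw (1 / θ2) t =
      (Real.exp (-(θ ^ 2 * t ^ 2 / 2)) - Real.exp (-(θ2 ^ 2 * t ^ 2 / 2))) ^ 2 := by
  have h1 : gw (1 / θ) t = Real.exp (-(θ ^ 2 * t ^ 2 / 2)) ^ 2 := by
    unfold gw
    rw [← Real.exp_nat_mul]
    congr 1
    push_cast
    field_simp
  have h2 : gw (1 / θ2) t = Real.exp (-(θ2 ^ 2 * t ^ 2 / 2)) ^ 2 := by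
    unfold gw
    rw [← Real.exp_nat_mul]
    congr 1
    push_cast
    field_simp
  have h3 : gw (1 / w) t = Real.exp (-(θ ^ 2 * t ^ 2 / 2)) * Real.exp (-(θ2 ^ 2 * t ^ 2 / 2)) := by
    unfold gw
    rw [← Real.exp_add]
    congr 1
    have : w ^ 2 = (θ ^ 2 + θ2 ^ 2) / 2 := by linarith
    have h4 : (t / (1 / w)) ^ 2 = t ^ 2 * w ^ 2 := by
      field_simp
    rw [h4, this]
    ring
  rw [h1, h2, h3]
  ring

end gdiffaux

/-- Plancherel for the difference of two Gaussian smoothings (exact form). -/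
theorem gauss_diff_eq (s : Finset ℕ) (c : ℕ → ℂ) (θ θ2 : ℝ) (hθ : 0 < θ) (hθ2 : 0 < θ2) :
    Integrable (fun u : ℝ =>
      ‖∑ n ∈ s, c n * ((kn θ (u - Real.log n) - kn θ2 (u - Real.log n) : ℝ) : ℂ)‖ ^ 2) ∧
    2 * Real.pi * ∫ u : ℝ,
        ‖∑ n ∈ s, c n * ((kn θ (u - Real.log n) - kn θ2 (u - Real.log n) : ℝ) : ℂ)‖ ^ 2
      = ∫ t, ‖dp s c t‖ ^ 2 *
        (Real.exp (-(θ ^ 2 * t ^ 2 / 2)) - Real.exp (-(θ2 ^ 2 * t ^ 2 / 2))) ^ 2 := by
  classical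
  set w : ℝ := √((θ ^ 2 + θ2 ^ 2) / 2) with hw
  have hw0 : 0 < w := Real.sqrt_pos.2 (by positivity)
  have hw2 : 2 * w ^ 2 = θ ^ 2 + θ2 ^ 2 := by
    rw [hw, Real.sq_sqrt (by positivity)]
    ring
  set κ : ℕ → ℝ → ℝ := fun n u => kn θ (u - Real.log n) - kn θ2 (u - Real.log n) with hκ
  -- products
  have hprod : ∀ (m n : ℕ) (u : ℝ), κ m u * κ n u
      = kn θ (u - Real.log m) * kn θ (u - Real.log n)
        - kn θ (u - Real.log m) * kn θ2 (u - Real.log n)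
        - kn θ2 (u - Real.log m) * kn θ (u - Real.log n)
        + kn θ2 (u - Real.log m) * kn θ2 (u - Real.log n) := by
    intro m n u
    simp only [hκ]
    ring
  have hint : ∀ m n : ℕ, Integrable fun u : ℝ => κ m u * κ n u := by
    intro m n
    simp_rw [hprod]
    exact (((gd_integrable θ θ hθ hθ _ _).sub (gd_integrable θ θ2 hθ hθ2 _ _)).sub
      (gd_integrable θ2 θ hθ2 hθ _ _)).add (gd_integrable θ2 θ2 hθ2 hθ2 _ _)
  set G : ℝ → ℝ → ℝ := fun r x => √Real.pi * (1 / r) * Real.exp (-((1 / r) * x / 2) ^ 2) with hG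
  have hval : ∀ m n : ℕ, 2 * Real.pi * ∫ u : ℝ, κ m u * κ n u
      = G θ (Real.log m - Real.log n) - 2 * G w (Real.log m - Real.log n)
        + G θ2 (Real.log m - Real.log n) := by
    intro m n
    simp_rw [hprod]
    have j1 := gd_integrable θ θ hθ hθ (Real.log m) (Real.log n)
    have j2 := gd_integrable θ θ2 hθ hθ2 (Real.log m) (Real.log n)
    have j3 := gd_integrable θ2 θ hθ2 hθ (Real.log m) (Real.log n)
    have j4 := gd_integrable θ2 θ2 hθ2 hθ2 (Real.log m) (Real.log n)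
    have j5 : Integrable fun u : ℝ => kn θ (u - Real.log m) * kn θ (u - Real.log n)
        - kn θ (u - Real.log m) * kn θ2 (u - Real.log n) := j1.sub j2
    have j6 : Integrable fun u : ℝ => kn θ (u - Real.log m) * kn θ (u - Real.log n)
        - kn θ (u - Real.log m) * kn θ2 (u - Real.log n)
        - kn θ2 (u - Real.log m) * kn θ (u - Real.log n) := j5.sub j3
    rw [integral_add j6 j4, integral_sub j5 j3, integral_sub j1 j2]
    have e1 := gd_integral θ θ hθ hθ (Real.log m) (Real.log n) θ hθ (by ring)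
    have e2 := gd_integral θ θ2 hθ hθ2 (Real.log m) (Real.log n) w hw0 hw2
    have e3 := gd_integral θ2 θ hθ2 hθ (Real.log m) (Real.log n) w hw0 (by rw [hw2]; ring)
    have e4 := gd_integral θ2 θ2 hθ2 hθ2 (Real.log m) (Real.log n) θ2 hθ2 (by ring)
    rw [mul_add, mul_sub, mul_sub, e1, e2, e3, e4]
    simp only [hG]
    ring
  have hterm : ∀ m n : ℕ, Integrable fun u : ℝ =>
      (c m * (starRingEnd ℂ) (c n)) * ((κ m u * κ n u : ℝ) : ℂ) := fun m n =>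
    (hint m n).ofReal.const_mul _
  have hexp : ∀ u : ℝ, ((‖∑ n ∈ s, c n * ((κ n u : ℝ) : ℂ)‖ ^ 2 : ℝ) : ℂ)
      = ∑ m ∈ s, ∑ n ∈ s, (c m * (starRingEnd ℂ) (c n)) * ((κ m u * κ n u : ℝ) : ℂ) := fun u =>
    amvt_expand s c (fun n => κ n u)
  have hI : Integrable (fun u : ℝ => ‖∑ n ∈ s, c n * ((κ n u : ℝ) : ℂ)‖ ^ 2) := by
    have h : Integrable fun u : ℝ => ∑ m ∈ s, ∑ n ∈ s, (c m * (starRingEnd ℂ) (c n)) *
        ((κ m u * κ n u : ℝ) : ℂ) :=
      integrable_finsetSum _ fun m _ => integrable_finsetSum _ fun n _ => hterm m n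
    refine h.re.congr (Filter.Eventually.of_forall fun u => ?_)
    simp only
    rw [← hexp u]
    exact Complex.ofReal_re _
  refine ⟨hI, ?_⟩
  -- the Dirichlet polynomial side
  have hQ := fun (r : ℝ) (hr : 0 < r) =>
    (amvt_quad s (fun n : ℕ => Real.log n) c (1 / r) (by positivity)).2
  have hQ' : ∀ r : ℝ, 0 < r → ((∫ t, ‖dp s c t‖ ^ 2 * gw (1 / r) t : ℝ) : ℂ)
      = ∑ i ∈ s, ∑ j ∈ s, (c i * (starRingEnd ℂ) (c j)) *
        ((G r (Real.log i - Real.log j) : ℝ) : ℂ) := hQ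
  have hR : ∫ t, ‖dp s c t‖ ^ 2 *
        (Real.exp (-(θ ^ 2 * t ^ 2 / 2)) - Real.exp (-(θ2 ^ 2 * t ^ 2 / 2))) ^ 2
      = (∫ t, ‖dp s c t‖ ^ 2 * gw (1 / θ) t) - 2 * (∫ t, ‖dp s c t‖ ^ 2 * gw (1 / w) t)
        + ∫ t, ‖dp s c t‖ ^ 2 * gw (1 / θ2) t := by
    have i1 := integrable_dp s c (1 / θ) (by positivity)
    have i2 := (integrable_dp s c (1 / w) (by positivity)).const_mul 2
    have i3 := integrable_dp s c (1 / θ2) (by positivity)
    have i4 : Integrable fun t : ℝ => ‖dp s c t‖ ^ 2 * gw (1 / θ) t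
        - 2 * (‖dp s c t‖ ^ 2 * gw (1 / w) t) := i1.sub i2
    rw [← integral_const_mul, ← integral_sub i1 i2, ← integral_add i4 i3]
    congr 1
    funext t
    rw [← gd_gw_expand θ θ2 w t hθ hθ2 hw0 hw2]
    ring
  have hRR : ((∫ t, ‖dp s c t‖ ^ 2 *
        (Real.exp (-(θ ^ 2 * t ^ 2 / 2)) - Real.exp (-(θ2 ^ 2 * t ^ 2 / 2))) ^ 2 : ℝ) : ℂ)
      = ∑ i ∈ s, ∑ j ∈ s, (c i * (starRingEnd ℂ) (c j)) *
        ((G θ (Real.log i - Real.log j) - 2 * G w (Real.log i - Real.log j)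
          + G θ2 (Real.log i - Real.log j) : ℝ) : ℂ) := by
    rw [hR, Complex.ofReal_add, Complex.ofReal_sub, Complex.ofReal_mul 2, hQ' θ hθ, hQ' w hw0,
      hQ' θ2 hθ2, Finset.mul_sum, ← Finset.sum_sub_distrib, ← Finset.sum_add_distrib]
    refine Finset.sum_congr rfl fun m _ => ?_
    rw [Finset.mul_sum, ← Finset.sum_sub_distrib, ← Finset.sum_add_distrib]
    refine Finset.sum_congr rfl fun n _ => ?_
    push_cast
    ring
  have hLL : ((∫ u : ℝ, ‖∑ n ∈ s, c n * ((κ n u : ℝ) : ℂ)‖ ^ 2 : ℝ) : ℂ)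
      = ∑ m ∈ s, ∑ n ∈ s, (c m * (starRingEnd ℂ) (c n)) * ((∫ u : ℝ, κ m u * κ n u : ℝ) : ℂ) := by
    rw [← integral_complex_ofReal]
    simp_rw [hexp]
    rw [integral_finsetSum _ fun m _ => integrable_finsetSum _ fun n _ => hterm m n]
    refine Finset.sum_congr rfl fun m _ => ?_
    rw [integral_finsetSum _ fun n _ => hterm m n]
    refine Finset.sum_congr rfl fun n _ => ?_
    rw [integral_const_mul, integral_complex_ofReal]
  apply Complex.ofReal_injective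
  rw [hRR, Complex.ofReal_mul (2 * Real.pi)]
  change ((2 * Real.pi : ℝ) : ℂ) * ((∫ u : ℝ, ‖∑ n ∈ s, c n * ((κ n u : ℝ) : ℂ)‖ ^ 2 : ℝ) : ℂ) = _
  rw [hLL, Finset.mul_sum]
  refine Finset.sum_congr rfl fun m _ => ?_
  rw [Finset.mul_sum]
  refine Finset.sum_congr rfl fun n _ => ?_
  rw [← hval m n, Complex.ofReal_mul (2 * Real.pi)]
  ring

/-- Plancherel for the difference of two Gaussian smoothings.
Sketch: as `gauss_parseval` in `MR/AMvt` (use `amvt_integral_exp_gauss`):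
`kn θ x = (1/(2π)) ∫ exp(-θ²t²/2) exp(i t x) dt`, so the left side is
`(1/(2π)) ∫ ‖dp s c t‖² (exp(-θ²t²/2) - exp(-θ2²t²/2))² dt`; both sides are finite double sums
over `m, n ∈ s` of explicit Gaussian integrals
(`∫ kn θ (u-x) kn θ' (u-y) du = kn √(θ²+θ'²) (x-y)`).
Then `0 ≤ exp(-A) - exp(-B) ≤ exp(-A) min(1, B-A)` with `A = θ²t²/2 ≤ B = θ2²t²/2`, so the square is
`≤ exp(-θ²t²) min(1, (θ2 t)^4)`, and `exp(-θ²t²) = gw (1/θ) t`, `1/(2π) ≤ 1`. -/
theorem gauss_diff (s : Finset ℕ) (hs : ∀ n ∈ s, 0 < n) (c : ℕ → ℂ) (θ θ2 : ℝ) (hθ : 0 < θ)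
    (hle : θ ≤ θ2) :
    Integrable (fun u : ℝ =>
      ‖∑ n ∈ s, c n * ((kn θ (u - Real.log n) - kn θ2 (u - Real.log n) : ℝ) : ℂ)‖ ^ 2) ∧
    ∫ u : ℝ, ‖∑ n ∈ s, c n * ((kn θ (u - Real.log n) - kn θ2 (u - Real.log n) : ℝ) : ℂ)‖ ^ 2
      ≤ ∫ t, ‖dp s c t‖ ^ 2 * min 1 ((θ2 * t) ^ 4) * gw (1 / θ) t := by
  obtain ⟨hI, heq⟩ := gauss_diff_eq s c θ θ2 hθ (hθ.trans_le hle)
  refine ⟨hI, ?_⟩
  set J : ℝ := ∫ u : ℝ,
    ‖∑ n ∈ s, c n * ((kn θ (u - Real.log n) - kn θ2 (u - Real.log n) : ℝ) : ℂ)‖ ^ 2 with hJ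
  have hJ0 : 0 ≤ J := integral_nonneg fun u => by positivity
  have h1 : J ≤ 2 * Real.pi * J := by
    have := Real.pi_gt_three
    nlinarith
  refine h1.trans ?_
  rw [heq]
  refine integral_mono_of_nonneg (Filter.Eventually.of_forall fun t => ?_) ?_
    (Filter.Eventually.of_forall fun t => ?_)
  · simp only [Pi.zero_apply]
    positivity
  · refine (integrable_dp s c (1 / θ) (by positivity)).mono' ?_ ?_
    · refine Continuous.aestronglyMeasurable ?_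
      have c1 : Continuous fun t : ℝ => min 1 ((θ2 * t) ^ 4) := by fun_prop
      exact ((((continuous_dp s c).norm).pow 2).mul c1).mul (continuous_gw _)
    · refine Filter.Eventually.of_forall fun t => ?_
      have h2 : 0 ≤ gw (1 / θ) t := (Real.exp_pos _).le
      have h3 : 0 ≤ min 1 ((θ2 * t) ^ 4) := le_min zero_le_one (by positivity)
      have h4 : min 1 ((θ2 * t) ^ 4) ≤ 1 := min_le_left _ _
      rw [Real.norm_of_nonneg (by positivity)]
      have h5 : ‖dp s c t‖ ^ 2 * min 1 ((θ2 * t) ^ 4) ≤ ‖dp s c t‖ ^ 2 * 1 :=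
        mul_le_mul_of_nonneg_left h4 (by positivity)
      rw [mul_one] at h5
      exact mul_le_mul_of_nonneg_right h5 h2
  · simp only
    rw [mul_assoc]
    exact mul_le_mul_of_nonneg_left (gd_ptw θ θ2 t hθ hle) (by positivity)

lemma gd_ni_mul (a b : ℕ) (ha : 0 < a) (hb : 0 < b) (t : ℝ) :
    ni (a * b) t = ni a t * ni b t := by
  unfold ni
  rw [← Complex.exp_add]
  congr 1
  have ha' : (a : ℝ) ≠ 0 := by exact_mod_cast ha.ne'
  have hb' : (b : ℝ) ≠ 0 := by exact_mod_cast hb.ne'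
  rw [Nat.cast_mul, Real.log_mul ha' hb']
  push_cast
  ring

/-- The sum over triples as a sum over integers.
Sketch: `s` = image of the triples under `(p, q, k) ↦ (p-1) q k`, `c n = ∑ log p` over the triples
with product `n`; `ni (a * b) t = ni a t * ni b t` for `a, b > 0`. -/
theorem psi_dp (P S K : Finset ℕ) (hP : ∀ p ∈ P, 2 ≤ p) (hS : ∀ q ∈ S, 1 ≤ q)
    (hK : ∀ k ∈ K, 1 ≤ k) : ∃ (s : Finset ℕ) (c : ℕ → ℂ), (∀ n ∈ s, 0 < n) ∧
      (∀ t : ℝ, dp s c t = Ud P t * dp S (fun _ => 1) t * dp K (fun _ => 1) t) ∧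
      (∀ θ u : ℝ, (Psi P S K θ u : ℂ) = ∑ n ∈ s, c n * ((kn θ (u - Real.log n) : ℝ) : ℂ)) := by
  classical
  set T : Finset (ℕ × ℕ × ℕ) := P ×ˢ (S ×ˢ K) with hT
  set g : ℕ × ℕ × ℕ → ℕ := fun x => (x.1 - 1) * x.2.1 * x.2.2 with hg
  set s : Finset ℕ := T.image g with hs
  set c : ℕ → ℂ := fun n => ∑ x ∈ T.filter (fun x => g x = n), (Real.log x.1 : ℂ) with hc
  have key : ∀ F : ℕ → ℂ, ∑ n ∈ s, c n * F n = ∑ p ∈ P, ∑ q ∈ S, ∑ k ∈ K,
      (Real.log p : ℂ) * F ((p - 1) * q * k) := by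
    intro F
    have h1 : ∑ n ∈ s, c n * F n
        = ∑ n ∈ s, ∑ x ∈ T.filter (fun x => g x = n), (Real.log x.1 : ℂ) * F (g x) := by
      refine Finset.sum_congr rfl fun n _ => ?_
      simp only [hc]
      rw [Finset.sum_mul]
      refine Finset.sum_congr rfl fun x hx => ?_
      rw [(Finset.mem_filter.1 hx).2]
    rw [h1, Finset.sum_fiberwise_of_maps_to (fun x hx => Finset.mem_image_of_mem g hx)
      (fun x => (Real.log x.1 : ℂ) * F (g x)), hT, Finset.sum_product]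
    refine Finset.sum_congr rfl fun p _ => ?_
    rw [Finset.sum_product]
  refine ⟨s, c, ?_, ?_, ?_⟩
  · intro n hn
    obtain ⟨x, hx, rfl⟩ := Finset.mem_image.1 hn
    rw [hT, Finset.mem_product, Finset.mem_product] at hx
    obtain ⟨h1, h2, h3⟩ := hx
    have h4 := hP _ h1
    have h5 := hS _ h2
    have h6 := hK _ h3
    simp only [hg]
    have h7 : 0 < x.1 - 1 := by omega
    positivity
  · intro t
    have h := key (fun n => ni n t)
    unfold dp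
    rw [h]
    unfold Ud
    rw [Finset.sum_mul_sum, Finset.sum_mul]
    refine Finset.sum_congr rfl fun p hp => ?_
    rw [Finset.sum_mul_sum]
    refine Finset.sum_congr rfl fun q hq => Finset.sum_congr rfl fun k hk => ?_
    have h4 := hP _ hp
    have h5 := hS _ hq
    have h6 := hK _ hk
    have h7 : 0 < p - 1 := by omega
    rw [gd_ni_mul ((p - 1) * q) k (by positivity) (by omega),
      gd_ni_mul (p - 1) q h7 (by omega)]
    ring
  · intro θ u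
    have h := key (fun n => ((kn θ (u - Real.log n) : ℝ) : ℂ))
    rw [h]
    unfold Psi
    push_cast
    rfl

/-- The mean square of the difference of two smoothings. -/
theorem psi_l2 (P S K : Finset ℕ) (hP : ∀ p ∈ P, 2 ≤ p) (hS : ∀ q ∈ S, 1 ≤ q)
    (hK : ∀ k ∈ K, 1 ≤ k) (θ θ2 : ℝ) (hθ : 0 < θ) (hle : θ ≤ θ2) :
    Integrable (fun u : ℝ => (Psi P S K θ u - Psi P S K θ2 u) ^ 2) ∧
    ∫ u : ℝ, (Psi P S K θ u - Psi P S K θ2 u) ^ 2 ≤
      ∫ t, ‖Ud P t * dp S (fun _ => 1) t * dp K (fun _ => 1) t‖ ^ 2 * min 1 ((θ2 * t) ^ 4) *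
        gw (1 / θ) t := by
  obtain ⟨s, c, hs, hdp, hpsi⟩ := psi_dp P S K hP hS hK
  obtain ⟨hI, hle'⟩ := gauss_diff s hs c θ θ2 hθ hle
  have hfun : (fun u : ℝ => (Psi P S K θ u - Psi P S K θ2 u) ^ 2) = fun u : ℝ =>
      ‖∑ n ∈ s, c n * ((kn θ (u - Real.log n) - kn θ2 (u - Real.log n) : ℝ) : ℂ)‖ ^ 2 := by
    funext u
    have h1 : ∑ n ∈ s, c n * ((kn θ (u - Real.log n) - kn θ2 (u - Real.log n) : ℝ) : ℂ)
        = ((Psi P S K θ u - Psi P S K θ2 u : ℝ) : ℂ) := by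
      rw [Complex.ofReal_sub, hpsi θ u, hpsi θ2 u, ← Finset.sum_sub_distrib]
      refine Finset.sum_congr rfl fun n _ => ?_
      push_cast
      ring
    rw [h1, Complex.norm_real, Real.norm_eq_abs, sq_abs]
  rw [hfun]
  refine ⟨hI, ?_⟩
  refine hle'.trans (le_of_eq ?_)
  simp_rw [hdp]

end Pool.Agent.BernOne
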