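import Pool.Agent.BernIrr.Core6

set_option autoImplicit false

/-!
The polynomial `γ` with `G = γ(x² - x)` and its Taylor expansion at `3/4`, i.e. the polynomial
`Γ(w) = 4^e γ((w+3)/4)` (`w = 4t - 3 = (2x-3)(2x+1)`, `e = deg γ`).
-/

namespace Pool.Agent.BernOne

open Finset Polynomial Pool.Agent.BernIrr

/-- `4^e γ((w+3)/4)` -/
noncomputable def Gam (γ : ℤ[X]) : ℤ[X] := (γ.scaleRoots 4).comp (X + C 3)

theorem gam_q_monic : (X ^ 2 - X : ℤ[X]).Monic := by
  monicity!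

theorem gam_q_natDegree : (X ^ 2 - X : ℤ[X]).natDegree = 2 := by
  compute_degree!

theorem gam_q_comp : (X ^ 2 - X : ℤ[X]).comp (1 - X) = X ^ 2 - X := by
  simp only [sub_comp, pow_comp, X_comp]
  ring

theorem gam_deg_comp (f : ℤ[X]) : (f.comp (1 - X)).natDegree = f.natDegree := by
  rw [← sg_apply, sg_deg]

theorem gam_exists (n : ℕ) : ∀ G : ℤ[X], G.natDegree < n → G.comp (1 - X) = G →
    ∃ γ : ℤ[X], G = γ.comp (X ^ 2 - X) := by
  induction n with
  | zero => exact fun G h => absurd h (Nat.not_lt_zero _)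
  | succ n ih =>
    intro G hn hs
    by_cases h2 : G.natDegree < 2
    · -- degree at most one
      have h3 : G.natDegree ≤ 1 := by omega
      have hG := Polynomial.eq_X_add_C_of_natDegree_le_one h3
      have h4 : G.coeff 1 = 0 := by
        rw [hG] at hs
        have h5 := congrArg (fun f : ℤ[X] => f.coeff 1) hs
        simp only [add_comp, mul_comp, C_comp, X_comp, coeff_add, coeff_C_mul, coeff_sub,
          coeff_X_one, coeff_C_succ, coeff_one, one_ne_zero, if_false] at h5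
        omega
      rw [h4, C_0, zero_mul, zero_add] at hG
      exact ⟨C (G.coeff 0), by rw [C_comp]; exact hG⟩
    · have hdiv := modByMonic_add_div G (X ^ 2 - X : ℤ[X])
      have hdeg : (G %ₘ (X ^ 2 - X : ℤ[X])).degree < (X ^ 2 - X : ℤ[X]).degree :=
        degree_modByMonic_lt _ gam_q_monic
      have hcomp : (G %ₘ (X ^ 2 - X : ℤ[X])).comp (1 - X) +
          (X ^ 2 - X) * (G /ₘ (X ^ 2 - X : ℤ[X])).comp (1 - X) = G := by
        have h1 := congrArg (fun f : ℤ[X] => f.comp (1 - X)) hdiv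
        simp only [add_comp, mul_comp] at h1
        rw [gam_q_comp, hs] at h1
        exact h1
      have hlt : ∀ f : ℤ[X], f.degree < (X ^ 2 - X : ℤ[X]).degree → f.natDegree ≤ 1 := by
        intro f hf
        rw [degree_eq_natDegree gam_q_monic.ne_zero, gam_q_natDegree] at hf
        by_cases h0 : f = 0
        · rw [h0]; simp
        · have h1 := (natDegree_lt_iff_degree_lt h0).2 hf
          omega
      have hdeg2 : ((G %ₘ (X ^ 2 - X : ℤ[X])).comp (1 - X)).degree <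
          (X ^ 2 - X : ℤ[X]).degree := by
        have h1 := hlt _ hdeg
        rw [← gam_deg_comp] at h1
        rw [degree_eq_natDegree gam_q_monic.ne_zero, gam_q_natDegree]
        exact lt_of_le_of_lt degree_le_natDegree (by exact_mod_cast (by omega :
          ((G %ₘ (X ^ 2 - X : ℤ[X])).comp (1 - X)).natDegree < 2))
      obtain ⟨h1, h3⟩ := div_modByMonic_unique _ _ gam_q_monic ⟨hcomp, hdeg2⟩
      obtain ⟨γ₁, hγ₁⟩ := ih (G /ₘ (X ^ 2 - X : ℤ[X])) (by
        rw [natDegree_divByMonic _ gam_q_monic, gam_q_natDegree]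
        omega) h1.symm
      obtain ⟨γ₂, hγ₂⟩ : ∃ γ₂ : ℤ[X], G %ₘ (X ^ 2 - X : ℤ[X]) = γ₂.comp (X ^ 2 - X) := by
        have h4 := hlt _ hdeg
        have hG := Polynomial.eq_X_add_C_of_natDegree_le_one h4
        have h5 : (G %ₘ (X ^ 2 - X : ℤ[X])).coeff 1 = 0 := by
          have hs' := h3.symm
          rw [hG] at hs'
          have h5 := congrArg (fun f : ℤ[X] => f.coeff 1) hs'
          simp only [add_comp, mul_comp, C_comp, X_comp, coeff_add, coeff_C_mul, coeff_sub,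
            coeff_X_one, coeff_C_succ, coeff_one, one_ne_zero, if_false] at h5
          omega
        rw [h5, C_0, zero_mul, zero_add] at hG
        exact ⟨C ((G %ₘ (X ^ 2 - X : ℤ[X])).coeff 0), by rw [C_comp]; exact hG⟩
      refine ⟨γ₂ + X * γ₁, ?_⟩
      rw [add_comp, mul_comp, X_comp, ← hγ₁, ← hγ₂]
      exact hdiv.symm

/-- A symmetric polynomial is a polynomial in `x² - x`. -/
theorem exists_gamma {G : ℤ[X]} (hs : G.comp (1 - X) = G) (hG : G ≠ 0) :
    ∃ γ : ℤ[X], G = γ.comp (X ^ 2 - X) ∧ G.natDegree = 2 * γ.natDegree ∧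
      G.leadingCoeff = γ.leadingCoeff := by
  obtain ⟨γ, hγ⟩ := gam_exists _ G (Nat.lt_succ_self _) hs
  refine ⟨γ, hγ, ?_, ?_⟩
  · rw [hγ, natDegree_comp, gam_q_natDegree, mul_comm]
  · rw [hγ, leadingCoeff_comp (by rw [gam_q_natDegree]; norm_num), gam_q_monic.leadingCoeff,
      one_pow, mul_one]

theorem Gam_natDegree (γ : ℤ[X]) : (Gam γ).natDegree = γ.natDegree := by
  rw [Gam, natDegree_comp, natDegree_X_add_C, mul_one, natDegree_scaleRoots]

theorem Gam_lead (γ : ℤ[X]) : (Gam γ).leadingCoeff = γ.leadingCoeff := by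
  rw [Gam, leadingCoeff_comp (by rw [natDegree_X_add_C]; norm_num), leadingCoeff_X_add_C, one_pow,
    mul_one, leadingCoeff_scaleRoots]

/-- `Γ(0) = 4^e γ(3/4) = 2^(deg G) G(3/2)` -/
theorem Gam_zero {G γ : ℤ[X]} (hG : G = γ.comp (X ^ 2 - X)) :
    (Gam γ).coeff 0 = ev32 G := by
  have h1 : (((Gam γ).coeff 0 : ℤ) : ℚ) = (ev32 G : ℚ) := by
    rw [ev32_cast (K := ℚ) (by norm_num) G, coeff_zero_eq_eval_zero, Gam, eval_comp]
    have h2 := scaleRoots_eval₂_mul (p := γ) (Int.castRingHom ℚ) (3 / 4 : ℚ) (4 : ℤ)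
    have e0 : (Int.castRingHom ℚ) 4 = (4 : ℚ) := by simp
    rw [e0, show (4 : ℚ) * (3 / 4) = 3 by norm_num] at h2
    have e3 : eval₂ (Int.castRingHom ℚ) ((Int.castRingHom ℚ) 3) (γ.scaleRoots 4) =
        (Int.castRingHom ℚ) ((γ.scaleRoots 4).eval 3) := Polynomial.eval₂_at_apply _ _
    have e4 : (Int.castRingHom ℚ) 3 = (3 : ℚ) := by simp
    rw [e4, h2] at e3
    have e5 : eval 0 (X + C 3 : ℤ[X]) = 3 := by simp
    rw [e5]
    have e6 : (Int.castRingHom ℚ) ((γ.scaleRoots 4).eval 3) = (((γ.scaleRoots 4).eval 3 : ℤ) : ℚ) :=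
      rfl
    rw [← e6, ← e3, hG, natDegree_comp, gam_q_natDegree, Polynomial.map_comp, eval_comp, mul_comm _ 2,
      pow_mul]
    have e7 : eval (3 / 2 : ℚ) (Polynomial.map (Int.castRingHom ℚ) (X ^ 2 - X)) = 3 / 4 := by
      simp only [Polynomial.map_sub, Polynomial.map_pow, map_X, eval_sub, eval_pow, eval_X]
      norm_num
    rw [e7, eval_map]
    norm_num
  exact_mod_cast h1

theorem gam_comp_four (γ : ℤ[X]) : (γ.scaleRoots 4).comp (C 4 * X) = C (4 ^ γ.natDegree) * γ := by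
  ext i
  rw [comp_C_mul_X_coeff, coeff_C_mul, coeff_scaleRoots]
  by_cases hi : i ≤ γ.natDegree
  · obtain ⟨k, hk⟩ := Nat.exists_eq_add_of_le hi
    rw [hk, Nat.add_sub_cancel_left, pow_add]
    ring
  · rw [coeff_eq_zero_of_natDegree_lt (by omega)]
    ring

/-- the reduction of `Γ` -/
theorem gam_red {γ : ℤ[X]} {p : ℕ} [Fact p.Prime] {s : ZMod p} (h4 : (4 : ZMod p) ≠ 0)
    (hs : 4 * s = 3) : red p (Gam γ) =
      C (4 ^ γ.natDegree) * (red p γ).comp (C (4 : ZMod p)⁻¹ * X + C s) := by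
  have h1 : (γ.scaleRoots 4).map (Int.castRingHom (ZMod p)) =
      C (4 ^ γ.natDegree) * (red p γ).comp (C (4 : ZMod p)⁻¹ * X) := by
    ext i
    rw [coeff_map, coeff_scaleRoots, coeff_C_mul, comp_C_mul_X_coeff, coeff_map, map_mul, map_pow]
    have e4 : (Int.castRingHom (ZMod p)) 4 = (4 : ZMod p) := by simp
    rw [e4]
    by_cases hi : i ≤ γ.natDegree
    · obtain ⟨k, hk⟩ := Nat.exists_eq_add_of_le hi
      rw [hk, Nat.add_sub_cancel_left, pow_add, inv_pow]
      have h5 : (4 : ZMod p) ^ i ≠ 0 := pow_ne_zero _ h4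
      field_simp
    · rw [coeff_eq_zero_of_natDegree_lt (by omega)]
      simp
  have h2 : red p (Gam γ) = ((γ.scaleRoots 4).map (Int.castRingHom (ZMod p))).comp
      (X + C 3) := by
    rw [Gam, red, Polynomial.map_comp, Polynomial.map_add, map_X, map_C]
    have e3 : (Int.castRingHom (ZMod p)) 3 = (3 : ZMod p) := by simp
    rw [e3]
  rw [h2, h1, mul_comp, C_comp, comp_assoc]
  congr 2
  rw [mul_comp, C_comp, X_comp, mul_add, ← C_mul]
  congr 2
  rw [← hs, ← mul_assoc, inv_mul_cancel₀ h4, one_mul]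

/-- Sketch: in `ZMod p` write `red p γ = (X - C s)^m δ`, `4 s = 3`, `δ(s) ≠ 0`; then
`red p G = ((X - C t) (X - C (1 - t)))^m δ(X² - X)` and `t ≠ 1 - t`, so `k ≤ m`; and
`red p (Gam γ) = 4^e * (red p γ)((w+3)/4)` is divisible by `w^m`. -/
theorem Gam_dvd {G γ : ℤ[X]} (hG : G = γ.comp (X ^ 2 - X)) {p : ℕ} (hp : p.Prime) (hp2 : p ≠ 2)
    {t : ZMod p} (ht : 2 * t = 3) (hne : red p G ≠ 0) {k : ℕ} (hk : (X - C t) ^ k ∣ red p G) :
    ∀ i < k, (p : ℤ) ∣ (Gam γ).coeff i := by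
  have : Fact p.Prime := ⟨hp⟩
  have h2 : (2 : ZMod p) ≠ 0 := by
    intro h
    have h1 : ((2 : ℕ) : ZMod p) = 0 := by exact_mod_cast h
    rw [ZMod.natCast_eq_zero_iff] at h1
    exact hp2 ((Nat.prime_dvd_prime_iff_eq hp Nat.prime_two).1 h1)
  have h4 : (4 : ZMod p) ≠ 0 := by
    have : (4 : ZMod p) = 2 * 2 := by norm_num
    rw [this]
    exact mul_ne_zero h2 h2
  obtain ⟨s, hs⟩ : ∃ s : ZMod p, s = t ^ 2 - t := ⟨_, rfl⟩
  have hs4 : 4 * s = 3 := by
    rw [hs]
    linear_combination (2 * t + 1) * ht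
  have hred : red p G = (red p γ).comp (X ^ 2 - X) := by
    rw [hG, red, Polynomial.map_comp]
    simp
  have hg0 : red p γ ≠ 0 := by
    intro h
    apply hne
    rw [hred, h, zero_comp]
  obtain ⟨δ, hδ⟩ : (X - C s) ^ (rootMultiplicity s (red p γ)) ∣ red p γ :=
    pow_rootMultiplicity_dvd _ _
  have hδs : ¬ (X - C s) ∣ δ := by
    intro hd
    obtain ⟨ε, hε⟩ := hd
    have h1 : (X - C s) ^ (rootMultiplicity s (red p γ) + 1) ∣ red p γ :=
      ⟨ε, by rw [pow_succ, mul_assoc, ← hε]; exact hδ⟩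
    have h5 := (le_rootMultiplicity_iff hg0).2 h1
    omega
  obtain ⟨m, hm⟩ : ∃ m, m = rootMultiplicity s (red p γ) := ⟨_, rfl⟩
  rw [← hm] at hδ
  have hquad : (X ^ 2 - X - C s : (ZMod p)[X]) = (X - C t) * (X - C (1 - t)) := by
    rw [hs, C_sub, C_pow, C_sub, C_1]
    ring
  have hkm : k ≤ m := by
    have e1 : red p G = (X - C t) ^ m * ((X - C (1 - t)) ^ m * δ.comp (X ^ 2 - X)) := by
      rw [hred, hδ, mul_comp, pow_comp, sub_comp, X_comp, C_comp, hquad, mul_pow, mul_assoc]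
    have e2 : ¬ (X - C t) ∣ ((X - C (1 - t)) ^ m * δ.comp (X ^ 2 - X)) := by
      rw [dvd_iff_isRoot, IsRoot.def, eval_mul, eval_pow, eval_sub, eval_X, eval_C, eval_comp,
        eval_sub, eval_pow, eval_X, ← hs]
      rw [dvd_iff_isRoot, IsRoot.def] at hδs
      refine mul_ne_zero (pow_ne_zero _ ?_) hδs
      have : t - (1 - t) = 2 := by linear_combination ht
      rw [this]
      exact h2
    by_contra hlt
    have h5 : (X - C t) ^ (m + 1) ∣ red p G := (pow_dvd_pow _ (by omega)).trans hk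
    rw [e1, pow_succ] at h5
    exact e2 ((mul_dvd_mul_iff_left (pow_ne_zero _ (X_sub_C_ne_zero t))).1 h5)
  intro i hi
  have h6 : X ^ m ∣ red p (Gam γ) := by
    rw [gam_red h4 hs4, hδ, mul_comp, pow_comp, sub_comp, X_comp, C_comp, add_sub_cancel_right,
      mul_pow]
    exact Dvd.dvd.mul_left (Dvd.dvd.mul_right (Dvd.dvd.mul_left dvd_rfl _) _) _
  have h7 := (X_pow_dvd_iff.1 h6) i (by omega)
  rw [coeff_red, ZMod.intCast_zmod_eq_zero_iff_dvd] at h7
  exact h7

/-- `4^e γ'(t) = 4 Γ'(4t-3)` -/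
theorem gam_deriv (γ : ℤ[X]) :
    C (4 ^ γ.natDegree) * derivative γ = C 4 * (derivative (Gam γ)).comp (C 4 * X - C 3) := by
  have h1 : (Gam γ).comp (C 4 * X - C 3) = C (4 ^ γ.natDegree) * γ := by
    rw [Gam, comp_assoc, ← gam_comp_four]
    congr 1
    rw [add_comp, X_comp, C_comp]
    ring
  have h2 := congrArg derivative h1
  rw [derivative_comp, derivative_C_mul] at h2
  rw [← h2]
  simp

/-- Sketch: `4^e γ'(t) = 4 Γ'(4t-3)` and `Γ'(w)` is divisible by `w^(J-1)`, so `(4t-3)^(J-1)` divides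
`γ'` over `ℚ`, hence over `ℤ` (`4t - 3` primitive); compare leading coefficients. -/
theorem Gam_four {γ : ℤ[X]} (hγ : 1 ≤ γ.natDegree) {J : ℕ} (hJ : 1 ≤ J)
    (h0 : ∀ i, 1 ≤ i → i < J → (Gam γ).coeff i = 0) :
    (4 : ℤ) ^ (J - 1) ∣ (γ.natDegree : ℤ) * γ.leadingCoeff := by
  have h1 : X ^ (J - 1) ∣ derivative (Gam γ) := by
    rw [X_pow_dvd_iff]
    intro d hd
    rw [coeff_derivative, h0 (d + 1) (by omega) (by omega), zero_mul]
  obtain ⟨R, hR⟩ := h1
  have h2 := gam_deriv γ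
  rw [hR, mul_comp, pow_comp, X_comp] at h2
  have hprim : (C 4 * X - C 3 : ℤ[X]).IsPrimitive := by
    rw [isPrimitive_iff_isUnit_of_C_dvd]
    intro r hr
    rw [C_dvd_iff_dvd_coeff] at hr
    have h3 := hr 0
    have h4 := hr 1
    simp at h3 h4
    have h5 := dvd_sub h4 h3
    norm_num at h5
    exact isUnit_of_dvd_one h5
  have hrel : IsRelPrime (C 4 * X - C 3 : ℤ[X]) (C (4 ^ γ.natDegree)) := by
    intro d hd1 hd2
    have h3 : d.natDegree = 0 := by
      have := natDegree_le_of_dvd hd2 (by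
        rw [Ne, C_eq_zero]
        positivity)
      rw [natDegree_C] at this
      omega
    rw [eq_C_of_natDegree_eq_zero h3] at hd1 ⊢
    exact isUnit_C.2 (isPrimitive_iff_isUnit_of_C_dvd.1 hprim _ hd1)
  have h5 : (C 4 * X - C 3 : ℤ[X]) ^ (J - 1) ∣ derivative γ := by
    apply (IsRelPrime.pow_left hrel).dvd_of_dvd_mul_left
    rw [h2]
    exact Dvd.dvd.mul_left (Dvd.dvd.mul_right dvd_rfl _) _
  obtain ⟨Q, hQ⟩ := h5
  have h6 : (derivative γ).leadingCoeff = (γ.natDegree : ℤ) * γ.leadingCoeff := by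
    rw [leadingCoeff, natDegree_derivative, coeff_derivative]
    obtain ⟨e, he⟩ : ∃ e, γ.natDegree = e + 1 := ⟨γ.natDegree - 1, by omega⟩
    rw [leadingCoeff, he, Nat.add_sub_cancel]
    push_cast
    ring
  have h7 : (C 4 * X - C 3 : ℤ[X]).leadingCoeff = 4 := by
    have : (C 4 * X - C 3 : ℤ[X]) = C 4 * X + C (-3) := by rw [C_neg]; ring
    rw [this, leadingCoeff_linear (by norm_num)]
  rw [← h6, hQ, leadingCoeff_mul, leadingCoeff_pow, h7]
  exact Dvd.intro _ rfl

/-- The roots of `Γ` are `(2α - 3)(2α + 1)` with `α` a root of `G`; for `‖α‖ ≥ r ≥ 3` both factors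
have norm at least `r`. -/
theorem Gam_roots {G γ : ℤ[X]} (hG : G = γ.comp (X ^ 2 - X)) (hγ : γ ≠ 0) {r : ℝ} (hr : 3 ≤ r)
    (h : ∀ α ∈ (G.map (Int.castRingHom ℂ)).roots, r ≤ ‖α‖) :
    ∀ w ∈ ((Gam γ).map (Int.castRingHom ℂ)).roots, r ^ 2 ≤ ‖w‖ := by
  intro w hw
  have hinj : Function.Injective (Int.castRingHom ℂ) := Int.cast_injective
  have hw0 : ((Gam γ).map (Int.castRingHom ℂ)).eval w = 0 := (mem_roots'.1 hw).2
  obtain ⟨α, hα⟩ : ∃ α : ℂ, α ^ 2 - α = (w + 3) / 4 := by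
    obtain ⟨β, hβ⟩ := IsAlgClosed.exists_pow_nat_eq (w + 4 : ℂ) (n := 2) (by norm_num)
    refine ⟨(β + 1) / 2, ?_⟩
    linear_combination hβ / 4
  have hg : (γ.map (Int.castRingHom ℂ)).eval ((w + 3) / 4) = 0 := by
    have h1 := congrArg (fun f : ℤ[X] => (f.map (Int.castRingHom ℂ)).eval ((w + 3) / 4))
      (gam_comp_four γ)
    simp only [Polynomial.map_comp, eval_comp, Polynomial.map_mul, map_C, map_X, eval_mul, eval_C,
      eval_X] at h1
    rw [Gam, Polynomial.map_comp, eval_comp] at hw0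
    simp only [Polynomial.map_add, map_X, map_C, eval_add, eval_X, eval_C] at hw0
    have e4 : (Int.castRingHom ℂ) 4 = (4 : ℂ) := by simp
    have e3 : (Int.castRingHom ℂ) 3 = (3 : ℂ) := by simp
    rw [e4, mul_div_cancel₀ _ (by norm_num : (4 : ℂ) ≠ 0)] at h1
    rw [e3] at hw0
    rw [hw0] at h1
    have h5 := h1.symm
    rw [mul_eq_zero, map_pow, e4] at h5
    exact h5.resolve_left (pow_ne_zero _ (by norm_num))
  have hGα : (G.map (Int.castRingHom ℂ)).eval α = 0 := by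
    rw [hG, Polynomial.map_comp, eval_comp]
    simp only [Polynomial.map_sub, Polynomial.map_pow, map_X, eval_sub, eval_pow, eval_X]
    rw [hα]
    exact hg
  have hG0 : G ≠ 0 := by
    intro h1
    apply hγ
    have h2 := congrArg leadingCoeff hG
    rw [leadingCoeff_comp (by rw [gam_q_natDegree]; norm_num), gam_q_monic.leadingCoeff, one_pow,
      mul_one, h1, leadingCoeff_zero] at h2
    exact leadingCoeff_eq_zero.1 h2.symm
  have hmem : α ∈ (G.map (Int.castRingHom ℂ)).roots := by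
    rw [mem_roots', IsRoot.def]
    exact ⟨(Polynomial.map_ne_zero_iff hinj).2 hG0, hGα⟩
  have hα2 := h α hmem
  have hw2 : w = (2 * α - 3) * (2 * α + 1) := by
    linear_combination -4 * hα
  have n1 : r ≤ ‖2 * α - 3‖ := by
    have := norm_sub_norm_le (2 * α) 3
    rw [norm_mul] at this
    have e2 : ‖(2 : ℂ)‖ = 2 := by simp
    have e3 : ‖(3 : ℂ)‖ = 3 := by simp
    rw [e2, e3] at this
    linarith
  have n2 : r ≤ ‖2 * α + 1‖ := by
    have := norm_sub_norm_le (2 * α) (-1)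
    rw [norm_mul, sub_neg_eq_add, norm_neg, norm_one] at this
    have e2 : ‖(2 : ℂ)‖ = 2 := by simp
    rw [e2] at this
    linarith
  rw [hw2, norm_mul, pow_two]
  exact mul_le_mul n1 n2 (by linarith) (norm_nonneg _)

/-- Coefficients of a product of linear factors with large roots. -/
theorem gam_coeff_prod (s : Multiset ℂ) {ρ : ℝ} (hρ : 0 < ρ) (h : ∀ w ∈ s, ρ ≤ ‖w‖) :
    ∀ i, ‖((s.map (fun w => X - C w)).prod).coeff i‖ * ρ ^ i ≤
      (s.card.choose i) * ‖((s.map (fun w => X - C w)).prod).coeff 0‖ := by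
  induction s using Multiset.induction with
  | empty =>
    intro i
    rcases i with _ | i
    · simp
    · simp [coeff_one]
  | cons w s ih =>
    have ih' := ih (fun v hv => h v (Multiset.mem_cons_of_mem hv))
    have hw := h w (Multiset.mem_cons_self w s)
    rw [Multiset.map_cons, Multiset.prod_cons, Multiset.card_cons]
    obtain ⟨P, hP⟩ : ∃ P, P = (s.map (fun w => X - C w)).prod := ⟨_, rfl⟩
    rw [← hP] at ih' ⊢
    have hc0 : ((X - C w) * P).coeff 0 = -(w * P.coeff 0) := by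
      rw [sub_mul, coeff_sub, coeff_C_mul, mul_coeff_zero, coeff_X_zero]
      ring
    intro i
    rcases i with _ | i
    · simp
    · have hc : ((X - C w) * P).coeff (i + 1) = P.coeff i - w * P.coeff (i + 1) := by
        rw [sub_mul, coeff_sub, coeff_C_mul, coeff_X_mul]
      have i1 := ih' i
      have i2 := ih' (i + 1)
      have n1 : ‖P.coeff i - w * P.coeff (i + 1)‖ ≤ ‖P.coeff i‖ + ‖w‖ * ‖P.coeff (i + 1)‖ := by
        refine (norm_sub_le _ _).trans ?_
        rw [norm_mul]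
      rw [hc, hc0, norm_neg, norm_mul, Nat.choose_succ_succ]
      push_cast
      have hρi : 0 ≤ ρ ^ i := by positivity
      calc ‖P.coeff i - w * P.coeff (i + 1)‖ * ρ ^ (i + 1)
          ≤ (‖P.coeff i‖ + ‖w‖ * ‖P.coeff (i + 1)‖) * ρ ^ (i + 1) :=
            mul_le_mul_of_nonneg_right n1 (by positivity)
        _ = ρ * (‖P.coeff i‖ * ρ ^ i) + ‖w‖ * (‖P.coeff (i + 1)‖ * ρ ^ (i + 1)) := by ring
        _ ≤ ‖w‖ * ((s.card.choose i) * ‖P.coeff 0‖) +
            ‖w‖ * ((s.card.choose (i + 1)) * ‖P.coeff 0‖) := by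
            refine add_le_add ?_ (mul_le_mul_of_nonneg_left i2 (norm_nonneg _))
            exact mul_le_mul hw i1 (by positivity) (norm_nonneg _)
        _ = _ := by ring

/-- Coefficients of a polynomial with large roots.
Sketch: write `f = lc ∏ (X - w_j)`, induction on the multiset of roots with Pascal's rule:
`‖coeff_i ((X - w) g)‖ ≤ ‖g_(i-1)‖ + ‖w‖ ‖g_i‖`. -/
theorem coeff_bound {f : ℂ[X]} {ρ : ℝ} (hρ : 0 < ρ) (h : ∀ w ∈ f.roots, ρ ≤ ‖w‖) (i : ℕ) :
    ‖f.coeff i‖ * ρ ^ i ≤ (f.natDegree.choose i) * ‖f.coeff 0‖ := by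
  have h1 := (IsAlgClosed.splits f).eq_prod_roots
  have h2 := gam_coeff_prod f.roots hρ h i
  rw [IsAlgClosed.card_roots_eq_natDegree] at h2
  have h3 : ∀ j, f.coeff j =
      f.leadingCoeff * ((f.roots.map (fun w => X - C w)).prod).coeff j := by
    intro j
    conv_lhs => rw [h1]
    rw [coeff_C_mul]
  rw [h3 i, h3 0, norm_mul, norm_mul]
  calc ‖f.leadingCoeff‖ * ‖((f.roots.map (fun w => X - C w)).prod).coeff i‖ * ρ ^ i
      = ‖f.leadingCoeff‖ * (‖((f.roots.map (fun w => X - C w)).prod).coeff i‖ * ρ ^ i) := by ring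
    _ ≤ ‖f.leadingCoeff‖ * ((f.natDegree.choose i) *
        ‖((f.roots.map (fun w => X - C w)).prod).coeff 0‖) :=
        mul_le_mul_of_nonneg_left h2 (norm_nonneg _)
    _ = _ := by ring

end Pool.Agent.BernOne
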