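import Pool.Agent.BernOne.Defs
import Pool.Agent.MR.AExp
import Pool.Agent.MR.AMvt

set_option autoImplicit false

open Finset MeasureTheory

namespace Pool.Agent.BernOne

open Pool.Agent.MR

lemma ks_dp (a b : ℕ) (t : ℝ) : dp (Ico a b) (fun _ => 1) t = ∑ n ∈ Ico a b, ni n t := by
  unfold dp
  simp

/-- from `log_weyl` to `ni` -/
lemma ks_weyl (C : ℝ) : ∃ η X0 : ℝ, 0 < η ∧ η ≤ 1 ∧ 1 ≤ X0 ∧ ∀ X : ℝ, X0 ≤ X →
    ∀ t : ℝ, X ^ (1 / 16 : ℝ) ≤ |t| → |t| ≤ X ^ C →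
    ∀ a b : ℕ, X ≤ a → (b : ℝ) ≤ 4 * X → ‖∑ n ∈ Ico a b, ni n t‖ ≤ X ^ (1 - η) := by
  obtain ⟨η, X0, h1, h2, h3, h4⟩ := log_weyl C
  refine ⟨η, X0, h1, h2, h3, fun X hX t ht1 ht2 a b ha hb => ?_⟩
  have := h4 X hX 0 le_rfl zero_le_one (-t) (by rwa [abs_neg]) (by rwa [abs_neg]) a b ha hb
  refine le_trans (le_of_eq ?_) this
  congr 1
  apply sum_congr rfl
  intro n _
  unfold ni
  congr 1
  rw [add_zero, neg_mul t (Real.log (n : ℝ)), Complex.ofReal_neg]

/-- pieces of ratio four -/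
lemma ks_pieces {C η X0 : ℝ} (hη1 : η ≤ 1)
    (h : ∀ X : ℝ, X0 ≤ X → ∀ t : ℝ, X ^ (1 / 16 : ℝ) ≤ |t| → |t| ≤ X ^ C →
      ∀ a b : ℕ, X ≤ a → (b : ℝ) ≤ 4 * X → ‖∑ n ∈ Ico a b, ni n t‖ ≤ X ^ (1 - η))
    (hC : 0 ≤ C) {M t : ℝ} (hM : X0 ≤ M) (hM1 : 1 ≤ M) (ht : |t| ≤ M ^ C) (a : ℕ) (ha : M ≤ a)
    (r : ℕ) (hr : (4 ^ r * M) ^ (1 / 16 : ℝ) ≤ |t|) :
    ∀ s ≤ r, ∀ b : ℕ, (b : ℝ) ≤ 4 ^ s * M →
      ‖∑ n ∈ Ico a b, ni n t‖ ≤ s * ((4 ^ r * M) ^ (1 - η) + 1) := by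
  intro s
  induction s with
  | zero =>
    intro _ b hb
    have : b ≤ a := by
      have : (b : ℝ) ≤ a := by
        rw [pow_zero, one_mul] at hb
        exact hb.trans ha
      exact_mod_cast this
    rw [Ico_eq_empty (by omega)]
    simp
  | succ s ih =>
    intro hs b hb
    have hpos : (0 : ℝ) ≤ (4 ^ r * M) ^ (1 - η) + 1 := by positivity
    have h4 : (1 : ℝ) ≤ 4 ^ s := one_le_pow₀ (by norm_num)
    have hX1 : M ≤ 4 ^ s * M := le_mul_of_one_le_left (by linarith) h4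
    have hXr : 4 ^ s * M ≤ 4 ^ r * M := by
      apply mul_le_mul_of_nonneg_right _ (by linarith)
      exact pow_le_pow_right₀ (by norm_num) (by omega)
    have hstep : ∀ c : ℕ, 4 ^ s * M ≤ c → ‖∑ n ∈ Ico c b, ni n t‖ ≤ (4 ^ r * M) ^ (1 - η) := by
      intro c hc
      refine (h (4 ^ s * M) (hM.trans hX1) t ?_ ?_ c b hc ?_).trans ?_
      · refine le_trans ?_ hr
        exact Real.rpow_le_rpow (by positivity) hXr (by norm_num)
      · exact ht.trans (Real.rpow_le_rpow (by positivity) hX1 hC)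
      · rw [pow_succ] at hb
        linarith
      · exact Real.rpow_le_rpow (by positivity) hXr (by linarith)
    have hcast : (((s + 1 : ℕ) : ℝ)) * ((4 ^ r * M) ^ (1 - η) + 1) =
        s * ((4 ^ r * M) ^ (1 - η) + 1) + ((4 ^ r * M) ^ (1 - η) + 1) := by push_cast; ring
    rw [hcast]
    have hs0 : (0 : ℝ) ≤ s * ((4 ^ r * M) ^ (1 - η) + 1) := by positivity
    set c : ℕ := ⌈4 ^ s * M⌉₊ with hc
    have hc1 : 4 ^ s * M ≤ c := Nat.le_ceil _
    have hcpos : 0 < c := Nat.ceil_pos.2 (by positivity)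
    have hc2 : ((c - 1 : ℕ) : ℝ) ≤ 4 ^ s * M := by
      have := Nat.ceil_lt_add_one (show (0 : ℝ) ≤ 4 ^ s * M by positivity)
      rw [Nat.cast_sub (by omega)]
      push_cast
      linarith
    by_cases hbc : b < c
    · have hb' : (b : ℝ) ≤ 4 ^ s * M := by
        refine le_trans ?_ hc2
        exact_mod_cast (show b ≤ c - 1 by omega)
      have := ih (by omega) b hb'
      linarith
    · by_cases hac : c ≤ a
      · have := hstep a (by exact hc1.trans (by exact_mod_cast hac))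
        linarith
      · -- a < c ≤ b
        have e1 : ∑ n ∈ Ico a b, ni n t = ∑ n ∈ Ico a c, ni n t + ∑ n ∈ Ico c b, ni n t :=
          (sum_Ico_consecutive _ (by omega) (by omega)).symm
        have e2 : ∑ n ∈ Ico a c, ni n t = ∑ n ∈ Ico a (c - 1), ni n t + ni (c - 1) t := by
          have : c = (c - 1) + 1 := by omega
          conv_lhs => rw [this]
          rw [sum_Ico_succ_top (by omega)]
        have h1 := ih (by omega) (c - 1) hc2
        have h2 := hstep c hc1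
        rw [e1, e2]
        have h3 := norm_ni (c - 1) t
        calc ‖∑ n ∈ Ico a (c - 1), ni n t + ni (c - 1) t + ∑ n ∈ Ico c b, ni n t‖
            ≤ ‖∑ n ∈ Ico a (c - 1), ni n t‖ + ‖ni (c - 1) t‖ + ‖∑ n ∈ Ico c b, ni n t‖ :=
              norm_add₃_le
          _ ≤ _ := by rw [h3]; linarith

/-- one step of the comparison with the integral -/
lemma ks_step (t : ℝ) (n : ℕ) (hn : 1 ≤ n) :
    ‖((n + 1 : ℕ) : ℂ) * ni (n + 1) t - (n : ℂ) * ni n t - (1 - t * Complex.I) * ni n t‖ ≤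
      ‖(1 - t * Complex.I : ℂ)‖ * |t| / n := by
  set f : ℝ → ℂ := fun x => (x : ℂ) * Complex.exp (-((t * Real.log x : ℝ) : ℂ) * Complex.I) -
    (1 - t * Complex.I) * ni n t * x with hf
  have hn0 : (0 : ℝ) < n := by exact_mod_cast hn
  have hder : ∀ x ∈ Set.Icc (n : ℝ) (n + 1), HasDerivWithinAt f
      ((1 - t * Complex.I) * (Complex.exp (-((t * Real.log x : ℝ) : ℂ) * Complex.I) - ni n t))
      (Set.Icc (n : ℝ) (n + 1)) x := by
    intro x hx
    have hx0 : 0 < x := lt_of_lt_of_le hn0 hx.1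
    have hx0' : (x : ℂ) ≠ 0 := by exact_mod_cast hx0.ne'
    have h1 : HasDerivAt (fun x : ℝ => ((t * Real.log x : ℝ) : ℂ)) ((t * x⁻¹ : ℝ) : ℂ) x :=
      ((Real.hasDerivAt_log hx0.ne').const_mul t).ofReal_comp
    have h2 : HasDerivAt (fun x : ℝ => -((t * Real.log x : ℝ) : ℂ) * Complex.I)
        (-((t * x⁻¹ : ℝ) : ℂ) * Complex.I) x := (h1.neg).mul_const _
    have h3 := h2.cexp
    have h4 : HasDerivAt (fun x : ℝ => (x : ℂ)) 1 x := by
      simpa using (hasDerivAt_id x).ofReal_comp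
    have h5 := (h4.mul h3).sub (h4.const_mul ((1 - t * Complex.I) * ni n t))
    refine (h5.congr_deriv ?_).hasDerivWithinAt
    push_cast
    field_simp
    ring
  have hbd : ∀ x ∈ Set.Icc (n : ℝ) (n + 1),
      ‖(1 - t * Complex.I) * (Complex.exp (-((t * Real.log x : ℝ) : ℂ) * Complex.I) - ni n t)‖ ≤
        ‖(1 - t * Complex.I : ℂ)‖ * |t| / n := by
    intro x hx
    rw [norm_mul, mul_div_assoc]
    apply mul_le_mul_of_nonneg_left _ (norm_nonneg _)
    have hx0 : 0 < x := lt_of_lt_of_le hn0 hx.1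
    have e1 : Complex.exp (-((t * Real.log x : ℝ) : ℂ) * Complex.I) - ni n t =
        ni n t * (Complex.exp (Complex.I * ((-(t * (Real.log x - Real.log n)) : ℝ) : ℂ)) - 1) := by
      rw [mul_sub, mul_one]
      congr 1
      unfold ni
      rw [← Complex.exp_add]
      congr 1
      push_cast
      ring
    rw [e1, norm_mul, norm_ni, one_mul]
    refine (Real.norm_exp_I_mul_ofReal_sub_one_le).trans ?_
    rw [Real.norm_eq_abs, abs_neg, abs_mul, div_eq_mul_inv]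
    apply mul_le_mul_of_nonneg_left _ (abs_nonneg _)
    have e2 : Real.log x - Real.log n = Real.log (x / n) := (Real.log_div hx0.ne' hn0.ne').symm
    have h6 : 1 ≤ x / n := by rw [le_div_iff₀ hn0]; linarith [hx.1]
    rw [e2, abs_of_nonneg (Real.log_nonneg h6)]
    have h7 := Real.log_le_sub_one_of_pos (show 0 < x / n by positivity)
    have h8 : x / n ≤ 1 + (n : ℝ)⁻¹ := by
      rw [div_le_iff₀ hn0]
      have : (1 + (n : ℝ)⁻¹) * n = n + 1 := by field_simp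
      rw [this]; exact hx.2
    linarith
  have hmv := (convex_Icc (n : ℝ) (n + 1)).norm_image_sub_le_of_norm_hasDerivWithin_le hder hbd
    (Set.left_mem_Icc.2 (by linarith)) (Set.right_mem_Icc.2 (by linarith))
  have e3 : f ((n : ℝ) + 1) - f n = ((n + 1 : ℕ) : ℂ) * ni (n + 1) t - (n : ℂ) * ni n t -
      (1 - t * Complex.I) * ni n t := by
    simp only [hf]
    unfold ni
    push_cast
    ring
  rw [e3] at hmv
  simpa using hmv

/-- comparison with the integral -/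
lemma ks_telescope (t : ℝ) (ht : 0 < |t|) (a b : ℕ) (ha : 1 ≤ a) :
    ‖∑ n ∈ Ico a b, ni n t‖ ≤ 2 * b / |t| + |t| * (b / a) := by
  have ha0 : (0 : ℝ) < a := by exact_mod_cast ha
  rcases le_or_gt b a with hba | hab
  · rw [Ico_eq_empty (by omega)]
    simp only [sum_empty, norm_zero]
    positivity
  · set w : ℂ := 1 - t * Complex.I with hw
    have hwt : |t| ≤ ‖w‖ := by
      have := Complex.abs_im_le_norm w
      have h2 : w.im = -t := by simp [hw]
      rwa [h2, abs_neg] at this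
    have hw0 : 0 < ‖w‖ := lt_of_lt_of_le ht hwt
    have h1 : ∑ n ∈ Ico a b, (((n + 1 : ℕ) : ℂ) * ni (n + 1) t - (n : ℂ) * ni n t) =
        (b : ℂ) * ni b t - (a : ℂ) * ni a t :=
      sum_Ico_sub (fun n : ℕ => (n : ℂ) * ni n t) hab.le
    have h2 : w * ∑ n ∈ Ico a b, ni n t = (b : ℂ) * ni b t - (a : ℂ) * ni a t -
        ∑ n ∈ Ico a b, (((n + 1 : ℕ) : ℂ) * ni (n + 1) t - (n : ℂ) * ni n t - w * ni n t) := by
      rw [sum_sub_distrib, h1, mul_sum]
      ring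
    have h3 : ‖∑ n ∈ Ico a b, (((n + 1 : ℕ) : ℂ) * ni (n + 1) t - (n : ℂ) * ni n t - w * ni n t)‖ ≤
        ‖w‖ * |t| * (b / a) := by
      refine (norm_sum_le _ _).trans ?_
      have : ∀ n ∈ Ico a b, ‖((n + 1 : ℕ) : ℂ) * ni (n + 1) t - (n : ℂ) * ni n t - w * ni n t‖ ≤
          ‖w‖ * |t| / a := by
        intro n hn
        rw [mem_Ico] at hn
        refine (ks_step t n (by omega)).trans ?_
        apply div_le_div_of_nonneg_left (by positivity) ha0
        exact_mod_cast hn.1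
      refine (sum_le_sum this).trans ?_
      rw [sum_const, nsmul_eq_mul, Nat.card_Ico]
      have : ((b - a : ℕ) : ℝ) ≤ b := by exact_mod_cast Nat.sub_le b a
      calc ((b - a : ℕ) : ℝ) * (‖w‖ * |t| / a) ≤ b * (‖w‖ * |t| / a) :=
            mul_le_mul_of_nonneg_right this (by positivity)
        _ = _ := by ring
    have h4 : ‖w‖ * ‖∑ n ∈ Ico a b, ni n t‖ ≤ 2 * b + ‖w‖ * |t| * (b / a) := by
      rw [← norm_mul, h2]
      refine (norm_sub_le _ _).trans ?_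
      have h5 : ‖(b : ℂ) * ni b t - (a : ℂ) * ni a t‖ ≤ 2 * b := by
        refine (norm_sub_le _ _).trans ?_
        rw [norm_mul, norm_mul, norm_ni, norm_ni, Complex.norm_natCast, Complex.norm_natCast]
        have : (a : ℝ) ≤ b := by exact_mod_cast hab.le
        linarith
      linarith
    have h6 : ‖∑ n ∈ Ico a b, ni n t‖ ≤ 2 * b / ‖w‖ + |t| * (b / a) := by
      have : ‖∑ n ∈ Ico a b, ni n t‖ ≤ (2 * b + ‖w‖ * |t| * (b / a)) / ‖w‖ := by
        rw [le_div_iff₀ hw0, mul_comm]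
        exact h4
      refine this.trans (le_of_eq ?_)
      field_simp
    refine h6.trans ?_
    have : 2 * (b : ℝ) / ‖w‖ ≤ 2 * b / |t| :=
      div_le_div_of_nonneg_left (by positivity) ht hwt
    linarith

/-- Power saving for `∑ k^{-it}` over `[a, b)`. -/
theorem k_bound (C R : ℝ) (hR : 1 ≤ R) : ∃ η M0 : ℝ, 0 < η ∧ η ≤ 1 ∧ 1 ≤ M0 ∧ ∀ M : ℝ, M0 ≤ M →
    ∀ t : ℝ, M ^ (1 / 50 : ℝ) ≤ |t| → |t| ≤ M ^ C → ∀ a b : ℕ, M ≤ a → (b : ℝ) ≤ R * M →
      ‖dp (Ico a b) (fun _ => 1) t‖ ≤ M ^ (1 - η) := by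
  set C' : ℝ := max C 0 with hC'
  obtain ⟨η, X0, hη0, hη1, hX0, hW⟩ := ks_weyl C'
  obtain ⟨r, hr⟩ := pow_unbounded_of_one_lt R (show (1 : ℝ) < 4 by norm_num)
  -- large M conditions
  obtain ⟨M1, hM1'⟩ := Filter.eventually_atTop.1 (Pool.Agent.H33.ev_rpow
    ((4 ^ r : ℝ) ^ (1 / 16 : ℝ)) (show (1 / 16 : ℝ) < 1 / 15 by norm_num))
  obtain ⟨M2, hM2'⟩ := Filter.eventually_atTop.1 (Pool.Agent.H33.ev_rpow
    (3 * R) (show (49 / 50 : ℝ) < 99 / 100 by norm_num))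
  obtain ⟨M3, hM3'⟩ := Filter.eventually_atTop.1 (Pool.Agent.H33.ev_rpow
    (r * ((4 ^ r : ℝ) ^ (1 - η) + 1)) (show (1 - η : ℝ) < 1 - η / 2 by linarith))
  refine ⟨min (η / 2) (1 / 100), max (max X0 M1) (max M2 M3), by positivity,
    (min_le_right _ _).trans (by norm_num), le_max_of_le_left (le_max_of_le_left hX0), ?_⟩
  intro M hM t ht1 ht2 a b ha hb
  have hMX : X0 ≤ M := (le_max_left _ _).trans ((le_max_left _ _).trans hM)
  have hMM1 : M1 ≤ M := (le_max_right _ _).trans ((le_max_left _ _).trans hM)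
  have hMM2 : M2 ≤ M := (le_max_left _ _).trans ((le_max_right _ _).trans hM)
  have hMM3 : M3 ≤ M := (le_max_right _ _).trans ((le_max_right _ _).trans hM)
  have hM1 : 1 ≤ M := hX0.trans hMX
  rw [ks_dp]
  have ha1 : 1 ≤ a := by
    have : (1 : ℝ) ≤ a := hM1.trans ha
    exact_mod_cast this
  have ha0 : (0 : ℝ) < a := by exact_mod_cast ha1
  rcases le_or_gt (M ^ (1 / 15 : ℝ)) |t| with ht | ht
  · have h1 : (4 ^ r * M) ^ (1 / 16 : ℝ) ≤ |t| := by
      rw [Real.mul_rpow (by positivity) (by linarith)]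
      exact (hM1' M hMM1).trans ht
    have h2 : |t| ≤ M ^ C' := ht2.trans (Real.rpow_le_rpow_of_exponent_le hM1 (le_max_left _ _))
    have h3 := ks_pieces hη1 hW (le_max_right _ _) hMX hM1 h2 a ha r h1 r le_rfl b (by
      refine hb.trans ?_
      exact mul_le_mul_of_nonneg_right hr.le (by linarith))
    refine h3.trans ?_
    rw [Real.mul_rpow (by positivity) (by linarith)]
    have h4 : (1 : ℝ) ≤ M ^ (1 - η) := Real.one_le_rpow hM1 (by linarith)
    calc (r : ℝ) * ((4 ^ r : ℝ) ^ (1 - η) * M ^ (1 - η) + 1)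
        ≤ r * ((4 ^ r : ℝ) ^ (1 - η) * M ^ (1 - η) + M ^ (1 - η)) := by gcongr
      _ = r * ((4 ^ r : ℝ) ^ (1 - η) + 1) * M ^ (1 - η) := by ring
      _ ≤ M ^ (1 - η / 2) := hM3' M hMM3
      _ ≤ _ := Real.rpow_le_rpow_of_exponent_le hM1 (by linarith [min_le_left (η / 2) (1 / 100 : ℝ)])
  · have ht0 : 0 < |t| := lt_of_lt_of_le (by positivity) ht1
    refine (ks_telescope t ht0 a b ha1).trans ?_
    have h1 : 2 * (b : ℝ) / |t| ≤ 2 * R * M ^ (49 / 50 : ℝ) := by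
      rw [div_le_iff₀ ht0]
      have : M = M ^ (49 / 50 : ℝ) * M ^ (1 / 50 : ℝ) := by
        rw [← Real.rpow_add (by linarith)]
        norm_num
      calc 2 * (b : ℝ) ≤ 2 * (R * M) := by linarith
        _ = 2 * R * M ^ (49 / 50 : ℝ) * M ^ (1 / 50 : ℝ) := by rw [mul_assoc, ← this]; ring
        _ ≤ _ := by gcongr
    have h2 : |t| * ((b : ℝ) / a) ≤ R * M ^ (49 / 50 : ℝ) := by
      have h3 : (b : ℝ) / a ≤ R := by
        rw [div_le_iff₀ ha0]
        exact hb.trans (mul_le_mul_of_nonneg_left ha (by linarith))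
      have h4 : |t| ≤ M ^ (49 / 50 : ℝ) :=
        ht.le.trans (Real.rpow_le_rpow_of_exponent_le hM1 (by norm_num))
      calc |t| * ((b : ℝ) / a) ≤ M ^ (49 / 50 : ℝ) * R := by gcongr
        _ = _ := mul_comm _ _
    calc 2 * (b : ℝ) / |t| + |t| * (b / a) ≤ 3 * R * M ^ (49 / 50 : ℝ) := by linarith
      _ ≤ M ^ (99 / 100 : ℝ) := hM2' M hMM2
      _ ≤ _ := Real.rpow_le_rpow_of_exponent_le hM1 (by linarith [min_le_right (η / 2) (1 / 100 : ℝ)])

end Pool.Agent.BernOne
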