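import Pool.Agent.BernOne.Defs

set_option autoImplicit false

open Finset MeasureTheory

namespace Pool.Agent.BernOne

open Pool.Agent.MR

theorem kn_pos (θ : ℝ) (hθ : 0 < θ) (x : ℝ) : 0 < kn θ x := by
  unfold kn
  positivity

theorem kn_mono (θ : ℝ) (hθ : 0 < θ) {x y : ℝ} (h : |x| ≤ |y|) : kn θ y ≤ kn θ x := by
  unfold kn
  have h2 : x ^ 2 ≤ y ^ 2 := sq_le_sq.mpr h
  apply div_le_div_of_nonneg_right _ (by positivity)
  apply Real.exp_le_exp.mpr
  apply div_le_div_of_nonneg_right _ (by positivity)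
  linarith

theorem kn_le (θ : ℝ) (hθ : 0 < θ) (x : ℝ) : kn θ x ≤ 1 / (2 * θ) := by
  unfold kn
  have hpi : (2 : ℝ) ≤ √(2 * Real.pi) := by
    apply Real.le_sqrt_of_sq_le
    have := Real.pi_gt_three
    linarith
  rw [div_le_div_iff₀ (by positivity) (by positivity)]
  have h1 : Real.exp (-x ^ 2 / (2 * θ ^ 2)) ≤ 1 := by
    apply Real.exp_le_one_iff.mpr
    apply div_nonpos_of_nonpos_of_nonneg
    · nlinarith [sq_nonneg x]
    · positivity
  calc Real.exp (-x ^ 2 / (2 * θ ^ 2)) * (2 * θ) ≤ 1 * (θ * √(2 * Real.pi)) := by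
        apply mul_le_mul h1 _ (by positivity) (by norm_num)
        nlinarith
    _ = _ := rfl

theorem kn_exp (θ : ℝ) (hθ : 0 < θ) (w s : ℝ) :
    |Real.exp s| • kn θ (w - Real.log (Real.exp s)) =
      Real.exp (w + θ ^ 2 / 2) / (θ * √(2 * Real.pi)) *
        Real.exp (-(1 / (2 * θ ^ 2)) * (s - (w + θ ^ 2)) ^ 2) := by
  rw [abs_of_pos (Real.exp_pos s), Real.log_exp, smul_eq_mul]
  unfold kn
  have h1 : Real.exp s * Real.exp (-(w - s) ^ 2 / (2 * θ ^ 2)) = Real.exp (w + θ ^ 2 / 2) *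
      Real.exp (-(1 / (2 * θ ^ 2)) * (s - (w + θ ^ 2)) ^ 2) := by
    rw [← Real.exp_add, ← Real.exp_add]
    congr 1
    field_simp
    ring
  rw [mul_div_assoc', h1]
  ring

theorem kn_integrable (θ : ℝ) (hθ : 0 < θ) (w : ℝ) :
    IntegrableOn (fun x : ℝ => kn θ (w - Real.log x)) (Set.Ioi 0) := by
  have himg : Real.exp '' Set.univ = Set.Ioi 0 := by
    rw [Set.image_univ, Real.range_exp]
  rw [← himg]
  rw [integrableOn_image_iff_integrableOn_abs_deriv_smul MeasurableSet.univ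
    (fun x _ => (Real.hasDerivAt_exp x).hasDerivWithinAt) (Real.exp_injective.injOn)]
  simp_rw [kn_exp θ hθ w]
  rw [integrableOn_univ]
  apply Integrable.const_mul
  exact (integrable_exp_neg_mul_sq (by positivity)).comp_sub_right (w + θ ^ 2)

theorem kn_integral (θ : ℝ) (hθ : 0 < θ) (w : ℝ) :
    ∫ x in Set.Ioi (0 : ℝ), kn θ (w - Real.log x) = Real.exp (w + θ ^ 2 / 2) := by
  have himg : Real.exp '' Set.univ = Set.Ioi 0 := by
    rw [Set.image_univ, Real.range_exp]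
  rw [← himg]
  rw [integral_image_eq_integral_abs_deriv_smul MeasurableSet.univ
    (fun x _ => (Real.hasDerivAt_exp x).hasDerivWithinAt) (Real.exp_injective.injOn)]
  simp_rw [kn_exp θ hθ w]
  rw [Measure.restrict_univ, integral_const_mul,
    integral_sub_right_eq_self (fun x => Real.exp (-(1 / (2 * θ ^ 2)) * x ^ 2)) (w + θ ^ 2),
    integral_gaussian]
  have h1 : √(Real.pi / (1 / (2 * θ ^ 2))) = θ * √(2 * Real.pi) := by
    have : Real.pi / (1 / (2 * θ ^ 2)) = θ ^ 2 * (2 * Real.pi) := by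
      field_simp
    rw [this, Real.sqrt_mul (by positivity), Real.sqrt_sq hθ.le]
  rw [h1]
  have : θ * √(2 * Real.pi) ≠ 0 := by positivity
  field_simp

/-- Sum of the Gaussian kernel over the integers of `[M1, M2)`.
Sketch: `x ↦ kn θ (w - log x)` is unimodal on `(0, ∞)`, maximum `1/(θ √(2π)) ≤ 1/θ`, so the sum is
at most the integral plus the maximum; `∫_0^∞ kn θ (w - log x) dx = ∫ kn θ (w - s) e^s ds
= exp (w + θ²/2)`. -/
theorem kn_sum (θ : ℝ) (hθ : 0 < θ) (M1 M2 : ℕ) (hM : 1 ≤ M1) (w : ℝ) :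
    ∑ k ∈ Ico M1 M2, kn θ (w - Real.log k) ≤ Real.exp (w + θ ^ 2 / 2) + 1 / θ := by
  set f : ℝ → ℝ := fun x => kn θ (w - Real.log x) with hf
  have hf0 : ∀ x, 0 ≤ f x := fun x => (kn_pos θ hθ _).le
  have hint := kn_integrable θ hθ w
  set N := ⌊Real.exp w⌋₊ with hN
  have hNle : (N : ℝ) ≤ Real.exp w := Nat.floor_le (Real.exp_pos w).le
  have hNlt : Real.exp w < N + 1 := Nat.lt_floor_add_one _
  set M := max M2 (N + 2) with hMdef
  have hM2 : M2 ≤ M := le_max_left _ _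
  have hMN : N + 2 ≤ M := le_max_right _ _
  have hsub : Ico M1 M2 ⊆ (Ico M1 N ∪ {N, N + 1}) ∪ Ico (N + 2) M := by
    intro k hk
    rw [Finset.mem_Ico] at hk
    rw [Finset.mem_union, Finset.mem_union, Finset.mem_Ico, Finset.mem_Ico, Finset.mem_insert,
      Finset.mem_singleton]
    omega
  have hsum : ∑ k ∈ Ico M1 M2, f k ≤
      ∑ k ∈ Ico M1 N, f k + (f N + f ((N + 1 : ℕ) : ℝ)) + ∑ k ∈ Ico (N + 2) M, f k := by
    refine (Finset.sum_le_sum_of_subset_of_nonneg hsub (fun i _ _ => hf0 _)).trans ?_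
    have h1 : ∀ s t : Finset ℕ, ∑ k ∈ s ∪ t, f k ≤ ∑ k ∈ s, f k + ∑ k ∈ t, f k := by
      intro s t
      rw [← Finset.sum_union_inter]
      linarith [Finset.sum_nonneg (s := s ∩ t) (f := fun k : ℕ => f k) (fun i _ => hf0 _)]
    refine (h1 _ _).trans ?_
    have h2 := h1 (Ico M1 N) {N, N + 1}
    rw [Finset.sum_pair (by omega : N ≠ N + 1)] at h2
    linarith
  -- left part
  have hleft : ∃ J : Set ℝ, MeasurableSet J ∧ J ⊆ Set.Ioc 0 (N : ℝ) ∧
      ∑ k ∈ Ico M1 N, f k ≤ ∫ x in J, f x := by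
    by_cases hMN1 : M1 ≤ N
    · refine ⟨Set.Ioc (M1 : ℝ) N, measurableSet_Ioc, ?_, ?_⟩
      · intro x hx
        have : (0 : ℝ) ≤ M1 := Nat.cast_nonneg _
        exact ⟨lt_of_le_of_lt this hx.1, hx.2⟩
      · rw [← intervalIntegral.integral_of_le (by exact_mod_cast hMN1)]
        apply MonotoneOn.sum_le_integral_Ico hMN1
        intro x hx y hy hxy
        have hM1 : (1 : ℝ) ≤ M1 := by exact_mod_cast hM
        have hx0 : 0 < x := lt_of_lt_of_le (by linarith) hx.1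
        have hy0 : 0 < y := lt_of_lt_of_le (by linarith) hy.1
        have h1 : Real.log x ≤ Real.log y := Real.log_le_log hx0 hxy
        have h2 : Real.log y ≤ w := by
          rw [Real.log_le_iff_le_exp hy0]
          exact hy.2.trans hNle
        apply kn_mono θ hθ
        rw [abs_of_nonneg (by linarith), abs_of_nonneg (by linarith)]
        linarith
    · refine ⟨∅, MeasurableSet.empty, Set.empty_subset _, ?_⟩
      rw [Finset.Ico_eq_empty (by omega), Finset.sum_empty, Measure.restrict_empty,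
        integral_zero_measure]
  obtain ⟨J, hJm, hJs, hJ⟩ := hleft
  -- right part
  have hright : ∑ k ∈ Ico (N + 2) M, f k ≤ ∫ x in Set.Ioc ((N + 1 : ℕ) : ℝ) ((M - 1 : ℕ) : ℝ), f x := by
    rw [← intervalIntegral.integral_of_le (by exact_mod_cast (by omega : N + 1 ≤ M - 1))]
    have h1 : ∑ k ∈ Ico (N + 2) M, f k = ∑ i ∈ Ico (N + 1) (M - 1), f ((i + 1 : ℕ) : ℝ) := by
      rw [Finset.sum_Ico_add' (fun k : ℕ => f k) (N + 1) (M - 1) 1]
      rw [show M - 1 + 1 = M by omega]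
    rw [h1]
    apply AntitoneOn.sum_le_integral_Ico (by omega)
    intro x hx y hy hxy
    have hN1 : Real.exp w ≤ ((N + 1 : ℕ) : ℝ) := by push_cast; exact hNlt.le
    have hx0 : 0 < x := lt_of_lt_of_le (Real.exp_pos w) (hN1.trans hx.1)
    have h1 : Real.log x ≤ Real.log y := Real.log_le_log hx0 hxy
    have h2 : w ≤ Real.log x := by
      rw [Real.le_log_iff_exp_le hx0]
      exact hN1.trans hx.1
    apply kn_mono θ hθ
    rw [abs_of_nonpos (by linarith), abs_of_nonpos (by linarith)]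
    linarith
  have hdisj : Disjoint J (Set.Ioc ((N + 1 : ℕ) : ℝ) ((M - 1 : ℕ) : ℝ)) := by
    rw [Set.disjoint_left]
    intro x hx hx2
    have h1 := (hJs hx).2
    have h2 := hx2.1
    push_cast at h2
    linarith
  have hJ0 : J ⊆ Set.Ioi 0 := fun x hx => (hJs hx).1
  have hR0 : Set.Ioc ((N + 1 : ℕ) : ℝ) ((M - 1 : ℕ) : ℝ) ⊆ Set.Ioi 0 := by
    intro x hx
    have : (0 : ℝ) ≤ ((N + 1 : ℕ) : ℝ) := Nat.cast_nonneg _
    exact lt_of_le_of_lt this hx.1
  have htot : (∫ x in J, f x) + ∫ x in Set.Ioc ((N + 1 : ℕ) : ℝ) ((M - 1 : ℕ) : ℝ), f x ≤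
      Real.exp (w + θ ^ 2 / 2) := by
    rw [← setIntegral_union hdisj measurableSet_Ioc (hint.mono_set hJ0) (hint.mono_set hR0),
      ← kn_integral θ hθ w]
    apply setIntegral_mono_set hint
    · exact Filter.Eventually.of_forall (fun x => hf0 x)
    · exact (Set.union_subset hJ0 hR0).eventuallyLE
  have hmax : f N + f ((N + 1 : ℕ) : ℝ) ≤ 1 / θ := by
    have h1 := kn_le θ hθ (w - Real.log (N : ℝ))
    have h2 := kn_le θ hθ (w - Real.log ((N + 1 : ℕ) : ℝ))
    have h3 : 1 / (2 * θ) + 1 / (2 * θ) = 1 / θ := by field_simp; norm_num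
    simp only [hf]
    linarith
  linarith

/-- The smoothed sum at the long scale.
Sketch: for fixed `p, q` apply `kn_sum` with `w = u - log ((p-1) q)`, `θ = M1^(-1/30)`;
`e^w = e^u / ((p-1) q)` and `e^w ≥ (X/R) / (2^(a+1) * 2y) ≥ M1 / (4 R²)`, so
`1/θ = M1^(1/30) ≤ (δ/2) e^w` and `exp (θ²/2) ≤ 1 + δ/2` for `M1 ≥ M0(R, δ)`. -/
theorem long_scale (R δ : ℝ) (hR : 1 ≤ R) (hδ : 0 < δ) : ∃ M0 : ℝ, 1 ≤ M0 ∧
    ∀ a M1 M2 : ℕ, M0 ≤ M1 → ∀ (S : Finset ℕ) (y X : ℝ), 0 < y →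
      (∀ q ∈ S, y ≤ (q : ℝ) ∧ (q : ℝ) ≤ 2 * y) → 2 ^ a * y * M1 ≤ R * X →
      ∀ u : ℝ, X ≤ R * Real.exp u →
        Psi (PU a) S (Ico M1 M2) ((M1 : ℝ) ^ (-(1 / 30) : ℝ)) u ≤
          (1 + δ) * Real.exp u * (∑ p ∈ PU a, Real.log p / ((p : ℝ) - 1)) * rs S := by
  -- choice of `M0`
  have hex : ∃ M0 : ℝ, 1 ≤ M0 ∧ ∀ x : ℝ, M0 ≤ x →
      Real.exp ((x ^ (-(1 / 30) : ℝ)) ^ 2 / 2) ≤ 1 + δ / 2 ∧
      1 / (x ^ (-(1 / 30) : ℝ)) ≤ δ / 2 * (x / (4 * R ^ 2)) := by
    have h1 : Filter.Tendsto (fun x : ℝ => Real.exp ((x ^ (-(1 / 30) : ℝ)) ^ 2 / 2)) Filter.atTop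
        (nhds 1) := by
      have h2 : Filter.Tendsto (fun x : ℝ => x ^ (-(1 / 30) : ℝ)) Filter.atTop (nhds 0) :=
        tendsto_rpow_neg_atTop (by norm_num)
      have h3 : Filter.Tendsto (fun x : ℝ => (x ^ (-(1 / 30) : ℝ)) ^ 2 / 2) Filter.atTop (nhds 0) := by
        have := (h2.pow 2).div_const 2
        simpa using this
      have h4 := (Real.continuous_exp.tendsto 0).comp h3
      rw [Real.exp_zero] at h4
      exact h4
    have e1 := h1.eventually (eventually_le_nhds (show (1 : ℝ) < 1 + δ / 2 by linarith))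
    have h5 : Filter.Tendsto (fun x : ℝ => x ^ ((29 : ℝ) / 30)) Filter.atTop Filter.atTop :=
      tendsto_rpow_atTop (by norm_num)
    have e2 := h5.eventually_ge_atTop (8 * R ^ 2 / δ)
    obtain ⟨M0, hM0⟩ := Filter.eventually_atTop.mp (e1.and e2)
    refine ⟨max M0 1, le_max_right _ _, ?_⟩
    intro x hx
    have hx1 : 1 ≤ x := (le_max_right _ _).trans hx
    have hx0 : 0 < x := by linarith
    obtain ⟨g1, g2⟩ := hM0 x ((le_max_left _ _).trans hx)
    refine ⟨g1, ?_⟩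
    rw [div_le_iff₀ hδ] at g2
    have hR0 : 0 < R := by linarith
    have h6 : 1 / (x ^ (-(1 / 30) : ℝ)) = x ^ ((1 : ℝ) / 30) := by
      rw [Real.rpow_neg hx0.le, one_div, inv_inv]
    have h7 : x = x ^ ((1 : ℝ) / 30) * x ^ ((29 : ℝ) / 30) := by
      rw [← Real.rpow_add hx0]; norm_num
    have h8 : 0 < x ^ ((1 : ℝ) / 30) := Real.rpow_pos_of_pos hx0 _
    rw [h6]
    have h9 : δ / 2 * (x / (4 * R ^ 2)) = x ^ ((1 : ℝ) / 30) * ((x ^ ((29 : ℝ) / 30) * δ) /
        (8 * R ^ 2)) := by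
      conv_lhs => rw [h7]
      field_simp
      norm_num
    rw [h9]
    apply le_mul_of_one_le_right h8.le
    rw [le_div_iff₀ (by positivity)]
    linarith
  obtain ⟨M0, hM01, hM0⟩ := hex
  refine ⟨M0, hM01, ?_⟩
  intro a M1 M2 hM1 S y X hy hS hX u hu
  obtain ⟨g1, g2⟩ := hM0 M1 hM1
  have hM1R : (1 : ℝ) ≤ M1 := hM01.trans hM1
  have hM1N : 1 ≤ M1 := by exact_mod_cast hM1R
  have hR0 : 0 < R := by linarith
  set θ := (M1 : ℝ) ^ (-(1 / 30) : ℝ) with hθdef
  have hθ : 0 < θ := Real.rpow_pos_of_pos (by linarith) _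
  have hkey : ∀ p ∈ PU a, ∀ q ∈ S,
      ∑ k ∈ Ico M1 M2, Real.log p * kn θ (u - Real.log (((p - 1) * q * k : ℕ) : ℝ)) ≤
        (1 + δ) * Real.exp u * (Real.log p / ((p : ℝ) - 1)) * (1 / (q : ℝ)) := by
    intro p hp q hq
    unfold PU at hp
    rw [Finset.mem_filter, Finset.mem_Icc] at hp
    obtain ⟨⟨hp1, hp2⟩, hpp, hp3⟩ := hp
    obtain ⟨hq1, hq2⟩ := hS q hq
    have hp1' : 1 < p := hpp.one_lt
    have hqpos : (0 : ℝ) < q := by linarith
    have hqN : 0 < q := by exact_mod_cast hqpos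
    have hpcast : ((p - 1 : ℕ) : ℝ) = (p : ℝ) - 1 := by
      rw [Nat.cast_sub hp1'.le, Nat.cast_one]
    have hppos : (0 : ℝ) < (p : ℝ) - 1 := by
      have : (1 : ℝ) < p := by exact_mod_cast hp1'
      linarith
    have hlogp : 0 ≤ Real.log p := Real.log_nonneg (by linarith)
    set w := u - Real.log (((p : ℝ) - 1) * q) with hw
    have hexpw : Real.exp w = Real.exp u / (((p : ℝ) - 1) * q) := by
      rw [hw, Real.exp_sub, Real.exp_log (by positivity)]
    have hterm : ∀ k ∈ Ico M1 M2,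
        Real.log p * kn θ (u - Real.log (((p - 1) * q * k : ℕ) : ℝ)) =
        Real.log p * kn θ (w - Real.log k) := by
      intro k hk
      rw [Finset.mem_Ico] at hk
      have hk0 : (0 : ℝ) < k := by exact_mod_cast (by omega : 0 < k)
      rw [Nat.cast_mul, Nat.cast_mul, hpcast, Real.log_mul (by positivity) hk0.ne', hw]
      congr 2
      ring
    rw [Finset.sum_congr rfl hterm, ← Finset.mul_sum]
    have hks := kn_sum θ hθ M1 M2 hM1N w
    have hlow : (M1 : ℝ) / (4 * R ^ 2) ≤ Real.exp w := by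
      rw [hexpw, div_le_div_iff₀ (by positivity) (by positivity)]
      have h1 : (p : ℝ) - 1 ≤ 2 * 2 ^ a := by
        have : (p : ℝ) ≤ ((2 ^ (a + 1) : ℕ) : ℝ) := by exact_mod_cast hp2
        push_cast at this
        rw [pow_succ] at this
        linarith
      have h2 : ((p : ℝ) - 1) * q ≤ (2 * 2 ^ a) * (2 * y) :=
        mul_le_mul h1 hq2 hqpos.le (by positivity)
      calc (M1 : ℝ) * (((p : ℝ) - 1) * q) ≤ M1 * ((2 * 2 ^ a) * (2 * y)) :=
            mul_le_mul_of_nonneg_left h2 (by linarith)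
        _ = 4 * (2 ^ a * y * M1) := by ring
        _ ≤ 4 * (R * X) := by linarith
        _ ≤ 4 * (R * (R * Real.exp u)) := by
            have := mul_le_mul_of_nonneg_left hu hR0.le
            linarith
        _ = Real.exp u * (4 * R ^ 2) := by ring
    have h3 : ∑ k ∈ Ico M1 M2, kn θ (w - Real.log k) ≤ (1 + δ) * Real.exp w := by
      refine hks.trans ?_
      rw [Real.exp_add]
      have h4 : Real.exp w * Real.exp (θ ^ 2 / 2) ≤ Real.exp w * (1 + δ / 2) :=
        mul_le_mul_of_nonneg_left g1 (Real.exp_pos w).le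
      have h5 : δ / 2 * ((M1 : ℝ) / (4 * R ^ 2)) ≤ δ / 2 * Real.exp w :=
        mul_le_mul_of_nonneg_left hlow (by linarith)
      linarith
    calc Real.log p * ∑ k ∈ Ico M1 M2, kn θ (w - Real.log k)
        ≤ Real.log p * ((1 + δ) * Real.exp w) := mul_le_mul_of_nonneg_left h3 hlogp
      _ = _ := by
          rw [hexpw]
          field_simp
  unfold Psi
  calc ∑ p ∈ PU a, ∑ q ∈ S, ∑ k ∈ Ico M1 M2,
        Real.log p * kn θ (u - Real.log (((p - 1) * q * k : ℕ) : ℝ))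
      ≤ ∑ p ∈ PU a, ∑ q ∈ S, (1 + δ) * Real.exp u * (Real.log p / ((p : ℝ) - 1)) * (1 / (q : ℝ)) :=
        Finset.sum_le_sum (fun p hp => Finset.sum_le_sum (fun q hq => hkey p hp q hq))
    _ = _ := by
        unfold rs
        rw [mul_assoc, Finset.sum_mul_sum, Finset.mul_sum]
        apply Finset.sum_congr rfl
        intro p _
        rw [Finset.mul_sum]
        apply Finset.sum_congr rfl
        intro q _
        ring

end Pool.Agent.BernOne
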