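import Pool.Agent.BernOne.Window
import Pool.Agent.BernOne.Block
import Pool.Agent.BernOne.GDiff

set_option autoImplicit false

open Finset MeasureTheory

namespace Pool.Agent.BernOne

open Pool.Agent.MR

/-- powers of the logarithm against powers -/
theorem mn_log_pow (A : ℕ) (c s : ℝ) (hc : 0 < c) (hs : 0 < s) :
    ∃ X0 : ℝ, ∀ X : ℝ, X0 ≤ X → (Real.log X) ^ A ≤ c * X ^ s := by
  have h1 := (isLittleO_log_rpow_rpow_atTop (A : ℝ) hs).bound hc
  rw [Filter.eventually_atTop] at h1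
  obtain ⟨X1, h1⟩ := h1
  refine ⟨max X1 1, fun X hX => ?_⟩
  have hX1 : X1 ≤ X := le_trans (le_max_left _ _) hX
  have hX2 : 1 ≤ X := le_trans (le_max_right _ _) hX
  have h2 := h1 X hX1
  rw [Real.rpow_natCast, Real.norm_eq_abs, Real.norm_eq_abs,
    abs_of_nonneg (pow_nonneg (Real.log_nonneg hX2) A),
    abs_of_nonneg (Real.rpow_nonneg (by linarith) s)] at h2
  exact h2

/-- Chebyshev for one block. -/
theorem mn_block (κ η : ℝ) (hκ : 0 < κ) (hκ1 : κ ≤ 1 / 4) (hη : 0 < η) (hη1 : η ≤ 1) :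
    ∃ B : ℕ, 1 ≤ B ∧ ∀ A : ℕ, B ≤ A → ∃ X0 : ℝ, ∀ X : ℝ, X0 ≤ X → ∀ a v : ℕ,
      (2 : ℝ) ^ a ≤ X ^ (1 - κ) → v ∈ vs 2 (QS A B X) → ∀ θ : ℝ,
        (Real.log X) ^ A / X ≤ θ → θ ≤ X ^ (-(1 / 30) : ℝ) →
        volume {u : ℝ | ¬ (PB η A B X a v θ u ≤
          PB η A B X a v (th η X a v) u + X / (Real.log X) ^ 2)} ≤
          ENNReal.ofReal (1 / (Real.log X) ^ 6) := by
  have hR : (1 : ℝ) ≤ 32 / η := by
    rw [le_div_iff₀ hη]
    linarith
  obtain ⟨B, hB, hb⟩ := block (κ / 2) (32 / η) (by positivity) (by linarith) hR 10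
  refine ⟨B, hB, fun A hA => ?_⟩
  obtain ⟨X0, hX0, h⟩ := hb A hA
  obtain ⟨X1, h1⟩ := mn_log_pow A (η / 16) (κ / 2) (by positivity) (by positivity)
  refine ⟨max (max X0 X1) (Real.exp 1), fun X hX a v ha hv θ hθ1 hθ2 => ?_⟩
  have hXa : X0 ≤ X := le_trans (le_trans (le_max_left _ _) (le_max_left _ _)) hX
  have hXb : X1 ≤ X := le_trans (le_trans (le_max_right _ _) (le_max_left _ _)) hX
  have hXc : Real.exp 1 ≤ X := le_trans (le_max_right _ _) hX
  have hXpos : 0 < X := lt_of_lt_of_le (Real.exp_pos 1) hXc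
  have hX1 : 1 ≤ X := le_trans hX0 hXa
  have hL : 1 ≤ Real.log X := by
    rw [Real.le_log_iff_exp_le hXpos]
    exact hXc
  have hL0 : 0 < Real.log X := by linarith
  have hlog := h1 X hXb
  -- the block
  obtain ⟨q, hq, hqv⟩ : ∃ q ∈ QS A B X, ⌊((2 : ℕ) : ℝ) * Real.log (q : ℝ)⌋₊ = v := by
    have := hv
    unfold vs at this
    rw [mem_image] at this
    exact this
  have hq1 : ∀ p ∈ QS A B X, 1 ≤ p := by
    intro p hp
    unfold QS at hp
    rw [mem_filter] at hp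
    exact hp.2.one_lt.le
  have hqpb : q ∈ pb 2 (QS A B X) v := by
    unfold pb
    rw [mem_filter]
    exact ⟨hq, hqv⟩
  obtain ⟨_, hqE, _⟩ := mem_pb 2 (by norm_num) (QS A B X) hq1 v q hqpb
  have hqL : (q : ℝ) ≤ (Real.log X) ^ A := by
    unfold QS at hq
    rw [mem_filter, mem_Ioc] at hq
    have h2 : ((⌊(Real.log X) ^ A⌋₊ : ℕ) : ℝ) ≤ (Real.log X) ^ A :=
      Nat.floor_le (by positivity)
    have h3 : (q : ℝ) ≤ ((⌊(Real.log X) ^ A⌋₊ : ℕ) : ℝ) := by exact_mod_cast hq.1.2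
    linarith
  set E : ℝ := Real.exp (v / 2) with hEdef
  have hE0 : 0 < E := Real.exp_pos _
  have hEL : E ≤ (Real.log X) ^ A := by
    have : ((2 : ℕ) : ℝ) = 2 := by norm_num
    rw [this] at hqE
    linarith
  have h2a : (0 : ℝ) < 2 ^ a := by positivity
  set y : ℝ := X / (2 ^ a * E) with hy
  have hxk : 1 ≤ X ^ (κ / 2) := Real.one_le_rpow hX1 (by positivity)
  have hsplit : X ^ (1 - κ) * (X ^ (κ / 2) * X ^ (κ / 2)) = X := by
    rw [← Real.rpow_add hXpos, ← Real.rpow_add hXpos]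
    have : 1 - κ + (κ / 2 + κ / 2) = 1 := by ring
    rw [this, Real.rpow_one]
  have hyl : 16 * X ^ (κ / 2) ≤ η * y := by
    rw [hy, ← mul_div_assoc, le_div_iff₀ (by positivity)]
    calc 16 * X ^ (κ / 2) * (2 ^ a * E)
        ≤ 16 * X ^ (κ / 2) * (X ^ (1 - κ) * (η / 16 * X ^ (κ / 2))) := by
          apply mul_le_mul_of_nonneg_left _ (by positivity)
          exact mul_le_mul ha (le_trans hEL hlog) hE0.le (by positivity)
      _ = η * (X ^ (1 - κ) * (X ^ (κ / 2) * X ^ (κ / 2))) := by ring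
      _ = η * X := by rw [hsplit]
  have hy16 : 16 ≤ η * y := by nlinarith
  have hy0 : 0 < y := by rw [hy]; positivity
  have hy1 : 16 ≤ y := by nlinarith
  have hyX : y * (2 ^ a * E) = X := by
    rw [hy, div_mul_cancel₀]
    positivity
  have hm1 : m1 η X a v = ⌊η * y / 8⌋₊ := by
    unfold m1
    congr 1
    rw [hy, hEdef]
    field_simp
  have hm2 : m2 X a v = ⌊y⌋₊ + 1 := by
    unfold m2
    rw [hy, hEdef]
  have hM1le : (m1 η X a v : ℝ) ≤ η * y / 8 := by
    rw [hm1]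
    exact Nat.floor_le (by positivity)
  have hM1ge : η * y / 8 - 1 ≤ (m1 η X a v : ℝ) := by
    rw [hm1]
    have := Nat.lt_floor_add_one (η * y / 8)
    linarith
  have hM2le : (m2 X a v : ℝ) ≤ y + 1 := by
    rw [hm2]
    push_cast
    have := Nat.floor_le hy0.le
    linarith
  have hc1 : X ^ (κ / 2) ≤ (m1 η X a v : ℝ) := by linarith
  have hM1pos : (1 : ℝ) ≤ (m1 η X a v : ℝ) := le_trans hxk hc1
  have hM1pos' : 1 ≤ m1 η X a v := by exact_mod_cast hM1pos
  have hηy : η * y ≤ y := by nlinarith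
  have hc2 : m1 η X a v ≤ m2 X a v := by
    rw [hm1, hm2]
    exact le_trans (Nat.floor_le_floor (by linarith)) (Nat.le_succ _)
  have hc3 : (m2 X a v : ℝ) ≤ 32 / η * (m1 η X a v : ℝ) := by
    rw [div_mul_eq_mul_div, le_div_iff₀ hη]
    nlinarith
  have hc4 : 2 ^ a * Real.exp (v / 2) * (m1 η X a v : ℝ) ≤ 32 / η * X := by
    rw [← hEdef]
    have h3 : 2 ^ a * E * (m1 η X a v : ℝ) ≤ 2 ^ a * E * (η * y / 8) :=
      mul_le_mul_of_nonneg_left hM1le (by positivity)
    have h4 : 2 ^ a * E * (η * y / 8) = η / 8 * X := by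
      rw [← hyX]; ring
    have h5 : η / 8 * X ≤ 32 / η * X := by
      apply mul_le_mul_of_nonneg_right _ hXpos.le
      linarith
    linarith
  have hyX' : y ≤ X := by
    rw [← hyX]
    have h2 : (1 : ℝ) ≤ 2 ^ a := one_le_pow₀ (by norm_num)
    have h3 : 1 ≤ E := by
      rw [hEdef]
      exact Real.one_le_exp (by positivity)
    have h4 : 1 ≤ 2 ^ a * E := by nlinarith
    nlinarith
  have hM1X : (m1 η X a v : ℝ) ≤ X := by linarith
  have hθ0 : 0 < θ := lt_of_lt_of_le (by positivity) hθ1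
  have hθth : θ ≤ th η X a v := by
    unfold th
    refine le_trans hθ2 ?_
    exact Real.rpow_le_rpow_of_nonpos (by linarith) hM1X (by norm_num)
  have hPU : ∀ p ∈ PU a, 2 ≤ p := by
    intro p hp
    unfold PU at hp
    rw [mem_filter] at hp
    exact hp.2.1.two_le
  have hSq : ∀ p ∈ pb 2 (QS A B X) v, 1 ≤ p := by
    intro p hp
    unfold pb at hp
    rw [mem_filter] at hp
    exact hq1 p hp.1
  have hKk : ∀ k ∈ Ico (m1 η X a v) (m2 X a v), 1 ≤ k := by
    intro k hk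
    rw [mem_Ico] at hk
    omega
  obtain ⟨hint, hle⟩ := psi_l2 (PU a) (pb 2 (QS A B X) v) (Ico (m1 η X a v) (m2 X a v)) hPU hSq hKk
    θ (th η X a v) hθ0 hθth
  have hblk := h X hXa a v (m1 η X a v) (m2 X a v) θ hv hc1 hc2 hc3 hc4 hθ1 hθ2
  have hle2 : ∫ u : ℝ, (Psi (PU a) (pb 2 (QS A B X) v) (Ico (m1 η X a v) (m2 X a v)) θ u -
      Psi (PU a) (pb 2 (QS A B X) v) (Ico (m1 η X a v) (m2 X a v)) (th η X a v) u) ^ 2 ≤
      X ^ 2 / (Real.log X) ^ 10 := le_trans hle hblk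
  set f : ℝ → ℝ := fun u => (Psi (PU a) (pb 2 (QS A B X) v) (Ico (m1 η X a v) (m2 X a v)) θ u -
      Psi (PU a) (pb 2 (QS A B X) v) (Ico (m1 η X a v) (m2 X a v)) (th η X a v) u) ^ 2 with hf
  have hδ : 0 < (X / (Real.log X) ^ 2) ^ 2 := by positivity
  have hcheb := meas_ge_le_lintegral_div (μ := volume) (f := fun u => ENNReal.ofReal (f u))
    (hint.1.aemeasurable.ennreal_ofReal) (ε := ENNReal.ofReal ((X / (Real.log X) ^ 2) ^ 2))
    (by rw [ne_eq, ENNReal.ofReal_eq_zero, not_le]; exact hδ) ENNReal.ofReal_ne_top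
  have hlin : ∫⁻ u, ENNReal.ofReal (f u) = ENNReal.ofReal (∫ u, f u) :=
    (ofReal_integral_eq_lintegral_ofReal hint
      (Filter.Eventually.of_forall fun u => by simp only [hf]; positivity)).symm
  have hsub : {u : ℝ | ¬ (PB η A B X a v θ u ≤
          PB η A B X a v (th η X a v) u + X / (Real.log X) ^ 2)} ⊆
      {u : ℝ | ENNReal.ofReal ((X / (Real.log X) ^ 2) ^ 2) ≤ ENNReal.ofReal (f u)} := by
    intro u hu
    rw [Set.mem_setOf_eq] at hu ⊢
    apply ENNReal.ofReal_le_ofReal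
    push Not at hu
    unfold PB at hu
    rw [hf]
    have h5 : X / (Real.log X) ^ 2 ≤
      Psi (PU a) (pb 2 (QS A B X) v) (Ico (m1 η X a v) (m2 X a v)) θ u -
      Psi (PU a) (pb 2 (QS A B X) v) (Ico (m1 η X a v) (m2 X a v)) (th η X a v) u := by linarith
    exact pow_le_pow_left₀ (by positivity) h5 2
  calc volume {u : ℝ | ¬ (PB η A B X a v θ u ≤
          PB η A B X a v (th η X a v) u + X / (Real.log X) ^ 2)}
      ≤ volume {u : ℝ | ENNReal.ofReal ((X / (Real.log X) ^ 2) ^ 2) ≤ ENNReal.ofReal (f u)} :=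
        measure_mono hsub
    _ ≤ (∫⁻ u, ENNReal.ofReal (f u)) / ENNReal.ofReal ((X / (Real.log X) ^ 2) ^ 2) := hcheb
    _ ≤ ENNReal.ofReal (X ^ 2 / (Real.log X) ^ 10) /
        ENNReal.ofReal ((X / (Real.log X) ^ 2) ^ 2) := by
        apply ENNReal.div_le_div_right
        rw [hlin]
        exact ENNReal.ofReal_le_ofReal hle2
    _ = ENNReal.ofReal (1 / (Real.log X) ^ 6) := by
        rw [← ENNReal.ofReal_div_of_pos hδ]
        congr 1
        field_simp

/-- Counting integers by the measure of a set containing the logarithmic intervals. -/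
theorem mn_count (X : ℕ) (hX : 1 ≤ X) (θ : ℝ) (S : Set ℝ) (F : Finset ℕ) (hF : F ⊆ Icc 1 X)
    (hS : ∀ n ∈ F, ∀ u : ℝ, Real.log n - θ ≤ u → u ≤ Real.log (n + 1) - θ → u ∈ S) :
    ENNReal.ofReal ((F.card : ℝ) * (1 / (2 * X))) ≤ volume S := by
  have hdis : (F : Set ℕ).PairwiseDisjoint
      (fun n : ℕ => Set.Ico (Real.log n - θ) (Real.log (n + 1) - θ)) := by
    have key : ∀ m ∈ F, ∀ n ∈ F, m < n → Disjoint
        (Set.Ico (Real.log m - θ) (Real.log (m + 1) - θ))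
        (Set.Ico (Real.log n - θ) (Real.log (n + 1) - θ)) := by
      intro m hm n hn hmn
      rw [Set.disjoint_left]
      intro u hu hu2
      rw [Set.mem_Ico] at hu hu2
      have h1 : Real.log ((m : ℝ) + 1) ≤ Real.log n := by
        apply Real.log_le_log (by positivity)
        exact_mod_cast hmn
      linarith [hu.2, hu2.1]
    intro m hm n hn hmn
    rcases lt_or_gt_of_ne hmn with h | h
    · exact key m hm n hn h
    · exact (key n hn m hm h).symm
  have hmeas : volume (⋃ n ∈ F, Set.Ico (Real.log (n : ℝ) - θ) (Real.log ((n : ℝ) + 1) - θ)) =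
      ∑ n ∈ F, volume (Set.Ico (Real.log (n : ℝ) - θ) (Real.log ((n : ℝ) + 1) - θ)) :=
    measure_biUnion_finset hdis (fun n _ => measurableSet_Ico)
  have hsub : (⋃ n ∈ F, Set.Ico (Real.log (n : ℝ) - θ) (Real.log ((n : ℝ) + 1) - θ)) ⊆ S := by
    intro u hu
    simp only [Set.mem_iUnion] at hu
    obtain ⟨n, hn, hu⟩ := hu
    exact hS n hn u hu.1 hu.2.le
  refine le_trans ?_ (measure_mono hsub)
  rw [hmeas]
  have h2 : ∀ n ∈ F, ENNReal.ofReal (1 / (2 * X)) ≤
      volume (Set.Ico (Real.log (n : ℝ) - θ) (Real.log ((n : ℝ) + 1) - θ)) := by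
    intro n hn
    rw [Real.volume_Ico]
    apply ENNReal.ofReal_le_ofReal
    have hn1 := mem_Icc.1 (hF hn)
    have hn0 : (1 : ℝ) ≤ n := by exact_mod_cast hn1.1
    have hnX : (n : ℝ) ≤ X := by exact_mod_cast hn1.2
    have h3 : Real.log ((n : ℝ) + 1) - Real.log n = Real.log (((n : ℝ) + 1) / n) := by
      rw [Real.log_div (by positivity) (by positivity)]
    have h4 := Real.one_sub_inv_le_log_of_pos (x := ((n : ℝ) + 1) / n) (by positivity)
    have h5 : 1 - (((n : ℝ) + 1) / n)⁻¹ = 1 / (n + 1) := by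
      field_simp
      ring
    have h6 : 1 / (2 * (X : ℝ)) ≤ 1 / ((n : ℝ) + 1) := by
      apply one_div_le_one_div_of_le (by positivity)
      linarith
    linarith
  calc ENNReal.ofReal ((F.card : ℝ) * (1 / (2 * X)))
      = ∑ n ∈ F, ENNReal.ofReal (1 / (2 * X)) := by
        rw [sum_const, nsmul_eq_mul, ENNReal.ofReal_mul (by positivity), ENNReal.ofReal_natCast]
    _ ≤ _ := sum_le_sum h2

/-- The number of block indices `v`. -/
theorem mn_card_vs (A B : ℕ) (X : ℝ) (hL : 1 ≤ Real.log X) :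
    ((vs 2 (QS A B X)).card : ℝ) ≤ 2 * A * Real.log (Real.log X) + 1 := by
  have hLL : 0 ≤ Real.log (Real.log X) := Real.log_nonneg hL
  have hsub : vs 2 (QS A B X) ⊆ range (⌊2 * A * Real.log (Real.log X)⌋₊ + 1) := by
    intro v hv
    unfold vs at hv
    rw [mem_image] at hv
    obtain ⟨q, hq, rfl⟩ := hv
    rw [mem_range, Nat.lt_succ_iff]
    apply Nat.floor_le_floor
    unfold QS at hq
    rw [mem_filter, mem_Ioc] at hq
    have hqpos : (0 : ℝ) < q := by exact_mod_cast hq.2.pos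
    have h2 : ((⌊(Real.log X) ^ A⌋₊ : ℕ) : ℝ) ≤ (Real.log X) ^ A :=
      Nat.floor_le (by positivity)
    have h3 : (q : ℝ) ≤ ((⌊(Real.log X) ^ A⌋₊ : ℕ) : ℝ) := by exact_mod_cast hq.1.2
    have h4 : Real.log q ≤ A * Real.log (Real.log X) := by
      rw [← Real.log_pow]
      exact Real.log_le_log hqpos (le_trans h3 h2)
    push_cast
    linarith
  have h1 := card_le_card hsub
  rw [card_range] at h1
  have h2 : ((vs 2 (QS A B X)).card : ℝ) ≤ ((⌊2 * A * Real.log (Real.log X)⌋₊ + 1 : ℕ) : ℝ) := by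
    exact_mod_cast h1
  have h3 : ((⌊2 * A * Real.log (Real.log X)⌋₊ : ℕ) : ℝ) ≤ 2 * A * Real.log (Real.log X) :=
    Nat.floor_le (by positivity)
  push_cast at h2
  linarith

/-- The measure of the set of bad points for one width. -/
theorem mn_bad (κ η : ℝ) (hκ : 0 < κ) (hκ1 : κ ≤ 1 / 4) (hη : 0 < η) (hη1 : η ≤ 1) :
    ∃ B : ℕ, 1 ≤ B ∧ ∀ A : ℕ, B ≤ A → ∃ X0 : ℝ, ∀ X : ℝ, X0 ≤ X → ∀ θ : ℝ,
        (Real.log X) ^ A / X ≤ θ → θ ≤ X ^ (-(1 / 30) : ℝ) →
        volume {u : ℝ | ¬ GoodU κ η A B X θ u} ≤ ENNReal.ofReal (3 / (Real.log X) ^ 4) := by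
  obtain ⟨B, hB, h⟩ := mn_block κ η hκ hκ1 hη hη1
  refine ⟨B, hB, fun A hA => ?_⟩
  obtain ⟨X0, h⟩ := h A hA
  have hev : ∀ᶠ X : ℝ in Filter.atTop, 2 * A * Real.log (Real.log X) + 1 ≤ Real.log X := by
    have h1 : ∀ᶠ y : ℝ in Filter.atTop, 2 * A * Real.log y + 1 ≤ y := by
      have h2 := Real.isLittleO_log_id_atTop.bound (c := 1 / (2 * (2 * A + 1))) (by positivity)
      filter_upwards [h2, Filter.eventually_ge_atTop 2] with y hy hy2
      have hy0 : 0 ≤ Real.log y := Real.log_nonneg (by linarith)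
      rw [Real.norm_eq_abs, abs_of_nonneg hy0, id, Real.norm_eq_abs, abs_of_nonneg (by linarith)]
        at hy
      have h3 : 2 * (A : ℝ) * Real.log y ≤ (2 * A + 1) * (1 / (2 * (2 * A + 1)) * y) := by
        have h4 : 2 * (A : ℝ) * Real.log y ≤ (2 * A + 1) * Real.log y := by nlinarith
        refine le_trans h4 ?_
        exact mul_le_mul_of_nonneg_left hy (by positivity)
      have h5 : (2 * (A : ℝ) + 1) * (1 / (2 * (2 * A + 1)) * y) = y / 2 := by
        field_simp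
      rw [h5] at h3
      linarith
    exact Real.tendsto_log_atTop.eventually h1
  rw [Filter.eventually_atTop] at hev
  obtain ⟨X1, hev⟩ := hev
  refine ⟨max (max X0 X1) (Real.exp 1), fun X hX θ hθ1 hθ2 => ?_⟩
  have hXa : X0 ≤ X := le_trans (le_trans (le_max_left _ _) (le_max_left _ _)) hX
  have hXb : X1 ≤ X := le_trans (le_trans (le_max_right _ _) (le_max_left _ _)) hX
  have hXc : Real.exp 1 ≤ X := le_trans (le_max_right _ _) hX
  have hXpos : 0 < X := lt_of_lt_of_le (Real.exp_pos 1) hXc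
  have hL : 1 ≤ Real.log X := by
    rw [Real.le_log_iff_exp_le hXpos]
    exact hXc
  have hX1 : 1 ≤ X := by
    have := Real.add_one_le_exp 1
    linarith
  have hcv : ((vs 2 (QS A B X)).card : ℝ) ≤ Real.log X :=
    le_trans (mn_card_vs A B X hL) (hev X hXb)
  set N : ℕ := ⌊2 * Real.log X⌋₊ + 1 with hN
  have hNle : (N : ℝ) ≤ 3 * Real.log X := by
    rw [hN]
    push_cast
    have := Nat.floor_le (a := 2 * Real.log X) (by positivity)
    linarith
  set Sb : ℕ → ℕ → Set ℝ := fun a v => {u : ℝ | ¬ (PB η A B X a v θ u ≤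
          PB η A B X a v (th η X a v) u + X / (Real.log X) ^ 2)} with hSb
  set D : Finset (ℕ × ℕ) := ((range N) ×ˢ (vs 2 (QS A B X))).filter
    (fun x : ℕ × ℕ => (2 : ℝ) ^ x.1 ≤ X ^ (1 - κ)) with hD
  have hsub : {u : ℝ | ¬ GoodU κ η A B X θ u} ⊆ ⋃ x ∈ D, Sb x.1 x.2 := by
    intro u hu
    rw [Set.mem_setOf_eq] at hu
    unfold GoodU at hu
    push Not at hu
    obtain ⟨a, v, ha, hv, hlt⟩ := hu
    simp only [Set.mem_iUnion]
    refine ⟨(a, v), ?_, ?_⟩
    · rw [hD, mem_filter, mem_product, mem_range]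
      refine ⟨⟨?_, hv⟩, ha⟩
      rw [hN, Nat.lt_succ_iff]
      apply Nat.le_floor
      have h3 : (2 : ℝ) ^ a ≤ X := by
        refine le_trans ha ?_
        calc X ^ (1 - κ) ≤ X ^ (1 : ℝ) := Real.rpow_le_rpow_of_exponent_le hX1 (by linarith)
          _ = X := Real.rpow_one X
      have h4 := Real.log_le_log (by positivity) h3
      rw [Real.log_pow] at h4
      have h5 : (1 : ℝ) / 2 ≤ Real.log 2 := by
        have := Real.log_two_gt_d9
        norm_num at this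
        linarith
      have h6 : (a : ℝ) * (1 / 2) ≤ a * Real.log 2 := mul_le_mul_of_nonneg_left h5 (by positivity)
      linarith
    · rw [hSb]
      simp only [Set.mem_setOf_eq]
      push Not
      exact hlt
  have hDc : (D.card : ℝ) ≤ 3 * Real.log X * Real.log X := by
    have h1 : D.card ≤ N * (vs 2 (QS A B X)).card := by
      rw [hD]
      refine le_trans (card_filter_le _ _) ?_
      rw [card_product, card_range]
    calc (D.card : ℝ) ≤ ((N * (vs 2 (QS A B X)).card : ℕ) : ℝ) := by exact_mod_cast h1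
      _ = (N : ℝ) * ((vs 2 (QS A B X)).card : ℝ) := by push_cast; ring
      _ ≤ 3 * Real.log X * Real.log X := mul_le_mul hNle hcv (by positivity) (by positivity)
  calc volume {u : ℝ | ¬ GoodU κ η A B X θ u}
      ≤ volume (⋃ x ∈ D, Sb x.1 x.2) := measure_mono hsub
    _ ≤ ∑ x ∈ D, volume (Sb x.1 x.2) := measure_biUnion_finset_le _ _
    _ ≤ ∑ x ∈ D, ENNReal.ofReal (1 / (Real.log X) ^ 6) := by
        apply sum_le_sum
        intro x hx
        rw [hD, mem_filter, mem_product] at hx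
        exact h X hXa x.1 x.2 hx.2 hx.1.2 θ hθ1 hθ2
    _ = ENNReal.ofReal ((D.card : ℝ) * (1 / (Real.log X) ^ 6)) := by
        rw [sum_const, nsmul_eq_mul, ENNReal.ofReal_mul (by positivity), ENNReal.ofReal_natCast]
    _ ≤ ENNReal.ofReal (3 / (Real.log X) ^ 4) := by
        apply ENNReal.ofReal_le_ofReal
        calc (D.card : ℝ) * (1 / (Real.log X) ^ 6)
            ≤ 3 * Real.log X * Real.log X * (1 / (Real.log X) ^ 6) :=
              mul_le_mul_of_nonneg_right hDc (by positivity)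
          _ = 3 / (Real.log X) ^ 4 := by
              field_simp

open scoped Classical in
/-- Concentration of the main part in all windows.
Sketch. `B` from `block (κ/2) (32/η) (C := 10)`. Fix `A ≥ B`, `L = log X`.
Grid `θ_i = (61/60)^(-i)`, for the `i` with `L^A/X ≤ θ_i ≤ X^(-1/30)`: at most `100 L` values.
For `n ≥ η X` and `j` in the range choose `i` with `(61/60) j/n ≤ θ_i < (61/60)² j/n`
(`θ_i ≥ j/n ≥ L^(A+1)/X`, `θ_i ≤ 2 X^(-1/25)/η ≤ X^(-1/30)`).
If `n` is in the set then by `window_bound` no `u` of `I = [log n - θ_i, log (n+1) - θ_i]` is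
good for `θ_i`; the intervals `I` for different `n` overlap only in end points and have length
`log (1+1/n) ≥ 1/(2X)`. So `bad ≤ ∑_i 2X * meas {u : not GoodU θ_i u}`.
For one block `(a, v)`: `meas {u : PB θ_i u > PB (th) u + X/L²} ≤ (L²/X)² ∫ (PB θ_i - PB th)²
≤ (L⁴/X²) X²/L^10 = L^(-6)` by Chebyshev, `psi_l2` and `block`
(with `M1 = m1 η X a v ≥ X^(κ/2)`, `M2 = m2 X a v ≤ (32/η) m1`, `2^a exp(v/2) m1 ≤ X`,
`θ_i ≤ X^(-1/30) ≤ m1^(-1/30)` since `m1 ≤ X`). Number of blocks `≤ (2L+1)(2A log L + 2) ≤ L^(3/2)`.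
Total `≤ 100 L * 2X * L^(3/2) * L^(-6) ≤ ε X`. -/
theorem conc_main (κ η ε : ℝ) (hκ : 0 < κ) (hκ1 : κ ≤ 1 / 4) (hη : 0 < η) (hη1 : η ≤ 1)
    (hε : 0 < ε) : ∃ B : ℕ, 1 ≤ B ∧ ∀ A : ℕ, B ≤ A → ∃ X0 : ℕ, ∀ X : ℕ, X0 ≤ X →
      1 ≤ rs (QS A B X) →
      (((Icc 1 X).filter (fun n : ℕ => η * X ≤ n ∧ ∃ j : ℕ, (Real.log X) ^ (A + 1) ≤ j ∧
        (j : ℝ) ≤ (X : ℝ) ^ (24 / 25 : ℝ) ∧ 9 / 2 * Real.log X * rs (QS A B X) * j <
          ∑ i ∈ range j, Z1 κ A B X (n - 1 - 2 * i))).card : ℝ) ≤ ε * X := by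
  obtain ⟨B, hB, h⟩ := mn_bad κ η hκ hκ1 hη hη1
  refine ⟨B, hB, fun A hA => ?_⟩
  obtain ⟨X1, h⟩ := h A hA
  obtain ⟨X2, hw⟩ := window_bound κ η hκ hκ1 hη hη1 A B hB hA
  have hev : ∀ᶠ X : ℕ in Filter.atTop, X1 ≤ X ∧ X2 ≤ X ∧ 3 ≤ X ∧ 372 / ε ≤ Real.log X ∧
      2 / η ≤ (X : ℝ) ^ (1 / 150 : ℝ) := by
    have e1 : ∀ᶠ X : ℕ in Filter.atTop, X1 ≤ (X : ℝ) :=
      tendsto_natCast_atTop_atTop.eventually (Filter.eventually_ge_atTop X1)
    have e2 : ∀ᶠ X : ℕ in Filter.atTop, 372 / ε ≤ Real.log X :=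
      (Real.tendsto_log_atTop.comp tendsto_natCast_atTop_atTop).eventually
        (Filter.eventually_ge_atTop _)
    have e3 : ∀ᶠ X : ℕ in Filter.atTop, 2 / η ≤ (X : ℝ) ^ (1 / 150 : ℝ) :=
      ((tendsto_rpow_atTop (by norm_num : (0 : ℝ) < 1 / 150)).comp
        tendsto_natCast_atTop_atTop).eventually (Filter.eventually_ge_atTop _)
    filter_upwards [e1, e2, e3, Filter.eventually_ge_atTop X2, Filter.eventually_ge_atTop 3]
      with X a1 a2 a3 a4 a5
    exact ⟨a1, a4, a5, a2, a3⟩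
  rw [Filter.eventually_atTop] at hev
  obtain ⟨X0, hev⟩ := hev
  refine ⟨X0, fun X hX hrs => ?_⟩
  obtain ⟨hXa, hXb, hX3, hLe, hXη⟩ := hev X hX
  have hX3' : (3 : ℝ) ≤ X := by exact_mod_cast hX3
  have hXpos : (0 : ℝ) < X := by linarith
  have hXone : (1 : ℝ) ≤ X := by linarith
  have hL : 1 ≤ Real.log X := by
    rw [Real.le_log_iff_exp_le hXpos]
    have := Real.exp_one_lt_d9
    norm_num at this
    linarith
  set L : ℝ := Real.log X with hLdef
  have hL0 : 0 < L := by linarith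
  set N : ℕ := ⌊61 * L⌋₊ + 1 with hN
  have hNle : (N : ℝ) ≤ 62 * L := by
    rw [hN]
    push_cast
    have := Nat.floor_le (a := 61 * L) (by positivity)
    linarith
  set Th : ℕ → ℝ := fun i => (60 / 61 : ℝ) ^ i with hTh
  set F : ℕ → Finset ℕ := fun i => (Icc 1 X).filter (fun n : ℕ =>
    ∀ u : ℝ, Real.log n - Th i ≤ u → u ≤ Real.log (n + 1) - Th i →
      u ∈ {u : ℝ | ¬ GoodU κ η A B X (Th i) u}) with hF
  set D : Finset ℕ := (range N).filter (fun i => L ^ A / X ≤ Th i ∧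
    Th i ≤ (X : ℝ) ^ (-(1 / 30) : ℝ)) with hD
  set G : Finset ℕ := (Icc 1 X).filter (fun n : ℕ => η * X ≤ n ∧ ∃ j : ℕ, L ^ (A + 1) ≤ j ∧
        (j : ℝ) ≤ (X : ℝ) ^ (24 / 25 : ℝ) ∧ 9 / 2 * L * rs (QS A B X) * j <
          ∑ i ∈ range j, Z1 κ A B X (n - 1 - 2 * i)) with hG
  have hsub : G ⊆ D.biUnion F := by
    intro n hn
    rw [hG, mem_filter] at hn
    obtain ⟨hn1, hnη, j, hj1, hj2, hj3⟩ := hn
    rw [mem_Icc] at hn1
    have hnX : (n : ℝ) ≤ X := by exact_mod_cast hn1.2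
    have hn0 : (1 : ℝ) ≤ n := by exact_mod_cast hn1.1
    have hnpos : (0 : ℝ) < n := by linarith
    have hj0 : (0 : ℝ) < j := lt_of_lt_of_le (by positivity) hj1
    have hjn : 0 < (j : ℝ) / n := by positivity
    -- upper bound for `j / n`
    have hup : (61 / 60 : ℝ) ^ 2 * ((j : ℝ) / n) ≤ (X : ℝ) ^ (-(1 / 30) : ℝ) := by
      have h1 : (j : ℝ) / n ≤ (X : ℝ) ^ (24 / 25 : ℝ) / (η * X) :=
        div_le_div₀ (by positivity) hj2 (by positivity) hnη
      have h2 : (X : ℝ) ^ (24 / 25 : ℝ) / (η * X) = 1 / η * (X : ℝ) ^ (-(1 / 25) : ℝ) := by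
        have h3 : (X : ℝ) ^ (24 / 25 : ℝ) = X * (X : ℝ) ^ (-(1 / 25) : ℝ) := by
          nth_rewrite 2 [← Real.rpow_one (X : ℝ)]
          rw [← Real.rpow_add hXpos]
          norm_num
        rw [h3]
        field_simp
      have h4 : (61 / 60 : ℝ) ^ 2 * ((j : ℝ) / n) ≤ 2 / η * (X : ℝ) ^ (-(1 / 25) : ℝ) := by
        have h5 : (61 / 60 : ℝ) ^ 2 * ((j : ℝ) / n) ≤ 2 * ((j : ℝ) / n) :=
          mul_le_mul_of_nonneg_right (by norm_num) hjn.le
        have h6 : 2 * ((j : ℝ) / n) ≤ 2 * (1 / η * (X : ℝ) ^ (-(1 / 25) : ℝ)) := by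
          rw [← h2]
          linarith
        have h7 : 2 * (1 / η * (X : ℝ) ^ (-(1 / 25) : ℝ)) = 2 / η * (X : ℝ) ^ (-(1 / 25) : ℝ) := by
          ring
        linarith
      refine le_trans h4 ?_
      calc 2 / η * (X : ℝ) ^ (-(1 / 25) : ℝ)
          ≤ (X : ℝ) ^ (1 / 150 : ℝ) * (X : ℝ) ^ (-(1 / 25) : ℝ) :=
            mul_le_mul_of_nonneg_right hXη (by positivity)
        _ = (X : ℝ) ^ (-(1 / 30) : ℝ) := by
            rw [← Real.rpow_add hXpos]
            norm_num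
    have hX30 : (X : ℝ) ^ (-(1 / 30) : ℝ) ≤ 1 :=
      Real.rpow_le_one_of_one_le_of_nonpos hXone (by norm_num)
    obtain ⟨i, hi1, hi2⟩ := exists_nat_pow_near_of_lt_one (x := 61 / 60 * ((j : ℝ) / n))
      (y := (60 / 61 : ℝ)) (by positivity) (by nlinarith) (by norm_num) (by norm_num)
    have hθu : Th i ≤ (61 / 60 : ℝ) ^ 2 * ((j : ℝ) / n) := by
      rw [hTh]
      simp only
      have h1 : (60 / 61 : ℝ) ^ (i + 1) = 60 / 61 * (60 / 61 : ℝ) ^ i := by ring
      rw [h1] at hi1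
      nlinarith
    have hθl : 61 / 60 * ((j : ℝ) / n) ≤ Th i := hi2
    have hlow : L ^ A / X ≤ Th i := by
      have h1 : L ^ A / X ≤ (j : ℝ) / n := by
        apply div_le_div₀ hj0.le _ hnpos hnX
        refine le_trans ?_ hj1
        rw [pow_succ]
        have : 0 ≤ L ^ A := by positivity
        nlinarith
      nlinarith
    have hThpos : 0 < Th i := by
      rw [hTh]; positivity
    have hiN : i < N := by
      rw [hN, Nat.lt_succ_iff]
      apply Nat.le_floor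
      have h1 : 1 / (X : ℝ) ≤ Th i := by
        refine le_trans ?_ hlow
        apply div_le_div_of_nonneg_right _ hXpos.le
        exact one_le_pow₀ hL
      have h2 := Real.log_le_log (by positivity) h1
      rw [hTh] at h2
      simp only at h2
      rw [Real.log_pow, one_div, Real.log_inv] at h2
      have h3 := Real.one_sub_inv_le_log_of_pos (x := (61 / 60 : ℝ)) (by norm_num)
      have h4 : Real.log (60 / 61 : ℝ) = -Real.log (61 / 60 : ℝ) := by
        rw [← Real.log_inv]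
        norm_num
      rw [h4, ← hLdef] at h2
      have h5 : (1 : ℝ) / 61 ≤ Real.log (61 / 60 : ℝ) := by
        norm_num at h3
        linarith
      have h6 : (i : ℝ) * (1 / 61) ≤ i * Real.log (61 / 60 : ℝ) :=
        mul_le_mul_of_nonneg_left h5 (by positivity)
      linarith
    rw [mem_biUnion]
    refine ⟨i, ?_, ?_⟩
    · rw [hD, mem_filter, mem_range]
      exact ⟨hiN, hlow, le_trans hθu hup⟩
    · rw [hF]
      simp only
      rw [mem_filter, mem_Icc]
      refine ⟨hn1, ?_⟩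
      intro u hu1 hu2
      rw [Set.mem_setOf_eq]
      intro hgood
      have hj1' : 1 ≤ j := by exact_mod_cast hj0
      have := hw X hXb hrs n j hn1.2 hnη hj1' hj2 (Th i) u hθl hθu hu1 hu2 hgood
      linarith
  have hFc : ∀ i ∈ D, ((F i).card : ℝ) ≤ 2 * X * (3 / L ^ 4) := by
    intro i hi
    rw [hD, mem_filter] at hi
    have h1 := mn_count X (by omega) (Th i) {u : ℝ | ¬ GoodU κ η A B X (Th i) u} (F i)
      (by rw [hF]; exact filter_subset _ _)
      (by
        intro n hn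
        rw [hF] at hn
        simp only at hn
        rw [mem_filter] at hn
        exact hn.2)
    have h2 := h X hXa (Th i) hi.2.1 hi.2.2
    have h3 := le_trans h1 h2
    rw [ENNReal.ofReal_le_ofReal_iff (by positivity)] at h3
    have h4 : ((F i).card : ℝ) = 2 * X * ((F i).card * (1 / (2 * X))) := by
      field_simp
    rw [h4]
    exact mul_le_mul_of_nonneg_left h3 (by positivity)
  have hcard : (G.card : ℝ) ≤ 62 * L * (2 * X * (3 / L ^ 4)) := by
    calc (G.card : ℝ) ≤ ((D.biUnion F).card : ℝ) := by exact_mod_cast card_le_card hsub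
      _ ≤ ∑ i ∈ D, ((F i).card : ℝ) := by exact_mod_cast card_biUnion_le
      _ ≤ ∑ i ∈ D, 2 * X * (3 / L ^ 4) := sum_le_sum hFc
      _ = (D.card : ℝ) * (2 * X * (3 / L ^ 4)) := by rw [sum_const, nsmul_eq_mul]
      _ ≤ 62 * L * (2 * X * (3 / L ^ 4)) := by
          apply mul_le_mul_of_nonneg_right _ (by positivity)
          refine le_trans ?_ hNle
          have : D.card ≤ N := by
            rw [hD]
            refine le_trans (card_filter_le _ _) ?_
            rw [card_range]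
          exact_mod_cast this
  refine le_trans hcard ?_
  have h1 : 62 * L * (2 * X * (3 / L ^ 4)) = 372 / L ^ 3 * X := by
    field_simp
    ring
  rw [h1]
  apply mul_le_mul_of_nonneg_right _ hXpos.le
  rw [div_le_iff₀ (by positivity)]
  rw [div_le_iff₀ hε] at hLe
  have h2 : L ≤ L ^ 3 := by nlinarith [mul_pos hL0 hL0]
  nlinarith

end Pool.Agent.BernOne
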