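import Pool.Agent.BernOne.Defs
import Pool.Agent.BernOne.Long
import Pool.Agent.MR.ACoef
import Pool.Agent.CoprimeSieve.Mertens

set_option autoImplicit false

/-!
Module Window: windows at good points.
-/

open Finset

namespace Pool.Agent.BernOne.WinAux

open Pool.Agent.MR Pool.Agent.BernOne

/-- Mertens with `p - 1` in the denominator. -/
theorem mertens' : ∃ C : ℝ, 0 ≤ C ∧ ∀ x : ℝ, 1 ≤ x →
    ∑ p ∈ CoprimeSieve.pr x, Real.log p / ((p : ℝ) - 1) ≤ Real.log x + C := by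
  obtain ⟨C, hC, h⟩ := CoprimeSieve.mertens_first
  set T : ℝ := ∑' n : ℕ, 4 * (1 / (n:ℝ) ^ (3/2 : ℝ)) with hT
  have hT0 : 0 ≤ T := tsum_nonneg (fun n => by positivity)
  refine ⟨C + T, by linarith, fun x hx => ?_⟩
  have h1 : ∀ p ∈ CoprimeSieve.pr x, Real.log p / ((p : ℝ) - 1) ≤
      Real.log p / p + 4 * (1 / (p:ℝ) ^ (3/2 : ℝ)) := by
    intro p hp
    have hp2 : 2 ≤ p := (CoprimeSieve.mem_pr.mp hp).1.two_le
    have hpR : (2 : ℝ) ≤ p := by exact_mod_cast hp2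
    have h2 := CoprimeSieve.log_div_le p hp2
    have h3 : Real.log p / ((p : ℝ) - 1) = Real.log p / p + Real.log p / ((p : ℝ) * (p - 1)) := by
      have : (p : ℝ) - 1 ≠ 0 := by linarith
      have : (p : ℝ) ≠ 0 := by linarith
      field_simp
      ring
    rw [h3]
    linarith
  have h4 : ∑ p ∈ CoprimeSieve.pr x, 4 * (1 / (p:ℝ) ^ (3/2 : ℝ)) ≤ T :=
    CoprimeSieve.summable_aux.sum_le_tsum _ (fun n _ => by positivity)
  have h5 := (abs_le.mp (h x hx)).2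
  calc ∑ p ∈ CoprimeSieve.pr x, Real.log p / ((p : ℝ) - 1)
      ≤ ∑ p ∈ CoprimeSieve.pr x, (Real.log p / p + 4 * (1 / (p:ℝ) ^ (3/2 : ℝ))) :=
        Finset.sum_le_sum h1
    _ = CoprimeSieve.mE x + ∑ p ∈ CoprimeSieve.pr x, 4 * (1 / (p:ℝ) ^ (3/2 : ℝ)) := by
        rw [Finset.sum_add_distrib]
        rfl
    _ ≤ Real.log x + (C + T) := by linarith

theorem kn_nonneg {θ : ℝ} (hθ : 0 < θ) (x : ℝ) : 0 ≤ kn θ x := by
  unfold kn
  have : 0 < √(2 * Real.pi) := by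
    have := Real.pi_pos
    positivity
  positivity

theorem kn_lower {θ : ℝ} (hθ : 0 < θ) {x : ℝ} (hx : |x| ≤ θ) :
    Real.exp (-(1 / 2)) / (θ * √(2 * Real.pi)) ≤ kn θ x := by
  unfold kn
  have h1 : 0 < √(2 * Real.pi) := by
    have := Real.pi_pos
    positivity
  refine div_le_div_of_nonneg_right ?_ (by positivity)
  apply Real.exp_le_exp.mpr
  have h2 : x ^ 2 ≤ θ ^ 2 := by
    rw [← sq_abs x]
    exact pow_le_pow_left₀ (abs_nonneg x) hx 2
  have h3 : x ^ 2 / (2 * θ ^ 2) ≤ 1 / 2 := by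
    rw [div_le_div_iff₀ (by positivity) (by norm_num)]
    linarith
  have h4 : -x ^ 2 / (2 * θ ^ 2) = -(x ^ 2 / (2 * θ ^ 2)) := by ring
  rw [h4]
  linarith

/-- `exp (1/2) * √(2π) ≤ 4.14` -/
theorem const_le : Real.exp (1 / 2) * √(2 * Real.pi) ≤ 4.14 := by
  have h1 : (Real.exp (1 / 2) * √(2 * Real.pi)) ^ 2 ≤ 4.14 ^ 2 := by
    rw [mul_pow, Real.sq_sqrt (by have := Real.pi_pos; positivity), ← Real.exp_nat_mul]
    have h2 : ((2 : ℕ) : ℝ) * (1 / 2) = 1 := by norm_num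
    rw [h2]
    have h3 := Real.exp_one_lt_d9
    have h4 := Real.pi_lt_d6
    have h5 := Real.pi_pos
    have h6 := Real.exp_pos 1
    nlinarith
  exact le_of_sq_le_sq h1 (by norm_num)

/-- odd primes up to `X ^ (1 - κ)` -/
noncomputable def PP (κ X : ℝ) : Finset ℕ := (Icc 3 ⌊X ^ (1 - κ)⌋₊).filter Nat.Prime

theorem mem_PP {κ X : ℝ} {p : ℕ} : p ∈ PP κ X ↔ 3 ≤ p ∧ (p : ℝ) ≤ X ^ (1 - κ) ∧ p.Prime := by
  unfold PP
  rw [mem_filter, mem_Icc]
  constructor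
  · rintro ⟨⟨h1, h2⟩, h3⟩
    exact ⟨h1, (Nat.le_floor_iff' (by omega)).mp h2, h3⟩
  · rintro ⟨h1, h2, h3⟩
    exact ⟨⟨h1, (Nat.le_floor_iff' (by omega)).mpr h2⟩, h3⟩

/-- `Z1` as a sum over pairs. -/
theorem Z1_mul_le (κ : ℝ) (A B : ℕ) (X : ℝ) (m : ℕ) (c : ℝ) (hc : 0 ≤ c) :
    Z1 κ A B X m * c ≤ ∑ p ∈ PP κ X, ∑ q ∈ QS A B X,
      if (p - 1) * q ∣ m then Real.log p * c else 0 := by
  unfold Z1
  rw [Finset.sum_mul]
  have h1 : ∀ p ∈ PS1 κ X m, Real.log p * (om (QS A B X) (m / (p - 1)) : ℝ) * c ≤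
      ∑ q ∈ QS A B X, if (p - 1) * q ∣ m then Real.log p * c else 0 := by
    intro p hp
    have hp' : p.Prime ∧ (p - 1) ∣ m ∧ (p : ℝ) ≤ X ^ (1 - κ) := (mem_filter.mp hp).2
    have h2 : Real.log p * (om (QS A B X) (m / (p - 1)) : ℝ) * c =
        ∑ q ∈ (QS A B X).filter (· ∣ m / (p - 1)), Real.log p * c := by
      rw [Finset.sum_const, nsmul_eq_mul]
      unfold om
      ring
    rw [h2, Finset.sum_filter]
    refine Finset.sum_le_sum fun q _ => ?_
    have hnn : 0 ≤ Real.log p * c := mul_nonneg (Real.log_natCast_nonneg p) hc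
    by_cases hq : q ∣ m / (p - 1)
    · rw [if_pos hq, if_pos (Nat.mul_dvd_of_dvd_div hp'.2.1 hq)]
    · rw [if_neg hq]
      split_ifs
      · exact hnn
      · exact le_refl _
  refine (Finset.sum_le_sum h1).trans ?_
  refine Finset.sum_le_sum_of_subset_of_nonneg ?_ ?_
  · intro p hp
    have hp1 := mem_filter.mp hp
    have hp2 := mem_Icc.mp hp1.1
    exact mem_PP.mpr ⟨hp2.1, hp1.2.2.2, hp1.2.1⟩
  · intro p _ _
    refine Finset.sum_nonneg fun q _ => ?_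
    split_ifs
    · exact mul_nonneg (Real.log_natCast_nonneg p) hc
    · exact le_refl _

/-- For fixed `p` and `q` the sum over the window is at most the sum over the block. -/
theorem inner_le (η X : ℝ) (hη : 0 < η) (hX : 0 < X) (n j : ℕ) (hj : 2 * j ≤ n)
    (hlo : ∀ i < j, η * X / 2 ≤ ((n - 1 - 2 * i : ℕ) : ℝ)) (hnX : (n : ℝ) ≤ X)
    (p q : ℕ) (hp : 3 ≤ p) (a v : ℕ) (ha1 : 2 ^ a ≤ p - 1) (ha2 : p - 1 < 2 ^ (a + 1))
    (hv1 : Real.exp (v / 2) ≤ q) (hv2 : (q : ℝ) ≤ 2 * Real.exp (v / 2))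
    (f : ℕ → ℝ) (hf : ∀ m, 0 ≤ f m) :
    ∑ i ∈ range j, (if (p - 1) * q ∣ (n - 1 - 2 * i) then f (n - 1 - 2 * i) else 0) ≤
      ∑ k ∈ Ico (m1 η X a v) (m2 X a v), f ((p - 1) * q * k) := by
  classical
  rw [← Finset.sum_filter]
  set S := (range j).filter (fun i => (p - 1) * q ∣ (n - 1 - 2 * i)) with hS
  have hq0 : 0 < q := by
    have : (0 : ℝ) < q := lt_of_lt_of_le (Real.exp_pos _) hv1
    exact_mod_cast this
  have hpq : 0 < (p - 1) * q := Nat.mul_pos (by omega) hq0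
  have hmem : ∀ i ∈ S, i < j ∧ (p - 1) * q ∣ (n - 1 - 2 * i) := by
    intro i hi
    have := mem_filter.mp hi
    exact ⟨mem_range.mp this.1, this.2⟩
  have hmul : ∀ i ∈ S, (p - 1) * q * ((n - 1 - 2 * i) / ((p - 1) * q)) = n - 1 - 2 * i :=
    fun i hi => Nat.mul_div_cancel' (hmem i hi).2
  have hinj : Set.InjOn (fun i => (n - 1 - 2 * i) / ((p - 1) * q)) S := by
    intro i hi i' hi' h
    have h1 := hmul i hi
    have h2 := hmul i' hi'
    simp only at h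
    rw [h, h2] at h1
    have h3 := (hmem i hi).1
    have h4 := (hmem i' hi').1
    omega
  have h1 : ∑ i ∈ S, f (n - 1 - 2 * i) =
      ∑ k ∈ S.image (fun i => (n - 1 - 2 * i) / ((p - 1) * q)), f ((p - 1) * q * k) := by
    rw [Finset.sum_image hinj]
    refine Finset.sum_congr rfl fun i hi => ?_
    rw [hmul i hi]
  rw [h1]
  refine Finset.sum_le_sum_of_subset_of_nonneg ?_ (fun k _ _ => hf _)
  intro k hk
  obtain ⟨i, hi, rfl⟩ := mem_image.mp hk
  have hij := (hmem i hi).1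
  have hE : (0 : ℝ) < Real.exp (v / 2) := Real.exp_pos _
  have hpR1 : (2 : ℝ) ^ a ≤ ((p - 1 : ℕ) : ℝ) := by exact_mod_cast ha1
  have hpR2 : ((p - 1 : ℕ) : ℝ) ≤ 2 * 2 ^ a := by
    have : ((p - 1 : ℕ) : ℝ) ≤ 2 ^ (a + 1) := by exact_mod_cast ha2.le
    calc ((p - 1 : ℕ) : ℝ) ≤ 2 ^ (a + 1) := this
      _ = 2 * 2 ^ a := by ring
  have h2a : (0 : ℝ) < 2 ^ a := by positivity
  have hkR : (((n - 1 - 2 * i) / ((p - 1) * q) : ℕ) : ℝ) * (((p - 1 : ℕ) : ℝ) * q) =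
      ((n - 1 - 2 * i : ℕ) : ℝ) := by
    have := hmul i hi
    rw [mul_comm]
    exact_mod_cast this
  set k : ℕ := (n - 1 - 2 * i) / ((p - 1) * q) with hkdef
  have hlow := hlo i hij
  have hup : ((n - 1 - 2 * i : ℕ) : ℝ) ≤ X := by
    refine le_trans ?_ hnX
    exact_mod_cast (by omega : n - 1 - 2 * i ≤ n)
  have hD1 : (2 : ℝ) ^ a * Real.exp (v / 2) ≤ ((p - 1 : ℕ) : ℝ) * q :=
    mul_le_mul hpR1 hv1 hE.le (by positivity)
  have hD2 : ((p - 1 : ℕ) : ℝ) * q ≤ 4 * (2 ^ a * Real.exp (v / 2)) := by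
    calc ((p - 1 : ℕ) : ℝ) * q ≤ (2 * 2 ^ a) * (2 * Real.exp (v / 2)) :=
          mul_le_mul hpR2 hv2 (by positivity) (by positivity)
      _ = 4 * (2 ^ a * Real.exp (v / 2)) := by ring
  have hk0 : (0 : ℝ) ≤ k := Nat.cast_nonneg _
  rw [mem_Ico]
  constructor
  · -- lower
    have h3 : η * X / (8 * 2 ^ a * Real.exp (v / 2)) ≤ k := by
      rw [div_le_iff₀ (by positivity)]
      have : (k : ℝ) * (((p - 1 : ℕ) : ℝ) * q) ≤ k * (4 * (2 ^ a * Real.exp (v / 2))) :=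
        mul_le_mul_of_nonneg_left hD2 hk0
      nlinarith
    have h4 : m1 η X a v ≤ ⌊(k : ℝ)⌋₊ := Nat.floor_le_floor h3
    rwa [Nat.floor_natCast] at h4
  · -- upper
    have h3 : (k : ℝ) ≤ X / (2 ^ a * Real.exp (v / 2)) := by
      rw [le_div_iff₀ (by positivity)]
      have : (k : ℝ) * (2 ^ a * Real.exp (v / 2)) ≤ k * (((p - 1 : ℕ) : ℝ) * q) :=
        mul_le_mul_of_nonneg_left hD1 hk0
      linarith
    have h4 : k ≤ ⌊X / (2 ^ a * Real.exp (v / 2))⌋₊ := Nat.le_floor h3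
    unfold m2
    omega

end Pool.Agent.BernOne.WinAux


namespace Pool.Agent.BernOne.WinAux

open Pool.Agent.MR Pool.Agent.BernOne

/-- the block of a prime `q` -/
noncomputable def vi (q : ℕ) : ℕ := ⌊((2 : ℕ) : ℝ) * Real.log (q : ℝ)⌋₊

theorem vi_bounds {q : ℕ} (hq : 1 ≤ q) :
    Real.exp ((vi q : ℝ) / 2) ≤ q ∧ (q : ℝ) ≤ 2 * Real.exp ((vi q : ℝ) / 2) := by
  have hq0 : (0 : ℝ) < q := by exact_mod_cast hq
  have hlog : 0 ≤ Real.log (q : ℝ) := Real.log_natCast_nonneg q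
  have h1 : (vi q : ℝ) ≤ 2 * Real.log q := by
    have := Nat.floor_le (show 0 ≤ ((2 : ℕ) : ℝ) * Real.log (q : ℝ) by positivity)
    unfold vi
    push_cast at this ⊢
    exact this
  have h2 : 2 * Real.log q < (vi q : ℝ) + 1 := by
    have := Nat.lt_floor_add_one (((2 : ℕ) : ℝ) * Real.log (q : ℝ))
    unfold vi
    push_cast at this ⊢
    exact this
  constructor
  · rw [← Real.le_log_iff_exp_le hq0]
    linarith
  · have h3 : (q : ℝ) = Real.exp (Real.log q) := (Real.exp_log hq0).symm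
    have h4 : Real.exp (Real.log q) ≤ Real.exp ((vi q : ℝ) / 2 + 1 / 2) :=
      Real.exp_le_exp.mpr (by linarith)
    have h5 : Real.exp (1 / 2) ≤ 2 := by
      have h6 : Real.exp (1 / 2) ^ 2 ≤ 2 ^ 2 := by
        rw [← Real.exp_nat_mul]
        have h7 : ((2 : ℕ) : ℝ) * (1 / 2) = 1 := by norm_num
        rw [h7]
        have := Real.exp_one_lt_d9
        linarith
      exact le_of_sq_le_sq h6 (by norm_num)
    rw [Real.exp_add] at h4
    have h6 := Real.exp_pos ((vi q : ℝ) / 2)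
    nlinarith

theorem mem_pb {P : Finset ℕ} {v q : ℕ} : q ∈ pb 2 P v ↔ q ∈ P ∧ vi q = v := by
  unfold pb vi
  rw [mem_filter]

theorem QS_prime {A B : ℕ} {X : ℝ} {q : ℕ} (hq : q ∈ QS A B X) : q.Prime := (mem_filter.mp hq).2

theorem QS_le {A B : ℕ} {X : ℝ} (hX : 1 ≤ X) {q : ℕ} (hq : q ∈ QS A B X) :
    (q : ℝ) ≤ (Real.log X) ^ A := by
  have h1 := (mem_Ioc.mp (mem_filter.mp hq).1).2
  have h2 : (0 : ℝ) ≤ (Real.log X) ^ A := pow_nonneg (Real.log_nonneg hX) _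
  exact (Nat.le_floor_iff h2).mp h1

/-- the indices `a` of the blocks -/
noncomputable def AA (κ : ℝ) (X : ℝ) : Finset ℕ :=
  (range (Nat.log 2 ⌊X⌋₊ + 1)).filter (fun a : ℕ => (2 : ℝ) ^ a ≤ X ^ (1 - κ))

theorem mem_AA_of_mem_PP {κ X : ℝ} (hκ : 0 < κ) (hX : 1 ≤ X) {p : ℕ} (hp : p ∈ PP κ X) :
    Nat.log 2 (p - 1) ∈ AA κ X ∧ p ∈ PU (Nat.log 2 (p - 1)) := by
  obtain ⟨h3, hle, hpr⟩ := mem_PP.mp hp
  have h1 : 2 ^ Nat.log 2 (p - 1) ≤ p - 1 := Nat.pow_log_le_self 2 (by omega)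
  have h2 : p - 1 < 2 ^ (Nat.log 2 (p - 1) + 1) := Nat.lt_pow_succ_log_self (by norm_num) (p - 1)
  have hX1 : X ^ (1 - κ) ≤ X := by
    calc X ^ (1 - κ) ≤ X ^ (1 : ℝ) := Real.rpow_le_rpow_of_exponent_le hX (by linarith)
      _ = X := Real.rpow_one X
  constructor
  · unfold AA
    rw [mem_filter, mem_range]
    constructor
    · have h4 : p - 1 ≤ ⌊X⌋₊ := by
        have : p ≤ ⌊X⌋₊ := Nat.le_floor (hle.trans hX1)
        omega
      have := Nat.log_mono_right (b := 2) h4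
      omega
    · have h5 : ((2 ^ Nat.log 2 (p - 1) : ℕ) : ℝ) ≤ (p : ℝ) := by
        exact_mod_cast (by omega : 2 ^ Nat.log 2 (p - 1) ≤ p)
      push_cast at h5
      linarith
  · unfold PU
    rw [mem_filter, mem_Icc]
    exact ⟨⟨by omega, by omega⟩, hpr, by omega⟩

/-- summation over the blocks -/
theorem blocks_sum {κ X : ℝ} (hκ : 0 < κ) (hX : 1 ≤ X) (A B : ℕ) (F : ℕ → ℕ → ℕ → ℕ → ℝ)
    (hF : ∀ a v p q, 0 ≤ F a v p q) :
    ∑ p ∈ PP κ X, ∑ q ∈ QS A B X, F (Nat.log 2 (p - 1)) (vi q) p q ≤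
      ∑ a ∈ AA κ X, ∑ v ∈ vs 2 (QS A B X), ∑ p ∈ PU a, ∑ q ∈ pb 2 (QS A B X) v, F a v p q := by
  classical
  have h1 : ∀ a p, ∑ q ∈ QS A B X, F a (vi q) p q =
      ∑ v ∈ vs 2 (QS A B X), ∑ q ∈ pb 2 (QS A B X) v, F a v p q := by
    intro a p
    have hmaps : ∀ q ∈ QS A B X, vi q ∈ vs 2 (QS A B X) := by
      intro q hq
      unfold vs vi
      exact mem_image_of_mem _ hq
    rw [← Finset.sum_fiberwise_of_maps_to hmaps]
    refine Finset.sum_congr rfl fun v _ => ?_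
    have h2 : (QS A B X).filter (fun q => vi q = v) = pb 2 (QS A B X) v := by
      ext q
      rw [mem_filter, mem_pb]
    rw [← h2]
    refine Finset.sum_congr rfl fun q hq => ?_
    rw [(mem_filter.mp hq).2]
  have h2 : ∑ p ∈ PP κ X, ∑ q ∈ QS A B X, F (Nat.log 2 (p - 1)) (vi q) p q =
      ∑ a ∈ AA κ X, ∑ p ∈ (PP κ X).filter (fun p => Nat.log 2 (p - 1) = a),
        ∑ q ∈ QS A B X, F (Nat.log 2 (p - 1)) (vi q) p q :=
    (Finset.sum_fiberwise_of_maps_to (fun p hp => (mem_AA_of_mem_PP hκ hX hp).1) _).symm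
  rw [h2]
  refine Finset.sum_le_sum fun a _ => ?_
  have h3 : ∑ p ∈ (PP κ X).filter (fun p => Nat.log 2 (p - 1) = a),
        ∑ q ∈ QS A B X, F (Nat.log 2 (p - 1)) (vi q) p q =
      ∑ p ∈ (PP κ X).filter (fun p => Nat.log 2 (p - 1) = a),
        ∑ v ∈ vs 2 (QS A B X), ∑ q ∈ pb 2 (QS A B X) v, F a v p q := by
    refine Finset.sum_congr rfl fun p hp => ?_
    rw [(mem_filter.mp hp).2, h1 a p]
  rw [h3]
  calc ∑ p ∈ (PP κ X).filter (fun p => Nat.log 2 (p - 1) = a),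
        ∑ v ∈ vs 2 (QS A B X), ∑ q ∈ pb 2 (QS A B X) v, F a v p q
      ≤ ∑ p ∈ PU a, ∑ v ∈ vs 2 (QS A B X), ∑ q ∈ pb 2 (QS A B X) v, F a v p q := by
        refine Finset.sum_le_sum_of_subset_of_nonneg ?_ ?_
        · intro p hp
          have h5 := mem_filter.mp hp
          have := (mem_AA_of_mem_PP hκ hX h5.1).2
          rwa [h5.2] at this
        · intro p _ _
          exact Finset.sum_nonneg fun v _ => Finset.sum_nonneg fun q _ => hF _ _ _ _
    _ = ∑ v ∈ vs 2 (QS A B X), ∑ p ∈ PU a, ∑ q ∈ pb 2 (QS A B X) v, F a v p q :=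
        Finset.sum_comm

theorem rs_blocks (P : Finset ℕ) : ∑ v ∈ vs 2 P, rs (pb 2 P v) = rs P := by
  classical
  have hmaps : ∀ q ∈ P, vi q ∈ vs 2 P := by
    intro q hq
    unfold vs vi
    exact mem_image_of_mem _ hq
  have h1 : rs P = ∑ v ∈ vs 2 P, ∑ q ∈ P.filter (fun q => vi q = v), (1 : ℝ) / q := by
    unfold rs
    exact (Finset.sum_fiberwise_of_maps_to hmaps _).symm
  rw [h1]
  refine Finset.sum_congr rfl fun v _ => ?_
  have h2 : P.filter (fun q => vi q = v) = pb 2 P v := by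
    ext q
    rw [mem_filter, mem_pb]
  rw [h2]
  rfl

theorem primes_blocks {κ X : ℝ} (hX : 1 ≤ X) :
    ∑ a ∈ AA κ X, ∑ p ∈ PU a, Real.log p / ((p : ℝ) - 1) ≤
      ∑ p ∈ CoprimeSieve.pr (2 * X ^ (1 - κ)), Real.log p / ((p : ℝ) - 1) := by
  classical
  have hnn : ∀ p ∈ CoprimeSieve.pr (2 * X ^ (1 - κ)), 0 ≤ Real.log p / ((p : ℝ) - 1) := by
    intro p hp
    have hp2 : (2 : ℝ) ≤ p := by exact_mod_cast (CoprimeSieve.mem_pr.mp hp).1.two_le
    exact div_nonneg (Real.log_natCast_nonneg p) (by linarith)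
  calc ∑ a ∈ AA κ X, ∑ p ∈ PU a, Real.log p / ((p : ℝ) - 1)
      ≤ ∑ a ∈ AA κ X, ∑ p ∈ (CoprimeSieve.pr (2 * X ^ (1 - κ))).filter
          (fun p => Nat.log 2 (p - 1) = a), Real.log p / ((p : ℝ) - 1) := by
        refine Finset.sum_le_sum fun a ha => ?_
        refine Finset.sum_le_sum_of_subset_of_nonneg ?_ ?_
        · intro p hp
          unfold PU at hp
          rw [mem_filter, mem_Icc] at hp
          obtain ⟨⟨h1, h2⟩, h3, _⟩ := hp
          have ha2 : (2 : ℝ) ^ a ≤ X ^ (1 - κ) := (mem_filter.mp ha).2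
          rw [mem_filter, CoprimeSieve.mem_pr]
          refine ⟨⟨h3, ?_⟩, ?_⟩
          · have h4 : (p : ℝ) ≤ 2 ^ (a + 1) := by exact_mod_cast h2
            rw [pow_succ] at h4
            linarith
          · have hpos : 0 < 2 ^ a := by positivity
            have h5 : 2 ^ (a + 1) = 2 * 2 ^ a := by ring
            exact Nat.log_eq_of_pow_le_of_lt_pow (by omega) (by omega)
        · intro p hp _
          exact hnn p (mem_filter.mp hp).1
    _ = ∑ p ∈ (CoprimeSieve.pr (2 * X ^ (1 - κ))).filter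
          (fun p => Nat.log 2 (p - 1) ∈ AA κ X), Real.log p / ((p : ℝ) - 1) :=
        Finset.sum_fiberwise_eq_sum_filter _ _ _ _
    _ ≤ _ := Finset.sum_le_sum_of_subset_of_nonneg (filter_subset _ _) (fun p hp _ => hnn p hp)

theorem card_AA {κ X : ℝ} (hX : 1 ≤ X) : ((AA κ X).card : ℝ) ≤ 2 * Real.log X + 1 := by
  have h1 : (AA κ X).card ≤ Nat.log 2 ⌊X⌋₊ + 1 := by
    unfold AA
    exact (card_filter_le _ _).trans (card_range _).le
  have h2 : ((Nat.log 2 ⌊X⌋₊ : ℕ) : ℝ) ≤ 2 * Real.log X := by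
    have h3 : 2 ^ Nat.log 2 ⌊X⌋₊ ≤ ⌊X⌋₊ :=
      Nat.pow_log_le_self 2 (by have := (Nat.one_le_floor_iff X).mpr hX; omega)
    have h4 : (2 : ℝ) ^ Nat.log 2 ⌊X⌋₊ ≤ X := by
      have h5 : ((2 ^ Nat.log 2 ⌊X⌋₊ : ℕ) : ℝ) ≤ ((⌊X⌋₊ : ℕ) : ℝ) := by exact_mod_cast h3
      push_cast at h5
      exact h5.trans (Nat.floor_le (by linarith))
    have h5 := Real.log_le_log (by positivity) h4
    rw [Real.log_pow] at h5
    have h6 := Real.log_two_gt_d9
    have h7 : (0 : ℝ) ≤ (Nat.log 2 ⌊X⌋₊ : ℕ) := Nat.cast_nonneg _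
    nlinarith
  have h3 : ((AA κ X).card : ℝ) ≤ ((Nat.log 2 ⌊X⌋₊ + 1 : ℕ) : ℝ) := by exact_mod_cast h1
  push_cast at h3
  linarith

theorem card_vs {A B : ℕ} {X : ℝ} (hX : 1 ≤ X) (hL : 1 ≤ Real.log X) :
    ((vs 2 (QS A B X)).card : ℝ) ≤ 2 * A * Real.log X + 1 := by
  have h1 : vs 2 (QS A B X) ⊆ range (⌊2 * (A : ℝ) * Real.log X⌋₊ + 1) := by
    intro v hv
    unfold vs at hv
    obtain ⟨q, hq, rfl⟩ := mem_image.mp hv
    rw [mem_range]
    have hq1 : (q : ℝ) ≤ (Real.log X) ^ A := QS_le hX hq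
    have hq0 : (0 : ℝ) < q := by exact_mod_cast (QS_prime hq).pos
    have h2 : Real.log q ≤ A * Real.log (Real.log X) := by
      have := Real.log_le_log hq0 hq1
      rwa [Real.log_pow] at this
    have h3 : Real.log (Real.log X) ≤ Real.log X := by
      have := Real.log_le_sub_one_of_pos (show 0 < Real.log X by linarith)
      linarith
    have h4 : ((2 : ℕ) : ℝ) * Real.log (q : ℝ) ≤ 2 * (A : ℝ) * Real.log X := by
      have hA : (0 : ℝ) ≤ A := Nat.cast_nonneg _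
      push_cast
      nlinarith
    have := Nat.floor_le_floor h4
    omega
  have h2 := card_le_card h1
  rw [card_range] at h2
  have h3 : ((vs 2 (QS A B X)).card : ℝ) ≤ ((⌊2 * (A : ℝ) * Real.log X⌋₊ + 1 : ℕ) : ℝ) := by
    exact_mod_cast h2
  push_cast at h3
  have h4 := Nat.floor_le (show 0 ≤ 2 * (A : ℝ) * Real.log X by positivity)
  linarith

end Pool.Agent.BernOne.WinAux


namespace Pool.Agent.BernOne

open Pool.Agent.MR WinAux

theorem WinAux.ev_params (κ η : ℝ) (hκ : 0 < κ) (hη : 0 < η) (A : ℕ) (K M : ℝ) :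
    ∃ X0 : ℕ, ∀ X : ℕ, X0 ≤ X → 1 ≤ (X : ℝ) ∧ K ≤ Real.log X ∧
      1000 * (X : ℝ) ^ (24 / 25 : ℝ) ≤ η * X ∧
      M * (8 * (Real.log X) ^ A) ≤ η * (X : ℝ) ^ κ := by
  have hcast : Filter.Tendsto (fun n : ℕ => (n : ℝ)) Filter.atTop Filter.atTop :=
    tendsto_natCast_atTop_atTop
  have e1 : ∀ᶠ X : ℕ in Filter.atTop, 1 ≤ (X : ℝ) := hcast.eventually_ge_atTop 1
  have e2 : ∀ᶠ X : ℕ in Filter.atTop, K ≤ Real.log X :=
    (Real.tendsto_log_atTop.comp hcast).eventually_ge_atTop K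
  have e3 : ∀ᶠ X : ℕ in Filter.atTop, 1000 / η ≤ (X : ℝ) ^ (1 / 25 : ℝ) :=
    ((tendsto_rpow_atTop (by norm_num : (0 : ℝ) < 1 / 25)).comp hcast).eventually_ge_atTop _
  have e4 : ∀ᶠ X : ℕ in Filter.atTop, M * (8 * (Real.log X) ^ A) ≤ η * (X : ℝ) ^ κ := by
    have h1 : (fun x : ℝ => (Real.log x) ^ (A : ℝ)) =o[Filter.atTop] fun x => x ^ κ :=
      isLittleO_log_rpow_rpow_atTop (A : ℝ) hκ
    have h2 := h1.def (show 0 < η / (8 * (|M| + 1)) by positivity)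
    have h3 := hcast.eventually h2
    filter_upwards [h3, e1] with X hX hX1
    have hL : 0 ≤ Real.log (X : ℝ) := Real.log_nonneg hX1
    rw [Real.norm_of_nonneg (by positivity), Real.norm_of_nonneg (by positivity),
      Real.rpow_natCast] at hX
    have h5 : M * (8 * (Real.log X) ^ A) ≤ (|M| + 1) * (8 * (Real.log X) ^ A) := by
      refine mul_le_mul_of_nonneg_right ?_ (by positivity)
      have := le_abs_self M
      linarith
    refine h5.trans ?_
    have h6 : (|M| + 1) * (8 * (Real.log X) ^ A) ≤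
        (|M| + 1) * (8 * (η / (8 * (|M| + 1)) * (X : ℝ) ^ κ)) := by
      refine mul_le_mul_of_nonneg_left ?_ (by positivity)
      linarith
    refine h6.trans (le_of_eq ?_)
    have : |M| + 1 ≠ 0 := by positivity
    field_simp
  have hall := e1.and (e2.and (e3.and e4))
  obtain ⟨X0, h0⟩ := Filter.eventually_atTop.mp hall
  refine ⟨X0, fun X hX => ?_⟩
  obtain ⟨h1, h2, h3, h4⟩ := h0 X hX
  refine ⟨h1, h2, ?_, h4⟩
  have hX0 : (0 : ℝ) < X := by linarith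
  have h5 : (X : ℝ) = (X : ℝ) ^ (24 / 25 : ℝ) * (X : ℝ) ^ (1 / 25 : ℝ) := by
    rw [← Real.rpow_add hX0]
    norm_num
  have h6 : 1000 ≤ η * (X : ℝ) ^ (1 / 25 : ℝ) := by
    rw [div_le_iff₀ hη] at h3
    linarith
  have h7 : (0 : ℝ) ≤ (X : ℝ) ^ (24 / 25 : ℝ) := by positivity
  calc 1000 * (X : ℝ) ^ (24 / 25 : ℝ) ≤ (η * (X : ℝ) ^ (1 / 25 : ℝ)) * (X : ℝ) ^ (24 / 25 : ℝ) :=
        mul_le_mul_of_nonneg_right h6 h7
    _ = η * ((X : ℝ) ^ (24 / 25 : ℝ) * (X : ℝ) ^ (1 / 25 : ℝ)) := by ring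
    _ = η * X := by rw [← h5]

theorem WinAux.Z1_nonneg (κ : ℝ) (A B : ℕ) (X : ℝ) (m : ℕ) : 0 ≤ Z1 κ A B X m := by
  unfold Z1
  exact Finset.sum_nonneg fun p _ => mul_nonneg (Real.log_natCast_nonneg p) (Nat.cast_nonneg _)

/-- the window is bounded by the blocks -/
theorem WinAux.window_blocks (κ η : ℝ) (hκ : 0 < κ) (hη : 0 < η) (A B : ℕ) (X : ℝ)
    (hX : 1 ≤ X) (n j : ℕ) (hj : 2 * j ≤ n) (hnX : (n : ℝ) ≤ X)
    (hlo : ∀ i < j, η * X / 2 ≤ ((n - 1 - 2 * i : ℕ) : ℝ)) (θ u : ℝ) (hθ : 0 < θ)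
    (hm : ∀ i < j, |u - Real.log ((n - 1 - 2 * i : ℕ) : ℝ)| ≤ θ) :
    (∑ i ∈ range j, Z1 κ A B X (n - 1 - 2 * i)) *
      (Real.exp (-(1 / 2)) / (θ * √(2 * Real.pi))) ≤
      ∑ a ∈ AA κ X, ∑ v ∈ vs 2 (QS A B X), PB η A B X a v θ u := by
  have hkn : ∀ x, 0 ≤ kn θ x := kn_nonneg hθ
  calc (∑ i ∈ range j, Z1 κ A B X (n - 1 - 2 * i)) *
        (Real.exp (-(1 / 2)) / (θ * √(2 * Real.pi)))
      = ∑ i ∈ range j, Z1 κ A B X (n - 1 - 2 * i) *
        (Real.exp (-(1 / 2)) / (θ * √(2 * Real.pi))) := by rw [Finset.sum_mul]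
    _ ≤ ∑ i ∈ range j, Z1 κ A B X (n - 1 - 2 * i) *
        kn θ (u - Real.log ((n - 1 - 2 * i : ℕ) : ℝ)) := by
        refine Finset.sum_le_sum fun i hi => ?_
        exact mul_le_mul_of_nonneg_left (kn_lower hθ (hm i (mem_range.mp hi)))
          (WinAux.Z1_nonneg _ _ _ _ _)
    _ ≤ ∑ i ∈ range j, ∑ p ∈ PP κ X, ∑ q ∈ QS A B X,
        (if (p - 1) * q ∣ (n - 1 - 2 * i) then
          Real.log p * kn θ (u - Real.log ((n - 1 - 2 * i : ℕ) : ℝ)) else 0) :=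
        Finset.sum_le_sum fun i _ => Z1_mul_le κ A B X _ _ (hkn _)
    _ = ∑ p ∈ PP κ X, ∑ q ∈ QS A B X, ∑ i ∈ range j,
        (if (p - 1) * q ∣ (n - 1 - 2 * i) then
          Real.log p * kn θ (u - Real.log ((n - 1 - 2 * i : ℕ) : ℝ)) else 0) := by
        rw [Finset.sum_comm]
        refine Finset.sum_congr rfl fun p _ => ?_
        rw [Finset.sum_comm]
    _ ≤ ∑ p ∈ PP κ X, ∑ q ∈ QS A B X,
        (fun (a v p q : ℕ) => ∑ k ∈ Ico (m1 η X a v) (m2 X a v),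
          Real.log p * kn θ (u - Real.log (((p - 1) * q * k : ℕ) : ℝ)))
          (Nat.log 2 (p - 1)) (vi q) p q := by
        refine Finset.sum_le_sum fun p hp => Finset.sum_le_sum fun q hq => ?_
        obtain ⟨h3, _, _⟩ := mem_PP.mp hp
        have hv := vi_bounds (QS_prime hq).one_lt.le
        exact inner_le η X hη (by linarith) n j hj hlo hnX p q h3 (Nat.log 2 (p - 1)) (vi q)
          (Nat.pow_log_le_self 2 (by omega)) (Nat.lt_pow_succ_log_self (by norm_num) (p - 1))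
          hv.1 hv.2 (fun m => Real.log p * kn θ (u - Real.log (m : ℝ)))
          (fun m => mul_nonneg (Real.log_natCast_nonneg p) (hkn _))
    _ ≤ ∑ a ∈ AA κ X, ∑ v ∈ vs 2 (QS A B X), ∑ p ∈ PU a, ∑ q ∈ pb 2 (QS A B X) v,
        (fun (a v p q : ℕ) => ∑ k ∈ Ico (m1 η X a v) (m2 X a v),
          Real.log p * kn θ (u - Real.log (((p - 1) * q * k : ℕ) : ℝ))) a v p q :=
        blocks_sum hκ hX A B (fun (a v p q : ℕ) => ∑ k ∈ Ico (m1 η X a v) (m2 X a v),
          Real.log p * kn θ (u - Real.log (((p - 1) * q * k : ℕ) : ℝ)))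
          (fun a v p q => Finset.sum_nonneg fun k _ =>
            mul_nonneg (Real.log_natCast_nonneg p) (hkn _))
    _ = ∑ a ∈ AA κ X, ∑ v ∈ vs 2 (QS A B X), PB η A B X a v θ u := rfl

/-- Windows at good points (deterministic). -/
theorem window_bound (κ η : ℝ) (hκ : 0 < κ) (hκ1 : κ ≤ 1 / 4) (hη : 0 < η) (hη1 : η ≤ 1)
    (A B : ℕ) (hB : 1 ≤ B) (hAB : B ≤ A) : ∃ X0 : ℕ, ∀ X : ℕ, X0 ≤ X → 1 ≤ rs (QS A B X) →
      ∀ n j : ℕ, n ≤ X → η * X ≤ n → 1 ≤ j → (j : ℝ) ≤ (X : ℝ) ^ (24 / 25 : ℝ) →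
      ∀ θ u : ℝ, 61 / 60 * (j / n) ≤ θ → θ ≤ (61 / 60) ^ 2 * ((j : ℝ) / n) →
        Real.log n - θ ≤ u → u ≤ Real.log (n + 1) - θ → GoodU κ η A B X θ u →
        ∑ i ∈ range j, Z1 κ A B X (n - 1 - 2 * i) ≤ 9 / 2 * Real.log X * rs (QS A B X) * j := by
  obtain ⟨C, hC, hM⟩ := mertens'
  have hR : 1 ≤ 32 / η := by
    rw [le_div_iff₀ hη]
    linarith
  obtain ⟨M0, hM01, hlong⟩ := long_scale (32 / η) (1 / 100) hR (by norm_num)
  set K : ℝ := 1 + (Real.log 2 + C) / κ + 300 * (2 * A + 1) / η with hK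
  obtain ⟨X0, hX0⟩ := WinAux.ev_params κ η hκ hη A K (M0 + 1)
  refine ⟨X0, fun X hX hr n j hnX hηn hj hjX θ u hθ1 hθ2 hu1 hu2 hgood => ?_⟩
  obtain ⟨hX1, hKL, hpow, hMX⟩ := hX0 X hX
  set L : ℝ := Real.log X with hL
  set r : ℝ := rs (QS A B X) with hrdef
  have hlog2 : 0 < Real.log 2 := Real.log_pos (by norm_num)
  have hA0 : (0 : ℝ) ≤ A := Nat.cast_nonneg _
  have hKparts1 : 0 ≤ (Real.log 2 + C) / κ := by positivity
  have hKparts2 : 0 ≤ 300 * (2 * (A : ℝ) + 1) / η := by positivity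
  have hL1 : 1 ≤ L := by linarith
  have hL2 : Real.log 2 + C ≤ κ * L := by
    have : (Real.log 2 + C) / κ ≤ L := by linarith
    rw [div_le_iff₀ hκ] at this
    linarith
  have hL3 : 300 * (2 * (A : ℝ) + 1) ≤ η * L := by
    have : 300 * (2 * (A : ℝ) + 1) / η ≤ L := by linarith
    rw [div_le_iff₀ hη] at this
    linarith
  have hXpos : (0 : ℝ) < X := by linarith
  have hpow1 : (1 : ℝ) ≤ (X : ℝ) ^ (24 / 25 : ℝ) := Real.one_le_rpow hX1 (by norm_num)
  have hjR : (1 : ℝ) ≤ j := by exact_mod_cast hj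
  have hn1000 : 1000 * (j : ℝ) ≤ n := by linarith
  have hnpos : (0 : ℝ) < n := by linarith
  have hnXR : (n : ℝ) ≤ X := by exact_mod_cast hnX
  have hjn : 1000 * j ≤ n := by exact_mod_cast hn1000
  have hjn0 : 0 < (j : ℝ) / n := by positivity
  have hθ0 : 0 < θ := by linarith
  have hjn1 : (j : ℝ) / n ≤ 1 / 1000 := by
    rw [div_le_div_iff₀ hnpos (by norm_num)]
    linarith
  have hθs : θ ≤ 1 / 2 := by
    have : (61 / 60 : ℝ) ^ 2 * ((j : ℝ) / n) ≤ (61 / 60) ^ 2 * (1 / 1000) :=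
      mul_le_mul_of_nonneg_left hjn1 (by norm_num)
    have h2 : ((61 / 60 : ℝ) ^ 2 * (1 / 1000)) ≤ 1 / 2 := by norm_num
    linarith
  -- the window
  have hmR : ∀ i < j, (n : ℝ) + 1 - 2 * j ≤ ((n - 1 - 2 * i : ℕ) : ℝ) := by
    intro i hi
    have h1 : n + 1 ≤ (n - 1 - 2 * i) + 2 * j := by omega
    have h2 : ((n + 1 : ℕ) : ℝ) ≤ (((n - 1 - 2 * i) + 2 * j : ℕ) : ℝ) := by exact_mod_cast h1
    push_cast at h2
    linarith
  have hlo : ∀ i < j, η * X / 2 ≤ ((n - 1 - 2 * i : ℕ) : ℝ) := by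
    intro i hi
    have := hmR i hi
    linarith
  have hm : ∀ i < j, |u - Real.log ((n - 1 - 2 * i : ℕ) : ℝ)| ≤ θ := by
    intro i hi
    have h1 := hmR i hi
    set m : ℝ := ((n - 1 - 2 * i : ℕ) : ℝ) with hmdef
    have hmpos : 0 < m := by linarith
    have hmn : m ≤ n := by
      rw [hmdef]
      exact_mod_cast (by omega : n - 1 - 2 * i ≤ n)
    rw [abs_le]
    constructor
    · have := Real.log_le_log hmpos hmn
      linarith
    · have h2 : Real.log ((n : ℝ) + 1) - Real.log m ≤ 2 * (61 / 60 * ((j : ℝ) / n)) := by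
        rw [← Real.log_div (by linarith) (by linarith)]
        have h3 : Real.log (((n : ℝ) + 1) / m) ≤ ((n : ℝ) + 1) / m - 1 :=
          Real.log_le_sub_one_of_pos (by positivity)
        refine h3.trans ?_
        have h4 : ((n : ℝ) + 1) / m - 1 = ((n : ℝ) + 1 - m) / m := by field_simp
        rw [h4, div_le_iff₀ hmpos]
        have h5 : (n : ℝ) + 1 - m ≤ 2 * j := by linarith
        have h6 : (60 : ℝ) / 61 * n ≤ m := by linarith
        have h7 : (j : ℝ) / n * n = j := by field_simp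
        have h8 : 2 * (61 / 60 * ((j : ℝ) / n)) * (60 / 61 * n) ≤
            2 * (61 / 60 * ((j : ℝ) / n)) * m :=
          mul_le_mul_of_nonneg_left h6 (by positivity)
        nlinarith
      linarith
  have hwin := WinAux.window_blocks κ η hκ hη A B X hX1 n j (by omega) hnXR hlo θ u hθ0 hm
  -- the exponential of `u`
  have heu1 : Real.exp u ≤ (n : ℝ) + 1 := by
    have h1 : u ≤ Real.log ((n : ℝ) + 1) := by linarith
    calc Real.exp u ≤ Real.exp (Real.log ((n : ℝ) + 1)) := Real.exp_le_exp.mpr h1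
      _ = (n : ℝ) + 1 := Real.exp_log (by linarith)
  have heu2 : η * X / 2 ≤ Real.exp u := by
    have h1 : Real.exp (Real.log n - θ) ≤ Real.exp u := Real.exp_le_exp.mpr hu1
    rw [sub_eq_add_neg, Real.exp_add, Real.exp_log hnpos] at h1
    have h2 : 1 - θ ≤ Real.exp (-θ) := by
      have := Real.add_one_le_exp (-θ)
      linarith
    have h3 : (n : ℝ) * (1 / 2) ≤ n * Real.exp (-θ) :=
      mul_le_mul_of_nonneg_left (by linarith) hnpos.le
    linarith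
  -- each block
  have hLA : (0 : ℝ) < L ^ A := by positivity
  have hblock : ∀ a ∈ AA κ X, ∀ v ∈ vs 2 (QS A B X), PB η A B X a v θ u ≤
      (1 + 1 / 100) * Real.exp u * (∑ p ∈ PU a, Real.log p / ((p : ℝ) - 1)) *
        rs (pb 2 (QS A B X) v) + X / L ^ 2 := by
    intro a ha v hv
    have ha2 : (2 : ℝ) ^ a ≤ (X : ℝ) ^ (1 - κ) := (mem_filter.mp ha).2
    have h2a : (0 : ℝ) < 2 ^ a := by positivity
    obtain ⟨q0, hq0, hq0v⟩ := mem_image.mp hv
    have hvq : vi q0 = v := hq0v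
    have hEv : Real.exp ((v : ℝ) / 2) ≤ L ^ A := by
      have h1 := (vi_bounds (QS_prime hq0).one_lt.le).1
      rw [hvq] at h1
      exact h1.trans (QS_le hX1 hq0)
    have hE0 : 0 < Real.exp ((v : ℝ) / 2) := Real.exp_pos _
    have hXκ : (0 : ℝ) < (X : ℝ) ^ (1 - κ) := by positivity
    have hXsplit : (X : ℝ) = (X : ℝ) ^ (1 - κ) * (X : ℝ) ^ κ := by
      rw [← Real.rpow_add hXpos]
      norm_num
    have ht : M0 + 1 ≤ η * X / (8 * 2 ^ a * Real.exp ((v : ℝ) / 2)) := by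
      rw [le_div_iff₀ (by positivity)]
      have hD : 8 * 2 ^ a * Real.exp ((v : ℝ) / 2) ≤ 8 * (X : ℝ) ^ (1 - κ) * L ^ A := by
        refine mul_le_mul ?_ hEv hE0.le (by positivity)
        linarith
      have h1 : (M0 + 1) * (8 * 2 ^ a * Real.exp ((v : ℝ) / 2)) ≤
          (M0 + 1) * (8 * (X : ℝ) ^ (1 - κ) * L ^ A) :=
        mul_le_mul_of_nonneg_left hD (by linarith)
      refine h1.trans ?_
      have h2 : (X : ℝ) ^ (1 - κ) * ((M0 + 1) * (8 * L ^ A)) ≤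
          (X : ℝ) ^ (1 - κ) * (η * (X : ℝ) ^ κ) := mul_le_mul_of_nonneg_left hMX hXκ.le
      calc (M0 + 1) * (8 * (X : ℝ) ^ (1 - κ) * L ^ A)
          = (X : ℝ) ^ (1 - κ) * ((M0 + 1) * (8 * L ^ A)) := by ring
        _ ≤ (X : ℝ) ^ (1 - κ) * (η * (X : ℝ) ^ κ) := h2
        _ = η * ((X : ℝ) ^ (1 - κ) * (X : ℝ) ^ κ) := by ring
        _ = η * X := by rw [← hXsplit]
    have ht0 : 0 ≤ η * X / (8 * 2 ^ a * Real.exp ((v : ℝ) / 2)) := by positivity
    have hm1lo : M0 ≤ (m1 η X a v : ℝ) := by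
      have := Nat.lt_floor_add_one (η * X / (8 * 2 ^ a * Real.exp ((v : ℝ) / 2)))
      unfold m1
      linarith
    have hm1up : (m1 η X a v : ℝ) ≤ η * X / (8 * 2 ^ a * Real.exp ((v : ℝ) / 2)) := by
      unfold m1
      exact Nat.floor_le ht0
    have hg := hgood a v ha2 hv
    have hpbq : ∀ q ∈ pb 2 (QS A B X) v, Real.exp ((v : ℝ) / 2) ≤ (q : ℝ) ∧
        (q : ℝ) ≤ 2 * Real.exp ((v : ℝ) / 2) := by
      intro q hq
      obtain ⟨hq1, hq2⟩ := mem_pb.mp hq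
      have := vi_bounds (QS_prime hq1).one_lt.le
      rwa [hq2] at this
    have hscale : 2 ^ a * Real.exp ((v : ℝ) / 2) * (m1 η X a v : ℝ) ≤ 32 / η * X := by
      have h1 : 2 ^ a * Real.exp ((v : ℝ) / 2) * (m1 η X a v : ℝ) ≤
          2 ^ a * Real.exp ((v : ℝ) / 2) * (η * X / (8 * 2 ^ a * Real.exp ((v : ℝ) / 2))) :=
        mul_le_mul_of_nonneg_left hm1up (by positivity)
      refine h1.trans ?_
      have h2 : 2 ^ a * Real.exp ((v : ℝ) / 2) * (η * X / (8 * 2 ^ a * Real.exp ((v : ℝ) / 2))) =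
          η * X / 8 := by
        field_simp
      rw [h2]
      have h3 : η * X / 8 ≤ X := by nlinarith
      have h4 : (X : ℝ) ≤ 32 / η * X := by nlinarith
      linarith
    have hXu : (X : ℝ) ≤ 32 / η * Real.exp u := by
      have h1 : 32 / η * (η * X / 2) ≤ 32 / η * Real.exp u :=
        mul_le_mul_of_nonneg_left heu2 (by positivity)
      have h2 : 32 / η * (η * X / 2) = 16 * X := by
        field_simp
        ring
      linarith
    have hl := hlong a (m1 η X a v) (m2 X a v) hm1lo (pb 2 (QS A B X) v)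
      (Real.exp ((v : ℝ) / 2)) X hE0 hpbq hscale u hXu
    have hPB : PB η A B X a v (th η X a v) u =
        Psi (PU a) (pb 2 (QS A B X) v) (Ico (m1 η X a v) (m2 X a v))
          ((m1 η X a v : ℝ) ^ (-(1 / 30) : ℝ)) u := rfl
    rw [hPB] at hg
    linarith
  have hsum : ∑ a ∈ AA κ X, ∑ v ∈ vs 2 (QS A B X), PB η A B X a v θ u ≤
      (1 + 1 / 100) * Real.exp u * L * r +
        ((AA κ X).card : ℝ) * ((vs 2 (QS A B X)).card : ℝ) * (X / L ^ 2) := by
    calc ∑ a ∈ AA κ X, ∑ v ∈ vs 2 (QS A B X), PB η A B X a v θ u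
        ≤ ∑ a ∈ AA κ X, ∑ v ∈ vs 2 (QS A B X), ((1 + 1 / 100) * Real.exp u *
          (∑ p ∈ PU a, Real.log p / ((p : ℝ) - 1)) * rs (pb 2 (QS A B X) v) + X / L ^ 2) :=
          Finset.sum_le_sum fun a ha => Finset.sum_le_sum fun v hv => hblock a ha v hv
      _ = (1 + 1 / 100) * Real.exp u * (∑ a ∈ AA κ X, ∑ p ∈ PU a, Real.log p / ((p : ℝ) - 1)) *
            (∑ v ∈ vs 2 (QS A B X), rs (pb 2 (QS A B X) v)) +
          ((AA κ X).card : ℝ) * ((vs 2 (QS A B X)).card : ℝ) * (X / L ^ 2) := by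
          simp only [Finset.sum_add_distrib, Finset.sum_const, nsmul_eq_mul]
          congr 1
          · have hgen : ∀ (c : ℝ) (h g : ℕ → ℝ), c * (∑ a ∈ AA κ X, h a) *
                (∑ v ∈ vs 2 (QS A B X), g v) =
                ∑ a ∈ AA κ X, ∑ v ∈ vs 2 (QS A B X), c * h a * g v := by
              intro c h g
              rw [mul_assoc c, Finset.sum_mul_sum, Finset.mul_sum]
              refine Finset.sum_congr rfl fun a _ => ?_
              rw [Finset.mul_sum]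
              refine Finset.sum_congr rfl fun v _ => ?_
              ring
            exact (hgen _ _ _).symm
          · ring
      _ ≤ (1 + 1 / 100) * Real.exp u * L * r +
        ((AA κ X).card : ℝ) * ((vs 2 (QS A B X)).card : ℝ) * (X / L ^ 2) := by
          rw [rs_blocks]
          have h1 := primes_blocks (κ := κ) hX1
          have hXκ1 : (1 : ℝ) ≤ (X : ℝ) ^ (1 - κ) := Real.one_le_rpow hX1 (by linarith)
          have h2 := hM (2 * (X : ℝ) ^ (1 - κ)) (by linarith)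
          have h3 : Real.log (2 * (X : ℝ) ^ (1 - κ)) = Real.log 2 + (1 - κ) * L := by
            rw [Real.log_mul (by norm_num) (by linarith), Real.log_rpow hXpos]
          rw [h3] at h2
          have h4 : ∑ a ∈ AA κ X, ∑ p ∈ PU a, Real.log p / ((p : ℝ) - 1) ≤ L := by
            have : Real.log 2 + (1 - κ) * L + C ≤ L := by linarith
            linarith
          have hr0 : 0 ≤ r := by linarith
          have h5 : (1 + 1 / 100) * Real.exp u *
              (∑ a ∈ AA κ X, ∑ p ∈ PU a, Real.log p / ((p : ℝ) - 1)) ≤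
              (1 + 1 / 100) * Real.exp u * L :=
            mul_le_mul_of_nonneg_left h4 (by positivity)
          have h6 := mul_le_mul_of_nonneg_right h5 hr0
          linarith
  -- numbers of blocks
  have hcard : ((AA κ X).card : ℝ) * ((vs 2 (QS A B X)).card : ℝ) * (X / L ^ 2) ≤
      1 / 100 * L * n := by
    have h1 := card_AA (κ := κ) hX1
    have h2 := card_vs (A := A) (B := B) hX1 hL1
    have h3 : ((AA κ X).card : ℝ) ≤ 3 * L := by linarith
    have h4 : ((vs 2 (QS A B X)).card : ℝ) ≤ (2 * A + 1) * L := by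
      have : 2 * (A : ℝ) * L + 1 ≤ (2 * A + 1) * L := by linarith
      linarith
    have h5 : ((AA κ X).card : ℝ) * ((vs 2 (QS A B X)).card : ℝ) ≤ 3 * L * ((2 * A + 1) * L) :=
      mul_le_mul h3 h4 (Nat.cast_nonneg _) (by positivity)
    have hL20 : 0 < L ^ 2 := by positivity
    calc ((AA κ X).card : ℝ) * ((vs 2 (QS A B X)).card : ℝ) * (X / L ^ 2)
        ≤ 3 * L * ((2 * A + 1) * L) * (X / L ^ 2) :=
          mul_le_mul_of_nonneg_right h5 (by positivity)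
      _ = 3 * (2 * A + 1) * X := by
          field_simp
      _ ≤ 1 / 100 * (η * L) * X := by
          refine mul_le_mul_of_nonneg_right ?_ hXpos.le
          linarith
      _ = 1 / 100 * L * (η * X) := by ring
      _ ≤ 1 / 100 * L * n := mul_le_mul_of_nonneg_left hηn (by positivity)
  -- the end
  set W : ℝ := ∑ i ∈ range j, Z1 κ A B X (n - 1 - 2 * i) with hW
  have hsqrt : 0 < √(2 * Real.pi) := by
    have := Real.pi_pos
    positivity
  have hc0 : 0 < Real.exp (-(1 / 2)) / (θ * √(2 * Real.pi)) := by positivity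
  have hcinv : Real.exp (-(1 / 2)) / (θ * √(2 * Real.pi)) *
      (θ * (Real.exp (1 / 2) * √(2 * Real.pi))) = 1 := by
    have h1 : Real.exp (-(1 / 2)) * Real.exp (1 / 2) = 1 := by
      rw [← Real.exp_add]
      norm_num
    have h2 : θ * √(2 * Real.pi) ≠ 0 := by positivity
    calc Real.exp (-(1 / 2)) / (θ * √(2 * Real.pi)) * (θ * (Real.exp (1 / 2) * √(2 * Real.pi)))
        = (Real.exp (-(1 / 2)) * Real.exp (1 / 2)) *
          ((θ * √(2 * Real.pi)) / (θ * √(2 * Real.pi))) := by ring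
      _ = 1 := by rw [h1, div_self h2, one_mul]
  have hr0 : 0 ≤ r := by linarith
  have hT : (1 + 1 / 100) * Real.exp u * L * r +
        ((AA κ X).card : ℝ) * ((vs 2 (QS A B X)).card : ℝ) * (X / L ^ 2) ≤
      1.0211 * n * (L * r) := by
    have hLr : L ≤ L * r := by nlinarith
    have h1 : Real.exp u ≤ 1.001 * n := by linarith
    have h2 : (1 + 1 / 100) * Real.exp u * L * r ≤ (1 + 1 / 100) * (1.001 * n) * (L * r) := by
      have : (1 + 1 / 100) * Real.exp u ≤ (1 + 1 / 100) * (1.001 * n) :=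
        mul_le_mul_of_nonneg_left h1 (by norm_num)
      have h3 := mul_le_mul_of_nonneg_right this (show 0 ≤ L * r by positivity)
      linarith
    have h4 : 1 / 100 * L * (n : ℝ) ≤ 1 / 100 * (L * r) * n :=
      mul_le_mul_of_nonneg_right (by linarith) hnpos.le
    have h5 : (0 : ℝ) ≤ n * (L * r) := by positivity
    nlinarith
  have hfac : θ * (Real.exp (1 / 2) * √(2 * Real.pi)) ≤ 4.28 * ((j : ℝ) / n) := by
    have h1 := const_le
    have h2 : θ * (Real.exp (1 / 2) * √(2 * Real.pi)) ≤ ((61 / 60) ^ 2 * ((j : ℝ) / n)) * 4.14 :=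
      mul_le_mul hθ2 h1 (by positivity) (by positivity)
    nlinarith
  calc W = W * (Real.exp (-(1 / 2)) / (θ * √(2 * Real.pi))) *
        (θ * (Real.exp (1 / 2) * √(2 * Real.pi))) := by rw [mul_assoc, hcinv, mul_one]
    _ ≤ (1.0211 * n * (L * r)) * (4.28 * ((j : ℝ) / n)) := by
        refine mul_le_mul ?_ hfac (by positivity) (by positivity)
        exact hwin.trans (hsum.trans hT)
    _ = 1.0211 * 4.28 * (L * r) * (j * (n / n)) := by ring
    _ = 1.0211 * 4.28 * (L * r) * j := by rw [div_self hnpos.ne', mul_one]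
    _ ≤ 9 / 2 * L * r * j := by
        have : 0 ≤ L * r * j := by positivity
        nlinarith

end Pool.Agent.BernOne
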